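import Mathlib
import Pool.Agent.Lib.H13T.CE
import Pool.Agent.Lib.H55P.CL

/-! # H13V, module C, file RI: ramification indices and inertia groups in a cyclic extension -/

open NumberField IsDedekindDomain WeierstrassCurve

namespace H13V

open H55P H55K H55K.TQ
open H13S (Abv)

open scoped Classical

variable {F : Type} [Field F] [NumberField F]

/-- The ramification index of the prime w of N' in N (N/N' Galois). -/
noncomputable def eN {N' N : IntermediateField F (AlgebraicClosure F)} [NumberField N'] [NumberField N] (h : N' ≤ N)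
    (w : HeightOneSpectrum (𝓞 N')) : ℕ :=
  letI := H55P.s13_alg h
  w.asIdeal.ramificationIdxIn (𝓞 N)

omit [NumberField F] in
/-- A valuation ring above a prime is not trivial. -/
theorem ri_ne {N' : IntermediateField F (AlgebraicClosure F)} [NumberField N'] {V : ValuationSubring (AlgebraicClosure F)}
    {w : HeightOneSpectrum (𝓞 N')} (hV : Abv N' V w) : V ≠ ⊤ := by
  rintro rfl
  obtain ⟨a, ha⟩ := w.valuation_exists_uniformizer N'
  have h1 := (hV a⁻¹).1 (ValuationSubring.mem_top _)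
  rw [map_inv₀, ha, ← WithZero.exp_neg, neg_neg, ← WithZero.exp_zero, WithZero.exp_le_exp] at h1
  omega

/-- The structure of the inertia group of a place in a cyclic extension N/N', and the ramification index. -/
theorem ri_main {N' N : IntermediateField F (AlgebraicClosure F)} [NumberField N'] [NumberField N] (hf : FiniteDimensional F N)
    (hNN : N' ≤ N) (hn : ∀ s ∈ N'.fixingSubgroup, ∀ x ∈ N, s x ∈ N)
    (hcyc : ∃ g ∈ N'.fixingSubgroup, ∀ s ∈ N'.fixingSubgroup, ∃ k : ℕ, (g ^ k)⁻¹ * s ∈ N.fixingSubgroup)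
    {V : ValuationSubring (AlgebraicClosure F)} {w : HeightOneSpectrum (𝓞 N')} (hV : Abv N' V w) :
    ∃ τ ∈ N'.fixingSubgroup, Inert V τ ∧
      (∀ s ∈ N'.fixingSubgroup, Inert V s → ∃ k : ℕ, (τ ^ k)⁻¹ * s ∈ N.fixingSubgroup) ∧
      (∀ m : ℕ, τ ^ m ∈ N.fixingSubgroup ↔ eN hNN w ∣ m) ∧
      ∀ a ∈ N', a ≠ 0 → ∃ x ∈ N, V.valuation x ^ eN hNN w = V.valuation a := by
  let _ := H55P.s13_alg hNN
  have hgal : IsGalois N' N := s13_galois N' N hNN hn
  have hNf : FiniteDimensional F N' := s13_fin hNN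
  have hst : IsScalarTower F N' N := IsScalarTower.of_algebraMap_eq fun x => rfl
  have hfd : FiniteDimensional N' N := FiniteDimensional.right F N' N
  have hmap : ∀ a : N', ((algebraMap N' N a : N) : AlgebraicClosure F) = (a : AlgebraicClosure F) := fun a => rfl
  obtain ⟨W, hW⟩ := H13T.ce_below (ri_ne hV) N
  -- the prime below
  have hund : W.asIdeal.under (𝓞 N') = w.asIdeal := by
    ext x
    have h1 : x ∈ W.asIdeal.under (𝓞 N') ↔ algebraMap (𝓞 N') (𝓞 N) x ∈ W.asIdeal := Iff.rfl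
    rw [h1, ← W.valuation_lt_one_iff_mem (K := N), ← w.valuation_lt_one_iff_mem (K := N'), ← hV.lt, ← hW.lt]
    rfl
  have hp := w.isPrime
  have hWp := W.isPrime
  have hwm := w.isMaximal
  have hl : W.asIdeal.LiesOver w.asIdeal := ⟨hund.symm⟩
  have hcard : Nat.card (W.asIdeal.inertia Gal(N/N')) = eN hNN w :=
    Ideal.card_inertia_eq_ramificationIdxIn (G := Gal(N/N')) w.asIdeal W.asIdeal
  have hfin : Finite Gal(N/N') := inferInstance
  -- restriction
  have hres : ∀ s ∈ N'.fixingSubgroup, ∃ t : Gal(N/N'), ∀ x : N, ((t x : N) : AlgebraicClosure F) = s (x : AlgebraicClosure F) := by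
    intro s hs
    let e : N ≃+* N :=
      { toFun := fun x => ⟨s x.1, hn s hs x.1 x.2⟩
        invFun := fun x => ⟨s⁻¹ x.1, hn s⁻¹ (inv_mem hs) x.1 x.2⟩
        left_inv := fun x => Subtype.ext (s.symm_apply_apply x.1)
        right_inv := fun x => Subtype.ext (s.apply_symm_apply x.1)
        map_mul' := fun x y => Subtype.ext (map_mul s x.1 y.1)
        map_add' := fun x y => Subtype.ext (map_add s x.1 y.1) }
    exact ⟨AlgEquiv.ofRingEquiv (f := e) (fun x => Subtype.ext (hs x)), fun x => rfl⟩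
  have hcl0 : IsAlgClosed (AlgebraicClosure F) := inferInstance
  have hlift : ∀ t : Gal(N/N'), ∃ s ∈ N'.fixingSubgroup, ∀ x : N, ((t x : N) : AlgebraicClosure F) = s (x : AlgebraicClosure F) := by
    intro t
    have hal : Algebra.IsAlgebraic N' (AlgebraicClosure F) := Algebra.IsAlgebraic.tower_top (K := F) N'
    have hnN : Normal N' (AlgebraicClosure F) := by
      have h1 : IsAlgClosure N' (AlgebraicClosure F) := ⟨inferInstance, hal⟩
      exact IsAlgClosure.normal N' (AlgebraicClosure F)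
    have hst' : IsScalarTower N' N (AlgebraicClosure F) := IsScalarTower.of_algebraMap_eq fun x => rfl
    let σ : AlgebraicClosure F ≃ₐ[N'] AlgebraicClosure F := t.liftNormal (AlgebraicClosure F)
    have hσ : ∀ x : N, σ (x : AlgebraicClosure F) = ((t x : N) : AlgebraicClosure F) := fun x =>
      AlgEquiv.liftNormal_commutes t (AlgebraicClosure F) x
    refine ⟨σ.restrictScalars F, ?_, fun x => (hσ x).symm⟩
    rw [IntermediateField.mem_fixingSubgroup_iff]
    intro x hx
    exact σ.commutes ⟨x, hx⟩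
  have hpow : ∀ (t : Gal(N/N')) (s : AlgebraicClosure F ≃ₐ[F] AlgebraicClosure F),
      (∀ x : N, ((t x : N) : AlgebraicClosure F) = s (x : AlgebraicClosure F)) → ∀ (k : ℕ) (x : N),
      (((t ^ k) x : N) : AlgebraicClosure F) = (s ^ k) (x : AlgebraicClosure F) := by
    intro t s h k
    induction k with
    | zero => intro x; rfl
    | succ k ih =>
      intro x
      rw [pow_succ, pow_succ, AlgEquiv.mul_apply, AlgEquiv.mul_apply, ih, h]
  have hcoset : ∀ (s u : AlgebraicClosure F ≃ₐ[F] AlgebraicClosure F), s⁻¹ * u ∈ N.fixingSubgroup ↔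
      ∀ x : N, u (x : AlgebraicClosure F) = s (x : AlgebraicClosure F) := by
    intro s u
    rw [IntermediateField.mem_fixingSubgroup_iff]
    constructor
    · intro h x
      have h1 := h x x.2
      have h2 : s (s⁻¹ (u (x : AlgebraicClosure F))) = u (x : AlgebraicClosure F) := s.apply_symm_apply _
      rw [← h2]
      exact congrArg s h1
    · intro h x hx
      have h1 := h ⟨x, hx⟩
      show s⁻¹ (u x) = x
      rw [show u x = s x from h1]
      exact s.symm_apply_apply x
  have hG : IsCyclic Gal(N/N') := by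
    obtain ⟨g, hg, hg2⟩ := hcyc
    obtain ⟨g0, hg0⟩ := hres g hg
    refine ⟨⟨g0, fun t => ?_⟩⟩
    obtain ⟨s, hs, hs2⟩ := hlift t
    obtain ⟨k, hk⟩ := hg2 s hs
    refine ⟨(k : ℤ), ?_⟩
    show g0 ^ (k : ℤ) = t
    rw [zpow_natCast]
    apply AlgEquiv.ext
    intro x
    apply Subtype.ext
    rw [hpow g0 g hg0 k x, hs2 x]
    exact ((hcoset _ _).1 hk x).symm
  obtain ⟨g1, hg1⟩ := IsCyclic.exists_generator (α := W.asIdeal.inertia Gal(N/N'))
  have hord : orderOf (g1 : Gal(N/N')) = eN hNN w := by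
    rw [Subgroup.orderOf_coe, orderOf_eq_card_of_forall_mem_zpowers hg1, hcard]
  have hg1I : ∀ x : 𝓞 N, (g1 : Gal(N/N')) • x - x ∈ W.asIdeal := g1.2
  obtain ⟨σ, hσN, hσ⟩ := hlift (g1 : Gal(N/N'))
  obtain ⟨τ, hτ1, hτ2⟩ := H13S.inertia_lift N V σ (fun x hx => by
      rw [← hσ ⟨x, hx⟩]
      exact ((g1 : Gal(N/N')) ⟨x, hx⟩).2) (fun x hx hxV => by
      have h2 := H13S.in4_val W (g1 : Gal(N/N')) hg1I ⟨x, hx⟩ ((hW ⟨x, hx⟩).1 hxV)
      have h3 := (hW.lt _).2 h2
      rw [← hσ ⟨x, hx⟩]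
      exact h3)
  have hτ : ∀ x : N, (((g1 : Gal(N/N')) x : N) : AlgebraicClosure F) = τ (x : AlgebraicClosure F) := fun x => by
    rw [hσ x, hτ2 x x.2]
  have hτN : τ ∈ N'.fixingSubgroup := by
    rw [IntermediateField.mem_fixingSubgroup_iff]
    intro x hx
    rw [hτ2 x (hNN hx)]
    exact (IntermediateField.mem_fixingSubgroup_iff _ _).1 hσN x hx
  refine ⟨τ, hτN, hτ1, fun s hs hi => ?_, fun m => ?_, fun a ha ha0 => ?_⟩
  · obtain ⟨t, ht⟩ := hres s hs
    have htI : t ∈ W.asIdeal.inertia Gal(N/N') := by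
      intro x
      show t • x - x ∈ W.asIdeal
      rw [← W.valuation_lt_one_iff_mem (K := N), ← hW.lt]
      have h1 : (((t • x - x : 𝓞 N) : N) : AlgebraicClosure F) = s ((x : N) : AlgebraicClosure F) - ((x : N) : AlgebraicClosure F) := by
        rw [← ht]
        rfl
      rw [h1]
      exact hi _ ((hW (x : N)).2 (W.valuation_le_one x))
    obtain ⟨k, hk⟩ := mem_powers_iff_mem_zpowers.2 (hg1 ⟨t, htI⟩)
    refine ⟨k, (hcoset _ _).2 fun x => ?_⟩
    have hk' : (g1 : Gal(N/N')) ^ k = t := congrArg Subtype.val hk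
    rw [← hpow _ _ hτ k x, hk', ht x]
  · rw [← hord, orderOf_dvd_iff_pow_eq_one, IntermediateField.mem_fixingSubgroup_iff]
    constructor
    · intro h
      apply AlgEquiv.ext
      intro x
      apply Subtype.ext
      rw [hpow _ _ hτ m x]
      exact h x x.2
    · intro h x hx
      rw [← hpow _ _ hτ m ⟨x, hx⟩, h]
      rfl
  · obtain ⟨ϖ, hϖ⟩ := W.valuation_exists_uniformizer N
    have hwa : w.valuation N' ⟨a, ha⟩ ≠ 0 := (map_ne_zero _).2 fun h => ha0 (congrArg Subtype.val h)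
    obtain ⟨k, hk⟩ : ∃ k : ℤ, w.valuation N' ⟨a, ha⟩ = WithZero.exp k :=
      ⟨WithZero.log (w.valuation N' ⟨a, ha⟩), (WithZero.exp_log hwa).symm⟩
    have h1 := HeightOneSpectrum.valuation_liesOver N w W (⟨a, ha⟩ : N')
    rw [Ideal.ramificationIdx'_eq_ramificationIdx w.asIdeal W.asIdeal w.ne_bot,
      ← Ideal.ramificationIdxIn_eq_ramificationIdx w.asIdeal W.asIdeal Gal(N/N')] at h1
    have h1' : w.valuation N' (⟨a, ha⟩ : N') ^ eN hNN w = W.valuation N (algebraMap N' N ⟨a, ha⟩) := h1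
    refine ⟨((ϖ ^ (-k) : N) : AlgebraicClosure F), (ϖ ^ (-k) : N).2, ?_⟩
    have h2 : W.valuation N ((ϖ ^ (-k)) ^ eN hNN w) = W.valuation N (algebraMap N' N ⟨a, ha⟩) := by
      rw [← h1', map_pow, map_zpow₀, hϖ, hk]
      congr 1
      rw [← WithZero.exp_zsmul]
      congr 1
      simp
    have h3 := (hW.le ((ϖ ^ (-k)) ^ eN hNN w) (algebraMap N' N ⟨a, ha⟩)).2 h2.le
    have h4 := (hW.le (algebraMap N' N ⟨a, ha⟩) ((ϖ ^ (-k)) ^ eN hNN w)).2 h2.ge
    have h5 := le_antisymm h3 h4
    rw [hmap] at h5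
    rw [← h5, ← map_pow]
    congr 1

end H13V
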