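import Mathlib
import Pool.Agent.Lib.H13V.RI
import Pool.Agent.Lib.H13T.C2

/-! # H13V, module C: the fields N/M cyclic of degree p^(n+t), N' of degree p^n over M: definitions and group theory -/

open NumberField IsDedekindDomain WeierstrassCurve

namespace H13V

open H55P

open scoped Classical

/-- M ≤ N' ≤ N, N/M Galois and cyclic of degree p^(n+t), γ a generator, N' the subfield of degree p^n over M, 1 ≤ t ≤ n. -/
structure CycJ {F : Type} [Field F] {Ω : Type} [Field Ω] [Algebra F Ω] (p n t : ℕ) (M N' N : IntermediateField F Ω) (γ : Ω ≃ₐ[F] Ω) : Prop where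
  pos : 1 ≤ t
  len : t ≤ n
  fin : FiniteDimensional F N
  le : M ≤ N'
  le' : N' ≤ N
  gam : γ ∈ M.fixingSubgroup
  nrm : ∀ s ∈ M.fixingSubgroup, ∀ x ∈ N, s x ∈ N
  gen : ∀ s ∈ M.fixingSubgroup, ∃ k : ℕ, ∃ u ∈ N.fixingSubgroup, s = γ ^ k * u
  ord : ∀ k : ℕ, γ ^ k ∈ N.fixingSubgroup ↔ p ^ (n + t) ∣ k
  mid : ∀ k : ℕ, γ ^ k ∈ N'.fixingSubgroup ↔ p ^ n ∣ k
  deg : Module.finrank F N = Module.finrank F M * p ^ (n + t)
  deg' : Module.finrank F N = Module.finrank F N' * p ^ t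

variable {F : Type} [Field F] [CharZero F] {Ω : Type} [Field Ω] [Algebra F Ω] [IsAlgClosure F Ω] {p n t : ℕ} {M N' N : IntermediateField F Ω} {γ : Ω ≃ₐ[F] Ω}

theorem j_nN (c : CycJ p n t M N' N γ) (s : Ω ≃ₐ[F] Ω) (hs : s ∈ M.fixingSubgroup) (u : Ω ≃ₐ[F] Ω) (hu : u ∈ N.fixingSubgroup) :
    s * u * s⁻¹ ∈ N.fixingSubgroup := by
  rw [IntermediateField.mem_fixingSubgroup_iff]
  intro x hx
  have h1 : s⁻¹ x ∈ N := c.nrm s⁻¹ (inv_mem hs) x hx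
  have h2 : u (s⁻¹ x) = s⁻¹ x := (IntermediateField.mem_fixingSubgroup_iff _ _).1 hu _ h1
  have h3 : (s * u * s⁻¹) x = s (u (s⁻¹ x)) := rfl
  have h4 : s (s⁻¹ x) = (s * s⁻¹) x := rfl
  rw [h3, h2, h4, mul_inv_cancel]
  rfl

omit [CharZero F] [IsAlgClosure F Ω] in
theorem j_le (c : CycJ p n t M N' N γ) : N.fixingSubgroup ≤ N'.fixingSubgroup := IntermediateField.fixingSubgroup_antitone c.le'

omit [CharZero F] [IsAlgClosure F Ω] in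
theorem j_le' (c : CycJ p n t M N' N γ) : N'.fixingSubgroup ≤ M.fixingSubgroup := IntermediateField.fixingSubgroup_antitone c.le

theorem j_comm (c : CycJ p n t M N' N γ) (a : Ω ≃ₐ[F] Ω) (ha : a ∈ M.fixingSubgroup) (b : Ω ≃ₐ[F] Ω) (hb : b ∈ M.fixingSubgroup) :
    a * b * a⁻¹ * b⁻¹ ∈ N.fixingSubgroup := by
  obtain ⟨i, u, hu, rfl⟩ := c.gen a ha
  obtain ⟨j, v, hv, rfl⟩ := c.gen b hb
  have hA : γ ^ i ∈ M.fixingSubgroup := pow_mem c.gam i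
  have hB : γ ^ j ∈ M.fixingSubgroup := pow_mem c.gam j
  have hAB : γ ^ i * γ ^ j = γ ^ j * γ ^ i := by rw [← pow_add, ← pow_add, add_comm]
  generalize γ ^ i = A at hA hAB ⊢
  generalize γ ^ j = B at hB hAB ⊢
  have h1 : B⁻¹ * A⁻¹ * B = A⁻¹ := by
    rw [← _root_.mul_inv_rev, hAB, _root_.mul_inv_rev, inv_mul_cancel_right]
  have h2 : A * u * (B * v) * (A * u)⁻¹ * (B * v)⁻¹ = A * (u * (B * (v * u⁻¹) * B⁻¹)) * A⁻¹ * (B * v⁻¹ * B⁻¹) := by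
    have h3 : A * (u * (B * (v * u⁻¹) * B⁻¹)) * A⁻¹ * (B * v⁻¹ * B⁻¹) = A * u * B * v * u⁻¹ * (B⁻¹ * A⁻¹ * B) * v⁻¹ * B⁻¹ := by group
    rw [h3, h1]
    group
  rw [h2]
  refine mul_mem (j_nN c A hA _ (mul_mem hu (j_nN c B hB _ (mul_mem hv (inv_mem hu))))) (j_nN c B hB _ (inv_mem hv))

theorem j_nN' (c : CycJ p n t M N' N γ) (s : Ω ≃ₐ[F] Ω) (hs : s ∈ M.fixingSubgroup) (a : Ω ≃ₐ[F] Ω) (ha : a ∈ N'.fixingSubgroup) :
    s * a * s⁻¹ ∈ N'.fixingSubgroup := by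
  have h1 : s * a * s⁻¹ = s * a * s⁻¹ * a⁻¹ * a := by rw [inv_mul_cancel_right]
  rw [h1]
  exact mul_mem (j_le c (j_comm c s hs a (j_le' c ha))) ha

theorem j_iff (c : CycJ p n t M N' N γ) (g : Ω ≃ₐ[F] Ω) (hg : g ∈ M.fixingSubgroup) :
    (∀ s, g * s * g⁻¹ ∈ N'.fixingSubgroup ↔ s ∈ N'.fixingSubgroup) ∧ (∀ s, g * s * g⁻¹ ∈ N.fixingSubgroup ↔ s ∈ N.fixingSubgroup) := by
  have e : ∀ s : Ω ≃ₐ[F] Ω, g⁻¹ * (g * s * g⁻¹) * g⁻¹⁻¹ = s := fun s => by group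
  refine ⟨fun s => ⟨fun h => ?_, fun h => j_nN' c g hg s h⟩, fun s => ⟨fun h => ?_, fun h => j_nN c g hg s h⟩⟩
  · have h1 := j_nN' c g⁻¹ (inv_mem hg) _ h
    rwa [e] at h1
  · have h1 := j_nN c g⁻¹ (inv_mem hg) _ h
    rwa [e] at h1

omit [CharZero F] [IsAlgClosure F Ω] in
theorem j_pow (c : CycJ p n t M N' N γ) : p ^ (n - 1) * p = p ^ n := by
  rw [← pow_succ, Nat.sub_add_cancel (c.pos.trans c.len)]

theorem j_eta (c : CycJ p n t M N' N γ) :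
    γ ^ p ^ (n - 1) ∈ M.fixingSubgroup ∧ (γ ^ p ^ (n - 1)) ^ p ∈ N'.fixingSubgroup ∧
      (γ ^ p ^ (n - 1)) ^ (p ^ (t + 1)) ∈ N.fixingSubgroup := by
  refine ⟨pow_mem c.gam _, ?_, ?_⟩
  · rw [← pow_mul, j_pow c]
    exact (c.mid _).2 dvd_rfl
  · rw [← pow_mul, pow_succ' p t, ← mul_assoc, j_pow c, ← pow_add]
    exact (c.ord _).2 dvd_rfl

theorem j_gen (c : CycJ p n t M N' N γ) (h : Ω ≃ₐ[F] Ω) (hh : h ∈ N'.fixingSubgroup) :
    ∃ i : ℕ, ∃ u ∈ N.fixingSubgroup, h = ((γ ^ p ^ (n - 1)) ^ p) ^ i * u := by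
  obtain ⟨k, u, hu, rfl⟩ := c.gen h (j_le' c hh)
  have h1 : γ ^ k ∈ N'.fixingSubgroup := by
    have h2 := mul_mem hh (inv_mem (j_le c hu))
    rwa [mul_inv_cancel_right] at h2
  obtain ⟨i, hi⟩ := (c.mid k).1 h1
  refine ⟨i, u, hu, ?_⟩
  rw [← pow_mul γ, j_pow c, ← pow_mul, ← hi]

/-- N/N' is cyclic. -/
theorem j_cyc (c : CycJ p n t M N' N γ) :
    ∃ g ∈ N'.fixingSubgroup, ∀ s ∈ N'.fixingSubgroup, ∃ k : ℕ, (g ^ k)⁻¹ * s ∈ N.fixingSubgroup := by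
  refine ⟨(γ ^ p ^ (n - 1)) ^ p, (j_eta c).2.1, fun s hs => ?_⟩
  obtain ⟨i, u, hu, rfl⟩ := j_gen c s hs
  exact ⟨i, by rwa [inv_mul_cancel_left]⟩

theorem j_pext (hp : 0 < p) (c : CycJ p n t M N' N γ) : PExt p M N ∧ PExt p M N' ∧ PExt p N' N := by
  have hfin := c.fin
  refine ⟨⟨c.fin, c.le.trans c.le', c.nrm, n + t, c.deg⟩, ⟨?_, c.le, ?_, n, ?_⟩, ⟨c.fin, c.le', fun s hs => c.nrm s (j_le' c hs), t, c.deg'⟩⟩
  · exact Submodule.finiteDimensional_of_le (S₁ := Subalgebra.toSubmodule N'.toSubalgebra) (S₂ := Subalgebra.toSubmodule N.toSubalgebra) c.le'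
  · intro s hs x hx
    have hG : IsGalois F Ω := by
      have h1 : Normal F Ω := IsAlgClosure.normal F Ω
      exact IsGalois.mk
    rw [← InfiniteGalois.fixedField_fixingSubgroup N', IntermediateField.mem_fixedField_iff]
    intro u hu
    have h1 := j_nN' c s⁻¹ (inv_mem hs) u hu
    have h2 := (IntermediateField.mem_fixingSubgroup_iff _ _).1 h1 x hx
    have h3 : (s⁻¹ * u * s⁻¹⁻¹) x = s⁻¹ (u (s x)) := by
      rw [inv_inv]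
      rfl
    rw [h3] at h2
    have h4 : s (s⁻¹ (u (s x))) = u (s x) := by
      have h5 : s (s⁻¹ (u (s x))) = (s * s⁻¹) (u (s x)) := rfl
      rw [h5, mul_inv_cancel]
      rfl
    rw [← h4, h2]
  · have h1 := c.deg
    rw [c.deg', pow_add, ← mul_assoc] at h1
    exact Nat.eq_of_mul_eq_mul_right (pow_pos hp t) h1

end H13V
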