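import Mathlib
import Pool.Agent.Lib.H13T.C4

/-! # H13V, module C, file C3: an automorphism which fixes the points killed by p, and its p^k-th power -/

namespace H13V

/-- If s fixes the elements killed by p then s^(p^k) fixes the elements killed by p^(k+1). -/
theorem fix_lift {G M : Type} [Group G] [AddCommGroup M] (ρ : G →* AddMonoid.End M) (p : ℕ) (s : G)
    (h : ∀ T : M, p • T = 0 → ρ s T = T) (k : ℕ) (T : M) (hT : p ^ (k + 1) • T = 0) : ρ (s ^ p ^ k) T = T := by
  have hmul : ∀ (a b : G) (x : M), ρ (a * b) x = ρ a (ρ b x) := fun a b x => by rw [map_mul]; rfl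
  have hpow : ∀ (i : ℕ) (T : M), ρ s T = T → ρ (s ^ i) T = T := by
    intro i T hT
    induction i with
    | zero => rw [pow_zero, map_one]; rfl
    | succ i ih => rw [pow_succ, hmul, hT, ih]
  induction k generalizing T with
  | zero =>
    rw [zero_add, pow_one] at hT
    exact hpow _ T (h T hT)
  | succ k ih =>
    have h1 : ρ (s ^ p ^ k) (p • T) = p • T := by
      refine ih (p • T) ?_
      rw [← mul_smul, ← pow_succ]
      exact hT
    obtain ⟨D, hD⟩ : ∃ D, D = ρ (s ^ p ^ k) T - T := ⟨_, rfl⟩
    have h2 : ρ (s ^ p ^ k) T = T + D := by rw [hD]; abel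
    have hpD : p • D = 0 := by
      rw [hD, smul_sub, ← map_nsmul, h1, sub_self]
    have hD' : ρ (s ^ p ^ k) D = D := hpow _ D (h D hpD)
    have h3 : ∀ i : ℕ, ρ ((s ^ p ^ k) ^ i) T = T + i • D := by
      intro i
      induction i with
      | zero => rw [pow_zero, map_one, zero_smul, add_zero]; rfl
      | succ i ih2 =>
        rw [pow_succ', hmul, ih2, map_add, map_nsmul, h2, hD', succ_nsmul', add_assoc]
    have h4 := h3 p
    rw [hpD, add_zero, ← pow_mul, ← pow_succ] at h4
    exact h4

end H13V
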