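import Mathlib
import Pool.Agent.Lib.H13V.C0
import Pool.Agent.Lib.H13V.C3
import Pool.Agent.Lib.H41G.L
import Pool.Agent.Lib.H41S.Int
import Pool.Agent.Lib.H13T.C9
import Pool.Agent.Lib.H13X.XDG
import Pool.Agent.Lib.H13X.XE

/-! # H13V, module C, file C5: the relaxed places and their decomposition groups -/

open NumberField IsDedekindDomain WeierstrassCurve

namespace H13V

open H55P H55K H55K.TQ H55K.S
open H35P (WAB)
open H13S (Abv)
open H13X (DecN)
open H55G (OkM LocOk)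
open H13T (RV AnW exists_dta c3_fix c4_pow c5_red cV mem_cV c1_in c1_dec c1_rv)
open H41G (lo_below lo_main lo_cases lo_pow)

open scoped Classical

variable {F : Type} [Field F] [NumberField F] [IQ F] {W₀ : WeierstrassCurve (𝓞 F)} {Om : ℂ}
  {m : Ideal (𝓞 F)} {ψ : Ideal (𝓞 F) →*₀ 𝓞 F} {p n t : ℕ} {M N' N : IntermediateField F (AlgebraicClosure F)}
  {γ : AlgebraicClosure F ≃ₐ[F] AlgebraicClosure F}

theorem j_p (hp : PrimeH F W₀ p) [NumberField N'] [NumberField N] (c : CycJ p n t M N' N γ) (hU : UnrP p N)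
    {w : HeightOneSpectrum (𝓞 N')} (hw : w ∈ AnW p W₀ N' N) : (p : 𝓞 N') ∉ w.asIdeal := by
  exact H13R.g6_ram_p hp.prime (j_pext hp.prime.pos c).2.2 c.le' le_rfl hU hw.2.1

theorem j_n (hp : PrimeH F W₀ p) [NumberField N'] [NumberField N] (c : CycJ p n t M N' N γ) (hU : UnrP p N)
    {w : HeightOneSpectrum (𝓞 N')} (hw : w ∈ AnW p W₀ N' N) : p ∣ Ideal.absNorm w.asIdeal - 1 := by
  exact H55P.ram_norm p hp.prime N' N (j_pext hp.prime.pos c).2.2 N c.le' le_rfl hU w hw.2.1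

/-- A relaxed place lies above a prime in AnW. -/
theorem j_below (hH : BaseH F W₀ Om m ψ) (hp : PrimeH F W₀ p) [NumberField M] [NumberField N'] [NumberField N]
    (c : CycJ p n t M N' N γ) (hU : UnrP p N) (hB : OkM p W₀ M) {V : ValuationSubring (AlgebraicClosure F)}
    (hV : RV (W₀⁄F) p N' N V) : ∃ w ∈ AnW p W₀ N' N, Abv N' V w := by
  obtain ⟨⟨s, hs, hin, hsN⟩, T, hT0, hTp, hTf⟩ := hV
  have hPE := (j_pext hp.prime.pos c).2.2
  have hVt : V ≠ ⊤ := by
    rintro rfl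
    apply hsN
    rw [H13T.ce_top hin]
    exact one_mem _
  obtain ⟨w, hw⟩ := H13T.ce_below hVt N'
  have hbel : Below V N' w.asIdeal := H13T.ce_bel hw
  have hfN := c.fin
  have hfN' : FiniteDimensional F N' := H55P.s13_fin c.le'
  have hram : Ram N' N w.asIdeal := by
    by_contra hr
    refine hsN (H55P.inert_mem N' N c.le' hPE.norm V (fun v hv hrv => hr ?_) s hs hin)
    have e : v.asIdeal = w.asIdeal := by
      ext x
      exact (hv x).trans (hbel x).symm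
    rwa [e] at hrv
  have hpw : (p : 𝓞 N') ∉ w.asIdeal := H13R.g6_ram_p hp.prime hPE c.le' le_rfl hU hram
  have hΔ : algebraMap (𝓞 F) (𝓞 N') W₀.Δ ∉ w.asIdeal := by
    intro hΔw
    obtain ⟨v, hv, hvΔ⟩ := lo_below c.le hbel
    exact hT0 (lo_main hH hp (j_pext hp.prime.pos c).1 hB c.le' hv ((hvΔ _).2 hΔw) T hTp fun t ht htd => hTf t ht htd)
  refine ⟨w, ⟨hΔ, hram, ?_⟩, hw⟩
  by_contra hc
  exact hT0 (H55P.fix_local W₀ p hp.prime N' V w hbel hΔ hpw hc T hTp hTf)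

/-- The decomposition group over M of a relaxed place fixes all points killed by p. -/
theorem j_dec (hH : BaseH F W₀ Om m ψ) (hp : PrimeH F W₀ p) [NumberField M] [NumberField N'] [NumberField N]
    (c : CycJ p n t M N' N γ) (hU : UnrP p N) (hB : OkM p W₀ M) {V : ValuationSubring (AlgebraicClosure F)}
    (hV : RV (W₀⁄F) p N' N V) (φ : AlgebraicClosure F ≃ₐ[F] AlgebraicClosure F) (hφ : φ ∈ M.fixingSubgroup) (hd : Dec V φ)
    (T : Pt (W₀⁄F) (AlgebraicClosure F)) (hT : p • T = 0) : ac (W₀⁄F) φ T = T := by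
  obtain ⟨w, hw, hVw⟩ := j_below hH hp c hU hB hV
  obtain ⟨-, T0, hT00, hT0p, hT0f⟩ := hV
  obtain ⟨A, B, j, act, hA, hB', dta⟩ := exists_dta hH hp
  obtain ⟨r, s, t, Θ, -, -, hΘ⟩ := H13R.r6_iso (Ω := AlgebraicClosure F) W₀ hH.data.ell hA hB'
  obtain ⟨T1, rfl⟩ := Θ.surjective T0
  have hT10 : T1 ≠ 0 := by
    rintro rfl
    exact hT00 (map_zero Θ)
  have hT1p : p • T1 = 0 := by
    apply Θ.injective
    rw [map_nsmul, hT0p, map_zero]
  have hT1f : ∀ s, DecN N' V s → ac (WAB A B) s T1 = T1 := by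
    intro s hs
    apply Θ.injective
    rw [← hΘ, hT0f s hs.1 hs.2]
  obtain ⟨k, hk⟩ := H55P.PExt.pow p hp.prime M N' (j_pext hp.prime.pos c).2.1
  obtain ⟨S, rfl⟩ := Θ.surjective T
  have hS : p • S = 0 := by
    apply Θ.injective
    rw [map_nsmul, hT, map_zero]
  rw [hΘ]
  refine congrArg Θ (c4_pow dta dta.unr φ k (fun S' hS' => ?_) S hS)
  refine c3_fix dta dta.unr N' hVw (j_p hp c hU hw) (j_n hp c hU hw) hT10 hT1p hT1f _ ⟨hk φ hφ, ?_⟩ S' hS'
  have h1 : φ ∈ H55P.decS F V := hd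
  exact pow_mem h1 (p ^ k)

/-- Arithmetic: 0 < d < p^(n+1-t) has a multiple congruent to p^(n-t) modulo p^n. -/
theorem j_num {p n t d : ℕ} (hp : p.Prime) (ht : 1 ≤ t) (hn : t ≤ n) (h0 : 0 < d) (hd : d < p ^ (n + 1 - t)) :
    ∃ e : ℕ, d * e ≡ p ^ (n - t) [MOD p ^ n] := by
  obtain ⟨a, d', h2, h1⟩ := Nat.exists_eq_pow_mul_and_not_dvd h0.ne' p hp.ne_one
  have h3 : a ≤ n - t := by
    by_contra h4
    have h5 : n + 1 - t ≤ a := by omega
    have h6 : p ^ (n + 1 - t) ≤ p ^ a := Nat.pow_le_pow_right hp.pos h5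
    have h7 : 0 < d' := by
      rcases Nat.eq_zero_or_pos d' with h8 | h8
      · rw [h8, mul_zero] at h1
        omega
      · exact h8
    have h9 : p ^ a * 1 ≤ p ^ a * d' := Nat.mul_le_mul_left _ h7
    omega
  have hcop : Nat.Coprime d' (p ^ n) := ((Nat.Prime.coprime_iff_not_dvd hp).2 h2).symm.pow_right n
  have hgt : 1 < p ^ n := Nat.one_lt_pow (by omega) hp.one_lt
  obtain ⟨e', -, he'⟩ := Nat.exists_mul_mod_eq_one_of_coprime hcop hgt
  refine ⟨e' * p ^ (n - t - a), ?_⟩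
  have h10 : d * (e' * p ^ (n - t - a)) = (d' * e') * p ^ (n - t) := by
    have h11 : p ^ (n - t) = p ^ a * p ^ (n - t - a) := by
      rw [← pow_add]
      congr 1
      omega
    rw [h11, h1]
    ring
  have h12 : d' * e' ≡ 1 [MOD p ^ n] := by
    show d' * e' % p ^ n = 1 % p ^ n
    rw [he', Nat.mod_eq_of_lt hgt]
  rw [h10]
  have h13 := h12.mul_right (p ^ (n - t))
  rwa [one_mul] at h13

/-- Congruent exponents give the same class modulo N'. -/
theorem j_cong (c : CycJ p n t M N' N γ) {a b : ℕ} (h : a ≡ b [MOD p ^ n]) : (γ ^ a)⁻¹ * γ ^ b ∈ N'.fixingSubgroup := by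
  rcases le_total a b with h9 | h9
  · have h10 : (γ ^ a)⁻¹ * γ ^ b = γ ^ (b - a) := by
      rw [inv_mul_eq_iff_eq_mul, ← pow_add]
      congr 1
      omega
    rw [h10, c.mid]
    exact (Nat.modEq_iff_dvd' h9).1 h
  · have h10 : (γ ^ a)⁻¹ * γ ^ b = (γ ^ (a - b))⁻¹ := by
      rw [inv_mul_eq_iff_eq_mul, eq_mul_inv_iff_mul_eq, ← pow_add]
      congr 1
      omega
    rw [h10]
    apply inv_mem
    rw [c.mid]
    exact (Nat.modEq_iff_dvd' h9).1 h.symm

/-- Powers of a representative of the class of γ^d. -/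
theorem j_powc (c : CycJ p n t M N' N γ) {d : ℕ} {δ : AlgebraicClosure F ≃ₐ[F] AlgebraicClosure F}
    (h : (γ ^ d)⁻¹ * δ ∈ N'.fixingSubgroup) (k : ℕ) : (γ ^ (d * k))⁻¹ * δ ^ k ∈ N'.fixingSubgroup := by
  induction k with
  | zero =>
    rw [mul_zero, pow_zero, pow_zero, inv_one, one_mul]
    exact one_mem _
  | succ k ih =>
    have h5 : (γ ^ (d * (k + 1)))⁻¹ * δ ^ (k + 1) =
        ((γ ^ d)⁻¹ * ((γ ^ (d * k))⁻¹ * δ ^ k) * ((γ ^ d)⁻¹)⁻¹) * ((γ ^ d)⁻¹ * δ) := by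
      have h6 : γ ^ (d * (k + 1)) = γ ^ (d * k) * γ ^ d := by
        rw [mul_add, mul_one, pow_add]
      rw [h6, pow_succ, mul_inv_rev]
      simp only [mul_assoc, inv_inv, mul_inv_cancel_left]
    rw [h5]
    exact mul_mem (((j_iff c _ (inv_mem (pow_mem c.gam d))).1 _).2 ih) h

/-- Few relaxed primes: the decomposition group over M contains an element of the class of γ^(p^(n-t)) modulo N'. -/
theorem j_phi (hH : BaseH F W₀ Om m ψ) (hp : PrimeH F W₀ p) [NumberField M] [NumberField N'] [NumberField N]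
    (c : CycJ p n t M N' N γ) (hU : UnrP p N) (hB : OkM p W₀ M) (hfin : (AnW p W₀ N' N).Finite)
    (few : (AnW p W₀ N' N).ncard < p ^ (n + 1 - t))
    {V : ValuationSubring (AlgebraicClosure F)} (hV : RV (W₀⁄F) p N' N V) :
    ∃ φ ∈ M.fixingSubgroup, Dec V φ ∧ φ⁻¹ * γ ^ p ^ (n - t) ∈ N'.fixingSubgroup := by
  have hgm : ∀ i : ℕ, γ ^ i ∈ M.fixingSubgroup := fun i => Subgroup.pow_mem _ c.gam i
  have hex : ∀ i : ℕ, ∃ w ∈ AnW p W₀ N' N, Abv N' (cV V (γ ^ i)) w := fun i =>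
    j_below hH hp c hU hB ((c1_rv (W₀⁄F) p N' N V (γ ^ i) (j_iff c _ (hgm i)).1 (j_iff c _ (hgm i)).2).2 hV)
  choose w hwA hwV using hex
  have hcard : hfin.toFinset.card < (Finset.range (p ^ (n + 1 - t))).card := by
    rw [Finset.card_range, ← Set.ncard_eq_toFinset_card _ hfin]
    exact few
  obtain ⟨i, hi, j, hj, hij, hw⟩ := Finset.exists_ne_map_eq_of_card_lt_of_maps_to hcard
    (f := w) (fun i _ => by
      rw [Finset.mem_coe, Set.Finite.mem_toFinset]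
      exact hwA i)
  have hmain : ∀ i j : ℕ, i < j → j < p ^ (n + 1 - t) → w i = w j →
      ∃ φ ∈ M.fixingSubgroup, Dec V φ ∧ φ⁻¹ * γ ^ p ^ (n - t) ∈ N'.fixingSubgroup := by
    intro i j hij hj hw
    have h1 := hwV i
    rw [hw] at h1
    obtain ⟨s, hs, hs'⟩ := H13X.trans_V N' h1 (hwV j)
    obtain ⟨δ, hδ⟩ : ∃ δ, δ = γ ^ j * s * (γ ^ i)⁻¹ := ⟨_, rfl⟩
    have hdec : Dec V δ := by
      intro x
      have h2 := hs' ((γ ^ i)⁻¹ x)
      rw [mem_cV, mem_cV] at h2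
      have h3 : (γ ^ i) ((γ ^ i)⁻¹ x) = x := (γ ^ i).apply_symm_apply x
      rw [h3] at h2
      rw [hδ]
      exact h2
    have hδ2 : δ = γ ^ (j - i) * (γ ^ i * s * (γ ^ i)⁻¹) := by
      have h4 : γ ^ j = γ ^ (j - i) * γ ^ i := by
        rw [← pow_add]
        congr 1
        omega
      rw [hδ, h4]
      group
    have hs'' : γ ^ i * s * (γ ^ i)⁻¹ ∈ N'.fixingSubgroup := ((j_iff c _ (hgm i)).1 s).2 hs
    have hNM : ∀ t, t ∈ N'.fixingSubgroup → t ∈ M.fixingSubgroup := fun t ht =>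
      IntermediateField.fixingSubgroup_antitone c.le ht
    have hδM : δ ∈ M.fixingSubgroup := by
      rw [hδ2]
      exact mul_mem (hgm _) (hNM _ hs'')
    have hδ3 : (γ ^ (j - i))⁻¹ * δ ∈ N'.fixingSubgroup := by
      rw [hδ2, inv_mul_cancel_left]
      exact hs''
    obtain ⟨e, he⟩ := j_num hp.prime c.pos c.len (show 0 < j - i by omega) (show j - i < p ^ (n + 1 - t) by omega)
    refine ⟨δ ^ e, Subgroup.pow_mem _ hδM e, ?_, ?_⟩
    · exact Subgroup.pow_mem (decS F V) (show δ ∈ decS F V from hdec) e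
    · have h11 : (δ ^ e)⁻¹ * γ ^ p ^ (n - t) =
          ((γ ^ ((j - i) * e))⁻¹ * δ ^ e)⁻¹ * ((γ ^ ((j - i) * e))⁻¹ * γ ^ p ^ (n - t)) := by
        group
      rw [h11]
      exact mul_mem (inv_mem (j_powc c hδ3 e)) (j_cong c he)
  rw [Finset.mem_range] at hi hj
  rcases lt_or_gt_of_ne hij with h | h
  · exact hmain i j h hj hw
  · exact hmain j i h hi hw.symm

end H13V
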