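import Mathlib
import Pool.Agent.Lib.H13V.C5
import Pool.Agent.Lib.H13R.G6

/-! # H13V, module C, file C6: the decomposition groups over N' of the relaxed places fix the points killed by p^t -/

open NumberField IsDedekindDomain WeierstrassCurve

namespace H13V

open H55P H55K H55K.TQ H55K.S
open H35P (WAB)
open H13S (Abv)
open H13X (DecN)
open H13Z (SelNon)
open H55G (OkM LocOk)
open H13T (RV AnW exists_dta c3_fix c4_pow c5_red cV mem_cV c1_in c1_dec c1_rv ce_p ce_val ce_bel ce_below ce_top)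
open H41G (lo_below lo_main lo_cases lo_pow)

open scoped Classical

variable {F : Type} [Field F] [NumberField F] [IQ F] {W₀ : WeierstrassCurve (𝓞 F)} {Om : ℂ}
  {m : Ideal (𝓞 F)} {ψ : Ideal (𝓞 F) →*₀ 𝓞 F} {p n t : ℕ} {M N' N : IntermediateField F (AlgebraicClosure F)}
  {γ : AlgebraicClosure F ≃ₐ[F] AlgebraicClosure F}

omit [IQ F] in
/-- Ramified means that the ramification index is not one. -/
theorem eN_ne [NumberField N'] [NumberField N] (c : CycJ p n t M N' N γ) (hp : 0 < p) (w : HeightOneSpectrum (𝓞 N')) :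
    Ram N' N w.asIdeal ↔ eN c.le' w ≠ 1 := by
  have hfin : FiniteDimensional F N := c.fin
  obtain ⟨-, -, hx⟩ := j_pext hp c
  exact H41S.ram_es N' N c.le' w (s13_galois N' N c.le' hx.norm)

omit [IQ F] in
/-- The inertia group at a place above w. -/
theorem j_ri [NumberField N'] [NumberField N] (c : CycJ p n t M N' N γ) (hp : 0 < p)
    {V : ValuationSubring (AlgebraicClosure F)} {w : HeightOneSpectrum (𝓞 N')} (hV : Abv N' V w) :
    ∃ τ ∈ N'.fixingSubgroup, Inert V τ ∧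
      (∀ s ∈ N'.fixingSubgroup, Inert V s → ∃ k : ℕ, (τ ^ k)⁻¹ * s ∈ N.fixingSubgroup) ∧
      (∀ m : ℕ, τ ^ m ∈ N.fixingSubgroup ↔ eN c.le' w ∣ m) ∧
      ∀ a ∈ N', a ≠ 0 → ∃ x ∈ N, V.valuation x ^ eN c.le' w = V.valuation a := by
  obtain ⟨-, -, hx⟩ := j_pext hp c
  exact ri_main c.fin c.le' hx.norm (j_cyc c) hV

/-- A prime of N' ramified in N does not contain p, and p divides its norm minus one; some inertia element does not fix N. -/
theorem j_norm (hp : PrimeH F W₀ p) [NumberField N'] [NumberField N] (c : CycJ p n t M N' N γ) (hU : UnrP p N)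
    {V : ValuationSubring (AlgebraicClosure F)} {w : HeightOneSpectrum (𝓞 N')} (hV : Abv N' V w) (hr : Ram N' N w.asIdeal) :
    (p : 𝓞 N') ∉ w.asIdeal ∧ p ∣ Ideal.absNorm w.asIdeal - 1 ∧
      ∃ s ∈ N'.fixingSubgroup, Inert V s ∧ s ∉ N.fixingSubgroup := by
  obtain ⟨-, -, hx⟩ := j_pext hp.prime.pos c
  obtain ⟨τ, h1, h2, -, h4, -⟩ := j_ri c hp.prime.pos hV
  have h5 : τ ∉ N.fixingSubgroup := by
    intro h
    have h6 := (h4 1).1 (by rwa [pow_one])
    exact (eN_ne c hp.prime.pos w).1 hr (Nat.dvd_one.1 h6)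
  refine ⟨fun h => ?_, H55P.ram_norm p hp.prime N' N hx N c.le' le_rfl hU w hr, τ, h1, h2, h5⟩
  have h6 := (ce_val hV p).1 h
  rw [ce_p hp hU h2 h5] at h6
  exact lt_irrefl _ h6

/-- The relaxed places are the places above the primes in AnW. -/
theorem j_rv (hH : BaseH F W₀ Om m ψ) (hp : PrimeH F W₀ p) [NumberField M] [NumberField N'] [NumberField N]
    (c : CycJ p n t M N' N γ) (hB : OkM p W₀ M) (hU : UnrP p N)
    {V : ValuationSubring (AlgebraicClosure F)} {w : HeightOneSpectrum (𝓞 N')} (hV : Abv N' V w) :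
    RV (W₀⁄F) p N' N V ↔ w ∈ AnW p W₀ N' N := by
  constructor
  · intro h
    obtain ⟨w', hw', hVw'⟩ := j_below hH hp c hU hB h
    rwa [H13T.abv_unique hV hVw']
  · rintro ⟨hΔ, hr, hc⟩
    obtain ⟨hpw, -, hs⟩ := j_norm hp c hU hV hr
    refine ⟨hs, ?_⟩
    obtain ⟨A, B, j, act, hA, hB', dta⟩ := SSG.exists_dtaAB hH hp
    obtain ⟨Θ, hΘ⟩ := SSG.short_iso W₀ hA hB' hH.data.ell (Ω := AlgebraicClosure F)
    obtain ⟨T, hT0, hT, hfT⟩ := H13R.lk_decR dta.cma W₀ hH.data.ell hA hB' N' hΔ hV hp.prime hp.five hpw hc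
    refine ⟨Θ.symm T, ?_, ?_, fun s hs hd => ?_⟩
    · rw [Ne, EmbeddingLike.map_eq_zero_iff]
      exact hT0
    · rw [← map_nsmul, hT, map_zero]
    · apply Θ.injective
      rw [hΘ, Θ.apply_symm_apply, hfT s ⟨hs, hd⟩]

theorem sel_absurd (h : SelG p W₀ N') (hn : SelNon (W₀⁄F) p N') : False := by
  obtain ⟨c, hc, hpc, hl, hn⟩ := hn
  refine hn (h c hc hpc fun V => ?_)
  by_cases hV : V = ⊤
  · refine ⟨0, fun s hs hi => ?_⟩
    rw [hV] at hi
    have h1 := hc.mul 1 (one_mem _) 1 (one_mem _)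
    rw [mul_one, H13T.c1_one] at h1
    rw [ce_top hi, map_zero, sub_zero]
    exact left_eq_add.1 h1
  · obtain ⟨P, hP⟩ := hl V hV
    exact ⟨P, fun s hs hi => hP s hs (inert_dec V s hi)⟩

/-- The prime of M below a relaxed place is unramified in N' (theorem X: the Selmer group over N' is zero). -/
theorem j_unram (hH : BaseH F W₀ Om m ψ) (hp : PrimeH F W₀ p) [NumberField M] [NumberField N'] [NumberField N]
    (c : CycJ p n t M N' N γ) (hU : UnrP p N) (hB : OkM p W₀ M) (hS : SelG p W₀ N') {V : ValuationSubring (AlgebraicClosure F)}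
    (hV : RV (W₀⁄F) p N' N V) : ∃ v : HeightOneSpectrum (𝓞 M), Abv M V v ∧ algebraMap (𝓞 F) (𝓞 M) W₀.Δ ∉ v.asIdeal ∧
      (p : 𝓞 M) ∉ v.asIdeal ∧ ∀ s ∈ M.fixingSubgroup, Inert V s → s ∈ N'.fixingSubgroup := by
  obtain ⟨w, hw, hVw⟩ := j_below hH hp c hU hB hV
  have hVt := ri_ne hVw
  obtain ⟨v, hv⟩ := ce_below hVt M
  have hbv : Below V M v.asIdeal := ce_bel hv
  have hbw : Below V N' w.asIdeal := ce_bel hVw
  have hΔ : algebraMap (𝓞 F) (𝓞 M) W₀.Δ ∉ v.asIdeal := by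
    intro h
    apply hw.1
    rw [hbw]
    exact (hbv _).1 h
  have hpv : (p : 𝓞 M) ∉ v.asIdeal := by
    intro h
    exact j_p hp c hU hw ((ce_val hVw p).2 ((ce_val hv p).1 h))
  have hfin : FiniteDimensional F N := c.fin
  have hx := (j_pext hp.prime.pos c).2.1
  have hfin' : FiniteDimensional F N' := hx.fin
  refine ⟨v, hv, hΔ, hpv, H55P.inert_mem M N' c.le hx.norm V fun v' hv' hr => ?_⟩
  have e : v' = v := by
    apply HeightOneSpectrum.ext
    ext x
    rw [hv' x, hbv x]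
  rw [e] at hr
  have hUN : UnrP p N' := H13R.unr_le hp.prime c.le' hU
  have hno : H13R.NoRel p W₀ M N' := by
    by_contra hn
    exact sel_absurd hS (H13R.nonselR hH hp hx hUN c.le le_rfl hn)
  have hc := hno v hr hΔ
  obtain ⟨-, T, hT0, hTp, -⟩ := id hV
  exact hT0 (H55P.fix_local W₀ p hp.prime M V v hbv hΔ hpv hc T hTp fun s hs hd => j_dec hH hp c hU hB hV s hs hd T hTp)

/-- The decomposition group over M is generated by a Frobenius element and inertia. -/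
theorem dg_frob (M : IntermediateField F (AlgebraicClosure F)) [NumberField M] {V : ValuationSubring (AlgebraicClosure F)}
    {v : HeightOneSpectrum (𝓞 M)} (hV : Abv M V v) :
    ∃ φ ∈ M.fixingSubgroup, Dec V φ ∧ ∀ s ∈ M.fixingSubgroup, Dec V s → ∀ L : IntermediateField F (AlgebraicClosure F),
      FiniteDimensional F L → M ≤ L → (∀ u : AlgebraicClosure F ≃ₐ[F] AlgebraicClosure F, ∀ x ∈ L, u x ∈ L) →
      ∃ j : ℕ, ∃ i ∈ M.fixingSubgroup, Inert V i ∧ (i * φ ^ j)⁻¹ * s ∈ L.fixingSubgroup := by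
  obtain ⟨φ, hφ, hφD, hφF⟩ := H13X.exists_frobK (F := F) M hV
  refine ⟨φ, hφ, hφD, fun s hs hsD L hL hML hn => ?_⟩
  obtain ⟨j, hj⟩ := H13X.dec_frob hV hφ hφD hφF L hML hn hs hsD
  obtain ⟨i, hi, hi2⟩ := H13S.inertia_lift L V (s * (φ ^ j)⁻¹) (fun x hx => hn _ x hx) (fun x hx hxV => hj x hx hxV)
  refine ⟨j, i, ?_, hi, ?_⟩
  · rw [IntermediateField.mem_fixingSubgroup_iff]
    intro x hx
    rw [hi2 x (hML hx)]
    have h1 : (s * (φ ^ j)⁻¹) ∈ M.fixingSubgroup := mul_mem hs (inv_mem (pow_mem hφ j))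
    exact (IntermediateField.mem_fixingSubgroup_iff _ _).1 h1 x hx
  · rw [IntermediateField.mem_fixingSubgroup_iff]
    intro x hx
    have h1 : (i * φ ^ j) x = s x := by
      show i ((φ ^ j) x) = s x
      rw [hi2 _ (hn _ x hx)]
      show s ((φ ^ j)⁻¹ ((φ ^ j) x)) = s x
      have h2 : (φ ^ j)⁻¹ ((φ ^ j) x) = x := (φ ^ j).symm_apply_apply x
      rw [h2]
    show (i * φ ^ j)⁻¹ (s x) = x
    rw [← h1]
    exact (i * φ ^ j).symm_apply_apply x

theorem j_arith {p n t m j : ℕ} (hp : p.Prime) (ht : 1 ≤ t) (hn : t ≤ n) (h1 : ¬ p ^ (n - t + 1) ∣ m) (h2 : p ^ n ∣ m * j) :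
    p ^ t ∣ j := by
  rcases Nat.eq_zero_or_pos j with rfl | hj
  · exact dvd_zero _
  have hm : m ≠ 0 := by
    rintro rfl
    exact h1 (dvd_zero _)
  rw [hp.pow_dvd_iff_le_factorization (Nat.mul_ne_zero hm hj.ne'), Nat.factorization_mul hm hj.ne', Finsupp.add_apply] at h2
  rw [hp.pow_dvd_iff_le_factorization hm] at h1
  rw [hp.pow_dvd_iff_le_factorization hj.ne']
  omega

/-- The decomposition group over N' of a relaxed place fixes all points killed by p^t. -/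
theorem j_fix (hH : BaseH F W₀ Om m ψ) (hp : PrimeH F W₀ p) [NumberField M] [NumberField N'] [NumberField N]
    (c : CycJ p n t M N' N γ) (hU : UnrP p N) (hB : OkM p W₀ M) (hS : SelG p W₀ N') (hfin : (AnW p W₀ N' N).Finite)
    (few : (AnW p W₀ N' N).ncard < p ^ (n + 1 - t)) {V : ValuationSubring (AlgebraicClosure F)}
    (hV : RV (W₀⁄F) p N' N V) (s : AlgebraicClosure F ≃ₐ[F] AlgebraicClosure F) (hs : s ∈ N'.fixingSubgroup) (hd : Dec V s)
    (T : Pt (W₀⁄F) (AlgebraicClosure F)) (hT : p ^ t • T = 0) : ac (W₀⁄F) s T = T := by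
  have hpp := hp.prime
  obtain ⟨v, hv, hΔ, hpv, hin⟩ := j_unram hH hp c hU hB hS hV
  obtain ⟨φ, hφ, hφD, hfr⟩ := dg_frob M hv
  obtain ⟨φ₀, hφ₀, hφ₀D, hφ₀γ⟩ := j_phi hH hp c hU hB hfin few hV
  obtain ⟨mm, u, hu, hφm⟩ := c.gen φ hφ
  have hφm' : (γ ^ mm)⁻¹ * φ ∈ N'.fixingSubgroup := by
    rw [hφm, inv_mul_cancel_left]
    exact j_le c hu
  have hfN := c.fin
  -- a large normal field
  have hlarge : ∀ L₀ : IntermediateField F (AlgebraicClosure F), FiniteDimensional F L₀ →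
      ∃ L : IntermediateField F (AlgebraicClosure F), FiniteDimensional F L ∧ L₀ ≤ L ∧
        ∀ u : AlgebraicClosure F ≃ₐ[F] AlgebraicClosure F, ∀ x ∈ L, u x ∈ L := by
    intro L₀ h0
    refine ⟨IntermediateField.normalClosure F L₀ (AlgebraicClosure F), normalClosure.is_finiteDimensional F L₀ _,
      IntermediateField.le_normalClosure L₀, fun u x hx => ?_⟩
    have hnm : Normal F (IntermediateField.normalClosure F L₀ (AlgebraicClosure F)) := normalClosure.normal F L₀ _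
    have h1 := IntermediateField.normal_iff_forall_map_le'.1 hnm u
    exact h1 ⟨x, hx, rfl⟩
  -- φ^j in N' implies p^t | j
  have hnd : ¬ p ^ (n - t + 1) ∣ mm := by
    intro hdv
    obtain ⟨L, hL, hNL, hLn⟩ := hlarge N c.fin
    obtain ⟨a, i, hi, hiI, hφa⟩ := hfr φ₀ hφ₀ hφ₀D L hL ((c.le.trans c.le').trans hNL) hLn
    -- φ₀ = i φ^a modulo L ≥ N'
    have h1 : (φ ^ a)⁻¹ * φ₀ ∈ N'.fixingSubgroup := by
      have h2 : (i * φ ^ a)⁻¹ * φ₀ ∈ N'.fixingSubgroup :=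
        IntermediateField.fixingSubgroup_antitone (c.le'.trans hNL) hφa
      have h3 : (φ ^ a)⁻¹ * i * φ ^ a ∈ N'.fixingSubgroup := by
        have h4 := ((j_iff c _ (inv_mem (pow_mem hφ a))).1 i).2 (hin i hi hiI)
        rwa [inv_inv] at h4
      have h5 : (φ ^ a)⁻¹ * φ₀ = ((φ ^ a)⁻¹ * i * φ ^ a) * ((i * φ ^ a)⁻¹ * φ₀) := by group
      rw [h5]
      exact mul_mem h3 h2
    have h2 := j_powc c hφm' a
    have h3 : (γ ^ (mm * a))⁻¹ * γ ^ p ^ (n - t) ∈ N'.fixingSubgroup := by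
      have h4 : (γ ^ (mm * a))⁻¹ * γ ^ p ^ (n - t) =
          ((γ ^ (mm * a))⁻¹ * φ ^ a) * ((φ ^ a)⁻¹ * φ₀) * (φ₀⁻¹ * γ ^ p ^ (n - t)) := by group
      rw [h4]
      exact mul_mem (mul_mem h2 h1) hφ₀γ
    obtain ⟨b, rfl⟩ := hdv
    have ht1 := c.pos
    have hlen := c.len
    -- a contradiction in the cyclic group
    have h5 : ∀ x y : ℕ, (γ ^ x)⁻¹ * γ ^ y ∈ N'.fixingSubgroup → (p ^ n : ℤ) ∣ (y : ℤ) - x := by
      intro x y h
      rcases le_total x y with hxy | hxy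
      · have h6 : (γ ^ x)⁻¹ * γ ^ y = γ ^ (y - x) := by
          rw [inv_mul_eq_iff_eq_mul, ← pow_add]
          congr 1
          omega
        rw [h6, c.mid] at h
        have h7 := Int.natCast_dvd_natCast.2 h
        rw [Nat.cast_sub hxy] at h7
        exact_mod_cast h7
      · have h6 : (γ ^ x)⁻¹ * γ ^ y = (γ ^ (x - y))⁻¹ := by
          rw [inv_mul_eq_iff_eq_mul, eq_mul_inv_iff_mul_eq, ← pow_add]
          congr 1
          omega
        rw [h6, inv_mem_iff, c.mid] at h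
        have h7 := Int.natCast_dvd_natCast.2 h
        rw [Nat.cast_sub hxy] at h7
        have h8 : (p ^ n : ℤ) ∣ (x : ℤ) - y := by exact_mod_cast h7
        have h9 := (dvd_neg (α := ℤ)).2 h8
        rwa [neg_sub] at h9
    have h6 := h5 _ _ h3
    have h7 : ((p : ℤ) ^ (n - t + 1)) ∣ (p : ℤ) ^ n := pow_dvd_pow _ (by omega)
    have h8 : ((p : ℤ) ^ (n - t + 1)) ∣ ((p ^ (n - t) : ℕ) : ℤ) - ((p ^ (n - t + 1) * b * a : ℕ) : ℤ) := by
      refine h7.trans ?_
      exact_mod_cast h6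
    have h9 : ((p : ℤ) ^ (n - t + 1)) ∣ ((p ^ (n - t + 1) * b * a : ℕ) : ℤ) := by
      push_cast
      exact ⟨b * a, by ring⟩
    have h10 : ((p : ℤ) ^ (n - t + 1)) ∣ ((p ^ (n - t) : ℕ) : ℤ) := by
      have := dvd_add h8 h9
      rwa [sub_add_cancel] at this
    have h11 : p ^ (n - t + 1) ∣ p ^ (n - t) := by
      have : ((p ^ (n - t + 1) : ℕ) : ℤ) ∣ ((p ^ (n - t) : ℕ) : ℤ) := by
        push_cast at h10 ⊢
        exact h10
      exact Int.natCast_dvd_natCast.1 this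
    have h12 := Nat.le_of_dvd (pow_pos hpp.pos _) h11
    have h13 : p ^ (n - t) < p ^ (n - t + 1) := Nat.pow_lt_pow_right hpp.one_lt (by omega)
    omega
  -- the action on T
  obtain ⟨L₁, hL₁, hTL⟩ := pt_open (W₀⁄F) T
  obtain ⟨L, hL, hNL, hLn⟩ := hlarge (L₁ ⊔ N) (IntermediateField.finiteDimensional_sup L₁ N)
  have hL1 : L₁ ≤ L := le_sup_left.trans hNL
  have hNL' : N ≤ L := le_sup_right.trans hNL
  obtain ⟨j, i, hi, hiI, hsj⟩ := hfr s (j_le' c hs) hd L hL ((c.le.trans c.le').trans hNL') hLn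
  have hj : p ^ t ∣ j := by
    have h1 : φ ^ j ∈ N'.fixingSubgroup := by
      have h2 : (i * φ ^ j)⁻¹ * s ∈ N'.fixingSubgroup :=
        IntermediateField.fixingSubgroup_antitone (c.le'.trans hNL') hsj
      have h3 : φ ^ j = i⁻¹ * s * ((i * φ ^ j)⁻¹ * s)⁻¹ := by group
      rw [h3]
      exact mul_mem (mul_mem (inv_mem (hin i hi hiI)) hs) (inv_mem h2)
    have h2 := j_powc c hφm' j
    have h3 : γ ^ (mm * j) ∈ N'.fixingSubgroup := by
      have h4 : γ ^ (mm * j) = φ ^ j * ((γ ^ (mm * j))⁻¹ * φ ^ j)⁻¹ := by group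
      rw [h4]
      exact mul_mem h1 (inv_mem h2)
    exact j_arith hpp c.pos c.len hnd ((c.mid _).1 h3)
  have h1 : ac (W₀⁄F) ((i * φ ^ j)⁻¹ * s) T = T := hTL _ (IntermediateField.fixingSubgroup_antitone hL1 hsj)
  have h2 : s = (i * φ ^ j) * ((i * φ ^ j)⁻¹ * s) := by group
  rw [h2, H13T.c1_mul, h1, H13T.c1_mul]
  obtain ⟨r, rfl⟩ := hj
  have h3 : ac (W₀⁄F) (φ ^ (p ^ t * r)) T = T := by
    have h4 : ∀ P : Pt (W₀⁄F) (AlgebraicClosure F), p • P = 0 → acR (W₀⁄F) φ P = P := fun P hP => by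
      rw [acR_apply]
      exact j_dec hH hp c hU hB hV φ hφ hφD P hP
    have h5 := fix_lift (acR (W₀⁄F)) p φ h4 t T (by rw [pow_succ, mul_smul, smul_comm, hT, smul_zero])
    rw [acR_apply] at h5
    rw [pow_mul]
    clear hsj h1 h2
    induction r with
    | zero => rw [pow_zero, H13T.c1_one]
    | succ r ih => rw [pow_succ, H13T.c1_mul, h5, ih]
  rw [h3]
  exact c5_red hH hp hΔ hpv (ce_bel hv) i hiI t T (by
    rw [smul_sub, hT, sub_zero, ← map_nsmul, hT, map_zero])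

end H13V
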