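import Mathlib
import Pool.Agent.Lib.H13T.U2

/-!
# H13V: the algebraic side of theorem (T): definitions (the case p^t of H13T.D)

G is a group acting on an abelian group M (ρ), U a family of open subgroups, I v the inertia groups, D v the decomposition groups (v in Vs).
N ≤ H ≤ H₀ are the groups of the fields K ⊇ K' ⊇ M₀: K/M₀ abelian, η in H₀, η^p in H, η^(p^(t+1)) in N, H is generated by η^p and N.
R v: the relaxed places. Everything is used for G = Gal(Ω/F), M = E(Ω).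
-/

namespace H13V

open H55P H13T

variable {G M Vs : Type} [Group G] [AddCommGroup M]

/-- The data. -/
structure TS (ρ : G →* AddMonoid.End M) (p t : ℕ) (U : Set (Subgroup G)) (I D : Vs → Subgroup G) (N H H₀ : Subgroup G) (η : G)
    (R : Vs → Prop) : Prop where
  hp : p.Prime
  hUi : ∀ O ∈ U, ∀ O' ∈ U, O ⊓ O' ∈ U
  hUc : ∀ O ∈ U, ∀ g : G, ∃ O' ∈ U, ∀ s ∈ O', g * s * g⁻¹ ∈ O
  hN : N ∈ U
  hNH : N ≤ H
  hHH : H ≤ H₀
  hcomm : ∀ a ∈ H₀, ∀ b ∈ H₀, a * b * a⁻¹ * b⁻¹ ∈ N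
  hη : η ∈ H₀
  hηp : η ^ p ∈ H
  hηpp : η ^ (p ^ (t + 1)) ∈ N
  hgen : ∀ h ∈ H, ∃ i : ℕ, ∃ n ∈ N, h = (η ^ p) ^ i * n
  hconj : ∀ g ∈ H₀, ∀ v, ∃ v', (∀ s, s ∈ I v' ↔ g * s * g⁻¹ ∈ I v) ∧ (R v' ↔ R v)
  hDI : ∀ v, ∀ φ ∈ D v, ∀ s ∈ I v, φ * s * φ⁻¹ ∈ I v
  h0 : ∀ T : M, p • T = 0 → (∀ s ∈ N, ρ s T = T) → T = 0
  hdiv : ∀ T : M, ∃ T', p • T' = T
  hfix : ∀ T : M, ∃ O ∈ U, ∀ s ∈ O, ρ s T = T
  /-- the alternatives at the places which are not relaxed: unramified in the step H/N; good and not anomalous; no p-torsion fixed by inertia -/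
  hloc : ∀ v, ¬ R v → (∀ s ∈ H, s ∈ I v → s ∈ N) ∨
      ((∀ s ∈ H, s ∈ I v → ∀ (k : ℕ) (P : M), p ^ k • (ρ s P - P) = 0 → ρ s P = P) ∧
        ∀ T : M, p • T = 0 → (∀ s ∈ H, s ∈ D v → ρ s T = T) → T = 0) ∨
      (∀ c : G → M, IsC ρ (H ⊓ I v) c → (∀ s ∈ H ⊓ I v, p • c s = 0) → Cont U (H ⊓ I v) c →
        ∃ T : M, p • T = 0 ∧ ∀ s ∈ H ⊓ I v, c s = ρ s T - T)
  /-- the relaxed places: inertia acts trivially; the class of η modulo H is represented by an element of the decomposition group which acts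
  trivially on the points killed by p^t -/
  hR : ∀ v, R v → (∀ s ∈ H, s ∈ I v → ∀ (k : ℕ) (P : M), p ^ k • (ρ s P - P) = 0 → ρ s P = P) ∧
      ∃ φ ∈ D v, φ ∈ H₀ ∧ φ⁻¹ * η ∈ H ∧ ∀ T : M, p ^ t • T = 0 → ρ φ T = T
  sel : SelA ρ p U I H

/-- The relaxed classes over H: cocycles killed by p^t, trivial on inertia at the places which are not relaxed, zero on the part of the inertia
groups in N at the relaxed places. -/
structure RC (ρ : G →* AddMonoid.End M) (p t : ℕ) (U : Set (Subgroup G)) (I : Vs → Subgroup G) (N H : Subgroup G) (R : Vs → Prop)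
    (d : G → M) : Prop where
  coc : IsC ρ H d
  cont : Cont U H d
  kil : ∀ s ∈ H, p ^ t • d s = 0
  loc : ∀ v, ¬ R v → Tr ρ H (I v) d
  rel : ∀ v, R v → ∀ s ∈ N, s ∈ I v → d s = 0

/-- The index set of the relaxed primes of K': a place v w, an element τ w of its inertia group generating it modulo N, with τ w^(p^(ex w)) in
N; every relaxed place is conjugate under H to one of them. -/
structure TI (p t : ℕ) (I : Vs → Subgroup G) (N H : Subgroup G) (R : Vs → Prop) (ι : Type) (v : ι → Vs) (τ : ι → G) (ex : ι → ℕ) : Prop where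
  rel : ∀ w, R (v w)
  mem : ∀ w, τ w ∈ H
  ine : ∀ w, τ w ∈ I (v w)
  gen : ∀ w, ∀ s ∈ H, s ∈ I (v w) → ∃ i : ℕ, ∃ n ∈ N, n ∈ I (v w) ∧ s = τ w ^ i * n
  cov : ∀ u, R u → ∃ w, ∃ h ∈ H, ∀ s, s ∈ I u ↔ h * s * h⁻¹ ∈ I (v w)
  ord : ∀ w, τ w ^ p ^ ex w ∈ N
  le : ∀ w, ex w ≤ t

/-- The points killed by p^k. -/
def tk (M : Type) [AddCommGroup M] (p k : ℕ) : AddSubgroup M where
  carrier := {T | p ^ k • T = 0}
  zero_mem' := smul_zero _
  add_mem' := fun {a b} ha hb => by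
    show p ^ k • (a + b) = 0
    rw [smul_add, ha, hb, add_zero]
  neg_mem' := fun {a} ha => by
    show p ^ k • (-a) = 0
    rw [smul_neg, ha, neg_zero]

theorem mem_tk {p k : ℕ} {T : M} : T ∈ tk M p k ↔ p ^ k • T = 0 := Iff.rfl

/-- The p-primary part. -/
def pg (M : Type) [AddCommGroup M] (p : ℕ) : AddSubgroup M where
  carrier := {z | ∃ k : ℕ, p ^ k • z = 0}
  zero_mem' := ⟨0, smul_zero _⟩
  add_mem' := by
    rintro a b ⟨k, hk⟩ ⟨m, hm⟩
    refine ⟨k + m, ?_⟩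
    have h1 : (p ^ (k + m)) • a = 0 := by rw [pow_add, mul_comm, mul_smul, hk, smul_zero]
    have h2 : (p ^ (k + m)) • b = 0 := by rw [pow_add, mul_smul, hm, smul_zero]
    rw [smul_add, h1, h2, add_zero]
  neg_mem' := by
    rintro a ⟨k, hk⟩
    exact ⟨k, by rw [smul_neg, hk, neg_zero]⟩

theorem mem_pg {p : ℕ} {z : M} : z ∈ pg M p ↔ ∃ k : ℕ, p ^ k • z = 0 := Iff.rfl

end H13V
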