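import Mathlib
import Pool.Agent.Lib.H13V.C6
import Pool.Agent.Lib.H13V.D
import Pool.Agent.Lib.H41G.C

/-! # H13V, module C, file C8: the data TS for the curve -/

open NumberField IsDedekindDomain WeierstrassCurve

namespace H13V

open H55P H55K H55K.TQ H55K.S
open H35P (WAB)
open H13S (Abv)
open H13X (DecN)
open H55G (OkM LocOk)
open H13T (RV AnW exists_dta c3_fix c4_pow c5_red c7_cob cV mem_cV c1_in c1_dec c1_rv ce_p ce_val ce_bel ce_below ce_top)
open H41G (lo_below lo_main lo_cases lo_pow)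

open scoped Classical

variable {F : Type} [Field F] [NumberField F] [IQ F] {W₀ : WeierstrassCurve (𝓞 F)} {Om : ℂ}
  {m : Ideal (𝓞 F)} {ψ : Ideal (𝓞 F) →*₀ 𝓞 F} {p n t : ℕ} {M N' N : IntermediateField F (AlgebraicClosure F)}
  {γ : AlgebraicClosure F ≃ₐ[F] AlgebraicClosure F}

omit [IQ F] in
theorem j_fin [NumberField N'] [NumberField N] (c : CycJ p n t M N' N γ) : (AnW p W₀ N' N).Finite := by
  have hfd : FiniteDimensional F N := c.fin
  let _ := s13_alg c.le'
  have hgal : IsGalois N' N := s13_galois N' N c.le'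
    (fun g hg x hx => c.nrm g (IntermediateField.fixingSubgroup_antitone c.le hg) x hx)
  have hD : differentIdeal (𝓞 N') (𝓞 N) ≠ ⊥ := differentIdeal_ne_bot
  refine Set.Finite.subset (Set.Finite.image (fun W : HeightOneSpectrum (𝓞 N) => W.under (𝓞 N'))
    (Ideal.finite_factors (I := differentIdeal (𝓞 N') (𝓞 N)) hD)) ?_
  rintro w ⟨-, ⟨W, hWp, hW⟩, -⟩
  have hwm := w.isMaximal
  have hle : w.asIdeal.map (algebraMap (𝓞 N') (𝓞 N)) ≤ W ^ 2 :=
    Ideal.map_le_iff_le_comap.2 fun x hx => hW x (algebraMap (𝓞 N') (𝓞 N) x) hx rfl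
  have hne : W ≠ ⊥ := by
    intro h1
    have h2 : W ^ 2 = ⊥ := by
      rw [h1]
      exact zero_pow two_ne_zero
    rw [h2, le_bot_iff] at hle
    exact w.ne_bot ((Ideal.map_eq_bot_iff_of_injective (FaithfulSMul.algebraMap_injective (𝓞 N') (𝓞 N))).1 hle)
  refine ⟨⟨W, hWp, hne⟩, ?_, ?_⟩
  · have h2 : W ^ 2 ∣ w.asIdeal.map (algebraMap (𝓞 N') (𝓞 N)) := Ideal.dvd_iff_le.2 hle
    have h3 := pow_sub_one_dvd_differentIdeal (𝓞 N') W _ w.ne_bot h2
    have h4 : (2 - 1 : ℕ) = 1 := rfl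
    rw [h4, pow_one] at h3
    exact h3
  · apply HeightOneSpectrum.ext
    have h5 : w.asIdeal ≤ W.comap (algebraMap (𝓞 N') (𝓞 N)) :=
      Ideal.map_le_iff_le_comap.1 (hle.trans (Ideal.pow_le_self two_ne_zero))
    exact (hwm.eq_of_le (Ideal.comap_ne_top _ hWp.ne_top) h5).symm

/-- The local conditions at the places which are not relaxed. -/
theorem j_loc (hH : BaseH F W₀ Om m ψ) (hp : PrimeH F W₀ p) [NumberField M] [NumberField N'] [NumberField N]
    (c : CycJ p n t M N' N γ) (hU : UnrP p N) (hB : OkM p W₀ M) {V : ValuationSubring (AlgebraicClosure F)}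
    (hV : ¬ RV (W₀⁄F) p N' N V) : (∀ s ∈ N'.fixingSubgroup, Inert V s → s ∈ N.fixingSubgroup) ∨
      ((∀ s ∈ N'.fixingSubgroup, Inert V s → ∀ (k : ℕ) (P : Pt (W₀⁄F) (AlgebraicClosure F)),
          p ^ k • (ac (W₀⁄F) s P - P) = 0 → ac (W₀⁄F) s P = P) ∧
        ∀ T : Pt (W₀⁄F) (AlgebraicClosure F), p • T = 0 → (∀ s ∈ N'.fixingSubgroup, Dec V s → ac (W₀⁄F) s T = T) → T = 0) ∨
      (V.valuation (p : AlgebraicClosure F) = 1 ∧ ∀ T : Pt (W₀⁄F) (AlgebraicClosure F), p • T = 0 →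
        (∀ s ∈ N'.fixingSubgroup, Inert V s → ac (W₀⁄F) s T = T) → T = 0) := by
  have hpp := hp.prime
  obtain ⟨hMN, -, hNN⟩ := j_pext hpp.pos c
  have hfin : FiniteDimensional F N := c.fin
  have hfin' : FiniteDimensional F N' := inferInstance
  rcases below_cases N' V with ⟨w, hw⟩ | h
  swap
  · left
    intro s _ hi
    rw [h s hi]
    exact one_mem _
  by_cases hin : ∀ s ∈ N'.fixingSubgroup, Inert V s → s ∈ N.fixingSubgroup
  · exact Or.inl hin
  right
  have hin' : ∃ s ∈ N'.fixingSubgroup, Inert V s ∧ s ∉ N.fixingSubgroup := by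
    by_contra h1
    exact hin fun s hs hi => by
      by_contra h2
      exact h1 ⟨s, hs, hi, h2⟩
  have hno : ∀ T : Pt (W₀⁄F) (AlgebraicClosure F), p • T = 0 → (∀ s ∈ N'.fixingSubgroup, Dec V s → ac (W₀⁄F) s T = T) → T = 0 := by
    intro T hT hs
    by_contra hT0
    exact hV ⟨hin', T, hT0, hT, hs⟩
  have hram : Ram N' N w.asIdeal := by
    by_contra hr
    refine hin (inert_mem N' N c.le' (fun s hs x hx => c.nrm s (IntermediateField.fixingSubgroup_antitone c.le hs) x hx) V fun v hv => ?_)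
    have e1 : v = w := by
      apply HeightOneSpectrum.ext
      ext x
      rw [hv x, hw x]
    rw [e1]
    exact hr
  have hpw : (p : 𝓞 N') ∉ w.asIdeal := H13R.g6_ram_p hpp hNN c.le' le_rfl hU hram
  by_cases hΔ : algebraMap (𝓞 F) (𝓞 N') W₀.Δ ∈ w.asIdeal
  · obtain ⟨v, hv, hvΔ⟩ := lo_below c.le hw
    rcases lo_cases hH hp hMN hB c.le' hv ((hvΔ _).2 hΔ) with h1 | h1
    · exact Or.inr ⟨val_below N' V w hw p hpw, h1⟩
    · exact Or.inl ⟨fun s hs hi k P h =>
        lo_pow h1 (IntermediateField.fixingSubgroup_antitone c.le hs) hi k P h, hno⟩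
  · left
    exact ⟨fun s _ hi k P h => c5_red hH hp hΔ hpw hw s hi k P h, hno⟩

/-- The data TS. -/
theorem j_ts (hH : BaseH F W₀ Om m ψ) (hp : PrimeH F W₀ p) [NumberField M] [NumberField N'] [NumberField N]
    (c : CycJ p n t M N' N γ) (hU : UnrP p N) (hB : OkM p W₀ M) (hS : SelG p W₀ N') (few : (AnW p W₀ N' N).ncard < p ^ (n + 1 - t)) :
    TS (SSG.galS (W₀⁄F) (AlgebraicClosure F)).act p t (SSG.galS (W₀⁄F) (AlgebraicClosure F)).U (inS F) (decS F) N.fixingSubgroup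
      N'.fixingSubgroup M.fixingSubgroup (γ ^ p ^ (n - 1)) (RV (W₀⁄F) p N' N) := by
  have hNf : FiniteDimensional F N := c.fin
  have hell : (W₀⁄F).IsElliptic := gen_ell W₀ hH.data.ell
  obtain ⟨hp1, hp2, hp3⟩ := j_pext hp.prime.pos c
  obtain ⟨he1, he2, he3⟩ := j_eta c
  have hUM : UnrP p M := H13R.unr_le hp.prime (c.le.trans c.le') hU
  refine
    { hp := hp.prime
      hUi := ?_
      hUc := ?_
      hN := ⟨N, c.fin, rfl⟩
      hNH := IntermediateField.fixingSubgroup_antitone c.le'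
      hHH := IntermediateField.fixingSubgroup_antitone c.le
      hcomm := j_comm c
      hη := he1
      hηp := he2
      hηpp := he3
      hgen := j_gen c
      hconj := fun g hg v => ⟨cV v g, fun s => c1_in v g s,
        c1_rv (W₀⁄F) p N' N v g (j_iff c g hg).1 (j_iff c g hg).2⟩
      hDI := fun v φ hφ s hs => inS_dec v φ hφ s hs
      h0 := fun T hT hf => H13R.tors_KR hH hp hUM hp1 le_rfl T hT hf
      hdiv := fun T => div_pt (W₀⁄F) p hp.prime.pos T
      hfix := ?_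
      hloc := ?_
      hR := ?_
      sel := (sel_iff (W₀⁄F) p N').1 hS }
  · rintro _ ⟨L, hL, rfl⟩ _ ⟨L', hL', rfl⟩
    exact ⟨L ⊔ L', IntermediateField.finiteDimensional_sup L L',
      (IntermediateField.fixingSubgroup_sup).symm⟩
  · rintro _ ⟨L, hL, rfl⟩ g
    refine ⟨(L.map (g⁻¹ : AlgebraicClosure F ≃ₐ[F] AlgebraicClosure F).toAlgHom).fixingSubgroup, ⟨_, ?_, rfl⟩, ?_⟩
    · exact LinearEquiv.finiteDimensional
        (IntermediateField.equivMap L (g⁻¹ : AlgebraicClosure F ≃ₐ[F] AlgebraicClosure F).toAlgHom).toLinearEquiv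
    · intro s hs
      rw [s3_mem] at hs ⊢
      intro x hx
      have h1 : g (g⁻¹ x) = x := g.apply_symm_apply x
      have h2 : s (g⁻¹ x) = g⁻¹ x := hs _ ⟨x, hx, rfl⟩
      rw [AlgEquiv.mul_apply, AlgEquiv.mul_apply, h2, h1]
  · intro T
    obtain ⟨L, hL, h⟩ := pt_open (W₀⁄F) T
    exact ⟨L.fixingSubgroup, ⟨L, hL, rfl⟩, h⟩
  · intro v hv
    rcases j_loc hH hp c hU hB hv with h | h | ⟨h1, h2⟩
    · exact Or.inl h
    · exact Or.inr (Or.inl h)
    · refine Or.inr (Or.inr fun d hd hpd hco => ?_)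
      obtain ⟨O, ⟨L, hL, rfl⟩, hO⟩ := hco
      exact c7_cob hH hp v h1 h2 d hd hpd ⟨L, hL, hO⟩
  · intro v hv
    obtain ⟨w, hw, hwV⟩ := j_below hH hp c hU hB hv
    obtain ⟨φ, h1, h2, h3⟩ := j_phi hH hp c hU hB (j_fin c) few hv
    refine ⟨fun s _ hs k P h => c5_red hH hp hw.1 (j_p hp c hU hw) (ce_bel hwV) s hs k P h,
      φ ^ p ^ (t - 1), pow_mem (show φ ∈ decS F v from h2) _, pow_mem h1 _, ?_, fun T hT => ?_⟩
    · have h4 : (γ ^ p ^ (n - t))⁻¹ * φ ∈ N'.fixingSubgroup := by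
        have h5 : (γ ^ p ^ (n - t))⁻¹ * φ = (φ⁻¹ * γ ^ p ^ (n - t))⁻¹ := by group
        rw [h5]
        exact inv_mem h3
      have h5 := j_powc c h4 (p ^ (t - 1))
      have h6 : p ^ (n - t) * p ^ (t - 1) = p ^ (n - 1) := by
        have h7 := c.pos
        have h8 := c.len
        rw [← pow_add]
        congr 1
        omega
      rw [h6] at h5
      have h7 : (φ ^ p ^ (t - 1))⁻¹ * γ ^ p ^ (n - 1) = ((γ ^ p ^ (n - 1))⁻¹ * φ ^ p ^ (t - 1))⁻¹ := by group
      rw [h7]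
      exact inv_mem h5
    · have h4 : t = (t - 1) + 1 := by
        have := c.pos
        omega
      rw [h4] at hT
      refine fix_lift (SSG.galS (W₀⁄F) (AlgebraicClosure F)).act p φ (fun P hP => ?_) (t - 1) T hT
      exact j_dec hH hp c hU hB hv φ h1 h2 P hP

end H13V
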