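import Mathlib
import Pool.Agent.Lib.H13V.D
import Pool.Agent.Lib.H55P.SA3
import Pool.Agent.Lib.H13T.U4

/-! # H13V, U4: a class over N invariant under η^p comes from a relaxed class over H -/

namespace H13V

open H55P H13T

variable {G M Vs : Type} [Group G] [AddCommGroup M] {ρ : G →* AddMonoid.End M} {p t : ℕ} {U : Set (Subgroup G)} {I D : Vs → Subgroup G}
  {N H H₀ : Subgroup G} {η : G} {R : Vs → Prop}

theorem fix_pow (S : TS ρ p t U I D N H H₀ η R) (k : ℕ) (T : M) (hT : p ^ k • T = 0) (hf : ∀ s ∈ N, ρ s T = T) : T = 0 := by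
  induction k with
  | zero => rwa [pow_zero, one_smul] at hT
  | succ k ih =>
    refine ih (S.h0 _ ?_ ?_)
    · rw [← mul_smul, ← pow_succ']
      exact hT
    · intro s hs
      rw [map_nsmul, hf s hs]

theorem ts_ext (S : TS ρ p t U I D N H H₀ η R) (k : ℕ) (c : G → M) (hc : IsC ρ N c) (hk : ∀ s ∈ N, p ^ k • c s = 0)
    (hb : ∃ T : M, p ^ k • T = 0 ∧ ∀ s ∈ N, ρ (η ^ p) (c ((η ^ p)⁻¹ * s * η ^ p)) - c s = ρ s T - T) :
    ∃ d : G → M, IsC ρ H d ∧ (∀ s ∈ H, p ^ k • d s = 0) ∧ ∀ s ∈ N, d s = c s := by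
  have hcH : ∀ a ∈ H, ∀ b ∈ H, a * b * a⁻¹ * b⁻¹ ∈ N := fun a ha b hb => S.hcomm a (S.hHH ha) b (S.hHH hb)
  have hn := sa3_norm S.hNH hcH
  have hn' := sa3_norm' S.hNH hcH
  have hI : sa3_I ρ (p ^ k) N c (η ^ p) := hb
  have hI1 : ∀ n ∈ N, sa3_I ρ (p ^ k) N c n := fun n hn => ⟨c n, hk n hn, fun s hs => sa3_self hc n hn s hs⟩
  have hI2 : ∀ i : ℕ, sa3_I ρ (p ^ k) N c ((η ^ p) ^ i) := by
    intro i
    induction i with
    | zero =>
      rw [pow_zero]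
      exact hI1 1 N.one_mem
    | succ i ih =>
      rw [pow_succ' (η ^ p) i]
      exact sa3_I_mul (hn' _ S.hηp) hI ih
  have hinv : ∀ g ∈ H, sa3_I ρ (p ^ k) N c g := by
    intro g hg
    obtain ⟨i, n, hnN, rfl⟩ := S.hgen g hg
    exact sa3_I_mul (hn' _ (H.pow_mem S.hηp i)) (hI2 i) (hI1 n hnN)
  exact ext_coc ρ (p ^ k) N H S.hNH hn (fun T hT hf => fix_pow S k T hT hf) c hc hk hinv

theorem pow_mem (S : TS ρ p t U I D N H H₀ η R) (s : G) (hs : s ∈ H) : s ^ p ^ t ∈ N := by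
  obtain ⟨i, n, hn, rfl⟩ := S.hgen s hs
  have ha : (η ^ p) ^ i ∈ H₀ := H₀.pow_mem (H₀.pow_mem S.hη p) i
  have h1 := u4_pow (N := N) (a := (η ^ p) ^ i) (n := n)
    (fun x hx => sa3_norm' (S.hNH.trans S.hHH) S.hcomm _ ha x hx) hn (p ^ t)
  have h2 : ((η ^ p) ^ i) ^ p ^ t ∈ N := by
    have e : ((η ^ p) ^ i) ^ p ^ t = (η ^ (p ^ (t + 1))) ^ i := by
      rw [← pow_mul, ← pow_mul, ← pow_mul]
      congr 1
      rw [pow_succ]
      ring
    rw [e]
    exact N.pow_mem S.hηpp i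
  have h3 := N.mul_mem h2 h1
  rwa [mul_inv_cancel_left] at h3

theorem ts_rel (S : TS ρ p t U I D N H H₀ η R) (k : ℕ) (c : G → M) (hc : IsC ρ N c) (hk : ∀ s ∈ N, p ^ k • c s = 0)
    (hco : Cont U N c) (hl : ∀ v, Tr ρ N (I v) c)
    (hb : ∃ T : M, p ^ k • T = 0 ∧ ∀ s ∈ N, ρ (η ^ p) (c ((η ^ p)⁻¹ * s * η ^ p)) - c s = ρ s T - T) :
    ∃ (e : G → M) (T' : M), RC ρ p t U I N H R e ∧ p ^ (k + t) • T' = 0 ∧ ∀ s ∈ N, c s = e s + (ρ s T' - T') := by
  obtain ⟨d, hd1, hd2, hd3⟩ := ts_ext S k c hc hk hb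
  obtain ⟨O, hO, hO1⟩ := hco
  have hNO : N ⊓ O ∈ U := S.hUi N S.hN O hO
  have hdO : ∀ s ∈ H, s ∈ N ⊓ O → d s = 0 := fun s _ h => by rw [hd3 s h.1, hO1 s h.1 h.2]
  have hcommH : ∀ a ∈ H, ∀ b ∈ H, a * b * a⁻¹ * b⁻¹ ∈ N := fun a ha b hb =>
    S.hcomm a (S.hHH ha) b (S.hHH hb)
  -- the places which are not relaxed
  have ha : ∀ v, ¬ R v → Tr ρ H (I v) d := by
    intro v hv
    rcases S.hloc v hv with h | ⟨h1, h2⟩ | h3
    · obtain ⟨P, hP⟩ := hl v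
      exact ⟨P, fun s hs hI => by rw [hd3 s (h s hs hI), hP s (h s hs hI) hI]⟩
    · refine sa3_loc (p ^ k) I D N H S.hNH hcommH S.hDI v (Or.inr ⟨fun s hs hI P hP => h1 s hs hI k P hP, ?_⟩)
        c d (hl v) hk hd1 hd2 hd3
      intro T hT hf
      exact u4_fix ρ p (fun s => s ∈ H ∧ s ∈ D v) (fun T hT hf => h2 T hT fun s hs hD => hf s ⟨hs, hD⟩) k T hT
        fun s hs => hf s hs.1 hs.2
    · obtain ⟨T, _, hT⟩ := pow_all ρ S.hUi S.hdiv S.hfix h3 k d (fun s hs t ht => hd1 s hs.1 t ht.1)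
        (fun s hs => hd2 s hs.1) ⟨N ⊓ O, hNO, fun s hs h => hdO s hs.1 h⟩
      exact ⟨T, fun s hs hI => hT s ⟨hs, hI⟩⟩
  -- the relaxed places
  have hbR : ∀ v, R v → ∀ s ∈ H, s ∈ I v → p ^ t • d s = 0 := by
    intro v hv s hs hI
    obtain ⟨hRv, -⟩ := S.hR v hv
    have triv : ∀ t ∈ H, t ∈ I v → ∀ x : M, p ^ k • x = 0 → ρ t x = x := by
      intro t ht hIt x hx
      refine hRv t ht hIt k x ?_
      rw [smul_sub, ← map_nsmul, hx, map_zero, sub_zero]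
    have h1 : d 1 = 0 := by
      have := hd1 1 H.one_mem 1 H.one_mem
      rw [mul_one, sa3_one] at this
      exact left_eq_add.1 this
    have hdp : ∀ i : ℕ, d (s ^ i) = i • d s := by
      intro i
      induction i with
      | zero => rw [pow_zero, h1, zero_smul]
      | succ i ih =>
        rw [pow_succ, hd1 _ (H.pow_mem hs i) s hs, ih, triv _ (H.pow_mem hs i) ((I v).pow_mem hI i) _ (hd2 s hs),
          succ_nsmul]
    have hspN := pow_mem S s hs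
    have hspI : s ^ p ^ t ∈ I v := (I v).pow_mem hI (p ^ t)
    obtain ⟨P, hP⟩ := hl v
    have h2 := hP _ hspN hspI
    have h3 : ρ (s ^ p ^ t) P = P := hRv _ (H.pow_mem hs (p ^ t)) hspI k P (by rw [← h2]; exact hk _ hspN)
    rw [← hdp (p ^ t), hd3 _ hspN, h2, h3, sub_self]
  -- the class `p ^ t d`
  obtain ⟨T, hT, hTd⟩ := pow_sel ρ S.hUi S.hdiv S.hfix S.sel k (fun s => p ^ t • d s)
    (fun s hs u hu => by
      show p ^ t • d (s * u) = p ^ t • d s + ρ s (p ^ t • d u)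
      rw [hd1 s hs u hu, smul_add, map_nsmul])
    ⟨N ⊓ O, hNO, fun s hs h => by
      show p ^ t • d s = 0
      rw [hdO s hs h, smul_zero]⟩
    (fun s hs => by
      show p ^ k • p ^ t • d s = 0
      rw [smul_comm, hd2 s hs, smul_zero])
    (fun v => by
      by_cases hv : R v
      · refine ⟨0, fun s hs hI => ?_⟩
        show p ^ t • d s = _
        rw [hbR v hv s hs hI, map_zero, sub_zero]
      · obtain ⟨P, hP⟩ := ha v hv
        refine ⟨p ^ t • P, fun s hs hI => ?_⟩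
        show p ^ t • d s = _
        rw [hP s hs hI, smul_sub, map_nsmul])
  have hTd' : ∀ s ∈ H, p ^ t • d s = ρ s T - T := hTd
  obtain ⟨T', hT'⟩ := div_pow S.hdiv t T
  obtain ⟨O', hO', hfO'⟩ := S.hfix T'
  have hkil : ∀ s ∈ H, p ^ t • (d s - (ρ s T' - T')) = 0 := by
    intro s hs
    rw [smul_sub, smul_sub, ← map_nsmul, hT', hTd' s hs, sub_self]
  refine ⟨fun s => d s - (ρ s T' - T'), T', ?_, ?_, fun s hs => ?_⟩
  · refine ⟨fun s hs t ht => ?_, ⟨(N ⊓ O) ⊓ O', S.hUi _ hNO _ hO', fun s hs h => ?_⟩, hkil, fun v hv => ?_,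
      fun v hv s hs hI => ?_⟩
    · show d (s * t) - (ρ (s * t) T' - T') = d s - (ρ s T' - T') + ρ s (d t - (ρ t T' - T'))
      rw [hd1 s hs t ht, sa3_mul, map_sub, map_sub]
      abel
    · show d s - (ρ s T' - T') = 0
      rw [hdO s hs h.1, hfO' s h.2, sub_self, sub_zero]
    · obtain ⟨P, hP⟩ := ha v hv
      refine ⟨P - T', fun s hs hI => ?_⟩
      show d s - (ρ s T' - T') = _
      rw [hP s hs hI, map_sub]
      abel
    · show d s - (ρ s T' - T') = 0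
      obtain ⟨P, hP⟩ := hl v
      have hsH := S.hNH hs
      have h1 : d s - (ρ s T' - T') = ρ s (P - T') - (P - T') := by
        rw [hd3 s hs, hP s hs hI, map_sub]
        abel
      have h2 : ρ s (P - T') = P - T' := by
        refine (S.hR v hv).1 s hsH hI t _ ?_
        rw [← h1]
        exact hkil s hsH
      rw [h1, h2, sub_self]
  · rw [pow_add, mul_smul, hT', hT]
  · show c s = d s - (ρ s T' - T') + (ρ s T' - T')
    rw [sub_add_cancel, hd3 s hs]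

/-- η acts trivially on the relaxed classes. -/
theorem ts_eta (S : TS ρ p t U I D N H H₀ η R) (e : G → M) (he : RC ρ p t U I N H R e) :
    ∃ T : M, p ^ t • T = 0 ∧ ∀ s ∈ H, ρ η (e (η⁻¹ * s * η)) - e s = ρ s T - T := by
  have hnH : ∀ g ∈ H₀, ∀ s ∈ H, g⁻¹ * s * g ∈ H := fun g hg s hs =>
    sa3_norm' S.hHH (fun a ha b hb => S.hNH (S.hcomm a ha b hb)) g hg s hs
  have hn := hnH η S.hη
  refine pow_sel ρ S.hUi S.hdiv S.hfix S.sel t (fun s => ρ η (e (η⁻¹ * s * η)) - e s) (fun s hs t ht => ?_) ?_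
    (fun s hs => ?_) (fun v => ?_)
  · show ρ η (e (η⁻¹ * (s * t) * η)) - e (s * t) =
      ρ η (e (η⁻¹ * s * η)) - e s + ρ s (ρ η (e (η⁻¹ * t * η)) - e t)
    have e1 : η⁻¹ * (s * t) * η = (η⁻¹ * s * η) * (η⁻¹ * t * η) := by group
    have e2 : ρ η (ρ (η⁻¹ * s * η) (e (η⁻¹ * t * η))) = ρ s (ρ η (e (η⁻¹ * t * η))) := by
      rw [← sa3_mul, ← sa3_mul]
      congr 2
      group
    rw [e1, he.coc _ (hn s hs) _ (hn t ht), map_add, e2, he.coc s hs t ht, map_sub]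
    abel
  · obtain ⟨O, hO, h⟩ := he.cont
    obtain ⟨O', hO', h'⟩ := S.hUc O hO η⁻¹
    refine ⟨O ⊓ O', S.hUi O hO O' hO', fun s hs hsO => ?_⟩
    have h1 := h' s hsO.2
    rw [inv_inv] at h1
    show ρ η (e (η⁻¹ * s * η)) - e s = 0
    rw [h _ (hn s hs) h1, h s hs hsO.1, map_zero, sub_zero]
  · show p ^ t • (ρ η (e (η⁻¹ * s * η)) - e s) = 0
    rw [smul_sub, sa3_nsmul ρ (p ^ t) η _ (he.kil _ (hn s hs)), he.kil s hs, sub_zero]
  · by_cases hv : R v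
    · obtain ⟨hRv, φ, hφD, hφH, hφη, hφT⟩ := S.hR v hv
      refine ⟨0, fun s hs hI => ?_⟩
      show ρ η (e (η⁻¹ * s * η)) - e s = ρ s 0 - 0
      rw [map_zero, sub_zero, sub_eq_zero]
      have triv : ∀ u ∈ H, u ∈ I v → ∀ x : M, p ^ t • x = 0 → ρ u x = x := by
        intro u hu hIt x hx
        refine hRv u hu hIt t x ?_
        rw [smul_sub, ← map_nsmul, hx, map_zero, sub_zero]
      have hs' : φ⁻¹ * s * φ ∈ H := hnH φ hφH s hs
      have hI' : φ⁻¹ * s * φ ∈ I v := by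
        have := S.hDI v φ⁻¹ ((D v).inv_mem hφD) s hI
        rwa [inv_inv] at this
      have e1 : η⁻¹ * s * η = (φ⁻¹ * η)⁻¹ * (φ⁻¹ * s * φ) * (φ⁻¹ * η) := by group
      have h1 := sa3_self he.coc (φ⁻¹ * η) hφη (φ⁻¹ * s * φ) hs'
      rw [triv _ hs' hI' _ (he.kil _ hφη), sub_self, sub_eq_zero, ← e1] at h1
      have h2 : ρ η (e (η⁻¹ * s * η)) = ρ φ (ρ (φ⁻¹ * η) (e (η⁻¹ * s * η))) := by
        rw [← sa3_mul, mul_inv_cancel_left]
      rw [h2, h1, hφT _ (he.kil _ hs')]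
      have huN : φ⁻¹ * s * φ * s⁻¹ ∈ N := by
        have := S.hcomm φ⁻¹ (H₀.inv_mem hφH) s (S.hHH hs)
        rwa [inv_inv] at this
      have huI : φ⁻¹ * s * φ * s⁻¹ ∈ I v := (I v).mul_mem hI' ((I v).inv_mem hI)
      have h3 := he.coc _ (S.hNH huN) s hs
      rw [inv_mul_cancel_right, he.rel v hv _ huN huI, zero_add, triv _ (S.hNH huN) huI _ (he.kil s hs)] at h3
      exact h3
    · obtain ⟨v', hv1, hv2⟩ := S.hconj η S.hη v
      obtain ⟨P', hP'⟩ := he.loc v' fun h => hv (hv2.1 h)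
      obtain ⟨P, hP⟩ := he.loc v hv
      refine ⟨ρ η P' - P, fun s hs hI => ?_⟩
      show ρ η (e (η⁻¹ * s * η)) - e s = _
      have h1 : η⁻¹ * s * η ∈ I v' := by
        rw [hv1]
        have e1 : η * (η⁻¹ * s * η) * η⁻¹ = s := by group
        rw [e1]
        exact hI
      rw [hP' _ (hn s hs) h1, sa3_bd, hP s hs hI, map_sub]
      abel

end H13V
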