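import Mathlib
import Pool.Agent.Lib.H13Y.GN3
import Pool.Agent.Lib.H99B.A1

/-! # H13V, KB1: lower bound for the order of the group of equivariant homomorphisms modulo p^t -/

namespace H13V

open H99B (IsRho cf pw chs)
open scoped Classical

section ex

variable {G : Type} [Group G] {T X Y Z : Type} [AddCommGroup T] [AddCommGroup X] [AddCommGroup Y] [AddCommGroup Z]
  [DistribMulAction G T] [DistribMulAction G X] [DistribMulAction G Y] [DistribMulAction G Z]

/-- Equivariant homomorphisms. -/
def HG (G T X : Type) [Group G] [AddCommGroup T] [AddCommGroup X] [DistribMulAction G T] [DistribMulAction G X] : Type :=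
  {f : T →+ X // ∀ (g : G) (x : T), f (g • x) = g • f x}

instance HG_finite [Finite T] [Finite X] : Finite (HG G T X) := by
  have : Finite (T →+ X) := Finite.of_injective (fun f => (f : T → X)) DFunLike.coe_injective
  exact inferInstanceAs (Finite {f : T →+ X // ∀ (g : G) (x : T), f (g • x) = g • f x})

/-- A free module over Z/n has the lifting property. -/
theorem tb_lift {n r : ℕ} (e : T ≃+ (Fin r → ZMod n)) (hX : ∀ x : X, n • x = 0) (ρ : X →+ Y) (hρ : Function.Surjective ρ)
    (f : T →+ Y) : ∃ g : T →+ X, ∀ x, ρ (g x) = f x := by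
  choose s hs using hρ
  let c : Fin r → X := fun j => s (f (e.symm (Pi.single j 1)))
  let L : Fin r → (ZMod n →+ X) := fun j => ZMod.lift n ⟨zmultiplesHom X (c j), by
    simp only [zmultiplesHom_apply, natCast_zsmul]
    exact hX _⟩
  have hL : ∀ j (z : ℤ), L j (z : ZMod n) = z • c j := fun j z => by simp [L]
  let g : T →+ X := (∑ j, (L j).comp (Pi.evalAddMonoidHom (fun _ : Fin r => ZMod n) j)).comp e.toAddMonoidHom
  refine ⟨g, fun x => ?_⟩
  have h1 : ρ (g x) = ∑ j, ρ (L j (e x j)) := by
    simp [g, AddMonoidHom.finsetSum_apply, map_sum]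
  have h2 : ∀ j, ρ (L j (e x j)) = f (e.symm (Pi.single j (e x j))) := by
    intro j
    obtain ⟨z, hz⟩ := ZMod.intCast_surjective (e x j)
    rw [← hz, hL, map_zsmul]
    have h3 : (Pi.single j ((z : ℤ) : ZMod n) : Fin r → ZMod n) = z • Pi.single j 1 := by
      rw [← Pi.single_smul, zsmul_eq_mul, mul_one]
    rw [h3, map_zsmul, map_zsmul]
    show z • ρ (s _) = _
    rw [hs]
  rw [h1]
  simp only [h2]
  rw [← map_sum, ← map_sum, Finset.univ_sum_single, AddEquiv.symm_apply_apply]

/-- The equivariant lifting property. -/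
theorem tb_liftG [Fintype G] {n r : ℕ} (hn : Nat.Coprime (Fintype.card G) n) (e : T ≃+ (Fin r → ZMod n)) (hX : ∀ x : X, n • x = 0)
    (ρ : X →+ Y) (hρ : Function.Surjective ρ) (hρG : ∀ (g : G) x, ρ (g • x) = g • ρ x)
    (f : HG G T Y) : ∃ g : HG G T X, ∀ x, ρ (g.1 x) = f.1 x := by
  obtain ⟨g0, hg0⟩ := tb_lift e hX ρ hρ f.1
  obtain ⟨u, hu⟩ : ∃ u : ℤ, (n : ℤ) ∣ u * (Fintype.card G : ℤ) - 1 := by
    have h1 : IsCoprime ((Fintype.card G : ℕ) : ℤ) (n : ℤ) := Nat.isCoprime_iff_coprime.2 hn
    obtain ⟨a, b, hab⟩ := h1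
    exact ⟨a, -b, by rw [← hab]; ring⟩
  let g : T →+ X :=
    { toFun := fun x => u • ∑ s : G, s • g0 (s⁻¹ • x)
      map_zero' := by simp
      map_add' := fun x y => by
        rw [← smul_add, ← Finset.sum_add_distrib]
        congr 1
        refine Finset.sum_congr rfl fun s _ => ?_
        rw [smul_add, map_add, smul_add] }
  have hgx : ∀ x, g x = u • ∑ s : G, s • g0 (s⁻¹ • x) := fun _ => rfl
  have hzs : ∀ (h : G) (z : ℤ) (x : X), h • (z • x) = z • (h • x) := fun h z x =>
    map_zsmul (DistribSMul.toAddMonoidHom X h) z x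
  refine ⟨⟨g, fun h x => ?_⟩, fun x => ?_⟩
  · rw [hgx, hgx, hzs]
    refine congrArg (fun y : X => u • y) ?_
    have h5 : h • (∑ s : G, s • g0 (s⁻¹ • x)) = ∑ s : G, h • (s • g0 (s⁻¹ • x)) := Finset.smul_sum
    rw [h5]
    refine Fintype.sum_equiv (Equiv.mulLeft h⁻¹) _ _ fun s => ?_
    rw [Equiv.coe_mulLeft, smul_smul, smul_smul, ← mul_assoc, mul_inv_cancel, one_mul, mul_inv_rev, inv_inv]
  · change ρ (g x) = f.1 x
    rw [hgx, map_zsmul, map_sum]
    have h2 : ∀ s : G, ρ (s • g0 (s⁻¹ • x)) = f.1 x := fun s => by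
      rw [hρG, hg0, ← f.2, smul_smul, mul_inv_cancel, one_smul]
    simp only [h2]
    rw [Finset.sum_const, Finset.card_univ, ← natCast_zsmul, smul_smul]
    obtain ⟨v, hv⟩ := hu
    have h3 : u * (Fintype.card G : ℤ) = n * v + 1 := by linarith
    have h4 : ∀ y : Y, n • y = 0 := fun y => by
      obtain ⟨x, rfl⟩ := hρ y
      rw [← map_nsmul, hX, map_zero]
    rw [h3, add_smul, one_smul, mul_smul, natCast_zsmul, h4, zero_add]

/-- The count in an exact sequence. -/
theorem tb_ex [Fintype G] [Finite T] [Finite X] {n r : ℕ} (hn : Nat.Coprime (Fintype.card G) n) (e : T ≃+ (Fin r → ZMod n))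
    (hX : ∀ x : X, n • x = 0)
    (ρ : X →+ Y) (hρ : Function.Surjective ρ) (hρG : ∀ (g : G) x, ρ (g • x) = g • ρ x)
    (i : Z →+ X) (hi : Function.Injective i) (hiG : ∀ (g : G) x, i (g • x) = g • i x) (h0 : ∀ z, ρ (i z) = 0) :
    Nat.card (HG G T Z) * Nat.card (HG G T Y) ≤ Nat.card (HG G T X) := by
  choose l hl using fun f : HG G T Y => tb_liftG hn e hX ρ hρ hρG f
  rw [← Nat.card_prod]
  let Φ : HG G T Z × HG G T Y → HG G T X := fun w =>
    ⟨i.comp w.1.1 + (l w.2).1, fun g x => by
      rw [AddMonoidHom.add_apply, AddMonoidHom.add_apply, AddMonoidHom.comp_apply, AddMonoidHom.comp_apply, w.1.2, hiG,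
        (l w.2).2, smul_add]⟩
  refine Nat.card_le_card_of_injective Φ fun a b hab => ?_
  have h1 : ∀ x, i (a.1.1 x) + (l a.2).1 x = i (b.1.1 x) + (l b.2).1 x := fun x =>
    DFunLike.congr_fun (congrArg Subtype.val hab) x
  have h2 : a.2 = b.2 := by
    apply Subtype.ext
    ext x
    have h3 := congrArg ρ (h1 x)
    rw [map_add, map_add, h0, h0, zero_add, zero_add, hl, hl] at h3
    exact h3
  refine Prod.ext ?_ h2
  apply Subtype.ext
  ext x
  have h3 := h1 x
  rw [h2, add_left_inj] at h3
  exact hi h3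

end ex

section base

variable {p : ℕ} [Fact p.Prime] {k : Type} [Field k] [Fintype k] [CharP k p] {G : Type} [Group G] [Fintype G]
  {X : Type} [AddCommGroup X] [DistribMulAction G X]

/-- The equivariant homomorphisms from k. -/
def HK (χ : G →* kˣ) (X : Type) [AddCommGroup X] [DistribMulAction G X] : AddSubgroup (k →+ X) where
  carrier := {f | ∀ (g : G) (a : k), f ((χ g : k) * a) = g • f a}
  zero_mem' := fun g a => by simp
  add_mem' := fun {f f'} hf hf' g a => by
    rw [AddMonoidHom.add_apply, AddMonoidHom.add_apply, hf, hf', smul_add]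
  neg_mem' := fun {f} hf g a => by
    rw [AddMonoidHom.neg_apply, AddMonoidHom.neg_apply, hf, smul_neg]

instance HK_module (χ : G →* kˣ) : Module k (HK χ X) where
  smul c f := ⟨f.1.comp (AddMonoidHom.mulLeft c), fun g a => by
    have h := f.2 g (c * a)
    rw [← mul_assoc, mul_comm (χ g : k) c, mul_assoc] at h
    exact h⟩
  one_smul f := Subtype.ext (by ext a; exact congrArg f.1 (one_mul a))
  mul_smul c d f := Subtype.ext (by
    ext a
    have h : c * d * a = d * (c * a) := by ring
    exact congrArg f.1 h)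
  smul_zero c := Subtype.ext (by ext a; rfl)
  smul_add c f g := Subtype.ext (by ext a; rfl)
  add_smul c d f := Subtype.ext (by
    ext a
    have h : (c + d) * a = c * a + d * a := by ring
    exact (congrArg f.1 h).trans (map_add f.1 _ _))
  zero_smul f := Subtype.ext (by
    ext a
    have h : (0 : k) * a = 0 := zero_mul a
    exact (congrArg f.1 h).trans (map_zero f.1))

theorem HK_smul_apply (χ : G →* kˣ) (c : k) (f : HK χ X) (a : k) : (c • f).1 a = f.1 (c * a) := rfl

theorem kb1_sum_congr {y : X} (hy : p • y = 0) {m n : ℤ} (h : (m : ZMod p) = n) : m • y = n • y := by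
  rw [ZMod.intCast_eq_intCast_iff_dvd_sub] at h
  obtain ⟨t, ht⟩ := h
  have h1 : n = m + t * p := by linarith
  rw [h1, add_smul, mul_smul, natCast_zsmul, hy, smul_zero, add_zero]

/-- The universal functional. -/
noncomputable def univF (χ : G →* kˣ) (ρ : k →+ ZMod p) {A : Type} [AddCommGroup A] [DistribMulAction G A]
    (φ : A →+ X) (hφG : ∀ (g : G) a, φ (g • a) = g • φ a) (hX : ∀ x : X, p • x = 0) : A →+ HK χ X where
  toFun x := ⟨{ toFun := fun a => ∑ g : G, (cf χ ρ a g) • (g • φ x)
                map_zero' := by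
                  refine Finset.sum_eq_zero fun g _ => ?_
                  have h : cf χ ρ 0 g = 0 := by
                    unfold cf
                    rw [zero_mul, map_zero, ZMod.val_zero, Nat.cast_zero]
                  rw [h, zero_smul]
                map_add' := fun a b => by
                  rw [← Finset.sum_add_distrib]
                  refine Finset.sum_congr rfl fun g _ => ?_
                  rw [← add_smul]
                  refine kb1_sum_congr (hX _) ?_
                  unfold cf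
                  push_cast
                  simp only [ZMod.natCast_zmod_val]
                  rw [← map_add, ← add_mul] }, fun h a => by
    change ∑ g : G, (cf χ ρ ((χ h : k) * a) g) • (g • φ x) = h • ∑ g : G, (cf χ ρ a g) • (g • φ x)
    have h1 : h • ∑ g : G, (cf χ ρ a g) • (g • φ x) = ∑ g : G, h • ((cf χ ρ a g) • (g • φ x)) := Finset.smul_sum
    rw [h1]
    refine (Fintype.sum_equiv (Equiv.mulLeft h) _ _ fun g => ?_).symm
    simp only [Equiv.coe_mulLeft]
    have e : cf χ ρ ((χ h : k) * a) (h * g) = cf χ ρ a g := by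
      unfold cf
      congr 3
      rw [map_mul, mul_inv, Units.val_mul]
      have h : (χ h : k) * (((χ h)⁻¹ : kˣ) : k) = 1 := Units.mul_inv _
      linear_combination (a * (((χ g)⁻¹ : kˣ) : k)) * h
    rw [e, mul_smul]
    exact map_zsmul (DistribSMul.toAddMonoidHom X h) _ _⟩
  map_zero' := Subtype.ext (by
    ext a
    exact Finset.sum_eq_zero fun g _ => by rw [map_zero, smul_zero, smul_zero])
  map_add' := fun x y => Subtype.ext (by
    ext a
    change ∑ g : G, (cf χ ρ a g) • (g • φ (x + y)) = ∑ g : G, (cf χ ρ a g) • (g • φ x) + ∑ g : G, (cf χ ρ a g) • (g • φ y)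
    rw [← Finset.sum_add_distrib]
    refine Finset.sum_congr rfl fun g _ => ?_
    rw [map_add, smul_add, smul_add])

theorem univF_apply (χ : G →* kˣ) (ρ : k →+ ZMod p) {A : Type} [AddCommGroup A] [DistribMulAction G A]
    (φ : A →+ X) (hφG : ∀ (g : G) a, φ (g • a) = g • φ a) (hX : ∀ x : X, p • x = 0) (x : A) (a : k) :
    (univF χ ρ φ hφG hX x).1 a = ∑ g : G, (cf χ ρ a g) • (g • φ x) := rfl

theorem univF_equiv (χ : G →* kˣ) (ρ : k →+ ZMod p) {A : Type} [AddCommGroup A] [DistribMulAction G A]
    (φ : A →+ X) (hφG : ∀ (g : G) a, φ (g • a) = g • φ a) (hX : ∀ x : X, p • x = 0) (h : G) (x : A) :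
    univF χ ρ φ hφG hX (h • x) = (χ h : k) • univF χ ρ φ hφG hX x := by
  apply Subtype.ext
  ext a
  rw [HK_smul_apply, univF_apply, univF_apply]
  refine Fintype.sum_equiv (Equiv.mulRight h) _ _ fun g => ?_
  simp only [Equiv.coe_mulRight]
  rw [hφG, smul_smul]
  congr 1
  unfold cf
  congr 3
  rw [map_mul, mul_inv, Units.val_mul]
  have h' : (χ h : k) * (((χ h)⁻¹ : kˣ) : k) = 1 := Units.mul_inv _
  linear_combination -(a * (((χ g)⁻¹ : kˣ) : k)) * h'

/-- The bound modulo p. -/
theorem kb1_base [DecidableEq k] (χ : G →* kˣ) (hχ : Function.Bijective χ) {A : Type} [AddCommGroup A] [DistribMulAction G A]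
    {ι : Type} [Fintype ι] (V : ValuationSubring ℂ) (hV : V.valuation (p : ℂ) < 1)
    (ω : G →* ℂˣ) (hω : ∀ α : G → ℤ, chs χ α ≠ 0 → V.valuation (∑ g, (α g : ℂ) * (ω g : ℂ)) = 1)
    (ψ : ι → A → ℂ) (p1 : ∀ i x y, ψ i (x + y) = ψ i x + ψ i y)
    (p2 : ∀ i (g : G) x, ψ i (g • x) = (ω g : ℂ) * ψ i x)
    (p3 : ∀ c : ι → ℂ, (∀ x, ∑ i, c i * ψ i x = 0) → c = 0)
    (hfg : ∃ (h : ℕ) (B : AddSubgroup A), h ≠ 0 ∧ B.FG ∧ ∀ x, h • x ∈ B)
    [Finite X] (φ : A →+ X) (hφ : Function.Surjective φ) (hφG : ∀ (g : G) a, φ (g • a) = g • φ a)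
    (hk : ∀ a, φ a = 0 → ∃ b, a = p • b) (hX : ∀ x : X, p • x = 0) :
    Nat.card k ^ (Fintype.card ι) ≤ Nat.card (HK χ X) := by
  obtain ⟨ρ, hρ⟩ := H99B.exists_rho p k
  have hfin : Finite (k →+ X) := Finite.of_injective (fun f => (f : k → X)) DFunLike.coe_injective
  have hfin' : Finite (HK χ X) := inferInstance
  have hMf : Module.Finite k (HK χ X) := Module.Finite.of_finite
  have hc : Nat.card (HK χ X) = Nat.card k ^ Module.finrank k (HK χ X) :=
    Module.natCard_eq_pow_finrank (K := k) (V := HK χ X)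
  have hk1 : 0 < Nat.card k := Nat.card_pos
  by_contra hcon
  have hlt : Module.finrank k (HK χ X) < Fintype.card ι := by
    by_contra h
    apply hcon
    rw [hc]
    exact Nat.pow_le_pow_right hk1 (not_lt.1 h)
  let ac : G →* Monoid.End (Multiplicative A) :=
    { toFun := fun g => AddMonoidHom.toMultiplicative (DistribSMul.toAddMonoidHom A g)
      map_one' := by
        ext x
        exact congrArg Multiplicative.ofAdd (one_smul G (Multiplicative.toAdd x))
      map_mul' := fun g h => by
        ext x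
        exact congrArg Multiplicative.ofAdd (mul_smul g h (Multiplicative.toAdd x)) }
  have hac : ∀ g (x : Multiplicative A), ac g x = Multiplicative.ofAdd (g • Multiplicative.toAdd x) := fun _ _ => rfl
  let F := univF χ ρ φ hφG hX
  obtain ⟨x, -, hx0, hx1⟩ := H13Y.gn_alg χ hχ ρ hρ ac (⊤ : Subgroup (Multiplicative A)) (fun g x _ => Subgroup.mem_top _)
    (fun x => F (Multiplicative.toAdd x)) (fun x _ y _ => map_add F _ _) (fun g x _ => univF_equiv χ ρ φ hφG hX g _)
    (ι := ι) hlt V hV ω hω (fun i x => ψ i (Multiplicative.toAdd x)) (fun i x _ y _ => p1 i _ _)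
    (fun i g x _ => p2 i g _) (fun c hc => p3 c fun x => hc (Multiplicative.ofAdd x) (Subgroup.mem_top _)) (by
      obtain ⟨h, B, h0, hB, h1⟩ := hfg
      refine ⟨h, AddSubgroup.toSubgroup B, h0, ?_, le_top, fun x _ => h1 _⟩
      exact (AddSubgroup.fg_iff_mul_fg B).1 hB)
  have h1 : (F (Multiplicative.toAdd x)).1 1 = 0 := by
    rw [hx0]
    rfl
  have h2 : (F (Multiplicative.toAdd x)).1 1 = φ (∑ g : G, (cf χ ρ 1 g) • (g • Multiplicative.toAdd x)) := by
    rw [map_sum]
    refine Finset.sum_congr rfl fun g _ => ?_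
    rw [map_zsmul, hφG]
  rw [h2] at h1
  obtain ⟨b, hb⟩ := hk _ h1
  apply hx1 (Multiplicative.ofAdd b) (Subgroup.mem_top _)
  have h3 : pw ac (cf χ ρ 1) x = Multiplicative.ofAdd (∑ g : G, (cf χ ρ 1 g) • (g • Multiplicative.toAdd x)) := by
    unfold pw
    rw [ofAdd_sum]
    rfl
  rw [h3, hb]
  rfl

end base

section act

variable {G : Type} [Group G] {X : Type} [AddCommGroup X] [DistribMulAction G X]

/-- The action on a stable subgroup. -/
abbrev subAct (K : AddSubgroup X) (hK : ∀ (g : G), ∀ x ∈ K, g • x ∈ K) : DistribMulAction G K where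
  smul g x := ⟨g • (x : X), hK g x x.2⟩
  one_smul x := Subtype.ext (one_smul G (x : X))
  mul_smul g h x := Subtype.ext (mul_smul g h (x : X))
  smul_zero g := Subtype.ext (smul_zero g)
  smul_add g x y := Subtype.ext (smul_add g (x : X) (y : X))

/-- The action on the quotient by a stable subgroup. -/
abbrev quotAct (K : AddSubgroup X) (hK : ∀ (g : G), ∀ x ∈ K, g • x ∈ K) : DistribMulAction G (X ⧸ K) where
  smul g := QuotientAddGroup.map K K (DistribSMul.toAddMonoidHom X g) (fun x hx => hK g x hx)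
  one_smul x := by
    induction x using QuotientAddGroup.induction_on with
    | H x => exact congrArg (QuotientAddGroup.mk : X → X ⧸ K) (one_smul G x)
  mul_smul g h x := by
    induction x using QuotientAddGroup.induction_on with
    | H x => exact congrArg (QuotientAddGroup.mk : X → X ⧸ K) (mul_smul g h x)
  smul_zero g := map_zero (QuotientAddGroup.map K K (DistribSMul.toAddMonoidHom X g) (fun x hx => hK g x hx))
  smul_add g x y := map_add (QuotientAddGroup.map K K (DistribSMul.toAddMonoidHom X g) (fun x hx => hK g x hx)) x y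

/-- Multiples of n. -/
def mulSub (X : Type) [AddCommGroup X] (n : ℕ) : AddSubgroup X := (nsmulAddMonoidHom n : X →+ X).range

theorem mem_mulSub {n : ℕ} {x : X} : x ∈ mulSub X n ↔ ∃ y, n • y = x := Iff.rfl

theorem mulSub_stable (n : ℕ) (g : G) (x : X) (hx : x ∈ mulSub X n) : g • x ∈ mulSub X n := by
  obtain ⟨y, hy⟩ := hx
  refine ⟨g • y, ?_⟩
  change n • (g • y) = g • x
  have h1 : g • (n • y) = n • (g • y) := map_nsmul (DistribSMul.toAddMonoidHom X g) n y
  rw [← h1]
  exact congrArg (fun z => g • z) hy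

end act

section ind

variable {p : ℕ} [Fact p.Prime] {k : Type} [Field k] [Fintype k] [CharP k p] {G : Type} [Group G] [Fintype G]

/-- THE LOWER BOUND: G of order prime to p acts on T through χ; A has card ι independent functionals. -/
theorem kb1_lower [DecidableEq k] (χ : G →* kˣ) (hχ : Function.Bijective χ) {T : Type} [AddCommGroup T] [DistribMulAction G T] [Finite T]
    {N r : ℕ} (hpG : Nat.Coprime (Fintype.card G) p) (e : T ≃+ (Fin r → ZMod (p ^ N)))
    (θ : T →+ k) (hθ : Function.Surjective θ) (hθG : ∀ (g : G) x, θ (g • x) = (χ g : k) * θ x)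
    {ι : Type} [Fintype ι] (V : ValuationSubring ℂ) (hV : V.valuation (p : ℂ) < 1)
    (ω : G →* ℂˣ) (hω : ∀ α : G → ℤ, chs χ α ≠ 0 → V.valuation (∑ g, (α g : ℂ) * (ω g : ℂ)) = 1)
    (s : ℕ) : s ≤ N → ∀ {A : Type} [AddCommGroup A] [DistribMulAction G A]
    (ψ : ι → A → ℂ), (∀ i x y, ψ i (x + y) = ψ i x + ψ i y) →
    (∀ i (g : G) x, ψ i (g • x) = (ω g : ℂ) * ψ i x) →
    (∀ c : ι → ℂ, (∀ x, ∑ i, c i * ψ i x = 0) → c = 0) →
    (∃ (h : ℕ) (B : AddSubgroup A), h ≠ 0 ∧ B.FG ∧ ∀ x : A, h • x ∈ B) →
    ∀ {X : Type} [AddCommGroup X] [DistribMulAction G X] [Finite X] (φ : A →+ X), Function.Surjective φ →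
    (∀ (g : G) a, φ (g • a) = g • φ a) → (∀ a, φ a = 0 ↔ ∃ b, a = p ^ s • b) →
    Nat.card k ^ (s * Fintype.card ι) ≤ Nat.card (HG G T X) := by
  have hp : p.Prime := Fact.out
  induction s with
  | zero =>
    intro _ A _ _ ψ p1 p2 p3 hfg X _ _ _ φ hφ hφG hk
    rw [Nat.zero_mul, pow_zero]
    have : Nonempty (HG G T X) := ⟨⟨0, fun g x => by simp⟩⟩
    exact Nat.card_pos
  | succ s ih =>
    intro hs A _ _ ψ p1 p2 p3 hfg X _ _ _ φ hφ hφG hk
    have hXp : ∀ x : X, p ^ (s + 1) • x = 0 := fun x => by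
      obtain ⟨a, rfl⟩ := hφ x
      rw [← map_nsmul]
      exact (hk _).2 ⟨a, rfl⟩
    have hXN : ∀ x : X, p ^ N • x = 0 := fun x => by
      rw [← Nat.sub_add_cancel hs, pow_add, mul_smul, hXp, smul_zero]
    -- subgroups
    let iZ : DistribMulAction G (mulSub X p) := subAct (mulSub X p) (mulSub_stable p)
    let iY : DistribMulAction G (X ⧸ mulSub X p) := quotAct (mulSub X p) (mulSub_stable p)
    let iA : DistribMulAction G (mulSub A p) := subAct (mulSub A p) (mulSub_stable p)
    let φ' : mulSub A p →+ mulSub X p :=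
      { toFun := fun a => ⟨φ a, by
          obtain ⟨b, hb⟩ := a.2
          refine ⟨φ b, ?_⟩
          change p • φ b = φ a
          rw [← map_nsmul]
          exact congrArg φ hb⟩
        map_zero' := Subtype.ext (map_zero φ)
        map_add' := fun a b => Subtype.ext (map_add φ _ _) }
    have hφ' : Function.Surjective φ' := by
      rintro ⟨x, y, hy⟩
      obtain ⟨a, rfl⟩ := hφ y
      refine ⟨⟨p • a, a, rfl⟩, Subtype.ext ?_⟩
      change φ (p • a) = x
      rw [map_nsmul]
      exact hy
    have h1 := ih (by omega) (A := mulSub A p) (fun i a => ψ i a) (fun i x y => p1 i _ _) (fun i g x => p2 i g _)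
      (fun c hc => by
        apply p3
        intro x
        have h3 : ∀ i, ψ i (p • x) = p * ψ i x := fun i => by
          have h4 := map_nsmul (AddMonoidHom.mk' (ψ i) (p1 i)) p x
          rw [nsmul_eq_mul] at h4
          exact h4
        have h2 := hc ⟨p • x, x, rfl⟩
        simp only [h3] at h2
        have h5 : ∑ i, c i * ((p : ℂ) * ψ i x) = (p : ℂ) * ∑ i, c i * ψ i x := by
          rw [Finset.mul_sum]
          refine Finset.sum_congr rfl fun i _ => by ring
        rw [h5] at h2
        exact (mul_eq_zero.1 h2).resolve_left (Nat.cast_ne_zero.2 hp.ne_zero))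
      (by
        obtain ⟨h, B, h0, hB, h1⟩ := hfg
        let mp : A →+ mulSub A p := (nsmulAddMonoidHom p : A →+ A).rangeRestrict
        have hBm : (B.map mp).FG := by
          obtain ⟨S, hS⟩ := hB
          refine ⟨S.image mp, ?_⟩
          rw [Finset.coe_image, ← AddMonoidHom.map_closure, hS]
        refine ⟨h, B.map mp, h0, hBm, ?_⟩
        rintro ⟨x, y, hy⟩
        refine ⟨h • y, h1 y, ?_⟩
        apply Subtype.ext
        change p • (h • y) = h • x
        rw [smul_comm]
        exact congrArg (fun z => h • z) hy)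
      φ' hφ' (fun g a => Subtype.ext (hφG g _)) (fun a => by
        constructor
        · intro h
          have h2 : φ a = 0 := congrArg Subtype.val h
          obtain ⟨b, hb⟩ := (hk _).1 h2
          refine ⟨⟨p • b, b, rfl⟩, Subtype.ext ?_⟩
          change (a : A) = p ^ s • (p • b)
          rw [hb, smul_smul, pow_succ]
        · rintro ⟨b, rfl⟩
          obtain ⟨b, c, hc⟩ := b
          apply Subtype.ext
          change φ (p ^ s • b) = 0
          rw [hk]
          refine ⟨c, ?_⟩
          rw [pow_succ, mul_smul]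
          exact congrArg (fun z => p ^ s • z) hc.symm)
    let φ'' : A →+ X ⧸ mulSub X p := (QuotientAddGroup.mk' (mulSub X p)).comp φ
    have hYp : ∀ y : X ⧸ mulSub X p, p • y = 0 := by
      intro y
      induction y using QuotientAddGroup.induction_on with
      | H x =>
        rw [← QuotientAddGroup.mk_nsmul, QuotientAddGroup.eq_zero_iff]
        exact ⟨x, rfl⟩
    have h2 : Nat.card k ^ (Fintype.card ι) ≤ Nat.card (HG G T (X ⧸ mulSub X p)) := by
      have h3 := kb1_base χ hχ V hV ω hω ψ p1 p2 p3 hfg φ'' ((QuotientAddGroup.mk'_surjective _).comp hφ)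
        (fun g a => by
          change QuotientAddGroup.mk' (mulSub X p) (φ (g • a)) = _
          rw [hφG]
          rfl) (fun a ha => by
          have h4 : φ a ∈ mulSub X p := by
            rw [← QuotientAddGroup.eq_zero_iff]
            exact ha
          obtain ⟨x, hx⟩ := h4
          obtain ⟨b, rfl⟩ := hφ x
          have h5 : φ (a - p • b) = 0 := by
            rw [map_sub, map_nsmul, sub_eq_zero]
            exact hx.symm
          obtain ⟨c, hc⟩ := (hk _).1 h5
          refine ⟨b + p ^ s • c, ?_⟩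
          rw [sub_eq_iff_eq_add] at hc
          rw [hc, smul_add, smul_smul, pow_succ, mul_comm p, add_comm]) hYp
      refine h3.trans ?_
      let J : HK χ (X ⧸ mulSub X p) → HG G T (X ⧸ mulSub X p) := fun f => ⟨f.1.comp θ, fun g x => by
        rw [AddMonoidHom.comp_apply, AddMonoidHom.comp_apply, hθG]
        exact f.2 g _⟩
      refine Nat.card_le_card_of_injective J fun f f' h => ?_
      apply Subtype.ext
      ext a
      obtain ⟨x, rfl⟩ := hθ a
      exact DFunLike.congr_fun (congrArg Subtype.val h) x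
    have h3 := tb_ex (G := G) (T := T) (X := X) (Y := X ⧸ mulSub X p) (Z := mulSub X p) (n := p ^ N)
      (Nat.Coprime.pow_right N hpG) e hXN (QuotientAddGroup.mk' (mulSub X p)) (QuotientAddGroup.mk'_surjective _) (fun g x => rfl)
      (AddSubgroup.subtype (mulSub X p)) Subtype.val_injective (fun g x => rfl) (fun z => by
        rw [AddSubgroup.subtype_apply, QuotientAddGroup.mk'_apply, QuotientAddGroup.eq_zero_iff]
        exact z.2)
    refine le_trans ?_ h3
    rw [Nat.succ_mul, pow_add]
    exact Nat.mul_le_mul h1 h2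

end ind

end H13V
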