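import Mathlib
import Pool.Agent.Lib.H13T.TA
import Pool.Agent.Lib.H13V.KB1

/-! # H13V, KB2: the order of the group of equivariant homomorphisms, by the cofree lemma -/

namespace H13V

open scoped Classical

section

variable {p : ℕ} [Fact p.Prime] {Γ : Type} [Group Γ] [Finite Γ] {T X : Type} [AddCommGroup T] [AddCommGroup X]
  [DistribMulAction Γ T] [DistribMulAction Γ X] [Finite T] [Finite X]

/-- The D-equivariant homomorphisms. -/
def HD (D : Subgroup Γ) (T X : Type) [AddCommGroup T] [AddCommGroup X] [DistribMulAction Γ T] [DistribMulAction Γ X] :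
    AddSubgroup (T →+ X) where
  carrier := {f | ∀ g ∈ D, ∀ x : T, f (g • x) = g • f x}
  zero_mem' := fun g _ a => by simp
  add_mem' := fun {f f'} hf hf' g hg a => by
    rw [AddMonoidHom.add_apply, AddMonoidHom.add_apply, hf g hg, hf' g hg, smul_add]
  neg_mem' := fun {f} hf g hg a => by
    rw [AddMonoidHom.neg_apply, AddMonoidHom.neg_apply, hf g hg, smul_neg]

/-- The action of P on the D-equivariant homomorphisms. -/
abbrev HDact (hcomm : ∀ a b : Γ, a * b = b * a) (D P : Subgroup Γ) : DistribMulAction P (HD D T X) where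
  smul γ f := ⟨{ toFun := fun x => (γ : Γ) • f.1 ((γ : Γ)⁻¹ • x)
                 map_zero' := by rw [smul_zero, map_zero, smul_zero]
                 map_add' := fun x y => by rw [smul_add, map_add, smul_add] }, fun g hg x => by
      change (γ : Γ) • f.1 ((γ : Γ)⁻¹ • g • x) = g • (γ : Γ) • f.1 ((γ : Γ)⁻¹ • x)
      rw [smul_smul, hcomm (γ : Γ)⁻¹ g, mul_smul, f.2 g hg, smul_smul, smul_smul, hcomm g (γ : Γ)]⟩
  one_smul f := Subtype.ext (by
    ext x
    change (1 : Γ) • f.1 ((1 : Γ)⁻¹ • x) = f.1 x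
    rw [inv_one, one_smul, one_smul])
  mul_smul γ δ f := Subtype.ext (by
    ext x
    change ((γ : Γ) * δ) • f.1 (((γ : Γ) * δ)⁻¹ • x) = (γ : Γ) • (δ : Γ) • f.1 ((δ : Γ)⁻¹ • (γ : Γ)⁻¹ • x)
    rw [mul_inv_rev, mul_smul, mul_smul])
  smul_zero γ := Subtype.ext (by
    ext x
    change (γ : Γ) • (0 : X) = 0
    rw [smul_zero])
  smul_add γ f g := Subtype.ext (by
    ext x
    change (γ : Γ) • (f.1 ((γ : Γ)⁻¹ • x) + g.1 ((γ : Γ)⁻¹ • x)) = (γ : Γ) • f.1 ((γ : Γ)⁻¹ • x) + (γ : Γ) • g.1 ((γ : Γ)⁻¹ • x)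
    rw [smul_add])

/-- THE ORDER. -/
theorem kb2_main (hcomm : ∀ a b : Γ, a * b = b * a) (D P : Subgroup Γ) (hDP : D ⊔ P = ⊤) (hP : IsPGroup p P) {q f t m : ℕ} (hq : q = p ^ f)
    (hX : ∀ x : X, p ^ t • x = 0)
    (hlow : q ^ (t * (m * Nat.card P)) ≤ Nat.card (HG D T X))
    (hm : Nat.card {c : HG Γ T X // ∀ x, p • c.1 x = 0} ≤ q ^ m) :
    Nat.card (HG Γ T X) = q ^ (t * m) ∧
      ∀ s ≤ t, ∀ c : HG Γ T X, (∀ x, p ^ s • c.1 x = 0) → ∃ d : HG Γ T X, ∀ x, c.1 x = p ^ (t - s) • d.1 x := by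
  have hfin0 : Finite (T →+ X) := Finite.of_injective (fun f => (f : T → X)) DFunLike.coe_injective
  have hfin : Finite (HD D T X) := inferInstance
  let iP : DistribMulAction P (HD D T X) := HDact hcomm D P
  have hact : ∀ (γ : P) (c : HD D T X) x, (γ • c).1 x = (γ : Γ) • c.1 ((γ : Γ)⁻¹ • x) := fun _ _ _ => rfl
  have hB : ∀ b : HD D T X, p ^ t • b = 0 := fun b => Subtype.ext (by
    ext x
    exact hX _)
  -- fixed = Γ-equivariant
  have hfix : ∀ c : HD D T X, (∀ γ : P, γ • c = c) ↔ ∀ (g : Γ) (x : T), c.1 (g • x) = g • c.1 x := by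
    intro c
    constructor
    · intro h g
      have hg : g ∈ D ⊔ P := by rw [hDP]; exact Subgroup.mem_top g
      have hK : D ⊔ P ≤ ({ carrier := {g : Γ | ∀ x : T, c.1 (g • x) = g • c.1 x}
                           one_mem' := fun x => by rw [one_smul, one_smul]
                           mul_mem' := fun {a b} ha hb x => by rw [mul_smul, ha, hb, mul_smul]
                           inv_mem' := fun {a} ha x => by
                             have h1 := ha (a⁻¹ • x)
                             rw [smul_smul, mul_inv_cancel, one_smul] at h1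
                             rw [h1, smul_smul, inv_mul_cancel, one_smul] } : Subgroup Γ) := by
        refine sup_le (fun a ha x => c.2 a ha x) (fun a ha x => ?_)
        have h1 := DFunLike.congr_fun (congrArg Subtype.val (h ⟨a, ha⟩)) (a • x)
        rw [hact] at h1
        change a • c.1 (a⁻¹ • a • x) = c.1 (a • x) at h1
        rw [smul_smul, inv_mul_cancel, one_smul] at h1
        exact h1.symm
      exact hK hg
    · intro h γ
      apply Subtype.ext
      ext x
      rw [hact, h, smul_smul, mul_inv_cancel, one_smul]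
  let E : {b : HD D T X // ∀ γ : P, γ • b = b} ≃ HG Γ T X :=
    { toFun := fun b => ⟨b.1.1, (hfix b.1).1 b.2⟩
      invFun := fun c => ⟨⟨c.1, fun g _ x => c.2 g x⟩, (hfix _).2 c.2⟩
      left_inv := fun b => rfl
      right_inv := fun c => rfl }
  have hc : p ^ (t * (f * m) * Nat.card P) ≤ Nat.card (HD D T X) := by
    have h1 : Nat.card (HG D T X) = Nat.card (HD D T X) := by
      refine Nat.card_congr
        { toFun := fun c => ⟨c.1, fun g hg x => c.2 ⟨g, hg⟩ x⟩
          invFun := fun c => ⟨c.1, fun g x => c.2 g g.2 x⟩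
          left_inv := fun c => rfl
          right_inv := fun c => rfl }
    rw [← h1]
    refine le_trans (le_of_eq ?_) hlow
    rw [hq, ← pow_mul]
    congr 1
    ring
  have hs : Nat.card {b : HD D T X // p • b = 0 ∧ ∀ γ : P, γ • b = b} ≤ p ^ (f * m) := by
    rw [pow_mul, ← hq]
    let J : {b : HD D T X // p • b = 0 ∧ ∀ γ : P, γ • b = b} → {c : HG Γ T X // ∀ x, p • c.1 x = 0} := fun b =>
      ⟨⟨b.1.1, (hfix b.1).1 b.2.2⟩, fun x => DFunLike.congr_fun (congrArg Subtype.val b.2.1) x⟩
    refine le_trans (Nat.card_le_card_of_injective J fun a b hab => ?_) hm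
    apply Subtype.ext
    apply Subtype.ext
    exact congrArg (fun z : {c : HG Γ T X // ∀ x, p • c.1 x = 0} => z.1.1) hab
  constructor
  · rw [← Nat.card_congr E, H13T.ta_card p hP t (f * m) hB hc hs, hq, ← pow_mul]
    congr 1
    ring
  · intro s hst c hc0
    have h1 := (hfix ⟨c.1, fun g _ x => c.2 g x⟩).2 c.2
    obtain ⟨a, ha, hca⟩ := H13T.ta_div p hP t (f * m) hB hc hs s hst ⟨c.1, fun g _ x => c.2 g x⟩ h1 (Subtype.ext (by
      ext x
      exact hc0 x))
    refine ⟨⟨a.1, (hfix a).1 ha⟩, fun x => ?_⟩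
    exact DFunLike.congr_fun (congrArg Subtype.val hca) x

end

end H13V
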