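import Mathlib
import Pool.Agent.Lib.H13Y.GN6b

/-! # H13V, KB3: the functionals on the w-units of L -/

open NumberField IsDedekindDomain

namespace H13V

open H55B H55R H28G H99B H13Y
open scoped Classical

/-- The number of extensions of a character. -/
theorem kb3_ext {Γ : Type} [CommGroup Γ] [Finite Γ] (D : Subgroup Γ) (ω₀ : D →* ℂˣ) :
    Nat.card {ω : Γ →* ℂˣ // ∀ d : D, ω d = ω₀ d} * Nat.card D = Nat.card Γ := by
  obtain ⟨ω₁, h₁⟩ := MonoidHom.domRestrict_surjective ℂ D ω₀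
  have hω₁ : ∀ d : D, ω₁ d = ω₀ d := fun d => DFunLike.congr_fun h₁ d
  have h2 : Nat.card {ω : Γ →* ℂˣ // ∀ d : D, ω d = ω₀ d} = Nat.card (MonoidHom.domRestrictHom D ℂˣ).ker := by
    refine Nat.card_congr
      { toFun := fun ω => ⟨ω.1 * ω₁⁻¹, ?_⟩
        invFun := fun ω => ⟨ω.1 * ω₁, fun d => ?_⟩
        left_inv := fun ω => Subtype.ext (inv_mul_cancel_right ω.1 ω₁)
        right_inv := fun ω => Subtype.ext (mul_inv_cancel_right ω.1 ω₁) }
    · rw [MonoidHom.mem_ker]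
      ext d
      have h3 := ω.2 d
      have h4 := hω₁ d
      change (((ω.1 (d : Γ)) * (ω₁ (d : Γ))⁻¹ : ℂˣ) : ℂ) = ((1 : ℂˣ) : ℂ)
      rw [h3, h4, mul_inv_cancel]
    · have h3 : (MonoidHom.domRestrictHom D ℂˣ) ω.1 = 1 := ω.2
      have h4 : ω.1 (d : Γ) = 1 := DFunLike.congr_fun h3 d
      rw [MonoidHom.mul_apply, h4, one_mul, hω₁]
  rw [h2, CommGroup.card_domRestrictHom_ker, ← Subgroup.card_eq_card_quotient_mul_card_subgroup]

/-- The number of extensions of a character, for groups which are commutative. -/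
theorem kb3_ext' {Γ : Type} [Group Γ] [Finite Γ] (hcomm : ∀ a b : Γ, a * b = b * a) (D : Subgroup Γ) (ω₀ : D →* ℂˣ) :
    Nat.card {ω : Γ →* ℂˣ // ∀ d : D, ω d = ω₀ d} * Nat.card D = Nat.card Γ :=
  @kb3_ext Γ { (inferInstance : Group Γ) with mul_comm := hcomm } _ D ω₀

/-- THE FUNCTIONALS for D ≤ Gal(L/N): their number is [Gal(L/N) : D] times the number of infinite places of N plus one. -/
theorem kb3_psi {N L : Type} [Field N] [NumberField N] [Field L] [NumberField L] [Algebra N L]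
    [IsGalois N L] (hcomm : ∀ a b : Gal(L/N), a * b = b * a) (hc : ∀ v : InfinitePlace N, v.IsComplex)
    (D : Subgroup Gal(L/N)) (ω₀ : D →* ℂˣ) (hω₀ : ω₀ ≠ 1)
    (w : Pl N) (Q : Pl L) (hQ : Q.under (𝓞 N) = w) (hst : ∀ σ : Gal(L/N), smulP σ Q = Q → σ = 1) :
    ∃ (ι : Type) (_ : Fintype ι) (ψ : ι → Lˣ → ℂ),
      Fintype.card ι * Nat.card D = (Fintype.card (InfinitePlace N) + 1) * Nat.card Gal(L/N) ∧
      (∀ i x y, ψ i (x * y) = ψ i x + ψ i y) ∧
      (∀ i (g : D) x, ψ i (guN (g : Gal(L/N)) x) = (ω₀ g : ℂ) * ψ i x) ∧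
      ∀ c : ι → ℂ, (∀ x ∈ SU L w, ∑ i, c i * ψ i x = 0) → c = 0 := by
  let Θ := {ω : Gal(L/N) →* ℂˣ // ∀ d : D, ω d = ω₀ d}
  have hΘ : Nat.card Θ * Nat.card D = Nat.card Gal(L/N) := kb3_ext' hcomm D ω₀
  have hpos : 0 < Nat.card Gal(L/N) := Nat.card_pos
  have hΘ0 : Nat.card Θ ≠ 0 := by
    intro h
    rw [h, Nat.zero_mul] at hΘ
    omega
  have hΘf : Finite Θ := (Nat.card_ne_zero.1 hΘ0).2
  let _ : Fintype Θ := Fintype.ofFinite Θ
  have hne : ∀ θ : Θ, θ.1 ≠ 1 := by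
    intro θ h
    apply hω₀
    ext d
    rw [← θ.2 d, h]
    rfl
  choose ψ p1 p2 p3 using fun θ : Θ => exists_psi hc θ.1 (hne θ) w Q hQ hst
  refine ⟨Option (InfinitePlace N) × Θ, inferInstance, fun i x => ψ i.2 i.1 x, ?_, fun i x y => p1 _ _ _ _, ?_, ?_⟩
  · rw [Fintype.card_prod, Fintype.card_option, ← Nat.card_eq_fintype_card (α := Θ), mul_assoc, hΘ]
  · intro i g x
    change ψ i.2 i.1 (guN (g : Gal(L/N)) x) = _
    rw [p2, i.2.2 g]
  · intro c h
    have key : ∀ θ₀ : Θ, ∀ x ∈ SU L w, ∑ i : Option (InfinitePlace N), c (i, θ₀) * ψ θ₀ i x = 0 := by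
      intro θ₀ x hx
      have h1 : ∑ g : Gal(L/N), ((θ₀.1 g)⁻¹ : ℂˣ) * ∑ i : Option (InfinitePlace N) × Θ, c i * ψ i.2 i.1 (guN g x) = 0 := by
        refine Finset.sum_eq_zero fun g _ => ?_
        rw [h _ (SU_act g hx), mul_zero]
      have h2 : ∑ g : Gal(L/N), ((θ₀.1 g)⁻¹ : ℂˣ) * ∑ i : Option (InfinitePlace N) × Θ, c i * ψ i.2 i.1 (guN g x) =
          ∑ θ : Θ, (∑ i : Option (InfinitePlace N), c (i, θ) * ψ θ i x) * ∑ g : Gal(L/N), (((θ.1 * θ₀.1⁻¹) g : ℂˣ) : ℂ) := by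
        simp only [Fintype.sum_prod_type_right, p2, Finset.mul_sum, Finset.sum_mul]
        rw [Finset.sum_comm]
        refine Finset.sum_congr rfl fun θ _ => ?_
        rw [Finset.sum_comm]
        rw [Finset.sum_comm]
        refine Finset.sum_congr rfl fun g _ => ?_
        refine Finset.sum_congr rfl fun i _ => ?_
        rw [MonoidHom.mul_apply, MonoidHom.inv_apply, Units.val_mul]
        ring
      rw [h1] at h2
      have h3 : ∀ θ : Θ, ∑ g : Gal(L/N), (((θ.1 * θ₀.1⁻¹) g : ℂˣ) : ℂ) = if θ = θ₀ then (Nat.card Gal(L/N) : ℂ) else 0 := by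
        intro θ
        have h4 := sum_hom_units ((Units.coeHom ℂ).comp (θ.1 * θ₀.1⁻¹))
        have h5 : ∑ g : Gal(L/N), (((θ.1 * θ₀.1⁻¹) g : ℂˣ) : ℂ) = ∑ g : Gal(L/N), ((Units.coeHom ℂ).comp (θ.1 * θ₀.1⁻¹)) g := rfl
        rw [h5, h4]
        by_cases hθ : θ = θ₀
        · have h6 : (Units.coeHom ℂ).comp (θ.1 * θ₀.1⁻¹) = 1 := by
            ext g
            change ((θ.1 g * (θ₀.1 g)⁻¹ : ℂˣ) : ℂ) = 1
            rw [hθ, mul_inv_cancel, Units.val_one]
          rw [if_pos h6, if_pos hθ, Nat.card_eq_fintype_card]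
        · have h6 : (Units.coeHom ℂ).comp (θ.1 * θ₀.1⁻¹) ≠ 1 := by
            intro h7
            apply hθ
            apply Subtype.ext
            apply MonoidHom.ext
            intro g
            have h8 : ((θ.1 g * (θ₀.1 g)⁻¹ : ℂˣ) : ℂ) = 1 := DFunLike.congr_fun h7 g
            exact mul_inv_eq_one.1 (Units.ext h8)
          rw [if_neg h6, if_neg hθ, Nat.cast_zero]
      simp only [h3, mul_ite, mul_zero] at h2
      rw [Finset.sum_ite_eq' Finset.univ θ₀ (fun θ => (∑ i : Option (InfinitePlace N), c (i, θ) * ψ θ i x) * (Nat.card Gal(L/N) : ℂ)),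
        if_pos (Finset.mem_univ θ₀)] at h2
      rcases mul_eq_zero.1 h2.symm with h4 | h4
      · exact h4
      · exact absurd (Nat.cast_eq_zero.1 h4) hpos.ne'
    funext ⟨i, θ⟩
    exact congrFun (p3 θ (fun i => c (i, θ)) (key θ)) i

end H13V
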