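import Mathlib
import Pool.Agent.Lib.H13V.KB2
import Pool.Agent.Lib.H13V.KB3
import Pool.Agent.Lib.H13Y.GN4
import Pool.Agent.Lib.H13Y.GN7c

/-! # H13V, KB4: the w-units of L modulo l^t, the lower bound -/

open NumberField IsDedekindDomain

namespace H13V

open H55B H55R H28G H99B H13Y
open scoped Classical

section

variable {N L : Type} [Field N] [NumberField N] [Field L] [NumberField L] [Algebra N L]

/-- The w-units of L, additively. -/
def AU (L : Type) [Field L] [NumberField L] [Algebra N L] (w : Pl N) : Type := Additive (SU L w)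

instance instAU (w : Pl N) : AddCommGroup (AU L w) := inferInstanceAs (AddCommGroup (Additive (SU L w)))

/-- The element of Lˣ. -/
def AU.val {w : Pl N} (x : AU L w) : Lˣ := ((Additive.toMul x : SU L w) : Lˣ)

/-- The element of AU. -/
def AU.mk {w : Pl N} (x : Lˣ) (hx : x ∈ SU L w) : AU L w := Additive.ofMul ⟨x, hx⟩

theorem AU.mem {w : Pl N} (x : AU L w) : x.val ∈ SU L w := (Additive.toMul x : SU L w).2

theorem AU.val_mk {w : Pl N} (x : Lˣ) (hx : x ∈ SU L w) : (AU.mk x hx).val = x := rfl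

theorem AU.ext {w : Pl N} {x y : AU L w} (h : x.val = y.val) : x = y := by
  apply Additive.toMul.injective
  exact Subtype.ext h

theorem AU.val_add {w : Pl N} (x y : AU L w) : (x + y).val = x.val * y.val := rfl

theorem AU.val_zero {w : Pl N} : (0 : AU L w).val = 1 := rfl

theorem AU.val_neg {w : Pl N} (x : AU L w) : (-x).val = x.val⁻¹ := rfl

theorem AU.val_nsmul {w : Pl N} (n : ℕ) (x : AU L w) : (n • x).val = x.val ^ n := rfl

noncomputable instance AU_act (w : Pl N) : DistribMulAction Gal(L/N) (AU L w) where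
  smul g x := AU.mk (guN g x.val) (SU_act g x.mem)
  one_smul x := AU.ext (by
    change guN 1 x.val = x.val
    rw [map_one]
    rfl)
  mul_smul g h x := AU.ext (by
    change guN (g * h) x.val = guN g (guN h x.val)
    rw [map_mul]
    rfl)
  smul_zero g := AU.ext (map_one (guN g))
  smul_add g x y := AU.ext (map_mul (guN g) x.val y.val)

theorem AU.val_smul {w : Pl N} (g : Gal(L/N)) (x : AU L w) : (g • x).val = guN g x.val := rfl

/-- The w-units modulo n-th powers. -/
def XU (L : Type) [Field L] [NumberField L] [Algebra N L] (w : Pl N) (n : ℕ) : Type := AU L w ⧸ mulSub (AU L w) n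

instance instXU (w : Pl N) (n : ℕ) : AddCommGroup (XU L w n) := inferInstanceAs (AddCommGroup (AU L w ⧸ mulSub (AU L w) n))

noncomputable instance XU_act (w : Pl N) (n : ℕ) : DistribMulAction Gal(L/N) (XU L w n) :=
  quotAct (mulSub (AU L w) n) (mulSub_stable n)

/-- The projection. -/
def XU.pr (w : Pl N) (n : ℕ) : AU L w →+ XU L w n := QuotientAddGroup.mk' (mulSub (AU L w) n)

theorem XU.pr_surj (w : Pl N) (n : ℕ) : Function.Surjective (XU.pr (L := L) w n) := QuotientAddGroup.mk'_surjective _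

theorem XU.pr_smul (w : Pl N) (n : ℕ) (g : Gal(L/N)) (x : AU L w) : XU.pr w n (g • x) = g • XU.pr w n x := rfl

theorem XU.pr_zero (w : Pl N) (n : ℕ) (x : AU L w) : XU.pr w n x = 0 ↔ ∃ y, x = n • y := by
  have h : XU.pr w n x = 0 ↔ x ∈ mulSub (AU L w) n := QuotientAddGroup.eq_zero_iff x
  rw [h]
  constructor
  · rintro ⟨y, hy⟩
    exact ⟨y, hy.symm⟩
  · rintro ⟨y, hy⟩
    exact ⟨y, hy.symm⟩

theorem XU.nsmul (w : Pl N) (n : ℕ) (x : XU L w n) : n • x = 0 := by
  obtain ⟨y, rfl⟩ := XU.pr_surj w n x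
  rw [← map_nsmul, XU.pr_zero]
  exact ⟨y, rfl⟩

/-- Finitely generated up to a power. -/
theorem AU_fg (w : Pl N) : ∃ (h : ℕ) (B : AddSubgroup (AU L w)), h ≠ 0 ∧ B.FG ∧ ∀ x : AU L w, h • x ∈ B := by
  obtain ⟨h, B, h0, ⟨S, hS⟩, hB, h1⟩ := SU_fg (L := L) w
  let B' : Subgroup (SU L w) := B.subgroupOf (SU L w)
  have hBf : B'.FG := by
    have e : B' ≃* B := Subgroup.subgroupOfEquivOfLe hB
    rw [← Group.fg_iff_subgroup_fg]
    have h2 : Group.FG B := (Group.fg_iff_subgroup_fg B).2 ⟨S, hS⟩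
    exact Group.fg_of_surjective (f := e.symm.toMonoidHom) e.symm.surjective
  refine ⟨h, Subgroup.toAddSubgroup B', h0, (Subgroup.fg_iff_add_fg B').1 hBf, fun x => ?_⟩
  exact h1 _ x.mem

/-- The group of w-units is finitely generated. -/
theorem AU_modfg (w : Pl N) : Module.Finite ℤ (AU L w) := by
  obtain ⟨h, B, h0, hB, h1⟩ := AU_fg (L := L) w
  let f : AU L w →ₗ[ℤ] AU L w := (h : ℤ) • LinearMap.id
  have hf : ∀ x, f x = h • x := fun x => by
    change (h : ℤ) • x = h • x
    rw [natCast_zsmul]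
  refine ⟨Submodule.fg_of_fg_map_of_fg_inf_ker f ?_ ?_⟩
  · have h2 : (AddSubgroup.toIntSubmodule B).FG := by
      rw [Submodule.fg_iff_addSubgroup_fg]
      exact hB
    have h3 : Module.Finite ℤ (AddSubgroup.toIntSubmodule B) := Module.Finite.iff_fg.2 h2
    have h4 : IsNoetherian ℤ (AddSubgroup.toIntSubmodule B) := inferInstance
    have h5 := (isNoetherian_submodule.1 h4) (Submodule.map f ⊤) (by
      rintro _ ⟨x, -, rfl⟩
      rw [hf]
      exact h1 x)
    exact h5
  · have h2 : Finite (↥(⊤ ⊓ LinearMap.ker f)) := by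
      have : NeZero h := ⟨h0⟩
      let J : ↥(⊤ ⊓ LinearMap.ker f) → rootsOfUnity h L := fun x => ⟨x.1.val, by
        rw [mem_rootsOfUnity, ← AU.val_nsmul, ← hf]
        have h3 := (Submodule.mem_inf.1 x.2).2
        rw [LinearMap.mem_ker] at h3
        rw [h3]
        rfl⟩
      refine Finite.of_injective J fun a b hab => ?_
      have h4 : a.1.val = b.1.val := congrArg (fun z : rootsOfUnity h L => (z : Lˣ)) hab
      apply Subtype.ext
      exact AU.ext h4
    have h3 : Module.Finite ℤ (↥(⊤ ⊓ LinearMap.ker f)) := Module.Finite.of_finite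
    exact Module.Finite.iff_fg.1 h3

theorem AU_finite (w : Pl N) {n : ℕ} (hn : n ≠ 0) : Finite (XU L w n) := by
  have h1 := AU_modfg (L := L) w
  have h2 : Module.Finite ℤ (XU L w n) :=
    Module.Finite.of_surjective (XU.pr w n).toIntLinearMap (XU.pr_surj w n)
  refine Module.finite_of_fg_torsion (XU L w n) ?_
  intro x
  refine ⟨⟨(n : ℤ), mem_nonZeroDivisors_of_ne_zero (by exact_mod_cast hn)⟩, ?_⟩
  change (n : ℤ) • x = 0
  rw [natCast_zsmul]
  exact XU.nsmul w n x

/-- THE LOWER BOUND for L/N. -/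
theorem kb4_low [IsGalois N L] (hcomm : ∀ a b : Gal(L/N), a * b = b * a) (hc : ∀ v : InfinitePlace N, v.IsComplex)
    (w : Pl N) (Q : Pl L) (hQ : Q.under (𝓞 N) = w) (hst : ∀ σ : Gal(L/N), smulP σ Q = Q → σ = 1)
    {p : ℕ} [Fact p.Prime] {k : Type} [Field k] [Fintype k] [CharP k p] (D P : Subgroup Gal(L/N)) (χ : D →* kˣ)
    (hχ : Function.Bijective χ) (hk : 2 < Nat.card k) (hDP : Nat.card D * Nat.card P = Nat.card Gal(L/N))
    {T : Type} [AddCommGroup T] [DistribMulAction Gal(L/N) T] [Finite T] {t r : ℕ} (e : T ≃+ (Fin r → ZMod (p ^ t)))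
    (θ : T →+ k) (hθ : Function.Surjective θ) (hθG : ∀ (g : D) x, θ (g • x) = (χ g : k) * θ x) :
    Nat.card k ^ (t * ((Fintype.card (InfinitePlace N) + 1) * Nat.card P)) ≤ Nat.card (HG D T (XU L w (p ^ t))) := by
  have hp : p.Prime := Fact.out
  let _ : Fintype D := Fintype.ofFinite D
  obtain ⟨V, ω, hV, hωi, hω⟩ := exists_teich p χ hχ.1
  have hω1 : ω ≠ 1 := by
    intro h
    have h1 : Nat.card D = Nat.card k - 1 := by
      rw [Nat.card_eq_of_bijective χ hχ, Nat.card_units]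
    have h2 : Subsingleton D := ⟨fun a b => hωi (by rw [h]; rfl)⟩
    have h3 : Nat.card D ≤ 1 := Finite.card_le_one_iff_subsingleton.2 h2
    omega
  obtain ⟨ι, hι, ψ, hcard, p1, p2, p3⟩ := kb3_psi hcomm hc D ω hω1 w Q hQ hst
  have hcop : Nat.Coprime (Fintype.card D) p := by
    rw [← Nat.card_eq_fintype_card, Nat.card_eq_of_bijective χ hχ, Nat.card_units]
    let _ : Algebra (ZMod p) k := ZMod.algebra k p
    have h1 : Nat.card k = Nat.card (ZMod p) ^ Module.finrank (ZMod p) k :=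
      Module.natCard_eq_pow_finrank (K := ZMod p) (V := k)
    rw [Nat.card_zmod] at h1
    have h2 : Module.finrank (ZMod p) k ≠ 0 := Module.finrank_pos.ne'
    have h3 : p ∣ Nat.card k := by
      rw [h1]
      exact dvd_pow_self p h2
    rw [Nat.coprime_comm, hp.coprime_iff_not_dvd]
    intro h4
    have h5 : p ∣ Nat.card k - (Nat.card k - 1) := Nat.dvd_sub h3 h4
    have h6 : Nat.card k - (Nat.card k - 1) = 1 := by omega
    rw [h6] at h5
    exact hp.one_lt.ne' (Nat.dvd_one.1 h5)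
  have hfin : Finite (XU L w (p ^ t)) := AU_finite w (pow_ne_zero _ hp.ne_zero)
  have h1 := kb1_lower χ hχ hcop e θ hθ hθG V hV ω hω t le_rfl (A := AU L w) (fun i x => ψ i x.val)
    (fun i x y => p1 i _ _) (fun i g x => p2 i g _) (fun c hc0 => p3 c fun x hx => hc0 (AU.mk x hx)) (AU_fg w)
    (XU.pr w (p ^ t)) (XU.pr_surj w _) (fun g a => rfl) (fun a => XU.pr_zero w _ a)
  refine le_trans (le_of_eq ?_) h1
  congr 2
  have h2 : 0 < Nat.card D := Nat.card_pos
  apply Nat.eq_of_mul_eq_mul_right h2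
  rw [hcard, ← hDP]
  ring

/-- THE ORDER for L/N. -/
theorem kb4_card [IsGalois N L] (hcomm : ∀ a b : Gal(L/N), a * b = b * a) (hc : ∀ v : InfinitePlace N, v.IsComplex)
    (w : Pl N) (Q : Pl L) (hQ : Q.under (𝓞 N) = w) (hst : ∀ σ : Gal(L/N), smulP σ Q = Q → σ = 1)
    {p : ℕ} [Fact p.Prime] {k : Type} [Field k] [Fintype k] [CharP k p] (D P : Subgroup Gal(L/N)) (χ : D →* kˣ)
    (hχ : Function.Bijective χ) (hk : 2 < Nat.card k) (hDP : Nat.card D * Nat.card P = Nat.card Gal(L/N)) (hP : IsPGroup p P)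
    {T : Type} [AddCommGroup T] [DistribMulAction Gal(L/N) T] [Finite T] {t r : ℕ} (e : T ≃+ (Fin r → ZMod (p ^ t)))
    (θ : T →+ k) (hθ : Function.Surjective θ) (hθG : ∀ (g : D) x, θ (g • x) = (χ g : k) * θ x)
    (hm : Nat.card {c : HG Gal(L/N) T (XU L w (p ^ t)) // ∀ x, p • c.1 x = 0} ≤ Nat.card k ^ (Fintype.card (InfinitePlace N) + 1)) :
    Nat.card (HG Gal(L/N) T (XU L w (p ^ t))) = Nat.card k ^ (t * (Fintype.card (InfinitePlace N) + 1)) ∧
      ∀ s ≤ t, ∀ c : HG Gal(L/N) T (XU L w (p ^ t)), (∀ x, p ^ s • c.1 x = 0) →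
        ∃ d : HG Gal(L/N) T (XU L w (p ^ t)), ∀ x, c.1 x = p ^ (t - s) • d.1 x := by
  have hp : p.Prime := Fact.out
  have hfin : Finite (XU L w (p ^ t)) := AU_finite w (pow_ne_zero _ hp.ne_zero)
  have hlow := kb4_low hcomm hc w Q hQ hst D P χ hχ hk hDP e θ hθ hθG
  let _ : Algebra (ZMod p) k := ZMod.algebra k p
  have h1 : Nat.card k = Nat.card (ZMod p) ^ Module.finrank (ZMod p) k :=
    Module.natCard_eq_pow_finrank (K := ZMod p) (V := k)
  rw [Nat.card_zmod] at h1
  have hpk : p ∣ Nat.card k := by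
    rw [h1]
    exact dvd_pow_self p Module.finrank_pos.ne'
  have hcopD : ¬ p ∣ Nat.card D := by
    rw [Nat.card_eq_of_bijective χ hχ, Nat.card_units]
    intro h4
    have h5 : p ∣ Nat.card k - (Nat.card k - 1) := Nat.dvd_sub hpk h4
    have h6 : Nat.card k - (Nat.card k - 1) = 1 := by omega
    rw [h6] at h5
    exact hp.one_lt.ne' (Nat.dvd_one.1 h5)
  have hcop : Nat.Coprime (Nat.card D) (Nat.card P) := by
    obtain ⟨n, hn⟩ := IsPGroup.iff_card.1 hP
    rw [hn]
    exact Nat.Coprime.pow_right n ((Nat.coprime_comm.1 ((Nat.Prime.coprime_iff_not_dvd hp).2 hcopD)))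
  have hsup : D ⊔ P = ⊤ := by
    apply Subgroup.eq_top_of_card_eq
    apply le_antisymm (Subgroup.card_le_card_group _)
    rw [← hDP]
    exact Nat.le_of_dvd Nat.card_pos (hcop.mul_dvd_of_dvd_of_dvd (Subgroup.card_dvd_of_le le_sup_left) (Subgroup.card_dvd_of_le le_sup_right))
  exact kb2_main hcomm D P hsup hP h1 (fun x => XU.nsmul w _ x) hlow hm

end

end H13V
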