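import Mathlib
import Pool.Agent.Lib.H13V.KB4
import Pool.Agent.Lib.H13T.E2
import Pool.Agent.Lib.H19C.GT2
import Pool.Agent.Lib.H55K.K2B

/-! # H13V, module KUM: definitions (helper19) -/

open NumberField IsDedekindDomain WeierstrassCurve

namespace H13V

open H55P (IQ embF eF LF Per IsHecke Pt ac Inert Dec Nm Coc PExt UnrP Ram RamF SelZero)
open H35P (WAB Ker tt)
open H55K (Tor ak xc yc CMA Dta GV GMod cj cj_cj mul_cj cj_prime cj_dvd cj_nat Nm_cj Nm_mul Nm_nat tor_gen Lft TFld exists_lft)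
open H55K.S
open H55R (Pl ord smulP)
open H13S (Abv)
open H13X
open H13Y (guN SU)
open H19B (DN mem_DN CS mem_CS)

variable {F : Type} [Field F] [NumberField F] [IQ F] {A B : F} {Om : ℂ} {Ω : Type} [Field Ω] [DecidableEq Ω]
  [Algebra F Ω] {j : Ω →+* ℂ} {act : 𝓞 F →+* AddMonoid.End (Pt (WAB A B) Ω)} {mo : Ideal (𝓞 F)}
  {ψ : Ideal (𝓞 F) →*₀ 𝓞 F} {π : 𝓞 F} {l t : ℕ}

/-- The pairing of level t between the points killed by (cj π)^t and the points killed by π^t. -/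
structure PT (A B : F) (act : 𝓞 F →+* AddMonoid.End (Pt (WAB A B) Ω)) (π : 𝓞 F) (l t : ℕ)
    (e : Pt (WAB A B) Ω → Pt (WAB A B) Ω → Ω) : Prop where
  add_left : ∀ X ∈ Tor act (cj π ^ t), ∀ X' ∈ Tor act (cj π ^ t), ∀ T ∈ Tor act (π ^ t), e (X + X') T = e X T * e X' T
  add_right : ∀ X ∈ Tor act (cj π ^ t), ∀ T ∈ Tor act (π ^ t), ∀ T' ∈ Tor act (π ^ t), e X (T + T') = e X T * e X T'
  root : ∀ X ∈ Tor act (cj π ^ t), ∀ T ∈ Tor act (π ^ t), e X T ^ l ^ t = 1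
  gal : ∀ (s : Ω ≃ₐ[F] Ω), ∀ X ∈ Tor act (cj π ^ t), ∀ T ∈ Tor act (π ^ t),
    s (e X T) = e (ac (WAB A B) s X) (ac (WAB A B) s T)
  nondeg : ∀ X ∈ Tor act (cj π ^ t), (∀ T ∈ Tor act (π ^ t), e X T = 1) → X = 0
  adj : ∀ (a : 𝓞 F), ∀ X ∈ Tor act (cj π ^ t), ∀ T ∈ Tor act (π ^ t), e (act a X) T = e X (act (cj a) T)

section pt

variable {e : Pt (WAB A B) Ω → Pt (WAB A B) Ω → Ω}

theorem PT.ne (he : PT A B act π l t e) (hl : l ≠ 0) {X T : Pt (WAB A B) Ω} (hX : X ∈ Tor act (cj π ^ t)) (hT : T ∈ Tor act (π ^ t)) :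
    e X T ≠ 0 := by
  intro h
  have h1 := he.root X hX T hT
  rw [h, zero_pow (pow_ne_zero _ hl)] at h1
  exact zero_ne_one h1

theorem PT.zero_left (he : PT A B act π l t e) (hl : l ≠ 0) {T : Pt (WAB A B) Ω} (hT : T ∈ Tor act (π ^ t)) : e 0 T = 1 := by
  have h := he.add_left 0 (zero_mem _) 0 (zero_mem _) T hT
  rw [add_zero] at h
  exact (left_eq_mul₀ (he.ne hl (zero_mem _) hT)).1 h

theorem PT.neg_left (he : PT A B act π l t e) (hl : l ≠ 0) {X T : Pt (WAB A B) Ω} (hX : X ∈ Tor act (cj π ^ t)) (hT : T ∈ Tor act (π ^ t)) :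
    e (-X) T = (e X T)⁻¹ := by
  have h := he.add_left (-X) (neg_mem hX) X hX T hT
  rw [neg_add_cancel, he.zero_left hl hT] at h
  exact eq_inv_of_mul_eq_one_left h.symm

theorem PT.sub_left (he : PT A B act π l t e) (hl : l ≠ 0) {X X' T : Pt (WAB A B) Ω} (hX : X ∈ Tor act (cj π ^ t))
    (hX' : X' ∈ Tor act (cj π ^ t)) (hT : T ∈ Tor act (π ^ t)) : e (X - X') T = e X T / e X' T := by
  rw [sub_eq_add_neg, he.add_left X hX (-X') (neg_mem hX') T hT, he.neg_left hl hX' hT, div_eq_mul_inv]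

end pt

/-- The group of the automorphisms over N which fix the points killed by l^t. -/
def Ht (A B : F) (l t : ℕ) (N : IntermediateField F Ω) : Subgroup (Ω ≃ₐ[F] Ω) where
  carrier := {s | s ∈ N.fixingSubgroup ∧ ∀ T : Pt (WAB A B) Ω, l ^ t • T = 0 → ac (WAB A B) s T = T}
  mul_mem' := by
    rintro s s' ⟨h1, h2⟩ ⟨h1', h2'⟩
    exact ⟨mul_mem h1 h1', fun T hT => by rw [H55K.S.ac_mul, h2' T hT, h2 T hT]⟩
  one_mem' := ⟨one_mem _, fun T _ => H55K.S.ac_one T⟩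
  inv_mem' := by
    rintro s ⟨h1, h2⟩
    refine ⟨inv_mem h1, fun T hT => ?_⟩
    conv_lhs => rw [← h2 T hT]
    rw [← H55K.S.ac_mul, inv_mul_cancel, H55K.S.ac_one]

theorem mem_Ht {N : IntermediateField F Ω} {s : Ω ≃ₐ[F] Ω} :
    s ∈ Ht A B l t N ↔ s ∈ N.fixingSubgroup ∧ ∀ T : Pt (WAB A B) Ω, l ^ t • T = 0 → ac (WAB A B) s T = T := Iff.rfl

/-- c has, for all points T killed by π^t, Kummer generators over L which are units outside w. -/
def UT (act : 𝓞 F →+* AddMonoid.End (Pt (WAB A B) Ω)) (π : 𝓞 F) (t : ℕ) {N : IntermediateField F Ω} [NumberField N] (L : IntermediateField F Ω)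
    (w : Pl N) (e : Pt (WAB A B) Ω → Pt (WAB A B) Ω → Ω) (c : (Ω ≃ₐ[F] Ω) → Pt (WAB A B) Ω) : Prop :=
  ∀ T ∈ Tor act (π ^ t), ∃ y : Ω, y ≠ 0 ∧ (∀ s ∈ L.fixingSubgroup, s y = e (c s) T * y) ∧
    ∀ V : ValuationSubring Ω, ¬ Abv N V w → V.valuation y = 1

variable [IsAlgClosure F Ω] {N L : IntermediateField F Ω} [NumberField N] [NumberField L]

theorem exists_lf (hL : N ≤ L) :
    letI := algNL hL
    ∀ σ : Gal(L/N), ∃ s : Ω ≃ₐ[F] Ω, Lft σ s := by
  letI := algNL hL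
  have hT : IsScalarTower F N L := IsScalarTower.of_algebraMap_eq fun x => Subtype.ext rfl
  have hT' : IsScalarTower N L Ω := IsScalarTower.of_algebraMap_eq fun x => rfl
  intro σ
  exact exists_lft σ

/-- A lift of an element of the Galois group. -/
noncomputable def lf (hL : N ≤ L) (σ : letI := algNL hL; Gal(L/N)) : Ω ≃ₐ[F] Ω := (exists_lf hL σ).choose

theorem lf_lft (hL : N ≤ L) (σ : letI := algNL hL; Gal(L/N)) : letI := algNL hL; Lft σ (lf hL σ) := (exists_lf hL σ).choose_spec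

/-- Two lifts act in the same way on the points killed by ρ. -/
theorem lf_tor {ρ : 𝓞 F} (hL : IsTB act ρ N L) {s s' : Ω ≃ₐ[F] Ω} (h : ∀ x ∈ L, s x = s' x) {T : Pt (WAB A B) Ω} (hT : T ∈ Tor act ρ) :
    ac (WAB A B) s T = ac (WAB A B) s' T := by
  have h1 : s'⁻¹ * s ∈ L.fixingSubgroup := by
    rw [IntermediateField.mem_fixingSubgroup_iff]
    intro x hx
    show s'⁻¹ (s x) = x
    rw [h x hx]
    exact s'.symm_apply_apply x
  have h2 := ((hL.fix _).1 h1).2 T hT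
  rw [ac_mul] at h2
  have h3 := congrArg (ac (WAB A B) s') h2
  rw [← ac_mul, mul_inv_cancel, ac_one] at h3
  exact h3

/-- The action of the Galois group on the points killed by ρ. -/
@[reducible] noncomputable def tact (hA : CMA F A B Om j act) {ρ : 𝓞 F} (hL : IsTB act ρ N L) :
    letI := algNL hL.le
    DistribMulAction Gal(L/N) (Tor act ρ) :=
  letI := algNL hL.le
  { smul := fun σ T => ⟨ac (WAB A B) (lf hL.le σ) (T : Pt (WAB A B) Ω), ac_mem hA _ T.2⟩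
    one_smul := fun T => Subtype.ext (by
      show ac (WAB A B) (lf hL.le 1) (T : Pt (WAB A B) Ω) = T
      rw [lf_tor hL (s' := 1) (fun x hx => lf_lft hL.le 1 ⟨x, hx⟩) T.2, ac_one])
    mul_smul := fun σ τ T => Subtype.ext (by
      show ac (WAB A B) (lf hL.le (σ * τ)) (T : Pt (WAB A B) Ω) = ac (WAB A B) (lf hL.le σ) (ac (WAB A B) (lf hL.le τ) T)
      rw [← ac_mul]
      refine lf_tor hL (fun x hx => ?_) T.2
      have h1 := lf_lft hL.le (σ * τ) ⟨x, hx⟩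
      have h2 := lf_lft hL.le τ ⟨x, hx⟩
      have h3 := lf_lft hL.le σ (τ ⟨x, hx⟩)
      show lf hL.le (σ * τ) x = lf hL.le σ (lf hL.le τ x)
      exact h1.trans (h3.symm.trans (congrArg (lf hL.le σ) h2.symm)))
    smul_zero := fun σ => Subtype.ext (map_zero _)
    smul_add := fun σ T T' => Subtype.ext (map_add _ _ _) }

/-- The action in terms of any lift. -/
theorem tact_eq (hA : CMA F A B Om j act) {ρ : 𝓞 F} (hL : IsTB act ρ N L) :
    letI := algNL hL.le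
    letI := tact hA hL
    ∀ (σ : Gal(L/N)) (s : Ω ≃ₐ[F] Ω), (∀ x : L, s (x : Ω) = ((σ x : L) : Ω)) → ∀ T : Tor act ρ,
      ((σ • T : Tor act ρ) : Pt (WAB A B) Ω) = ac (WAB A B) s (T : Pt (WAB A B) Ω) := by
  letI := algNL hL.le
  letI := tact hA hL
  intro σ s hs T
  show ac (WAB A B) (lf hL.le σ) (T : Pt (WAB A B) Ω) = _
  exact lf_tor hL (fun x hx => (lf_lft hL.le σ ⟨x, hx⟩).trans (hs ⟨x, hx⟩).symm) T.2

/-- The class c and the homomorphism f to the w-units of L modulo the powers with exponent l^t correspond. -/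
def Rel (hA : CMA F A B Om j act) (hL : IsTB act (π ^ t) N L) (w : Pl N) (e : Pt (WAB A B) Ω → Pt (WAB A B) Ω → Ω) (l : ℕ)
    (c : (Ω ≃ₐ[F] Ω) → Pt (WAB A B) Ω)
    (f : letI := algNL hL.le; letI := tact hA hL; HG Gal(L/N) (Tor act (π ^ t)) (XU L w (l ^ t))) : Prop :=
  letI := algNL hL.le
  letI := tact hA hL
  ∀ T : Tor act (π ^ t), ∃ (y : Ω) (x : AU L w), y ≠ 0 ∧ (∀ s ∈ L.fixingSubgroup, s y = e (c s) (T : Pt (WAB A B) Ω) * y) ∧
    (((x.val : (L)ˣ) : L) : Ω) = y ^ l ^ t ∧ XU.pr w (l ^ t) x = f.1 T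

end H13V
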