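import Mathlib
import Pool.Agent.Lib.H13V.KD
import Pool.Agent.Lib.H13X.XI
import Pool.Agent.Lib.H13X.XP
import Pool.Agent.Lib.H55K.SHC

/-! # H13V, module KUM, chunk KA5: elements which move the torsion; the field L -/

open NumberField IsDedekindDomain WeierstrassCurve

namespace H13V

open H55P (IQ embF eF LF Per IsHecke Pt ac Inert Dec Nm Coc PExt UnrP Ram RamF SelZero)
open H35P (WAB Ker tt)
open H55K (Tor ak xc yc CMA Dta GV GMod cj cj_cj mul_cj cj_prime cj_dvd cj_nat Nm_cj Nm_mul Nm_nat tor_gen Lft TFld exists_lft)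
open H55K.S
open H55R (Pl ord smulP)
open H13S (Abv)
open H13X
open H13Y (guN SU)
open H19B (DN mem_DN CS mem_CS)

variable {F : Type} [Field F] [NumberField F] [IQ F] {A B : F} {Om : ℂ} {Ω : Type} [Field Ω] [DecidableEq Ω]
  [Algebra F Ω] [IsAlgClosure F Ω] {j : Ω →+* ℂ} {act : 𝓞 F →+* AddMonoid.End (Pt (WAB A B) Ω)} {mo : Ideal (𝓞 F)}
  {ψ : Ideal (𝓞 F) →*₀ 𝓞 F} {π : 𝓞 F} {l t : ℕ} {e : Pt (WAB A B) Ω → Pt (WAB A B) Ω → Ω} {N L N' : IntermediateField F Ω}
  {c : (Ω ≃ₐ[F] Ω) → Pt (WAB A B) Ω} {V : ValuationSubring Ω}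

/-- Chunk KA5 (S/M, four lemmas). PROOF of mv_pi: a valuation ring V above π (H13S.exists_above for the field ⊥ and a prime of F containing π; or H55K.exists_abw), V l < 1 (val_l), moved_ram (good reduction: D.dta.good; 4 ≤ Nm π: xp_nm) gives an inertia element σ without fixed points in Tor act π; it is in N.fixingSubgroup by Nb.inert. -/
theorem mv_pi (D : Dat A B Om j act mo ψ π l) (hN : Nb l N) : ∃ s ∈ N.fixingSubgroup, ∃ T ∈ Tor act π, ac (WAB A B) s T ≠ T := by
  obtain ⟨V, hV⟩ := exists_vr (Ω := Ω) D.pr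
  have hVl := val_l D.dvd vo_le V hV
  obtain ⟨s, hs, h⟩ := moved_ram D.cma (D.dta.good V hVl) D.pr (xp_nm D).1 hV
  obtain ⟨-, T₀, hT₀, -, h0⟩ := gi_gen D.cma π D.pr
  refine ⟨s, hN.inert V hVl s hs, T₀, hT₀, fun hc => ?_⟩
  have h1 := h T₀ hT₀ hc
  have h2 := (h0 1).1 (by rw [h1, map_zero])
  exact D.pr.not_isUnit (isUnit_of_dvd_one h2)

/-- PROOF: mv_pi for D.conj. -/
theorem mv_cj (D : Dat A B Om j act mo ψ π l) (hN : Nb l N) : ∃ s ∈ N.fixingSubgroup, ∃ T ∈ Tor act (cj π), ac (WAB A B) s T ≠ T := by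
  exact mv_pi D.conj hN

/-- In the split case some element fixing L moves a point killed by cj π. PROOF: V above cj π; moved_ram for cj π; the inertia element is in N.fixingSubgroup (Nb.inert) and fixes the points killed by π ^ t (H13X.inert_tors, vo V (π ^ t) = 1 because π and cj π are coprime: H13X.vo_unit), so it fixes L (IsTB.fix). -/
theorem mv_L (D : Dat A B Om j act mo ψ π l) (hs : ¬ π ∣ cj π) (hN : Nb l N) (hL : IsTB act (π ^ t) N L) :
    ∃ s ∈ L.fixingSubgroup, ∃ T ∈ Tor act (cj π), ac (WAB A B) s T ≠ T := by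
  have hsp := hs
  obtain ⟨V, hV⟩ := exists_vr (Ω := Ω) D.conj.pr
  have hVl := val_l D.conj.dvd vo_le V hV
  have hG := D.dta.good V hVl
  obtain ⟨s, hs, h⟩ := moved_ram D.cma hG D.conj.pr (xp_nm D).2 hV
  obtain ⟨-, T₀, hT₀, -, h0⟩ := gi_gen D.cma (cj π) D.conj.pr
  have hcop : IsCoprime (cj π) π := by
    have hP : IsPrincipalIdealRing (𝓞 F) := inferInstance
    rcases dichotomy D.hl D.dta.unr D.pr D.dvd with ⟨h1, -, -⟩ | ⟨-, h2, -, -⟩
    · exact absurd h1.symm.dvd hsp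
    · exact (D.conj.pr.irreducible.coprime_iff_not_dvd).2 h2
  have hv : vo V (π ^ t) = 1 := by
    rw [vo_pow, vo_unit hcop hV, one_pow]
  refine ⟨s, (hL.fix s).2 ⟨hN.inert V hVl s hs, fun T hT => inert_tors D.cma hG hv hs hT⟩, T₀, hT₀, fun hc => ?_⟩
  have h1 := h T₀ hT₀ hc
  have h2 := (h0 1).1 (by rw [h1, map_zero])
  exact D.conj.pr.not_isUnit (isUnit_of_dvd_one h2)

/-- In the inert case Ht is the group fixing L. PROOF: π is associated to l (H13X.dichotomy: if π ∣ cj π then the inert case holds), so Tor act (π ^ t) is the set of the points killed by l ^ t (act_nat, map_pow). -/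
theorem ht_L (D : Dat A B Om j act mo ψ π l) (hs : π ∣ cj π) (hL : IsTB act (π ^ t) N L) {s : Ω ≃ₐ[F] Ω} :
    s ∈ Ht A B l t N ↔ s ∈ L.fixingSubgroup := by
  have ha : Associated (l : 𝓞 F) π := by
    rcases dichotomy D.hl D.dta.unr D.pr D.dvd with ⟨-, -, h3⟩ | ⟨h1, -, -, -⟩
    · exact h3
    · exact absurd hs h1
  have hT : ∀ T : Pt (WAB A B) Ω, T ∈ Tor act (π ^ t) ↔ l ^ t • T = 0 := by
    intro T
    rw [← tor_assoc (ha.pow_pow (n := t)), mem_Tor, ← Nat.cast_pow, act_nat]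
  rw [mem_Ht, hL.fix]
  constructor
  · rintro ⟨h1, h2⟩
    exact ⟨h1, fun T h => h2 T ((hT T).1 h)⟩
  · rintro ⟨h1, h2⟩
    exact ⟨h1, fun T h => h2 T ((hT T).2 h)⟩

/-- PROOF: as H13X.exists_TB (Lib/H13X/XKB2.lean; copy it; only the finiteness of the set of points killed is used: H55K.tor_card). -/
theorem exists_TBt (hA : CMA F A B Om j act) {ρ : 𝓞 F} (hρ : ρ ≠ 0) (B₀ : IntermediateField F Ω) [FiniteDimensional F B₀] :
    ∃ L : IntermediateField F Ω, IsTB act ρ B₀ L := by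
  classical
  have hcard : Nat.card (Tor act ρ) = Nm ρ := H55K.tor_card hA hρ
  have hN : Nm ρ ≠ 0 := fun h => hρ (H55P.Nm_eq_zero.1 h)
  have hfin : Finite (Tor act ρ) := by
    apply Nat.finite_of_card_ne_zero
    rw [hcard]
    exact hN
  have hint : ∀ x : Ω, IsIntegral F x := fun x =>
    (Algebra.IsAlgebraic.isAlgebraic x).isIntegral
  let A₀ : Set Ω := (xc '' (Tor act ρ : Set (Pt (WAB A B) Ω))) ∪ (yc '' (Tor act ρ : Set (Pt (WAB A B) Ω)))
  have hAf : A₀.Finite := ((Set.toFinite (Tor act ρ : Set (Pt (WAB A B) Ω))).image _).union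
    ((Set.toFinite (Tor act ρ : Set (Pt (WAB A B) Ω))).image _)
  have hAf' : Finite A₀ := hAf
  have hLf : FiniteDimensional F (IntermediateField.adjoin F A₀) :=
    IntermediateField.finiteDimensional_adjoin fun x _ => hint x
  refine ⟨B₀ ⊔ IntermediateField.adjoin F A₀, inferInstance, le_sup_left, fun s => ?_⟩
  rw [IntermediateField.fixingSubgroup_sup, Subgroup.mem_inf]
  refine and_congr_right fun _ => ?_
  constructor
  · intro hs T hT
    have hfix : ∀ x ∈ A₀, s x = x := fun x hx =>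
      (IntermediateField.mem_fixingSubgroup_iff _ _).1 hs x (IntermediateField.subset_adjoin F A₀ hx)
    by_cases hT0 : T = 0
    · rw [hT0, map_zero]
    · refine pt_ext (ac_ne s hT0) hT0 ?_ ?_
      · rw [xc_ac]
        exact hfix _ (Or.inl ⟨T, hT, rfl⟩)
      · rw [yc_ac]
        exact hfix _ (Or.inr ⟨T, hT, rfl⟩)
  · intro hs
    rw [IntermediateField.mem_fixingSubgroup_iff]
    intro x hx
    have hA : ∀ x ∈ A₀, s x = x := by
      rintro x (⟨T, hT, rfl⟩ | ⟨T, hT, rfl⟩)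
      · have h1 := congrArg xc (hs T hT)
        rw [xc_ac] at h1
        exact h1
      · have h1 := congrArg yc (hs T hT)
        rw [yc_ac] at h1
        exact h1
    induction hx using IntermediateField.adjoin_induction with
    | mem x hx => exact hA x hx
    | algebraMap x => exact s.commutes x
    | add x y _ _ h1 h2 => rw [map_add, h1, h2]
    | inv x _ h1 => rw [map_inv₀, h1]
    | mul x y _ _ h1 h2 => rw [map_mul, h1, h2]

end H13V
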