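import Mathlib
import Pool.Agent.Lib.H13V.KD
import Pool.Agent.Lib.H13X.XZ2

/-! # H13V, module KUM, chunk KA3: the pairing is perfect -/

open NumberField IsDedekindDomain WeierstrassCurve

namespace H13V

open H55P (IQ embF eF LF Per IsHecke Pt ac Inert Dec Nm Coc PExt UnrP Ram RamF SelZero)
open H35P (WAB Ker tt)
open H55K (Tor ak xc yc CMA Dta GV GMod cj cj_cj mul_cj cj_prime cj_dvd cj_nat Nm_cj Nm_mul Nm_nat tor_gen Lft TFld exists_lft)
open H55K.S
open H55R (Pl ord smulP)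
open H13S (Abv)
open H13X
open H13Y (guN SU)
open H19B (DN mem_DN CS mem_CS)

variable {F : Type} [Field F] [NumberField F] [IQ F] {A B : F} {Om : ℂ} {Ω : Type} [Field Ω] [DecidableEq Ω]
  [Algebra F Ω] [IsAlgClosure F Ω] {j : Ω →+* ℂ} {act : 𝓞 F →+* AddMonoid.End (Pt (WAB A B) Ω)} {mo : Ideal (𝓞 F)}
  {ψ : Ideal (𝓞 F) →*₀ 𝓞 F} {π : 𝓞 F} {l t : ℕ} {e : Pt (WAB A B) Ω → Pt (WAB A B) Ω → Ω} {N L N' : IntermediateField F Ω}
  {c : (Ω ≃ₐ[F] Ω) → Pt (WAB A B) Ω} {V : ValuationSubring Ω}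

/-- Characters of finite groups and perfect pairings. -/
theorem ka3_gen {P K : Type*} [AddCommGroup P] [Field K] [IsAlgClosed K] [CharZero K] (S T : AddSubgroup P) [Finite S] [Finite T]
    (hc : Nat.card S = Nat.card T) (m : ℕ) (hm : m ≠ 0) (e : P → P → K)
    (h1 : ∀ X ∈ S, ∀ X' ∈ S, ∀ Y ∈ T, e (X + X') Y = e X Y * e X' Y)
    (h2 : ∀ X ∈ S, ∀ Y ∈ T, ∀ Y' ∈ T, e X (Y + Y') = e X Y * e X Y')
    (h3 : ∀ X ∈ S, ∀ Y ∈ T, e X Y ^ m = 1) (hn : ∀ X ∈ S, (∀ Y ∈ T, e X Y = 1) → X = 0) (κ : P → K)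
    (hκ : ∀ Y ∈ T, κ Y ^ m = 1) (hadd : ∀ Y ∈ T, ∀ Y' ∈ T, κ (Y + Y') = κ Y * κ Y') :
    ∃ X ∈ S, ∀ Y ∈ T, e X Y = κ Y := by
  classical
  let G := Multiplicative T
  have : Finite G := inferInstanceAs (Finite T)
  have hex : NeZero (Monoid.exponent G) := ⟨Monoid.exponent_ne_zero_of_finite⟩
  have : NeZero ((Monoid.exponent G : ℕ) : K) := ⟨Nat.cast_ne_zero.2 hex.out⟩
  have hcard : Nat.card (G →* Kˣ) = Nat.card T := by
    rw [CommGroup.card_monoidHom_of_hasEnoughRootsOfUnity]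
    rfl
  have : Finite (G →* Kˣ) := Nat.finite_of_card_ne_zero (by rw [hcard]; exact Nat.card_ne_zero.2 ⟨⟨0⟩, inferInstance⟩)
  have hunit : ∀ f : P → K, (∀ Y ∈ T, f Y ^ m = 1) → (∀ Y ∈ T, ∀ Y' ∈ T, f (Y + Y') = f Y * f Y') →
      ∃ χ : G →* Kˣ, ∀ Y : T, (χ (Multiplicative.ofAdd Y) : K) = f Y := by
    intro f hf hm'
    have hne : ∀ Y : T, f Y ≠ 0 := by
      intro Y h
      have h1 := hf Y Y.2
      rw [h, zero_pow hm] at h1
      exact zero_ne_one h1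
    refine ⟨MonoidHom.mk' (fun Y => Units.mk0 (f (Multiplicative.toAdd Y : T)) (hne _)) ?_, ?_⟩
    · intro a b
      apply Units.ext
      rw [Units.val_mul, Units.val_mk0, Units.val_mk0, Units.val_mk0]
      exact hm' _ (Multiplicative.toAdd a : T).2 _ (Multiplicative.toAdd b : T).2
    · intro Y
      rfl
  choose ψ hψ using fun X : S => hunit (e X) (fun Y hY => h3 X X.2 Y hY) (fun Y hY Y' hY' => h2 X X.2 Y hY Y' hY')
  have hinj : Function.Injective ψ := by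
    intro X Y hXY
    have h4 : ∀ Z ∈ T, e X Z = e Y Z := by
      intro Z hZ
      rw [← hψ X ⟨Z, hZ⟩, ← hψ Y ⟨Z, hZ⟩, hXY]
    have h5 : (X - Y : P) = 0 := by
      refine hn _ (AddSubgroup.sub_mem _ X.2 Y.2) fun Z hZ => ?_
      have h6 := h1 (X - Y) (AddSubgroup.sub_mem _ X.2 Y.2) Y Y.2 Z hZ
      rw [sub_add_cancel, h4 Z hZ] at h6
      have h7 : e (Y : P) Z ≠ 0 := by
        intro h
        have h8 := h3 Y Y.2 Z hZ
        rw [h, zero_pow hm] at h8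
        exact zero_ne_one h8
      exact (mul_eq_right₀ h7).1 h6.symm
    exact Subtype.ext (sub_eq_zero.1 h5)
  have hbij : Function.Bijective ψ := (Nat.bijective_iff_injective_and_card ψ).2 ⟨hinj, by rw [hcard, hc]⟩
  obtain ⟨χ, hχ⟩ := hunit κ hκ hadd
  obtain ⟨X, hX⟩ := hbij.2 χ
  refine ⟨X, X.2, fun Y hY => ?_⟩
  rw [← hψ X ⟨Y, hY⟩, ← hχ ⟨Y, hY⟩, hX]

/-- The points killed by ρ are killed by its multiples. -/
theorem ka3_kill (act : 𝓞 F →+* AddMonoid.End (Pt (WAB A B) Ω)) {ρ : 𝓞 F} {n : ℕ} (h : ρ ∣ (n : 𝓞 F))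
    {T : Pt (WAB A B) Ω} (hT : T ∈ Tor act ρ) : n • T = 0 := by
  obtain ⟨z, hz⟩ := h
  have h1 : act (n : 𝓞 F) T = n • T := by
    rw [map_natCast]
    exact AddMonoid.End.natCast_apply n T
  have h2 : act ρ T = 0 := hT
  rw [← h1, hz, mul_comm, map_mul]
  show act z (act ρ T) = 0
  rw [h2, map_zero]

theorem ka3_dvd (D : Dat A B Om j act mo ψ π l) (t : ℕ) : π ^ t ∣ ((l ^ t : ℕ) : 𝓞 F) := by
  rw [Nat.cast_pow]
  exact pow_dvd_pow_of_dvd D.dvd t

theorem ka3_dvd' (D : Dat A B Om j act mo ψ π l) (t : ℕ) : cj π ^ t ∣ ((l ^ t : ℕ) : 𝓞 F) := ka3_dvd D.conj t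

/-- A natural number divisible by π^t is divisible by l^t. -/
theorem ka3_nat (D : Dat A B Om j act mo ψ π l) {t n : ℕ} (h : π ^ t ∣ (n : 𝓞 F)) : l ^ t ∣ n := by
  rcases Nat.eq_zero_or_pos n with h0 | h0
  · rw [h0]
    exact dvd_zero _
  obtain ⟨s, m, hm, hn⟩ := Nat.exists_eq_pow_mul_and_not_dvd h0.ne' l D.hl.ne_one
  have hπm : ¬ π ∣ (m : 𝓞 F) := by
    intro hd
    have h1 : IsCoprime (l : ℤ) (m : ℤ) := Nat.isCoprime_iff_coprime.2 ((Nat.Prime.coprime_iff_not_dvd D.hl).2 hm)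
    obtain ⟨a, b, hab⟩ := h1
    have h2 : (a : 𝓞 F) * (l : 𝓞 F) + (b : 𝓞 F) * (m : 𝓞 F) = 1 := by
      have h3 := congrArg (fun z : ℤ => (z : 𝓞 F)) hab
      push_cast at h3
      exact h3
    apply D.pr.not_unit
    apply isUnit_of_dvd_one
    rw [← h2]
    exact dvd_add (Dvd.dvd.mul_left D.dvd _) (Dvd.dvd.mul_left hd _)
  obtain ⟨u, hu⟩ := D.dvd
  have hπu : ¬ π ∣ u := by
    rintro ⟨z, hz⟩
    have hp : (Ideal.span {π} : Ideal (𝓞 F)).IsPrime := (Ideal.span_singleton_prime D.pr.ne_zero).2 D.pr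
    have hb : (Ideal.span {π} : Ideal (𝓞 F)) ≠ ⊥ := by
      rw [Ne, Ideal.span_singleton_eq_bot]
      exact D.pr.ne_zero
    apply D.dta.unr ⟨Ideal.span {π}, hp, hb⟩
    show (l : 𝓞 F) ∈ (Ideal.span {π} : Ideal (𝓞 F)) ^ 2
    rw [Ideal.span_singleton_pow, Ideal.mem_span_singleton, hu, hz]
    exact ⟨z, by ring⟩
  rw [hn] at h ⊢
  have hst : t ≤ s := by
    by_contra hlt
    rw [not_le] at hlt
    have h4 : π ^ (s + 1) ∣ ((l ^ s * m : ℕ) : 𝓞 F) := (pow_dvd_pow π hlt).trans h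
    rw [Nat.cast_mul, Nat.cast_pow, hu, mul_pow, pow_succ, mul_assoc] at h4
    have h5 := (mul_dvd_mul_iff_left (pow_ne_zero s D.pr.ne_zero)).1 h4
    rcases D.pr.dvd_or_dvd h5 with h6 | h6
    · exact hπu (D.pr.dvd_of_dvd_pow h6)
    · exact hπm h6
  exact Dvd.dvd.mul_right (pow_dvd_pow l hst) m

omit [DecidableEq Ω] in
/-- The field is algebraically closed of characteristic zero. -/
theorem ka3_field (F Ω : Type) [Field F] [NumberField F] [Field Ω] [Algebra F Ω] [IsAlgClosure F Ω] : IsAlgClosed Ω ∧ CharZero Ω :=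
  ⟨IsAlgClosure.isAlgClosed F, charZero_of_injective_algebraMap (algebraMap F Ω).injective⟩

theorem ka3_fin (D : Dat A B Om j act mo ψ π l) (t : ℕ) : Finite (Tor act (π ^ t)) ∧ Finite (Tor act (cj π ^ t)) ∧
    Nat.card (Tor act (cj π ^ t)) = Nat.card (Tor act (π ^ t)) := by
  have h1 : (π ^ t : 𝓞 F) ≠ 0 := pow_ne_zero _ D.pr.ne_zero
  have h2 : (cj π ^ t : 𝓞 F) ≠ 0 := pow_ne_zero _ (cj_prime D.pr).ne_zero
  have h3 := H55K.tor_card D.cma h1
  have h4 := H55K.tor_card D.cma h2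
  have h5 : Nm (cj π ^ t) = Nm (π ^ t) := by rw [← map_pow, Nm_cj]
  have h6 : Nm (π ^ t) ≠ 0 := fun h => h1 (H55P.Nm_eq_zero.1 h)
  refine ⟨Nat.finite_of_card_ne_zero (by rw [h3]; exact h6), Nat.finite_of_card_ne_zero (by rw [h4, h5]; exact h6), ?_⟩
  rw [h3, h4, h5]

/-- Chunk KA3 (M, three theorems). PROOF of pt_surj: port of H13X.pair_surj (file Lib/H13X/XZ2.lean; copy it): Tor act (π ^ t) and Tor act (cj π ^ t) are finite with Nm (π ^ t) = Nm (cj π ^ t) elements (H55K.tor_card; Nm (cj π ^ t) = Nm (cj (π ^ t)) = Nm (π ^ t), Nm_cj), the injection X ↦ e X · (nondeg)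
into the characters of the finite group Tor act (π ^ t) (as many as elements: CommGroup.card_monoidHom_of_hasEnoughRootsOfUnity) is surjective. -/
theorem pt_surj (D : Dat A B Om j act mo ψ π l) (he : PT A B act π l t e) (κ : Pt (WAB A B) Ω → Ω)
    (hκ : ∀ T ∈ Tor act (π ^ t), κ T ^ l ^ t = 1)
    (hadd : ∀ T ∈ Tor act (π ^ t), ∀ T' ∈ Tor act (π ^ t), κ (T + T') = κ T * κ T') :
    ∃ X ∈ Tor act (cj π ^ t), ∀ T ∈ Tor act (π ^ t), e X T = κ T := by
  obtain ⟨hA, hC⟩ := ka3_field F Ω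
  obtain ⟨hf1, hf2, hc⟩ := ka3_fin D t
  exact ka3_gen (Tor act (cj π ^ t)) (Tor act (π ^ t)) hc (l ^ t) (pow_ne_zero _ D.hl.ne_zero) e
    he.add_left he.add_right he.root he.nondeg κ hκ hadd

/-- PROOF of pt_nd (right nondegeneracy). If e X T = 1 for all X, then e (act (cj a) X) T = e X (act a T) (adj, cj_cj) = 1 for all a and X; if T ≠ 0 there is a multiple T₁ = act a T ≠ 0 ... simpler: let K be the subgroup of all T in Tor act (π ^ t) with e X T = 1 for all X. The map X ↦ e X · is an injection of Tor act (cj π ^ t) into the characters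
of the quotient group Tor act (π ^ t) / K; so Nm (π ^ t) ≤ Nm (π ^ t) / card K, K = 0. Alternatively by pt_surj: for T ≠ 0 there is a character κ of the finite group Tor act (π ^ t) with κ T ≠ 1 (exists_apply_ne_one_of_hasEnoughRootsOfUnity), κ T ^ l ^ t = 1 automatically since l ^ t kills T (π ^ t divides l ^ t), extended by 1 outside of the
subgroup; pt_surj gives X with e X T = κ T ≠ 1. -/
theorem pt_nd (D : Dat A B Om j act mo ψ π l) (he : PT A B act π l t e) {T : Pt (WAB A B) Ω} (hT : T ∈ Tor act (π ^ t))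
    (h : ∀ X ∈ Tor act (cj π ^ t), e X T = 1) : T = 0 := by
  classical
  by_contra hT0
  obtain ⟨hA, hC⟩ := ka3_field F Ω
  obtain ⟨hf1, hf2, hc⟩ := ka3_fin D t
  let G := Multiplicative (Tor act (π ^ t))
  have : Finite G := hf1
  have hex : NeZero (Monoid.exponent G) := ⟨Monoid.exponent_ne_zero_of_finite⟩
  have : NeZero ((Monoid.exponent G : ℕ) : Ω) := ⟨Nat.cast_ne_zero.2 hex.out⟩
  have hg : (Multiplicative.ofAdd (⟨T, hT⟩ : Tor act (π ^ t)) : G) ≠ 1 := fun h1 => hT0 (congrArg Subtype.val (Multiplicative.ofAdd.injective h1))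
  obtain ⟨χ, hχ⟩ := CommGroup.exists_apply_ne_one_of_hasEnoughRootsOfUnity G Ω hg
  obtain ⟨X, hX, hX1⟩ := pt_surj D he (fun Y => if hY : Y ∈ Tor act (π ^ t) then
      ((χ (Multiplicative.ofAdd (⟨Y, hY⟩ : Tor act (π ^ t))) : Ωˣ) : Ω) else 1)
    (fun Y hY => by
      simp only [dif_pos hY]
      have h1 : (l ^ t) • (⟨Y, hY⟩ : Tor act (π ^ t)) = 0 := Subtype.ext (ka3_kill act (ka3_dvd D t) hY)
      have h2 : (Multiplicative.ofAdd (⟨Y, hY⟩ : Tor act (π ^ t)) : G) ^ (l ^ t) = 1 := by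
        rw [← ofAdd_nsmul, h1]
        rfl
      rw [← Units.val_pow_eq_pow_val, ← map_pow, h2, map_one, Units.val_one])
    (fun Y hY Y' hY' => by
      simp only [dif_pos hY, dif_pos hY', dif_pos (AddSubgroup.add_mem _ hY hY')]
      rw [← Units.val_mul, ← map_mul]
      rfl)
  have h2 := hX1 T hT
  simp only [dif_pos hT] at h2
  rw [h X hX] at h2
  exact hχ (Units.ext h2.symm)

/-- PROOF: as pt_surj with the roles exchanged (pt_nd for the injectivity). -/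
theorem pt_surj' (D : Dat A B Om j act mo ψ π l) (he : PT A B act π l t e) (κ : Pt (WAB A B) Ω → Ω)
    (hκ : ∀ X ∈ Tor act (cj π ^ t), κ X ^ l ^ t = 1)
    (hadd : ∀ X ∈ Tor act (cj π ^ t), ∀ X' ∈ Tor act (cj π ^ t), κ (X + X') = κ X * κ X') :
    ∃ T ∈ Tor act (π ^ t), ∀ X ∈ Tor act (cj π ^ t), e X T = κ X := by
  obtain ⟨hA, hC⟩ := ka3_field F Ω
  obtain ⟨hf1, hf2, hc⟩ := ka3_fin D t
  exact ka3_gen (Tor act (π ^ t)) (Tor act (cj π ^ t)) hc.symm (l ^ t) (pow_ne_zero _ D.hl.ne_zero) (fun T X => e X T)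
    (fun T hT T' hT' X hX => he.add_right X hX T hT T' hT') (fun T hT X hX X' hX' => he.add_left X hX X' hX' T hT)
    (fun T hT X hX => he.root X hX T hT) (fun T hT h => pt_nd D he hT h) κ hκ hadd

/-- PROOF of ht_root. Every root of unity ζ of order dividing l ^ t is a value e X T₀ of the pairing: T₀ a generator of Tor act (π ^ t) (CMA.gen) has order exactly l ^ t (n • T₀ = act n T₀ = 0 iff π ^ t ∣ n iff l ^ t ∣ n: apply cj and use that n is fixed; in the split case π ^ t and cj π ^ t are coprime, in the inert case π is associated to l);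
the character n • T₀ ↦ ζ ^ n of the cyclic group generated by T₀ extends to Tor act (π ^ t) (e.g. H13T.ta_ext with values in ZMod (l ^ t), or MonoidHom.domRestrict_surjective as in Lib/H13T/TA.lean), pt_surj gives X. Points killed by π ^ t or cj π ^ t are killed by l ^ t, so s fixes X and T₀: s ζ = s (e X T₀) = e X T₀ = ζ (he.gal). -/
theorem ht_root (D : Dat A B Om j act mo ψ π l) (he : PT A B act π l t e) {s : Ω ≃ₐ[F] Ω} (hs : s ∈ Ht A B l t N) {ζ : Ω}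
    (hζ : ζ ^ l ^ t = 1) : s ζ = ζ := by
  classical
  obtain ⟨T₀, hT₀, -, h2, -⟩ := D.cma.gen (π ^ t) (pow_ne_zero _ D.pr.ne_zero)
  obtain ⟨hf1, hf2, hc⟩ := ka3_fin D t
  have hl0 : l ^ t ≠ 0 := pow_ne_zero _ D.hl.ne_zero
  have : NeZero (l ^ t) := ⟨hl0⟩
  have hk : ∀ b : Tor act (π ^ t), (l ^ t) • b = 0 := fun b => Subtype.ext (ka3_kill act (ka3_dvd D t) b.2)
  let b₀ : Tor act (π ^ t) := ⟨T₀, hT₀⟩
  let g : ZMod (l ^ t) →+ Tor act (π ^ t) := ZMod.lift (l ^ t) ⟨zmultiplesHom _ b₀, by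
    rw [zmultiplesHom_apply, natCast_zsmul]
    exact hk b₀⟩
  have hg : Function.Injective g := by
    refine (ZMod.lift_injective (l ^ t)).2 fun m hm => ?_
    have h3 : m • b₀ = 0 := hm
    have h4 : m • T₀ = 0 := congrArg Subtype.val h3
    have h5 : m.natAbs • T₀ = 0 := by
      rcases Int.natAbs_eq m with h | h
      · rw [h, natCast_zsmul] at h4
        exact h4
      · rw [h, neg_smul, neg_eq_zero, natCast_zsmul] at h4
        exact h4
    have h6 : act (m.natAbs : 𝓞 F) T₀ = 0 := by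
      rw [map_natCast]
      exact (AddMonoid.End.natCast_apply _ T₀).trans h5
    have h7 := ka3_nat D ((h2 _).1 h6)
    rw [ZMod.intCast_zmod_eq_zero_iff_dvd]
    exact Int.natCast_dvd.2 h7
  obtain ⟨f, hf⟩ := H13T.ta_ext (l ^ t) hk g.range ((AddMonoidHom.ofInjective hg).symm : g.range →+ ZMod (l ^ t))
  have h3 : f b₀ = 1 := by
    have h4 : g 1 = b₀ := by
      have h5 : g ((1 : ℤ) : ZMod (l ^ t)) = b₀ := by
        show ZMod.lift (l ^ t) _ ((1 : ℤ) : ZMod (l ^ t)) = b₀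
        rw [ZMod.lift_coe]
        exact one_zsmul b₀
      rwa [Int.cast_one] at h5
    have h6 := hf (AddMonoidHom.ofInjective hg 1)
    rw [← h4]
    exact h6.trans ((AddMonoidHom.ofInjective hg).symm_apply_apply 1)
  obtain ⟨X, hX, hX1⟩ := pt_surj D he (fun Y => if hY : Y ∈ Tor act (π ^ t) then ζ ^ (f ⟨Y, hY⟩).val else 1)
    (fun Y hY => by
      simp only [dif_pos hY]
      rw [← pow_mul, mul_comm, pow_mul, hζ, one_pow])
    (fun Y hY Y' hY' => by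
      simp only [dif_pos hY, dif_pos hY', dif_pos (AddSubgroup.add_mem _ hY hY')]
      have h4 : f ⟨Y + Y', AddSubgroup.add_mem _ hY hY'⟩ = f ⟨Y, hY⟩ + f ⟨Y', hY'⟩ := by
        rw [← map_add]
        rfl
      rw [h4, ZMod.val_add, ← pow_add]
      exact (pow_eq_pow_mod _ hζ).symm)
  have h4 := hX1 T₀ hT₀
  simp only [dif_pos hT₀] at h4
  have h5 : f ⟨T₀, hT₀⟩ = 1 := h3
  rw [h5, ZMod.val_one_eq_one_mod] at h4
  have h6 : e X T₀ = ζ := by
    rw [h4, ← pow_eq_pow_mod 1 hζ, pow_one]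
  have h7 := he.gal s X hX T₀ hT₀
  rw [hs.2 X (ka3_kill act (ka3_dvd' D t) hX), hs.2 T₀ (ka3_kill act (ka3_dvd D t) hT₀), h6] at h7
  exact h7

end H13V
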