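import Mathlib
import Pool.Agent.Lib.H13V.KD

/-! # H13V, module KUM, chunk KA4: small lemmas: torsion, commutators, scalars, extension of cocycles -/

open NumberField IsDedekindDomain WeierstrassCurve

namespace H13V

open H55P (IQ embF eF LF Per IsHecke Pt ac Inert Dec Nm Coc PExt UnrP Ram RamF SelZero)
open H35P (WAB Ker tt)
open H55K (Tor ak xc yc CMA Dta GV GMod cj cj_cj mul_cj cj_prime cj_dvd cj_nat Nm_cj Nm_mul Nm_nat tor_gen Lft TFld exists_lft)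
open H55K.S
open H55R (Pl ord smulP)
open H13S (Abv)
open H13X
open H13Y (guN SU)
open H19B (DN mem_DN CS mem_CS)

variable {F : Type} [Field F] [NumberField F] [IQ F] {A B : F} {Om : ℂ} {Ω : Type} [Field Ω] [DecidableEq Ω]
  [Algebra F Ω] [IsAlgClosure F Ω] {j : Ω →+* ℂ} {act : 𝓞 F →+* AddMonoid.End (Pt (WAB A B) Ω)} {mo : Ideal (𝓞 F)}
  {ψ : Ideal (𝓞 F) →*₀ 𝓞 F} {π : 𝓞 F} {l t : ℕ} {e : Pt (WAB A B) Ω → Pt (WAB A B) Ω → Ω} {N L N' : IntermediateField F Ω}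
  {c : (Ω ≃ₐ[F] Ω) → Pt (WAB A B) Ω} {V : ValuationSubring Ω}

omit [IQ F] in
theorem ka4_cop {β x : 𝓞 F} (hβ : Prime β) (h : ¬ β ∣ x) : IsCoprime β x := by
  have h0 : Ideal.span {β} ≠ ⊥ := by
    intro h1
    exact hβ.ne_zero (Ideal.span_singleton_eq_bot.1 h1)
  have h1 : (Ideal.span {β}).IsMaximal :=
    ((Ideal.span_singleton_prime hβ.ne_zero).2 hβ).isMaximal h0
  rw [← Ideal.isCoprime_span_singleton_iff, Ideal.isCoprime_iff_sup_eq]
  apply h1.1.2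
  refine lt_of_le_of_ne le_sup_left fun h2 => h ?_
  have h3 : x ∈ Ideal.span {β} := by
    rw [h2]
    exact Ideal.mem_sup_right (Ideal.mem_span_singleton_self x)
  exact Ideal.mem_span_singleton.1 h3

omit [IsAlgClosure F Ω] in
theorem ka4_tor {P : Pt (WAB A B) Ω} (l t : ℕ) : P ∈ Tor act ((l : 𝓞 F) ^ t) ↔ l ^ t • P = 0 := by
  rw [mem_Tor, ← Nat.cast_pow, act_nat]

omit [IsAlgClosure F Ω] in
theorem ka4_dvd {a b : 𝓞 F} (h : a ∣ b) {P : Pt (WAB A B) Ω} (hP : P ∈ Tor act a) : P ∈ Tor act b := by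
  obtain ⟨u, rfl⟩ := h
  rw [mem_Tor, mul_comm, act_mul, mem_Tor.1 hP, map_zero]

omit [IsAlgClosure F Ω] in
theorem ka4_comm (hA : CMA F A B Om j act) {β : 𝓞 F} (hβ : β ≠ 0) (g s : Ω ≃ₐ[F] Ω) {P : Pt (WAB A B) Ω}
    (hP : P ∈ Tor act β) : ac (WAB A B) g (ac (WAB A B) s P) = ac (WAB A B) s (ac (WAB A B) g P) := by
  obtain ⟨T₀, hT₀, hgen, -⟩ := hA.gen β hβ
  obtain ⟨d, hd⟩ := hgen _ (ac_mem hA g hT₀)
  obtain ⟨d', hd'⟩ := hgen _ (ac_mem hA s hT₀)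
  obtain ⟨a, rfl⟩ := hgen P hP
  rw [ac_act hA, ac_act hA, hd', ac_act hA, hd, ac_act hA, ac_act hA, hd, ac_act hA, hd', ← act_mul d' d,
    ← act_mul d d', mul_comm]

omit [IsAlgClosure F Ω] in
theorem ka4_comm4 (hA : CMA F A B Om j act) {β : 𝓞 F} (hβ : β ≠ 0) (g s : Ω ≃ₐ[F] Ω) {P : Pt (WAB A B) Ω}
    (hP : P ∈ Tor act β) : ac (WAB A B) (g * s * g⁻¹ * s⁻¹) P = P := by
  rw [ac_mul, ac_mul, ac_mul, ka4_comm hA hβ g s (ac_mem hA _ (ac_mem hA _ hP)), ac_inv, ac_inv]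

/-- Chunk KA4 (M, seven lemmas). -/
theorem ht_normal {g s : Ω ≃ₐ[F] Ω} (hg : g ∈ N.fixingSubgroup) (hs : s ∈ Ht A B l t N) : g⁻¹ * s * g ∈ Ht A B l t N := by
  obtain ⟨h1, h2⟩ := hs
  refine ⟨mul_mem (mul_mem (inv_mem hg) h1) hg, fun T hT => ?_⟩
  have h3 : l ^ t • ac (WAB A B) g T = 0 := by
    rw [← map_nsmul, hT, map_zero]
  rw [ac_mul, ac_mul, h2 _ h3, ← ac_mul, inv_mul_cancel, ac_one]

/-- PROOF: the points killed by l ^ t form a cyclic 𝓞 F-module (CMA.gen for (l : 𝓞 F) ^ t, act_nat) on which N.fixingSubgroup acts by multiplications, which commute. -/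
theorem ht_comm (hA : CMA F A B Om j act) (hl : l ≠ 0) {g s : Ω ≃ₐ[F] Ω} (hg : g ∈ N.fixingSubgroup) (hs : s ∈ N.fixingSubgroup) :
    g * s * g⁻¹ * s⁻¹ ∈ Ht A B l t N := by
  refine ⟨mul_mem (mul_mem (mul_mem hg hs) (inv_mem hg)) (inv_mem hs), fun T hT => ?_⟩
  have h0 : ((l : 𝓞 F) ^ t) ≠ 0 := pow_ne_zero _ (Nat.cast_ne_zero.2 hl)
  exact ka4_comm4 hA h0 g s ((ka4_tor l t).2 hT)

/-- PROOF: π ^ t, cj π ^ t divide (l : 𝓞 F) ^ t. -/
theorem tor_lt (D : Dat A B Om j act mo ψ π l) {T : Pt (WAB A B) Ω} (hT : T ∈ Tor act (π ^ t) ∨ T ∈ Tor act (cj π ^ t)) : l ^ t • T = 0 := by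
  rw [← ka4_tor (act := act)]
  rcases hT with hT | hT
  · exact ka4_dvd (pow_dvd_pow_of_dvd D.dvd t) hT
  · exact ka4_dvd (pow_dvd_pow_of_dvd D.conj.dvd t) hT

/-- PROOF: a point killed by (cj π) ^ t and by l ^ r is killed by (cj π) ^ r: inert case: cj π is associated to l; split case: π ^ r (cj π) ^ r = l ^ r, π ^ r is invertible modulo (cj π) ^ t: x π ^ r + y (cj π) ^ t = 1, so act ((cj π) ^ r) X = act (x l ^ r + y (cj π) ^ (t + r)) X = 0. (H13X.dichotomy.) The case of t < r is included. -/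
theorem tor_lr (D : Dat A B Om j act mo ψ π l) {r : ℕ} {X : Pt (WAB A B) Ω} (hX : X ∈ Tor act (cj π ^ t)) (h : l ^ r • X = 0) :
    X ∈ Tor act (cj π ^ r) := by
  have h1 : act ((l : 𝓞 F) ^ r) X = 0 := (ka4_tor l r).2 h
  rcases dichotomy D.hl D.dta.unr D.pr D.dvd with ⟨h2, -, h3⟩ | ⟨h2, -, -, h3⟩
  · have h4 : (l : 𝓞 F) ^ r ∣ cj π ^ r := pow_dvd_pow_of_dvd (h3.trans h2.symm).dvd r
    exact ka4_dvd h4 h1
  · have h4 : IsCoprime (π ^ r) (cj π ^ t) := (ka4_cop D.pr h2).pow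
    obtain ⟨x, y, hxy⟩ := h4
    have h5 : cj π ^ r = x * (l : 𝓞 F) ^ r + y * cj π ^ r * cj π ^ t := by
      rw [← h3, mul_pow]
      linear_combination (-(cj π ^ r)) * hxy
    rw [mem_Tor, h5, act_add, act_mul, act_mul (y * cj π ^ r), h1, mem_Tor.1 hX, map_zero, map_zero, add_zero]

/-- An element which moves a point killed by β acts on the points killed by β^t as a scalar d with d - 1 invertible. PROOF: T₀ a generator of Tor act (β ^ t) (CMA.gen), ac δ T₀ = act d T₀; if β ∣ d - 1 then δ fixes the points act (β ^ (t - 1) x) T₀; these are all points killed by β (for t ≥ 1; for t = 0 take d = 0: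
all points killed by β ^ 0 are 0, and ¬ β ∣ - 1). -/
theorem scal_t (hA : CMA F A B Om j act) {β : 𝓞 F} (hβ : Prime β) (t : ℕ) {δ : Ω ≃ₐ[F] Ω} (hmv : ∃ T ∈ Tor act β, ac (WAB A B) δ T ≠ T) :
    ∃ d u : 𝓞 F, (∀ T ∈ Tor act (β ^ t), ac (WAB A B) δ T = act d T) ∧ β ^ t ∣ u * (d - 1) - 1 ∧ ∀ T ∈ Tor act (β ^ t), act u (act d T - T) = T := by
  rcases Nat.eq_zero_or_pos t with ht | ht
  · subst ht
    have h0 : ∀ T ∈ Tor act (β ^ 0), T = 0 := by
      intro T hT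
      rw [pow_zero] at hT
      have h1 := mem_Tor.1 hT
      rwa [act_one] at h1
    refine ⟨0, 0, fun T hT => ?_, ?_, fun T hT => ?_⟩
    · rw [h0 T hT, map_zero, map_zero]
    · rw [pow_zero]
      exact one_dvd _
    · rw [h0 T hT]
      exact act_zero _
  · obtain ⟨T₀, hT₀, hgen, hz, -⟩ := hA.gen (β ^ t) (pow_ne_zero _ hβ.ne_zero)
    obtain ⟨d, hd⟩ := hgen _ (ac_mem hA δ hT₀)
    have hd2 : ∀ T ∈ Tor act (β ^ t), ac (WAB A B) δ T = act d T := by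
      intro T hT
      obtain ⟨a, rfl⟩ := hgen T hT
      rw [ac_act hA, hd, ← act_mul, ← act_mul, mul_comm]
    have hpt : β ^ t = β ^ (t - 1) * β := by
      rw [← pow_succ]
      congr 1
      omega
    have hnd : ¬ β ∣ d - 1 := by
      rintro ⟨v, hv⟩
      obtain ⟨T, hT, hne⟩ := hmv
      apply hne
      have hT2 : T ∈ Tor act (β ^ t) := ka4_dvd (Dvd.intro_left _ hpt.symm) hT
      obtain ⟨a, ha⟩ := hgen T hT2
      have h1 : act (β * a) T₀ = 0 := by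
        rw [act_mul, ← ha]
        exact hT
      have h2 : β ^ (t - 1) ∣ a := by
        have h3 := (hz _).1 h1
        rw [hpt, mul_comm] at h3
        exact (mul_dvd_mul_iff_left hβ.ne_zero).1 h3
      obtain ⟨a', ha'⟩ := h2
      have h4 : act ((d - 1) * a) T₀ = 0 := by
        rw [hz, hv, ha', hpt]
        exact ⟨v * a', by ring⟩
      have h5 : act (d - 1) T = 0 := by
        rw [ha, ← act_mul, h4]
      rw [hd2 T hT2]
      rw [act_sub, act_one, sub_eq_zero] at h5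
      exact h5
    have hco : IsCoprime (d - 1) (β ^ t) := ((ka4_cop hβ hnd).symm).pow_right
    obtain ⟨u, v, huv⟩ := hco
    refine ⟨d, u, hd2, ⟨-v, by linear_combination huv⟩, fun T hT => ?_⟩
    have h6 : act d T - T = act (d - 1) T := by rw [act_sub, act_one]
    have h7 : u * (d - 1) = 1 - v * β ^ t := by linear_combination huv
    rw [h6, ← act_mul, h7, act_sub, act_one, act_mul, mem_Tor.1 hT, map_zero, sub_zero]

/-- A cocycle on a group D which is zero on the commutators with an element δ moving the points killed by β is a coboundary. PROOF: s₀ = δ s δ⁻¹ s⁻¹ fixes the points killed by β ^ t (scalars commute); c (δ s) = c δ + δ c s, and δ s = s₀ (s δ) gives c (δ s) = 0 + s₀ (c s + s c δ) = c s + s c δ. With scal_t: act d (c s) - c s = s c δ - c δ,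
c s = s X - X for X = act u (c δ). -/
theorem sah_t (hA : CMA F A B Om j act) {β : 𝓞 F} (hβ : Prime β) {D : Subgroup (Ω ≃ₐ[F] Ω)}
    (hm : ∀ s ∈ D, ∀ s' ∈ D, c (s * s') = c s + ac (WAB A B) s (c s')) (hv : ∀ s ∈ D, c s ∈ Tor act (β ^ t))
    {δ : Ω ≃ₐ[F] Ω} (hδ : δ ∈ D) (hmv : ∃ T ∈ Tor act β, ac (WAB A B) δ T ≠ T) (h0 : ∀ s ∈ D, c (δ * s * δ⁻¹ * s⁻¹) = 0) :
    ∃ X ∈ Tor act (β ^ t), ∀ s ∈ D, c s = ac (WAB A B) s X - X := by
  obtain ⟨d, u, hd, -, hu⟩ := scal_t hA hβ t hmv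
  have h0' : β ^ t ≠ 0 := pow_ne_zero _ hβ.ne_zero
  refine ⟨act u (c δ), act_tor (hv δ hδ), fun s hs => ?_⟩
  have h1 : δ * s = (δ * s * δ⁻¹ * s⁻¹) * (s * δ) := by group
  have hmem : δ * s * δ⁻¹ * s⁻¹ ∈ D := mul_mem (mul_mem (mul_mem hδ hs) (inv_mem hδ)) (inv_mem hs)
  have h2 := hm δ hδ s hs
  rw [h1, hm _ hmem _ (mul_mem hs hδ), h0 s hs, zero_add, ka4_comm4 hA h0' δ s (hv _ (mul_mem hs hδ)),
    hm s hs δ hδ, hd _ (hv s hs)] at h2
  have h3 : act d (c s) - c s = ac (WAB A B) s (c δ) - c δ := by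
    have h4 : act d (c s) = c s + ac (WAB A B) s (c δ) - c δ := by
      rw [h2]
      abel
    rw [h4]
    abel
  rw [ac_act hA, ← map_sub, ← h3, hu _ (hv s hs)]

/-- An invariant homomorphism on Ht extends to a cocycle on N.fixingSubgroup. PROOF: with d, u of scal_t for β = cj π: c s = act u (b (δ * s * δ⁻¹ * s⁻¹)) (ht_comm). For s in Ht: b (δ s δ⁻¹ s⁻¹) = b (δ s δ⁻¹) - b s, and b (δ s δ⁻¹) = δ (b s) = act d (b s) by hinv (for g = δ). Cocycle: δ s s' δ⁻¹ s'⁻¹ s⁻¹ = (δ s δ⁻¹ s⁻¹) (s (δ s' δ⁻¹ s'⁻¹) s⁻¹), hinv for g = s.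
Continuity: let M be the field of hc, M' = a finite Galois extension of F containing M and the coordinates of the points killed by l ^ t (IntermediateField.normalClosure; see the end of Lib/H13X/XZ5.lean); for s in N.fixingSubgroup ∩ M'.fixingSubgroup the commutator δ s δ⁻¹ s⁻¹ is in M'.fixingSubgroup, so b is 0 there. -/
theorem ext_t (D : Dat A B Om j act mo ψ π l) [NumberField N] {b : (Ω ≃ₐ[F] Ω) → Pt (WAB A B) Ω}
    (hm : ∀ s ∈ Ht A B l t N, ∀ s' ∈ Ht A B l t N, b (s * s') = b s + b s') (hv : ∀ s ∈ Ht A B l t N, b s ∈ Tor act (cj π ^ t))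
    (hc : ∃ M : IntermediateField F Ω, FiniteDimensional F M ∧ ∀ s ∈ Ht A B l t N, s ∈ M.fixingSubgroup → b s = 0)
    (hinv : ∀ g ∈ N.fixingSubgroup, ∀ s ∈ Ht A B l t N, ac (WAB A B) g (b (g⁻¹ * s * g)) = b s)
    {δ : Ω ≃ₐ[F] Ω} (hδ : δ ∈ N.fixingSubgroup) (hmv : ∃ T ∈ Tor act (cj π), ac (WAB A B) δ T ≠ T) :
    ∃ c ∈ CS N.fixingSubgroup act (cj π ^ t), ∀ s ∈ Ht A B l t N, c s = b s := by
  obtain ⟨d, u, hd, -, hu⟩ := scal_t D.cma D.conj.pr t hmv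
  have hl : l ≠ 0 := D.hl.ne_zero
  have hcm : ∀ s ∈ N.fixingSubgroup, δ * s * δ⁻¹ * s⁻¹ ∈ Ht A B l t N := fun s hs => ht_comm D.cma hl hδ hs
  have hconj : ∀ g ∈ N.fixingSubgroup, ∀ s ∈ Ht A B l t N, b (g * s * g⁻¹) = ac (WAB A B) g (b s) := by
    intro g hg s hs
    have h1 : g * s * g⁻¹ ∈ Ht A B l t N := by
      have h2 := ht_normal (inv_mem hg) hs
      rwa [inv_inv] at h2
    have h3 := hinv g hg _ h1
    have h4 : g⁻¹ * (g * s * g⁻¹) * g = s := by group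
    rw [h4] at h3
    exact h3.symm
  have hb1 : b 1 = 0 := by
    have h1 := hm 1 (one_mem _) 1 (one_mem _)
    rw [mul_one] at h1
    exact left_eq_add.1 h1
  have hbi : ∀ s ∈ Ht A B l t N, b s⁻¹ = - b s := by
    intro s hs
    have h1 := hm s hs s⁻¹ (inv_mem hs)
    rw [mul_inv_cancel, hb1] at h1
    exact (neg_eq_of_add_eq_zero_right h1.symm).symm
  have hext : ∀ s ∈ Ht A B l t N, act u (b (δ * s * δ⁻¹ * s⁻¹)) = b s := by
    intro s hs
    have h1 : δ * s * δ⁻¹ ∈ Ht A B l t N := by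
      have h2 := ht_normal (inv_mem hδ) hs
      rwa [inv_inv] at h2
    rw [hm _ h1 _ (inv_mem hs), hbi s hs, hconj δ hδ s hs, hd _ (hv s hs), ← sub_eq_add_neg, hu _ (hv s hs)]
  refine ⟨fun s => act u (b (δ * s * δ⁻¹ * s⁻¹)), ⟨fun s hs s' hs' => ?_, fun s hs => ?_, ?_⟩, fun s hs => hext s hs⟩
  · show act u (b (δ * (s * s') * δ⁻¹ * (s * s')⁻¹)) = act u (b (δ * s * δ⁻¹ * s⁻¹)) +
      ac (WAB A B) s (act u (b (δ * s' * δ⁻¹ * s'⁻¹)))
    have h1 : δ * (s * s') * δ⁻¹ * (s * s')⁻¹ = (δ * s * δ⁻¹ * s⁻¹) * (s * (δ * s' * δ⁻¹ * s'⁻¹) * s⁻¹) := by group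
    have h2 : s * (δ * s' * δ⁻¹ * s'⁻¹) * s⁻¹ ∈ Ht A B l t N := by
      have h3 := ht_normal (inv_mem hs) (hcm s' hs')
      rwa [inv_inv] at h3
    rw [h1, hm _ (hcm s hs) _ h2, hconj s hs _ (hcm s' hs'), map_add, ac_act D.cma]
  · exact act_tor (hv _ (hcm s hs))
  · obtain ⟨M, hMf, hM⟩ := hc
    let M' : IntermediateField F Ω := IntermediateField.normalClosure F M Ω
    have hNn : Normal F M' := normalClosure.normal F M Ω
    have hNf : FiniteDimensional F M' := normalClosure.is_finiteDimensional F M Ω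
    have hMN : M ≤ M' := IntermediateField.le_normalClosure M
    have hUn' : M'.fixingSubgroup.Normal := inferInstance
    refine ⟨M', hNf, fun s hs hs' => ?_⟩
    have h1 : δ * s * δ⁻¹ * s⁻¹ ∈ M'.fixingSubgroup :=
      mul_mem (hUn'.conj_mem s hs' δ) (inv_mem hs')
    have h2 : b (δ * s * δ⁻¹ * s⁻¹) = 0 :=
      hM _ (hcm s hs) (IntermediateField.fixingSubgroup_antitone hMN h1)
    show act u (b (δ * s * δ⁻¹ * s⁻¹)) = 0
    rw [h2, map_zero]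

end H13V
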