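import Mathlib
import Pool.Agent.Lib.H13V.KA3
import Pool.Agent.Lib.H13V.KA4
import Pool.Agent.Lib.SSN.D

/-! # H13V, module KUM, chunk KA6: a Kummer system of level t on L (surjectivity R2, first half) -/

open NumberField IsDedekindDomain WeierstrassCurve

namespace H13V

open H55P (IQ embF eF LF Per IsHecke Pt ac Inert Dec Nm Coc PExt UnrP Ram RamF SelZero)
open H35P (WAB Ker tt)
open H55K (Tor ak xc yc CMA Dta GV GMod cj cj_cj mul_cj cj_prime cj_dvd cj_nat Nm_cj Nm_mul Nm_nat tor_gen Lft TFld exists_lft)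
open H55K.S
open H55R (Pl ord smulP)
open H13S (Abv)
open H13X
open H13Y (guN SU)
open H19B (DN mem_DN CS mem_CS)

variable {F : Type} [Field F] [NumberField F] [IQ F] {A B : F} {Om : ℂ} {Ω : Type} [Field Ω] [DecidableEq Ω]
  [Algebra F Ω] [IsAlgClosure F Ω] {j : Ω →+* ℂ} {act : 𝓞 F →+* AddMonoid.End (Pt (WAB A B) Ω)} {mo : Ideal (𝓞 F)}
  {ψ : Ideal (𝓞 F) →*₀ 𝓞 F} {π : 𝓞 F} {l t : ℕ} {e : Pt (WAB A B) Ω → Pt (WAB A B) Ω → Ω} {N L N' : IntermediateField F Ω}
  {c : (Ω ≃ₐ[F] Ω) → Pt (WAB A B) Ω} {V : ValuationSubring Ω}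

/-- The projection to the prime π. -/
theorem ka6_eps (D : Dat A B Om j act mo ψ π l) (t : ℕ) : ∃ ε : 𝓞 F, π ^ t ∣ ε - 1 ∧ (l : 𝓞 F) ^ t ∣ ε * π ^ t := by
  rcases dichotomy D.hl D.dta.unr D.pr D.dvd with ⟨-, -, hll⟩ | ⟨h1, -, -, h4⟩
  · refine ⟨1, by simp, ?_⟩
    rw [one_mul]
    exact pow_dvd_pow_of_dvd hll.dvd t
  · have hco : IsCoprime (π ^ t) (cj π ^ t) := IsCoprime.pow ((D.pr.irreducible.coprime_iff_not_dvd).2 h1)
    obtain ⟨x, y, hxy⟩ := hco
    refine ⟨y * cj π ^ t, ⟨-x, by linear_combination hxy⟩, ⟨y, ?_⟩⟩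
    rw [← h4, mul_pow]
    ring

/-- The multiples of T₀. -/
def ka6_at {b : 𝓞 F} {T₀ : Pt (WAB A B) Ω} (hT₀ : T₀ ∈ Tor act b) : 𝓞 F →+ Tor act b where
  toFun a := ⟨act a T₀, by
    rw [mem_Tor, ← act_mul, mul_comm, act_mul, mem_Tor.1 hT₀, map_zero]⟩
  map_zero' := Subtype.ext (by
    show act 0 T₀ = 0
    rw [map_zero]
    rfl)
  map_add' a a' := Subtype.ext (by
    show act (a + a') T₀ = act a T₀ + act a' T₀
    exact act_add _ _ _)

/-- The elements in Ω. -/
noncomputable def ka6_im {N L : IntermediateField F Ω} [NumberField N] [NumberField L] [Algebra N L] {w : Pl N} : AU L w →+ Additive Ωˣ where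
  toFun x := Additive.ofMul (Units.map (algebraMap L Ω).toMonoidHom x.val)
  map_zero' := by
    rw [AU.val_zero, map_one]
    rfl
  map_add' x y := by
    rw [AU.val_add, map_mul]
    rfl

theorem ka6_sys {N L : IntermediateField F Ω} [NumberField N] [NumberField L] [Algebra N L] {w : Pl N} {n : ℕ} (hn : 0 < n)
    (f : 𝓞 F →+ XU L w n) : ∃ (G : 𝓞 F → Ω) (X : 𝓞 F → AU L w), (∀ a b, G (a + b) = G a * G b) ∧ (∀ a, G a ≠ 0) ∧
      (∀ a, ((((X a).val : (L)ˣ) : L) : Ω) = G a ^ n) ∧ (∀ a, XU.pr w n (X a) = f a) ∧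
      ∃ M : IntermediateField F Ω, FiniteDimensional F M ∧ ∀ s ∈ M.fixingSubgroup, ∀ a, s (G a) = G a := by
  classical
  have hac : IsAlgClosed Ω := IsAlgClosure.isAlgClosed F
  have halg : Algebra.IsAlgebraic F Ω := IsAlgClosure.isAlgebraic
  let b := Module.Free.chooseBasis ℤ (𝓞 F)
  choose x hx using fun i => XU.pr_surj w n (f (b i))
  choose Y hY using fun i => IsAlgClosed.exists_pow_nat_eq ((((x i).val : (L)ˣ) : L) : Ω) hn
  have hY0 : ∀ i, Y i ≠ 0 := fun i h => by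
    have h1 := hY i
    rw [h, zero_pow hn.ne'] at h1
    have h2 : (((x i).val : (L)ˣ) : L) = 0 := Subtype.ext h1.symm
    exact (x i).val.ne_zero h2
  let g : 𝓞 F →ₗ[ℤ] Additive Ωˣ := b.constr ℤ (fun i => Additive.ofMul (Units.mk0 (Y i) (hY0 i)))
  let X : 𝓞 F →ₗ[ℤ] AU L w := b.constr ℤ x
  have hg : ∀ i, g (b i) = Additive.ofMul (Units.mk0 (Y i) (hY0 i)) := fun i => b.constr_basis ℤ _ i
  have hX : ∀ i, X (b i) = x i := fun i => b.constr_basis ℤ _ i
  have h1 : ∀ a, n • g a = ka6_im (F := F) (Ω := Ω) (N := N) (L := L) (w := w) (X a) := by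
    intro a
    have h2 : (n : ℤ) • g = (ka6_im (F := F) (Ω := Ω) (N := N) (L := L) (w := w)).toIntLinearMap ∘ₗ X := by
      refine b.ext fun i => ?_
      rw [LinearMap.smul_apply, LinearMap.comp_apply, hg, hX]
      show (n : ℤ) • Additive.ofMul (Units.mk0 (Y i) (hY0 i)) = ka6_im (F := F) (Ω := Ω) (N := N) (L := L) (w := w) (x i)
      rw [natCast_zsmul]
      apply Additive.toMul.injective
      apply Units.ext
      show Y i ^ n = _
      rw [hY]
      rfl
    have h3 := LinearMap.congr_fun h2 a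
    rw [LinearMap.smul_apply, natCast_zsmul] at h3
    exact h3
  have h2 : ∀ a, XU.pr w n (X a) = f a := by
    intro a
    have h2 : (XU.pr w n).toIntLinearMap ∘ₗ X = f.toIntLinearMap := by
      refine b.ext fun i => ?_
      rw [LinearMap.comp_apply, hX]
      exact hx i
    exact LinearMap.congr_fun h2 a
  refine ⟨fun a => ((Additive.toMul (g a) : Ωˣ) : Ω), X, fun a a' => ?_, fun a => Units.ne_zero _, fun a => ?_, h2,
    IntermediateField.adjoin F (Set.range Y), ?_, fun s hs a => ?_⟩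
  · show ((Additive.toMul (g (a + a')) : Ωˣ) : Ω) = ((Additive.toMul (g a) : Ωˣ) : Ω) * ((Additive.toMul (g a') : Ωˣ) : Ω)
    rw [map_add, toMul_add, Units.val_mul]
  · have h3 := congrArg (fun z : Additive Ωˣ => ((Additive.toMul z : Ωˣ) : Ω)) (h1 a)
    exact h3.symm
  · exact IntermediateField.finiteDimensional_adjoin fun z _ => (halg.isAlgebraic z).isIntegral
  · have h3 : (Units.map (s : Ω →* Ω)).toAdditive.toIntLinearMap ∘ₗ g = g := by
      refine b.ext fun i => ?_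
      rw [LinearMap.comp_apply, hg]
      apply Additive.toMul.injective
      apply Units.ext
      show s (Y i) = Y i
      exact (IntermediateField.mem_fixingSubgroup_iff _ _).1 hs _ (IntermediateField.subset_adjoin F _ ⟨i, rfl⟩)
    exact congrArg (fun z : Additive Ωˣ => ((Additive.toMul z : Ωˣ) : Ω)) (LinearMap.congr_fun h3 a)

/-- Chunk KA6 (M/L). PROOF. T₀ = the generator. For x in AU L w write (x.val : Ω) for its image. x₁, x₂ in AU L w with XU.pr x₁ = f ⟨act 1 T₀⟩, XU.pr x₂ = f ⟨act ω T₀⟩ where 1, ω is a ℤ-basis of 𝓞 F (or: use that 𝓞 F is a free ℤ-module of rank 2 and choose images of the basis vectors), Y₁, Y₂ ∈ Ω with Y_i ^ l ^ t = x_i (IsAlgClosed.exists_pow_nat_eq).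
g : 𝓞 F → Ωˣ additive (an element of SSN.HM, or a homomorphism) with g (m + n ω) = Y₁ ^ m Y₂ ^ n. Then for every a there is x in AU L w with XU.pr x = f (act a T₀) and x.val = g a ^ l ^ t (both sides are additive in a).
ε in 𝓞 F with π ^ t ∣ ε - 1 and l ^ t ∣ ε π ^ t (inert case ε = 1; split case: π ^ t, cj π ^ t coprime, ε = 1 modulo π ^ t and 0 modulo cj π ^ t; H13X.dichotomy). g' a = g (ε a). For s in L.fixingSubgroup: φ_s a = s (g' a) / g' a is additive in a, φ_s (a) ^ l ^ t = 1 (g' a ^ l ^ t is in L), φ_s (π ^ t a) = 1 because ε π ^ t a = l ^ t b and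
g (l ^ t b) = g b ^ l ^ t is in L. So κ_s (act a T₀) = φ_s a is a well defined additive function on Tor act (π ^ t) with values killed by l ^ t (act a T₀ = act a' T₀ iff π ^ t ∣ a - a'), pt_surj: c₀ s in Tor act (cj π ^ t) with e (c₀ s) (act a T₀) = φ_s a. y (act a T₀) = g' a works (choose a for every T; the classes of g' a and of the chosen one
differ by an element of ... take y T = g' (a_T) for a chosen a_T; the relation s y = e (c₀ s) T y holds for every choice). XU.pr of the element x with x.val = g (ε a) ^ l ^ t is f (act (ε a) T₀) = f (act a T₀).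
Cocycle: e (c₀ (s s')) T = s s' y / y = s (s' y / y) (s y / y) = s (e (c₀ s') T) e (c₀ s) T = e (s c₀ s' + c₀ s) T (he.gal, s T = T); nondeg. Continuity: M = F(g' 1, g' ω): s in M.fixingSubgroup ∩ L.fixingSubgroup: φ_s = 1, c₀ s = 0. -/
theorem kum_L (D : Dat A B Om j act mo ψ π l) (he : PT A B act π l t e) [NumberField N] [NumberField L] (hL : IsTB act (π ^ t) N L) (w : Pl N)
    (f : letI := algNL hL.le; letI := tact D.cma hL; HG Gal(L/N) (Tor act (π ^ t)) (XU L w (l ^ t))) :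
    ∃ c : (Ω ≃ₐ[F] Ω) → Pt (WAB A B) Ω,
      (∀ s ∈ L.fixingSubgroup, ∀ s' ∈ L.fixingSubgroup, c (s * s') = c s + ac (WAB A B) s (c s')) ∧
      (∀ s ∈ L.fixingSubgroup, c s ∈ Tor act (cj π ^ t)) ∧
      (∃ M : IntermediateField F Ω, FiniteDimensional F M ∧ ∀ s ∈ L.fixingSubgroup, s ∈ M.fixingSubgroup → c s = 0) ∧
      Rel D.cma hL w e l c f := by
  letI := algNL hL.le
  letI := tact D.cma hL
  classical
  have hl0 : l ≠ 0 := D.hl.ne_zero
  have hn : 0 < l ^ t := pow_pos D.hl.pos t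
  have hπt : π ^ t ≠ 0 := pow_ne_zero _ D.pr.ne_zero
  obtain ⟨T₀, hT₀, hg, hz, -⟩ := D.cma.gen (π ^ t) hπt
  obtain ⟨ε, hε1, hε2⟩ := ka6_eps D t
  have hfix : ∀ s ∈ L.fixingSubgroup, ∀ T ∈ Tor act (π ^ t), ac (WAB A B) s T = T := fun s hs T hT => ((hL.fix s).1 hs).2 T hT
  obtain ⟨G, X, hadd, hne, hpow, hpr, M, hM, hMs⟩ := ka6_sys (w := w) hn (f.1.comp (ka6_at hT₀))
  have hG0 : G 0 = 1 := by
    have h := hadd 0 0
    rw [add_zero] at h
    exact (left_eq_mul₀ (hne 0)).1 h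
  have hGn : ∀ (n : ℕ) a, G ((n : 𝓞 F) * a) = G a ^ n := fun n a => by
    induction n with
    | zero => rw [Nat.cast_zero, zero_mul, hG0, pow_zero]
    | succ n ih => rw [Nat.cast_succ, add_mul, one_mul, hadd, ih, pow_succ]
  have hLG : ∀ s ∈ L.fixingSubgroup, ∀ a, s (G a ^ l ^ t) = G a ^ l ^ t := fun s hs a => by
    rw [← hpow]
    exact (IntermediateField.mem_fixingSubgroup_iff _ _).1 hs _ (SetLike.coe_mem _)
  -- the characters
  let φ : (Ω ≃ₐ[F] Ω) → 𝓞 F → Ω := fun s a => s (G (ε * a)) / G (ε * a)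
  have hφadd : ∀ s a b, φ s (a + b) = φ s a * φ s b := fun s a b => by
    show s (G (ε * (a + b))) / G (ε * (a + b)) = s (G (ε * a)) / G (ε * a) * (s (G (ε * b)) / G (ε * b))
    rw [mul_add, hadd, map_mul, mul_div_mul_comm]
  have hφpow : ∀ s ∈ L.fixingSubgroup, ∀ a, φ s a ^ l ^ t = 1 := fun s hs a => by
    show (s (G (ε * a)) / G (ε * a)) ^ l ^ t = 1
    rw [div_pow, ← map_pow, hLG s hs, div_self (pow_ne_zero _ (hne _))]
  have hφπ : ∀ s ∈ L.fixingSubgroup, ∀ a, φ s (π ^ t * a) = 1 := fun s hs a => by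
    obtain ⟨b, hb⟩ := hε2
    have h1 : ε * (π ^ t * a) = ((l ^ t : ℕ) : 𝓞 F) * (b * a) := by
      rw [← mul_assoc, hb]
      push_cast
      ring
    show s (G (ε * (π ^ t * a))) / G (ε * (π ^ t * a)) = 1
    rw [h1, hGn, hLG s hs, div_self (pow_ne_zero _ (hne _))]
  have hφcong : ∀ s ∈ L.fixingSubgroup, ∀ a b, act a T₀ = act b T₀ → φ s a = φ s b := fun s hs a b hab => by
    have h1 : act (a - b) T₀ = 0 := by rw [act_sub, hab, sub_self]
    obtain ⟨c, hc⟩ := (hz _).1 h1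
    have h2 : a = b + π ^ t * c := by rw [← hc]; ring
    rw [h2, hφadd, hφπ s hs, mul_one]
  choose α hα using hg
  have hα0 : ∀ T (hT : T ∈ Tor act (π ^ t)) a, act a T₀ = T → ∀ s ∈ L.fixingSubgroup, φ s (α T hT) = φ s a := fun T hT a ha s hs =>
    hφcong s hs _ _ (by rw [← hα T hT, ha])
  have hex : ∀ s : Ω ≃ₐ[F] Ω, ∃ Y ∈ Tor act (cj π ^ t), s ∈ L.fixingSubgroup → ∀ a, e Y (act a T₀) = φ s a := by
    intro s
    by_cases hs : s ∈ L.fixingSubgroup
    · let κ : Pt (WAB A B) Ω → Ω := fun T => if hT : T ∈ Tor act (π ^ t) then φ s (α T hT) else 1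
      have hκ : ∀ T (hT : T ∈ Tor act (π ^ t)), κ T = φ s (α T hT) := fun T hT => dif_pos hT
      obtain ⟨Y, hY, hYκ⟩ := pt_surj D he κ (fun T hT => by rw [hκ T hT, hφpow s hs]) (fun T hT T' hT' => by
        rw [hκ T hT, hκ T' hT', hκ _ (add_mem hT hT'), ← hφadd]
        refine hφcong s hs _ _ ?_
        rw [← hα, act_add, ← hα, ← hα])
      refine ⟨Y, hY, fun _ a => ?_⟩
      have hm : act a T₀ ∈ Tor act (π ^ t) := (ka6_at hT₀ a).2
      rw [hYκ _ hm, hκ _ hm]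
      exact hα0 _ hm a rfl s hs
    · exact ⟨0, zero_mem _, fun h => absurd h hs⟩
  choose c hc1 hc2 using hex
  have hce : ∀ s ∈ L.fixingSubgroup, ∀ T (hT : T ∈ Tor act (π ^ t)), e (c s) T = φ s (α T hT) := fun s hs T hT => by
    rw [← hc2 s hs (α T hT), ← hα T hT]
  refine ⟨c, fun s hs s' hs' => ?_, fun s _ => hc1 s, ⟨M, hM, fun s hs hsM => ?_⟩, ?_⟩
  · have hm1 : ac (WAB A B) s (c s') ∈ Tor act (cj π ^ t) := ac_mem D.cma s (hc1 s')
    have hm2 : c s + ac (WAB A B) s (c s') ∈ Tor act (cj π ^ t) := add_mem (hc1 s) hm1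
    refine sub_eq_zero.1 (he.nondeg _ (sub_mem (hc1 _) hm2) fun T hT => ?_)
    rw [he.sub_left hl0 (hc1 _) hm2 hT, he.add_left _ (hc1 s) _ hm1 T hT]
    have h1 : e (ac (WAB A B) s (c s')) T = s (e (c s') T) := by
      rw [he.gal s _ (hc1 s') T hT, hfix s hs T hT]
    rw [h1, hce _ (mul_mem hs hs') T hT, hce s hs T hT, hce s' hs' T hT]
    show (s * s') (G (ε * α T hT)) / G (ε * α T hT) / (s (G (ε * α T hT)) / G (ε * α T hT) * s (s' (G (ε * α T hT)) / G (ε * α T hT))) = 1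
    have h2 : (s * s') (G (ε * α T hT)) = s (s' (G (ε * α T hT))) := rfl
    have h3 : G (ε * α T hT) ≠ 0 := hne _
    have h4 : s (G (ε * α T hT)) ≠ 0 := fun h => h3 ((map_eq_zero s).1 h)
    have h5 : s (s' (G (ε * α T hT))) ≠ 0 := fun h => h3 ((map_eq_zero s').1 ((map_eq_zero s).1 h))
    rw [h2, map_div₀]
    field_simp
  · refine he.nondeg _ (hc1 s) fun T hT => ?_
    rw [hce s hs T hT]
    show s (G (ε * α T hT)) / G (ε * α T hT) = 1
    rw [hMs s hsM, div_self (hne _)]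
  · intro T
    obtain ⟨T, hT⟩ := T
    refine ⟨G (ε * α T hT), X (ε * α T hT), hne _, fun s hs => ?_, hpow _, ?_⟩
    · show s (G (ε * α T hT)) = e (c s) T * G (ε * α T hT)
      rw [hce s hs T hT]
      show s (G (ε * α T hT)) = s (G (ε * α T hT)) / G (ε * α T hT) * G (ε * α T hT)
      rw [div_mul_cancel₀ _ (hne _)]
    · rw [hpr]
      show f.1 (ka6_at hT₀ (ε * α T hT)) = f.1 ⟨T, hT⟩
      congr 1
      apply Subtype.ext
      show act (ε * α T hT) T₀ = T
      have h1 : act (ε * α T hT - α T hT) T₀ = 0 := by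
        rw [hz]
        obtain ⟨u, hu⟩ := hε1
        exact ⟨u * α T hT, by rw [← mul_assoc, ← hu]; ring⟩
      rw [act_sub, sub_eq_zero] at h1
      rw [h1, ← hα T hT]

end H13V
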