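import Mathlib
import Pool.Agent.Lib.H13V.KA5
import Pool.Agent.Lib.H13V.KA6

/-! # H13V, module KUM, chunk KA7: surjectivity R2 -/

open NumberField IsDedekindDomain WeierstrassCurve

namespace H13V

open H55P (IQ embF eF LF Per IsHecke Pt ac Inert Dec Nm Coc PExt UnrP Ram RamF SelZero)
open H35P (WAB Ker tt)
open H55K (Tor ak xc yc CMA Dta GV GMod cj cj_cj mul_cj cj_prime cj_dvd cj_nat Nm_cj Nm_mul Nm_nat tor_gen Lft TFld exists_lft)
open H55K.S
open H55R (Pl ord smulP)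
open H13S (Abv)
open H13X
open H13Y (guN SU)
open H19B (DN mem_DN CS mem_CS)

variable {F : Type} [Field F] [NumberField F] [IQ F] {A B : F} {Om : ℂ} {Ω : Type} [Field Ω] [DecidableEq Ω]
  [Algebra F Ω] [IsAlgClosure F Ω] {j : Ω →+* ℂ} {act : 𝓞 F →+* AddMonoid.End (Pt (WAB A B) Ω)} {mo : Ideal (𝓞 F)}
  {ψ : Ideal (𝓞 F) →*₀ 𝓞 F} {π : 𝓞 F} {l t : ℕ} {e : Pt (WAB A B) Ω → Pt (WAB A B) Ω → Ω} {N L N' : IntermediateField F Ω}
  {c : (Ω ≃ₐ[F] Ω) → Pt (WAB A B) Ω} {V : ValuationSubring Ω}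

/-- Ht is contained in the group fixing L. -/
theorem ka7_le (D : Dat A B Om j act mo ψ π l) (hL : IsTB act (π ^ t) N L) {s : Ω ≃ₐ[F] Ω} (hs : s ∈ Ht A B l t N) :
    s ∈ L.fixingSubgroup :=
  (hL.fix s).2 ⟨hs.1, fun _ hT => hs.2 _ (tor_lt D (Or.inl hT))⟩

/-- Chunk KA7a (M). Uniqueness of Kummer classes: if c and c' correspond to the same f then they are equal on Ht. Also: the class transported by g in N.fixingSubgroup corresponds to the same f. PROOF of rel_inv: let s in Ht, T' = g T (all points are of this form), y, x for (c, T): s' = g⁻¹ s g in Ht ≤ L.fixingSubgroup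
(s' y = e (c s') T y). e (g c (g⁻¹ s g)) (g T) = g (e (c s') T) = g (s' y / y) = s (g y) / g y. And for (c, g T): y₁, x₁ with s y₁ = e (c s) (g T) y₁. σ in Gal(L/N) = the restriction of g (H13X.exists_restr). XU.pr x₁ = f (g T) = f (σ T) = σ f T = XU.pr (σ x) (tact_eq, XU.pr_smul), so x₁ = σ x + l ^ t • z (XU.pr_zero), y₁ ^ l ^ t = (g y) ^ l ^ t z ^ l ^ t,
y₁ = ζ (g y) z with ζ ^ l ^ t = 1, z in L. s in Ht fixes ζ (ht_root) and z. So s y₁ / y₁ = s (g y) / (g y), e (c s) (g T) = e (g c (g⁻¹ s g)) (g T) for all T; he.nondeg and sub_left. -/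
theorem rel_inv (D : Dat A B Om j act mo ψ π l) (he : PT A B act π l t e) [NumberField N] [NumberField L] (hL : IsTB act (π ^ t) N L) (w : Pl N)
    (f : letI := algNL hL.le; letI := tact D.cma hL; HG Gal(L/N) (Tor act (π ^ t)) (XU L w (l ^ t)))
    (hv : ∀ s ∈ L.fixingSubgroup, c s ∈ Tor act (cj π ^ t)) (h : Rel D.cma hL w e l c f) {g s : Ω ≃ₐ[F] Ω} (hg : g ∈ N.fixingSubgroup)
    (hs : s ∈ Ht A B l t N) : ac (WAB A B) g (c (g⁻¹ * s * g)) = c s := by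
  letI := algNL hL.le
  letI := tact D.cma hL
  have hl0 : l ≠ 0 := D.hl.ne_zero
  have hsL : s ∈ L.fixingSubgroup := ka7_le D hL hs
  have hs'H : g⁻¹ * s * g ∈ Ht A B l t N := ht_normal hg hs
  have hs'L : g⁻¹ * s * g ∈ L.fixingSubgroup := ka7_le D hL hs'H
  have hcs : c s ∈ Tor act (cj π ^ t) := hv s hsL
  have hcs' : c (g⁻¹ * s * g) ∈ Tor act (cj π ^ t) := hv _ hs'L
  have hgcs : ac (WAB A B) g (c (g⁻¹ * s * g)) ∈ Tor act (cj π ^ t) := ac_mem D.cma g hcs'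
  refine sub_eq_zero.1 (he.nondeg _ (sub_mem hgcs hcs) fun T' hT' => ?_)
  rw [he.sub_left hl0 hgcs hcs hT']
  -- the point T
  have hT : ac (WAB A B) g⁻¹ T' ∈ Tor act (π ^ t) := ac_mem D.cma _ hT'
  have hgT : ac (WAB A B) g (ac (WAB A B) g⁻¹ T') = T' := ac_inv g T'
  obtain ⟨y, x, hy0, hy, hx, hxf⟩ := h ⟨ac (WAB A B) g⁻¹ T', hT⟩
  obtain ⟨y₁, x₁, hy₁0, hy₁, hx₁, hx₁f⟩ := h ⟨T', hT'⟩
  obtain ⟨σ, hσ⟩ := exists_restr D.cma hL g hg
  have h1 : (σ • (⟨ac (WAB A B) g⁻¹ T', hT⟩ : Tor act (π ^ t)) : Tor act (π ^ t)) = ⟨T', hT'⟩ := by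
    apply Subtype.ext
    rw [tact_eq D.cma hL σ g hσ]
    exact hgT
  have h2 : XU.pr w (l ^ t) x₁ = XU.pr w (l ^ t) (σ • x) := by
    rw [hx₁f, ← h1, f.2, XU.pr_smul, hxf]
  have h3 : XU.pr w (l ^ t) (x₁ - σ • x) = 0 := by
    rw [map_sub, h2, sub_self]
  obtain ⟨z, hz⟩ := (XU.pr_zero w (l ^ t) _).1 h3
  have h4 : x₁ = σ • x + (l ^ t) • z := by
    rw [← hz]
    abel
  -- the elements in Ω
  have h5 : ((((σ • x).val : (L)ˣ) : L) : Ω) = g (((x.val : (L)ˣ) : L) : Ω) := by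
    rw [hσ]
    rfl
  have h6 : (((x₁.val : (L)ˣ) : L) : Ω) = g y ^ l ^ t * ((((z.val : (L)ˣ) : L) : Ω)) ^ l ^ t := by
    rw [h4, AU.val_add, AU.val_nsmul]
    show ((((σ • x).val : (L)ˣ) : L) : Ω) * ((((z.val ^ l ^ t : (L)ˣ)) : L) : Ω) = _
    rw [h5, hx, map_pow, Units.val_pow_eq_pow_val]
    rfl
  set zz : Ω := (((z.val : (L)ˣ) : L) : Ω) with hzz
  have hzz0 : zz ≠ 0 := by
    intro h7
    exact z.val.ne_zero (Subtype.ext h7)
  have hgy : g y ≠ 0 := fun h7 => hy0 ((map_eq_zero g).1 h7)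
  have hprod : g y * zz ≠ 0 := mul_ne_zero hgy hzz0
  have hζ : (y₁ / (g y * zz)) ^ l ^ t = 1 := by
    rw [div_pow, ← hx₁, h6, mul_pow, div_self]
    rw [← mul_pow]
    exact pow_ne_zero _ hprod
  have hsζ := ht_root D he hs hζ
  have hsz : s zz = zz := (IntermediateField.mem_fixingSubgroup_iff _ _).1 hsL _ (SetLike.coe_mem _)
  have hsg : s (g y) = g (e (c (g⁻¹ * s * g)) (ac (WAB A B) g⁻¹ T')) * g y := by
    have h7 : s (g y) = g ((g⁻¹ * s * g) y) := by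
      show s (g y) = g (g⁻¹ (s (g y)))
      exact (g.apply_symm_apply _).symm
    rw [h7, hy _ hs'L, map_mul]
  have hgal : g (e (c (g⁻¹ * s * g)) (ac (WAB A B) g⁻¹ T')) = e (ac (WAB A B) g (c (g⁻¹ * s * g))) T' := by
    rw [he.gal g _ hcs' _ hT, hgT]
  have hy₁e : y₁ = y₁ / (g y * zz) * (g y * zz) := (div_mul_cancel₀ _ hprod).symm
  have h8 : s y₁ = e (ac (WAB A B) g (c (g⁻¹ * s * g))) T' * y₁ := by
    have h9 : s y₁ = s (y₁ / (g y * zz)) * (s (g y) * s zz) := by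
      rw [← map_mul, ← map_mul, div_mul_cancel₀ _ hprod]
    rw [h9, hsζ, hsz, hsg, hgal]
    conv_rhs => rw [hy₁e]
    ring
  have h10 : e (c s) T' * y₁ = e (ac (WAB A B) g (c (g⁻¹ * s * g))) T' * y₁ := by
    rw [← h8]
    exact (hy₁ s hsL).symm
  have h11 : e (c s) T' = e (ac (WAB A B) g (c (g⁻¹ * s * g))) T' := mul_right_cancel₀ hy₁0 h10
  rw [← h11]
  exact div_self (he.ne hl0 hcs hT')

/-- Chunk KA7b (M). R2. PROOF. c₀ from kum_L; its restriction to Ht (Ht ≤ L.fixingSubgroup: tor_lt) is additive (the points killed by l ^ t are fixed), invariant by rel_inv; ext_t with δ from mv_cj: c in CS N.fixingSubgroup with c = c₀ on Ht. On L.fixingSubgroup: c - c₀ is a cocycle which is zero on Ht. Split case (¬ π ∣ cj π): sah_t with D = L.fixingSubgroup,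
δ from mv_L, commutators in Ht (ht_comm): c = c₀ + (s X - X) on L.fixingSubgroup with X in Tor act (cj π ^ t); y' T = y T * e X T: s (e X T) = e (s X) T (s T = T), (e X T) ^ l ^ t = 1, so the same x serves. Inert case: Ht = L.fixingSubgroup (ht_L), nothing to do. -/
theorem kum_R2 (D : Dat A B Om j act mo ψ π l) (he : PT A B act π l t e) [NumberField N] [NumberField L] (hN : Nb l N) (hL : IsTB act (π ^ t) N L) (w : Pl N)
    (f : letI := algNL hL.le; letI := tact D.cma hL; HG Gal(L/N) (Tor act (π ^ t)) (XU L w (l ^ t))) :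
    ∃ c ∈ CS N.fixingSubgroup act (cj π ^ t), Rel D.cma hL w e l c f := by
  obtain ⟨c₀, hm, hv, hc, hrel⟩ := kum_L D he hL w f
  have hl0 : l ≠ 0 := D.hl.ne_zero
  obtain ⟨δ, hδ, hmv⟩ := mv_cj D hN
  obtain ⟨c, hcS, hcc⟩ := ext_t D (b := c₀) (N := N) (fun s hs s' hs' => by
      rw [hm s (ka7_le D hL hs) s' (ka7_le D hL hs')]
      congr 1
      exact hs.2 _ (tor_lt D (Or.inr (hv s' (ka7_le D hL hs')))))
    (fun s hs => hv s (ka7_le D hL hs))
    (by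
      obtain ⟨M, hM, hM'⟩ := hc
      exact ⟨M, hM, fun s hs hsM => hM' s (ka7_le D hL hs) hsM⟩)
    (fun g hg s hs => rel_inv D he hL w f hv hrel hg hs) hδ hmv
  refine ⟨c, hcS, ?_⟩
  obtain ⟨c1, c2, c3⟩ := (mem_CS _ _ _).1 hcS
  have hLN : ∀ s ∈ L.fixingSubgroup, s ∈ N.fixingSubgroup := fun s hs => ((hL.fix s).1 hs).1
  by_cases hsp : π ∣ cj π
  · letI := algNL hL.le
    letI := tact D.cma hL
    intro T
    obtain ⟨y, x, h1, h2, h3, h4⟩ := hrel T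
    refine ⟨y, x, h1, fun s hs => ?_, h3, h4⟩
    rw [hcc s ((ht_L D hsp hL).2 hs)]
    exact h2 s hs
  · obtain ⟨δ', hδ', hmv'⟩ := mv_L D hsp hN hL
    have hcT : ∀ s ∈ L.fixingSubgroup, c s ∈ Tor act (cj π ^ t) := fun s hs => c2 s (hLN s hs)
    obtain ⟨X, hX, hXs⟩ := sah_t D.cma D.conj.pr (t := t) (D := L.fixingSubgroup) (c := fun s => c s - c₀ s)
      (fun s hs s' hs' => by
        show c (s * s') - c₀ (s * s') = c s - c₀ s + ac (WAB A B) s (c s' - c₀ s')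
        rw [c1 s (hLN s hs) s' (hLN s' hs'), hm s hs s' hs', map_sub]
        abel)
      (fun s hs => sub_mem (hcT s hs) (hv s hs)) hδ' hmv'
      (fun s hs => by
        show c (δ' * s * δ'⁻¹ * s⁻¹) - c₀ (δ' * s * δ'⁻¹ * s⁻¹) = 0
        rw [hcc _ (ht_comm D.cma hl0 (hLN _ hδ') (hLN s hs)), sub_self])
    letI := algNL hL.le
    letI := tact D.cma hL
    intro T
    obtain ⟨y, x, h1, h2, h3, h4⟩ := hrel T
    have hT : (T : Pt (WAB A B) Ω) ∈ Tor act (π ^ t) := T.2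
    have hne : e X (T : Pt (WAB A B) Ω) ≠ 0 := he.ne hl0 hX hT
    refine ⟨y * e X (T : Pt (WAB A B) Ω), x, mul_ne_zero h1 hne, fun s hs => ?_, ?_, h4⟩
    · have h5 : c s = c₀ s + (ac (WAB A B) s X - X) := by
        rw [← hXs s hs]
        show c s = c₀ s + (c s - c₀ s)
        abel
      have h6 : ac (WAB A B) s X ∈ Tor act (cj π ^ t) := ac_mem D.cma s hX
      have h7 : ac (WAB A B) s (T : Pt (WAB A B) Ω) = T := ((hL.fix s).1 hs).2 _ hT
      rw [map_mul, h2 s hs, he.gal s X hX _ hT, h7, h5, he.add_left _ (hv s hs) _ (sub_mem h6 hX) _ hT,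
        he.sub_left hl0 h6 hX hT]
      field_simp
    · rw [mul_pow, he.root X hX _ hT, mul_one]
      exact h3

end H13V
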