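import Mathlib
import Pool.Agent.Lib.H13V.KA5
import Pool.Agent.Lib.H13V.KA4
import Pool.Agent.Lib.H13V.KA3

/-! # H13V, module KUM, chunk KA8: R1, R3, R4, R5 -/

open NumberField IsDedekindDomain WeierstrassCurve

namespace H13V

open H55P (IQ embF eF LF Per IsHecke Pt ac Inert Dec Nm Coc PExt UnrP Ram RamF SelZero)
open H35P (WAB Ker tt)
open H55K (Tor ak xc yc CMA Dta GV GMod cj cj_cj mul_cj cj_prime cj_dvd cj_nat Nm_cj Nm_mul Nm_nat tor_gen Lft TFld exists_lft)
open H55K.S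
open H55R (Pl ord smulP)
open H13S (Abv)
open H13X
open H13Y (guN SU)
open H19B (DN mem_DN CS mem_CS)

variable {F : Type} [Field F] [NumberField F] [IQ F] {A B : F} {Om : ℂ} {Ω : Type} [Field Ω] [DecidableEq Ω]
  [Algebra F Ω] [IsAlgClosure F Ω] {j : Ω →+* ℂ} {act : 𝓞 F →+* AddMonoid.End (Pt (WAB A B) Ω)} {mo : Ideal (𝓞 F)}
  {ψ : Ideal (𝓞 F) →*₀ 𝓞 F} {π : 𝓞 F} {l t : ℕ} {e : Pt (WAB A B) Ω → Pt (WAB A B) Ω → Ω} {N L N' : IntermediateField F Ω}
  {c : (Ω ≃ₐ[F] Ω) → Pt (WAB A B) Ω} {V : ValuationSubring Ω}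

/-- The value of a nonzero element is one iff it and its inverse are in the ring. -/
theorem ka8_val {K : Type} [Field K] {V : ValuationSubring K} {z : K} (hz : z ≠ 0) :
    V.valuation z = 1 ↔ z ∈ V ∧ z⁻¹ ∈ V := by
  have h0 : V.valuation z ≠ 0 := (map_ne_zero _).2 hz
  rw [← V.valuation_le_one_iff, ← V.valuation_le_one_iff, map_inv₀, inv_le_one₀ (zero_lt_iff.2 h0)]
  exact ⟨fun h => ⟨h.le, h.ge⟩, fun h => le_antisymm h.1 h.2⟩

/-- A root of unity has value one. -/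
theorem ka8_root {K : Type} [Field K] {V : ValuationSubring K} {z : K} {n : ℕ} (hn : n ≠ 0) (hz : V.valuation (z ^ n) = 1) :
    V.valuation z = 1 := by
  rw [map_pow] at hz
  exact (pow_left_inj₀ zero_le zero_le hn).1 (by rw [hz, one_pow])

/-- An element of value one has order zero. -/
theorem ka8_ord {L : Type} [Field L] [NumberField L] {Ω : Type} [Field Ω] [Algebra L Ω] {V : ValuationSubring Ω} {W : Pl L}
    (hV : H55K.Abw V W) {x : Lˣ} (hx : V.valuation (algebraMap L Ω (x : L)) = 1) : ord W x = 0 := by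
  have h0 : algebraMap L Ω (x : L) ≠ 0 := (map_ne_zero _).2 x.ne_zero
  obtain ⟨h1, h2⟩ := (ka8_val h0).1 hx
  rw [← map_inv₀] at h2
  have h3 := (hV _).1 h1
  have h4 := (hV _).1 h2
  rw [map_inv₀] at h4
  have h5 : W.valuation L (x : L) ≠ 0 := (map_ne_zero _).2 x.ne_zero
  have h6 : W.valuation L (x : L) = 1 := le_antisymm h3 ((inv_le_one₀ (zero_lt_iff.2 h5)).1 h4)
  have h7 := HeightOneSpectrum.valuationOfNeZero_eq W x
  rw [h6] at h7
  have h8 : W.valuationOfNeZero x = 1 := WithZero.coe_injective h7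
  show -Multiplicative.toAdd (W.valuationOfNeZero x) = 0
  rw [h8, toAdd_one, neg_zero]

/-- The value does not change under an automorphism, up to the conjugate ring. -/
theorem ka8_conj {V : ValuationSubring Ω} (g : Ω ≃ₐ[F] Ω) {z : Ω} (hz : z ≠ 0) :
    (V.comap (g : Ω →+* Ω)).valuation z = 1 ↔ V.valuation (g z) = 1 := by
  rw [ka8_val hz, ka8_val ((map_ne_zero g).2 hz), ← map_inv₀]
  exact Iff.rfl

theorem ka8_abv [NumberField N] {w : Pl N} {V : ValuationSubring Ω} {g : Ω ≃ₐ[F] Ω} (hg : g ∈ N.fixingSubgroup) (h : ¬ Abv N V w) :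
    ¬ Abv N (V.comap (g : Ω →+* Ω)) w := by
  intro h1
  apply h
  intro x
  rw [← h1 x]
  have h2 : g (x : Ω) = x := (IntermediateField.mem_fixingSubgroup_iff N g).1 hg _ x.2
  show _ ↔ g (x : Ω) ∈ V
  rw [h2]

/-- An element of Ω fixed by the group of L with value one outside w is a w-unit of L. -/
theorem ka8_z [NumberField N] [NumberField L] (hNL : N ≤ L) (w : Pl N) {u : Ω} (hu : u ≠ 0) (hf : ∀ s ∈ L.fixingSubgroup, s u = u)
    (hv : ∀ V : ValuationSubring Ω, ¬ Abv N V w → V.valuation u = 1) :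
    letI := algNL hNL
    ∃ z : AU L w, (((z.val : (L)ˣ) : L) : Ω) = u := by
  letI := algNL hNL
  have hT : IsScalarTower F N L := IsScalarTower.of_algebraMap_eq fun x => Subtype.ext rfl
  have hT' : IsScalarTower N L Ω := IsScalarTower.of_algebraMap_eq fun x => rfl
  have hmem : u ∈ L := ku2_mem L hf
  have hne : (⟨u, hmem⟩ : L) ≠ 0 := fun h => hu (congrArg Subtype.val h)
  have hSU : Units.mk0 (⟨u, hmem⟩ : L) hne ∈ SU L w := by
    intro Q hQ
    obtain ⟨V, hV⟩ := H55K.exists_abw Ω Q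
    have hVw : Abv N V (Q.under (𝓞 N)) := hV.below rfl
    refine ka8_ord hV ?_
    show V.valuation u = 1
    exact hv V fun h => hQ (H13T.abv_unique hVw h)
  exact ⟨AU.mk _ hSU, rfl⟩

/-- The class of an element does not change under roots of unity and powers. -/
theorem ka8_b [NumberField N] [NumberField L] (hNL : N ≤ L) (w : Pl N) (n : ℕ) {u ζ y y' : Ω} (hu : u ≠ 0)
    (hf : ∀ s ∈ L.fixingSubgroup, s u = u) (hv : ∀ V : ValuationSubring Ω, ¬ Abv N V w → V.valuation u = 1) (hζ : ζ ^ n = 1)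
    (hy : y = ζ * u * y') :
    letI := algNL hNL
    ∀ x x' : AU L w, (((x.val : (L)ˣ) : L) : Ω) = y ^ n → (((x'.val : (L)ˣ) : L) : Ω) = y' ^ n → XU.pr w n x = XU.pr w n x' := by
  letI := algNL hNL
  intro x x' hx hx'
  obtain ⟨z, hz⟩ := ka8_z hNL w hu hf hv
  have h1 : x = n • z + x' := by
    apply AU.ext
    rw [AU.val_add, AU.val_nsmul]
    apply Units.ext
    apply Subtype.ext
    have e1 : ((((z.val ^ n * x'.val : (L)ˣ)) : L) : Ω) = (((z.val : (L)ˣ) : L) : Ω) ^ n * (((x'.val : (L)ˣ) : L) : Ω) := by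
      rw [Units.val_mul, Units.val_pow_eq_pow_val]
      rfl
    rw [e1, hz, hx, hx', hy, mul_pow, mul_pow, hζ, one_mul]
  rw [h1, map_add, (XU.pr_zero w n (n • z)).2 ⟨z, rfl⟩, zero_add]

/-- Chunk KA8a (M). R1. PROOF. For T choose y (UT). y ^ l ^ t is fixed by L.fixingSubgroup (he.root), so it is in L (ku2_mem), a unit x' : (L)ˣ, in SU L w: for a prime Q of L with Q.under ≠ w take V above Q (H55K.exists_abw); then V lies above Q.under (Abw.below or the like, see stab_N in Lib/H13X/XN4.lean) and not above w (the prime of N below V is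
unique: H13T.abv_unique), V y = 1, so ord Q x' = 0 (the value of x' at V is 1; H55R.ord; compare H19C.ord_val). x = AU.mk x' _, f T = XU.pr x. Independent of the choice of y (two choices differ by an element z of Ω fixed by L.fixingSubgroup, so in L, with V z = 1 outside w: z in SU L w, x = x₁ + l ^ t • z). Additive: y T y T' is a choice for T + T' (add_right).
Equivariant: for σ with lift g, g (y T) is a choice for g T: s (g y) = g ((g⁻¹ s g) y) = g (e (c (g⁻¹ s g)) T) g y and c (g⁻¹ s g) = g⁻¹ (c s + s c g - c g) for the cocycle c on N.fixingSubgroup (c g⁻¹ = - g⁻¹ c g), so g (e (..) T) = e (c s + s c g - c g) (g T) = e (c s) (g T) * s (E) / E with E = e (c g) (g T) (s g T = g T since g T is killed by π ^ t):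
the choice for g T is g y / E, E ^ l ^ t = 1. Values: V (g y) = (V.comap g) y = 1 and the conjugate ring lies above w iff V does (g fixes N). -/
theorem kum_R1 (D : Dat A B Om j act mo ψ π l) (he : PT A B act π l t e) [NumberField N] [NumberField L] (hL : IsTB act (π ^ t) N L) (w : Pl N)
    (hc : c ∈ CS N.fixingSubgroup act (cj π ^ t)) (hu : UT act π t L w e c) :
    ∃ f : (letI := algNL hL.le; letI := tact D.cma hL; HG Gal(L/N) (Tor act (π ^ t)) (XU L w (l ^ t))), Rel D.cma hL w e l c f := by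
  letI := algNL hL.le
  letI := tact D.cma hL
  have hA := D.cma
  have hl0 : l ≠ 0 := D.hl.ne_zero
  have hn : l ^ t ≠ 0 := pow_ne_zero _ hl0
  have hcL : ∀ s ∈ L.fixingSubgroup, c s ∈ Tor act (cj π ^ t) := fun s hs => hc.tor s (hL.mono hs)
  -- the choice of y and of the elements x
  have hu' : ∀ T : Tor act (π ^ t), ∃ y : Ω, y ≠ 0 ∧ (∀ s ∈ L.fixingSubgroup, s y = e (c s) (T : Pt (WAB A B) Ω) * y) ∧
    ∀ V : ValuationSubring Ω, ¬ Abv N V w → V.valuation y = 1 := fun T => hu T T.2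
  choose y hy0 hys hyV using hu'
  have hx' : ∀ T : Tor act (π ^ t), ∃ x : AU L w, (((x.val : (L)ˣ) : L) : Ω) = y T ^ l ^ t := fun T =>
    ka8_z hL.le w (pow_ne_zero _ (hy0 T)) (fun s hs => by
      rw [map_pow, hys T s hs, mul_pow, he.root _ (hcL s hs) T T.2, one_mul])
      fun V hV => by rw [map_pow, hyV T V hV, one_pow]
  choose x hx using hx'
  -- the homomorphism
  have hadd : ∀ T T' : Tor act (π ^ t), XU.pr w (l ^ t) (x (T + T')) = XU.pr w (l ^ t) (x T) + XU.pr w (l ^ t) (x T') := by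
    intro T T'
    rw [← map_add]
    have hyy : y T * y T' ≠ 0 := mul_ne_zero (hy0 T) (hy0 T')
    refine ka8_b hL.le w (l ^ t) (u := y (T + T') / (y T * y T')) (ζ := 1) (y := y (T + T')) (y' := y T * y T')
      (div_ne_zero (hy0 _) hyy) (fun s hs => ?_) (fun V hV => ?_) (one_pow _) ?_ _ _ (hx _) ?_
    · have h1 : e (c s) ((T : Pt (WAB A B) Ω)) ≠ 0 := he.ne hl0 (hcL s hs) T.2
      have h2 : e (c s) ((T' : Pt (WAB A B) Ω)) ≠ 0 := he.ne hl0 (hcL s hs) T'.2
      have h3 : e (c s) (((T + T' : Tor act (π ^ t))) : Pt (WAB A B) Ω) = e (c s) (T : Pt (WAB A B) Ω) * e (c s) (T' : Pt (WAB A B) Ω) :=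
        he.add_right _ (hcL s hs) T T.2 T' T'.2
      rw [map_div₀, map_mul, hys _ s hs, hys _ s hs, hys _ s hs, h3, mul_mul_mul_comm (e (c s) (T : Pt (WAB A B) Ω)) (y T),
        mul_div_mul_left _ _ (mul_ne_zero h1 h2)]
    · rw [map_div₀, map_mul, hyV _ V hV, hyV _ V hV, hyV _ V hV, mul_one, div_one]
    · rw [one_mul, div_mul_cancel₀ _ hyy]
    · rw [AU.val_add, Units.val_mul]
      show (((x T).val : L) : Ω) * (((x T').val : L) : Ω) = _
      rw [hx, hx, mul_pow]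
  let f₀ : Tor act (π ^ t) →+ XU L w (l ^ t) := AddMonoidHom.mk' (fun T => XU.pr w (l ^ t) (x T)) hadd
  have hequiv : ∀ (σ : Gal(L/N)) (T : Tor act (π ^ t)), f₀ (σ • T) = σ • f₀ T := by
    intro σ T
    show XU.pr w (l ^ t) (x (σ • T)) = σ • XU.pr w (l ^ t) (x T)
    rw [← XU.pr_smul]
    obtain ⟨g, hgdef⟩ : ∃ g : Ω ≃ₐ[F] Ω, g = lf hL.le σ := ⟨_, rfl⟩
    have hg : ∀ z : L, g (z : Ω) = ((σ z : L) : Ω) := fun z => by
      rw [hgdef]
      exact lf_lft hL.le σ z
    have hgN : g ∈ N.fixingSubgroup := by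
      rw [IntermediateField.mem_fixingSubgroup_iff]
      intro z hz
      have h1 := hg (algebraMap N L ⟨z, hz⟩)
      rw [σ.commutes] at h1
      exact h1
    have hgT : ((σ • T : Tor act (π ^ t)) : Pt (WAB A B) Ω) = ac (WAB A B) g (T : Pt (WAB A B) Ω) := tact_eq hA hL σ g hg T
    have hgTm : ac (WAB A B) g (T : Pt (WAB A B) Ω) ∈ Tor act (π ^ t) := ac_mem hA g T.2
    have hcg : c g ∈ Tor act (cj π ^ t) := hc.tor g hgN
    have hE0 : e (c g) (ac (WAB A B) g (T : Pt (WAB A B) Ω)) ≠ 0 := he.ne hl0 hcg hgTm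
    obtain ⟨E, hE⟩ : ∃ E, E = e (c g) (ac (WAB A B) g (T : Pt (WAB A B) Ω)) := ⟨_, rfl⟩
    rw [← hE] at hE0
    have hEr : E ^ l ^ t = 1 := by
      rw [hE]
      exact he.root _ hcg _ hgTm
    have hgy0 : g (y T) ≠ 0 := (map_ne_zero g).2 (hy0 T)
    -- the action on g y / E
    have hgy : ∀ s ∈ L.fixingSubgroup, s (g (y T)) * E = e (c s) (ac (WAB A B) g (T : Pt (WAB A B) Ω)) * g (y T) * s E := by
      intro s hs
      have hsN := hL.mono hs
      have hs' : g⁻¹ * s * g ∈ L.fixingSubgroup := H13X.kb2_conj hA hL hgN hs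
      have h1 : s * g = g * (g⁻¹ * s * g) := by group
      have h2 : s (g (y T)) = g ((g⁻¹ * s * g) (y T)) := by
        have h3 := congrArg (fun q : Ω ≃ₐ[F] Ω => q (y T)) h1
        exact h3
      have h4 : c (s * g) = c s + ac (WAB A B) s (c g) := hc.mul s hsN g hgN
      have h5 : c (g * (g⁻¹ * s * g)) = c g + ac (WAB A B) g (c (g⁻¹ * s * g)) := hc.mul g hgN _ (hL.mono hs')
      have hsg : ac (WAB A B) s (c g) ∈ Tor act (cj π ^ t) := ac_mem hA s hcg
      have h6 : c s + ac (WAB A B) s (c g) = c g + ac (WAB A B) g (c (g⁻¹ * s * g)) := by rw [← h4, h1, h5]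
      have hgc : ac (WAB A B) g (c (g⁻¹ * s * g)) ∈ Tor act (cj π ^ t) := ac_mem hA g (hcL _ hs')
      have h7 := congrArg (fun X => e X (ac (WAB A B) g (T : Pt (WAB A B) Ω))) h6
      rw [he.add_left _ (hcL s hs) _ hsg _ hgTm, he.add_left _ hcg _ hgc _ hgTm, ← he.gal g _ (hcL _ hs') T T.2, ← hE] at h7
      have h8 : s E = e (ac (WAB A B) s (c g)) (ac (WAB A B) g (T : Pt (WAB A B) Ω)) := by
        rw [hE, he.gal s _ hcg _ hgTm, ((hL.fix s).1 hs).2 _ hgTm]
      rw [h2, hys T _ hs', map_mul, h8]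
      linear_combination -(g (y T)) * h7
    have hVgy : ∀ V : ValuationSubring Ω, ¬ Abv N V w → V.valuation (g (y T)) = 1 := fun V hV =>
      (ka8_conj g (hy0 T)).1 (hyV T _ (ka8_abv hgN hV))
    refine ka8_b hL.le w (l ^ t) (u := y (σ • T) * E / g (y T)) (ζ := E⁻¹) (y := y (σ • T)) (y' := g (y T))
      (div_ne_zero (mul_ne_zero (hy0 _) hE0) hgy0) (fun s hs => ?_) (fun V hV => ?_) (by rw [inv_pow, hEr, inv_one]) ?_ _ _ (hx _) ?_
    · have h1 := hgy s hs
      have h2 := hys (σ • T) s hs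
      rw [hgT] at h2
      have hsE0 : s E ≠ 0 := (map_ne_zero s).2 hE0
      have hsg0 : s (g (y T)) ≠ 0 := (map_ne_zero s).2 hgy0
      rw [map_div₀, map_mul, h2, div_eq_div_iff hsg0 hgy0]
      linear_combination -(y (σ • T)) * h1
    · rw [map_div₀, map_mul, hyV _ V hV, hVgy V hV, ka8_root hn (by rw [hEr, map_one]), mul_one, div_one]
    · rw [mul_assoc, div_mul_cancel₀ _ hgy0, mul_comm (y (σ • T)), ← mul_assoc, inv_mul_cancel₀ hE0, one_mul]
    · rw [AU.val_smul]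
      show (((σ ((x T).val : L) : L)) : Ω) = _
      rw [← hg, hx, map_pow]
  exact ⟨⟨f₀, hequiv⟩, fun T => ⟨y T, x T, hy0 T, hys T, hx T, rfl⟩⟩

/-- Chunk KA8b (S/M). PROOF: y of Rel: V y ^ l ^ t = V x = 1 for V not above w (x in SU L w: H19C.ord_val with the prime of L below V: H13X.xg3_below; for V = ⊤ the value of a nonzero element is 1). -/
theorem rel_ut (D : Dat A B Om j act mo ψ π l) [NumberField N] [NumberField L] (hL : IsTB act (π ^ t) N L) (w : Pl N)
    {f : letI := algNL hL.le; letI := tact D.cma hL; HG Gal(L/N) (Tor act (π ^ t)) (XU L w (l ^ t))}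
    (h : Rel D.cma hL w e l c f) : UT act π t L w e c := by
  letI := algNL hL.le
  letI := tact D.cma hL
  have hT : IsScalarTower F N L := IsScalarTower.of_algebraMap_eq fun x => Subtype.ext rfl
  have hT' : IsScalarTower N L Ω := IsScalarTower.of_algebraMap_eq fun x => rfl
  intro T hT
  obtain ⟨y, x, hy0, hys, hyx, -⟩ := h ⟨T, hT⟩
  refine ⟨y, hy0, hys, fun V hV => ?_⟩
  by_cases hVt : V = ⊤
  · rw [ka8_val hy0, hVt]
    exact ⟨trivial, trivial⟩
  · obtain ⟨Q, hQ⟩ := H13X.xg3_below (F := F) L hVt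
    have hQ' : H55K.Abw V Q := hQ
    have hne : Q.under (𝓞 N) ≠ w := fun h => hV (hQ'.below h)
    have h1 := H19C.ord_val hQ' (x.mem Q hne)
    have h2 : V.valuation (y ^ l ^ t) = 1 := by
      rw [← hyx]
      exact h1
    exact ka8_root (pow_ne_zero _ D.hl.ne_zero) h2

/-- Chunk KA8c (S). R3. PROOF: y / y', x - x', sub_left (c s, c' s in Tor for s in L.fixingSubgroup). -/
theorem kum_R3 (D : Dat A B Om j act mo ψ π l) (he : PT A B act π l t e) [NumberField N] [NumberField L] (hL : IsTB act (π ^ t) N L) (w : Pl N)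
    {c' : (Ω ≃ₐ[F] Ω) → Pt (WAB A B) Ω} (hc : ∀ s ∈ L.fixingSubgroup, c s ∈ Tor act (cj π ^ t)) (hc' : ∀ s ∈ L.fixingSubgroup, c' s ∈ Tor act (cj π ^ t))
    {f f' f'' : letI := algNL hL.le; letI := tact D.cma hL; HG Gal(L/N) (Tor act (π ^ t)) (XU L w (l ^ t))}
    (hf : ∀ x, f''.1 x = f.1 x - f'.1 x) (h : Rel D.cma hL w e l c f) (h' : Rel D.cma hL w e l c' f') : Rel D.cma hL w e l (c - c') f'' := by
  letI := algNL hL.le
  letI := tact D.cma hL
  intro T
  obtain ⟨y, x, hy0, hys, hyx, hx⟩ := h T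
  obtain ⟨y', x', hy0', hys', hyx', hx'⟩ := h' T
  refine ⟨y / y', x + -x', div_ne_zero hy0 hy0', fun s hs => ?_, ?_, ?_⟩
  · rw [Pi.sub_apply, he.sub_left D.hl.ne_zero (hc s hs) (hc' s hs) T.2, map_div₀, hys s hs, hys' s hs, mul_div_mul_comm]
  · have e3 : ∀ a b : (L)ˣ, (((a * b⁻¹ : (L)ˣ) : L) : Ω) = ((a : L) : Ω) / ((b : L) : Ω) := fun a b => by
      rw [Units.val_mul, Units.val_inv_eq_inv_val, div_eq_mul_inv]
      rfl
    rw [AU.val_add, AU.val_neg, e3, hyx, hyx', div_pow]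
  · rw [map_add, map_neg, hx, hx', hf, sub_eq_add_neg]

/-- Chunk KA8d (M). R4. PROOF: x = l ^ t • z (XU.pr_zero), y ^ l ^ t = z ^ l ^ t, y = ζ z; for s in Ht: s y = y (ht_root, z in L, Ht ≤ L.fixingSubgroup), e (c s) T = 1 for all T, c s = 0 (nondeg). sah_t on N.fixingSubgroup with δ from mv_cj and ht_comm. -/
theorem kum_R4 (D : Dat A B Om j act mo ψ π l) (he : PT A B act π l t e) [NumberField N] [NumberField L] (hN : Nb l N) (hL : IsTB act (π ^ t) N L) (w : Pl N)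
    (hc : c ∈ CS N.fixingSubgroup act (cj π ^ t))
    {f : letI := algNL hL.le; letI := tact D.cma hL; HG Gal(L/N) (Tor act (π ^ t)) (XU L w (l ^ t))} (hf : ∀ x, f.1 x = 0)
    (h : Rel D.cma hL w e l c f) : ∃ X ∈ Tor act (cj π ^ t), ∀ s ∈ N.fixingSubgroup, c s = ac (WAB A B) s X - X := by
  letI := algNL hL.le
  letI := tact D.cma hL
  obtain ⟨δ, hδ, hmv⟩ := mv_cj D hN
  have h0 : ∀ s ∈ Ht A B l t N, c s = 0 := by
    intro s hs
    have hsN := (mem_Ht.1 hs).1
    have hsL : s ∈ L.fixingSubgroup := (hL.fix s).2 ⟨hsN, fun T hT => (mem_Ht.1 hs).2 T (tor_lt D (Or.inl hT))⟩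
    refine he.nondeg _ (hc.tor s hsN) fun T hT => ?_
    obtain ⟨y, x, hy0, hys, hyx, hx⟩ := h ⟨T, hT⟩
    rw [hf] at hx
    obtain ⟨z, hz⟩ := (XU.pr_zero w (l ^ t) x).1 hx
    have h1 : (((z.val : (L)ˣ) : L) : Ω) ^ l ^ t = y ^ l ^ t := by
      rw [← hyx, hz, AU.val_nsmul, Units.val_pow_eq_pow_val]
      rfl
    have hz0 : (((z.val : (L)ˣ) : L) : Ω) ≠ 0 := fun h => z.val.ne_zero (Subtype.ext h)
    have h2 : (y / (((z.val : (L)ˣ) : L) : Ω)) ^ l ^ t = 1 := by
      rw [div_pow, h1, div_self (pow_ne_zero _ hy0)]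
    have h3 := ht_root D he hs h2
    have h4 : s (((z.val : (L)ˣ) : L) : Ω) = (((z.val : (L)ˣ) : L) : Ω) :=
      (IntermediateField.mem_fixingSubgroup_iff L s).1 hsL _ (z.val : L).2
    rw [map_div₀, h4, div_left_inj' hz0, hys s hsL] at h3
    exact mul_right_cancel₀ hy0 (by rw [one_mul]; exact h3)
  refine sah_t D.cma (cj_prime D.pr) (fun s hs s' hs' => hc.mul s hs s' hs') (fun s hs => hc.tor s hs) hδ hmv fun s hs => ?_
  exact h0 _ (ht_comm D.cma D.hl.ne_zero hδ hs)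

/-- Chunk KA8e (S). R5. PROOF: y = e X T, x = 0 (y ^ l ^ t = 1); s (e X T) = e (s X) T = e (s X - X) T * e X T for s in L.fixingSubgroup (s T = T). -/
theorem kum_R5 (D : Dat A B Om j act mo ψ π l) (he : PT A B act π l t e) [NumberField N] [NumberField L] (hL : IsTB act (π ^ t) N L) (w : Pl N)
    {X : Pt (WAB A B) Ω} (hX : X ∈ Tor act (cj π ^ t)) (hc : ∀ s ∈ L.fixingSubgroup, c s = ac (WAB A B) s X - X)
    {f : letI := algNL hL.le; letI := tact D.cma hL; HG Gal(L/N) (Tor act (π ^ t)) (XU L w (l ^ t))} (hf : ∀ x, f.1 x = 0) :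
    Rel D.cma hL w e l c f := by
  letI := algNL hL.le
  letI := tact D.cma hL
  intro T
  refine ⟨e X (T : Pt (WAB A B) Ω), 0, he.ne D.hl.ne_zero hX T.2, fun s hs => ?_, ?_, ?_⟩
  · have hsT : ac (WAB A B) s (T : Pt (WAB A B) Ω) = T := ((hL.fix s).1 hs).2 T T.2
    have hsX : ac (WAB A B) s X ∈ Tor act (cj π ^ t) := ac_mem D.cma s hX
    rw [he.gal s X hX T T.2, hsT, hc s hs, ← he.add_left _ (sub_mem hsX hX) X hX T T.2, sub_add_cancel]
  · rw [he.root X hX T T.2, AU.val_zero]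
    rfl
  · rw [map_zero, hf]

end H13V
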