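import Mathlib
import Pool.Agent.Lib.H13V.KB4
import Pool.Agent.Lib.H19T.DV

/-! # H13V, KB8: counting (PROOF.md 3.6, the algebra) -/

open NumberField IsDedekindDomain

namespace H13V

open H55R (Pl ord ord_mul)
open H13Y (SU mem_SU)
open scoped Classical

section count

/-- The count: K' is mapped by ψ; on the elements of K' in L₀ the map v is injective on the values of ψ. -/
theorem kb8_bound {A H M : Type} [AddCommGroup A] [AddCommGroup H] [AddCommGroup M] [Finite H] [Finite M] (ψ : A →+ H) (v : H →+ M)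
    (K L₀ : AddSubgroup A) (hinj : ∀ c ∈ K, c ∈ L₀ → v (ψ c) = 0 → ψ c = 0) {a : ℕ} (hi0 : L₀.relIndex K ≠ 0) (hi : L₀.relIndex K ≤ a) :
    Nat.card (K.map ψ) ≤ a * Nat.card ((K ⊓ L₀).map (v.comp ψ)) := by
  have hfin : Finite (K ⧸ L₀.addSubgroupOf K) := Nat.finite_of_card_ne_zero hi0
  have hpre : ∀ x : K.map ψ, ∃ c : K, ψ c = x := fun x => by
    obtain ⟨c, hc, hcx⟩ := x.2
    exact ⟨⟨c, hc⟩, hcx⟩
  choose c hc using hpre
  obtain ⟨-, h1⟩ := H19T.idx_le (X := K ⧸ L₀.addSubgroupOf K) (H := (K ⊓ L₀).map ψ) (K := K.map ψ)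
    (fun x => QuotientAddGroup.mk (c x)) (fun x y hxy => by
      rw [QuotientAddGroup.eq_iff_sub_mem, AddSubgroup.mem_addSubgroupOf] at hxy
      refine ⟨(c x : A) - c y, ⟨K.sub_mem (c x).2 (c y).2, hxy⟩, ?_⟩
      rw [map_sub, hc, hc])
  have hle : (K ⊓ L₀).map ψ ≤ K.map ψ := AddSubgroup.map_mono inf_le_left
  have h2 : Nat.card (K.map ψ) = ((K ⊓ L₀).map ψ).relIndex (K.map ψ) * Nat.card ((K ⊓ L₀).map ψ) := by
    rw [← AddSubgroup.relIndex_bot_left ((K ⊓ L₀).map ψ), ← AddSubgroup.relIndex_bot_left (K.map ψ), mul_comm]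
    exact (AddSubgroup.relIndex_mul_relIndex _ _ _ bot_le hle).symm
  have h3 : Nat.card ((K ⊓ L₀).map ψ) ≤ Nat.card ((K ⊓ L₀).map (v.comp ψ)) := by
    let J : (K ⊓ L₀).map ψ → (K ⊓ L₀).map (v.comp ψ) := fun x => ⟨v x, by
      obtain ⟨b, hb, hbx⟩ := x.2
      exact ⟨b, hb, by rw [AddMonoidHom.comp_apply, hbx]⟩⟩
    refine Nat.card_le_card_of_injective J fun x y hxy => ?_
    have h4 : v (x : H) = v (y : H) := congrArg Subtype.val hxy
    obtain ⟨b, hb, hbx⟩ := x.2
    obtain ⟨b', hb', hby⟩ := y.2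
    have h5 : ψ (b - b') = 0 := by
      refine hinj _ (K.sub_mem hb.1 hb'.1) (L₀.sub_mem hb.2 hb'.2) ?_
      rw [map_sub, hbx, hby, map_sub, h4, sub_self]
    rw [map_sub, hbx, hby, sub_eq_zero] at h5
    exact Subtype.ext h5
  rw [h2]
  refine Nat.mul_le_mul (h1.trans ?_) h3
  exact hi

/-- Homomorphisms to Z/n. -/
theorem kb8_hom {T : Type} [AddCommGroup T] {n r : ℕ} [NeZero n] (e : T ≃+ (Fin r → ZMod n)) :
    Finite (T →+ ZMod n) ∧ Nat.card (T →+ ZMod n) ≤ n ^ r ∧
      ∀ m : ℕ, Nat.card {κ : T →+ ZMod n // ∀ x, m • κ x = 0} ≤ Nat.card {z : ZMod n // m • z = 0} ^ r := by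
  let b : Fin r → T := fun j => e.symm (Pi.single j 1)
  have hspan : ∀ κ κ' : T →+ ZMod n, (∀ j, κ (b j) = κ' (b j)) → κ = κ' := by
    intro κ κ' h
    ext x
    have h1 : x = ∑ j, (e x j).val • b j := by
      apply e.injective
      rw [map_sum]
      have h2 : ∀ j, e ((e x j).val • b j) = Pi.single j (e x j) := by
        intro j
        rw [map_nsmul]
        change (e x j).val • e (e.symm (Pi.single j 1)) = _
        rw [AddEquiv.apply_symm_apply, ← Pi.single_smul, nsmul_eq_mul, mul_one, ZMod.natCast_zmod_val]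
      simp only [h2]
      exact (Finset.univ_sum_single _).symm
    rw [h1, map_sum, map_sum]
    refine Finset.sum_congr rfl fun j _ => ?_
    rw [map_nsmul, map_nsmul, h]
  let J : (T →+ ZMod n) → (Fin r → ZMod n) := fun κ j => κ (b j)
  have hJ : Function.Injective J := fun κ κ' h => hspan κ κ' fun j => congrFun h j
  refine ⟨Finite.of_injective J hJ, ?_, fun m => ?_⟩
  · have h1 := Nat.card_le_card_of_injective J hJ
    rw [Nat.card_fun, Nat.card_zmod, Nat.card_fin] at h1
    exact h1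
  · let J' : {κ : T →+ ZMod n // ∀ x, m • κ x = 0} → (Fin r → {z : ZMod n // m • z = 0}) := fun κ j => ⟨κ.1 (b j), κ.2 _⟩
    have h1 := Nat.card_le_card_of_injective J' fun κ κ' h => Subtype.ext (hspan _ _ fun j => congrArg Subtype.val (congrFun h j))
    rw [Nat.card_fun, Nat.card_fin] at h1
    exact h1

/-- The number of elements of Z/l^t killed by l. -/
theorem kb8_tors {l t : ℕ} [Fact l.Prime] : Nat.card {z : ZMod (l ^ t) // l • z = 0} ≤ l := by
  have hl : l.Prime := Fact.out
  rcases Nat.eq_zero_or_pos t with ht | ht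
  · subst ht
    have h1 : Subsingleton (ZMod (l ^ 0)) := by
      rw [pow_zero]
      exact inferInstanceAs (Subsingleton (Fin 1))
    have h2 : Nat.card {z : ZMod (l ^ 0) // l • z = 0} ≤ 1 := Finite.card_le_one_iff_subsingleton.2 inferInstance
    exact h2.trans hl.one_lt.le
  have hne : NeZero (l ^ t) := ⟨pow_ne_zero _ hl.ne_zero⟩
  let J : {z : ZMod (l ^ t) // l • z = 0} → Fin l := fun z => ⟨z.1.val / l ^ (t - 1), by
    have h1 := ZMod.val_lt z.1
    have h2 : l ^ t = l * l ^ (t - 1) := by rw [← pow_succ', Nat.sub_add_cancel ht]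
    exact (Nat.div_lt_iff_lt_mul (pow_pos hl.pos _)).2 (h1.trans_eq h2)⟩
  have h3 := Nat.card_le_card_of_injective J fun z z' h => by
    have hd : ∀ z : {z : ZMod (l ^ t) // l • z = 0}, l ^ (t - 1) ∣ z.1.val := by
      intro z
      have h4 : ((l * z.1.val : ℕ) : ZMod (l ^ t)) = 0 := by
        push_cast
        rw [ZMod.natCast_zmod_val, ← nsmul_eq_mul]
        exact z.2
      rw [ZMod.natCast_eq_zero_iff] at h4
      have h2 : l ^ t = l * l ^ (t - 1) := by rw [← pow_succ', Nat.sub_add_cancel ht]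
      have h4' : l * l ^ (t - 1) ∣ l * z.1.val := by
        rw [← h2]
        exact h4
      exact (Nat.mul_dvd_mul_iff_left hl.pos).1 h4'
    have h5 : z.1.val / l ^ (t - 1) = z'.1.val / l ^ (t - 1) := congrArg Fin.val h
    have h6 : z.1.val = z'.1.val := by
      rw [← Nat.div_mul_cancel (hd z), ← Nat.div_mul_cancel (hd z'), h5]
    exact Subtype.ext (ZMod.val_injective _ h6)
  rw [Nat.card_fin] at h3
  exact h3

end count

section ordQ

variable {N L : Type} [Field N] [NumberField N] [Field L] [NumberField L] [Algebra N L]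

/-- The order at Q modulo n. -/
noncomputable def ordX (w : Pl N) (n : ℕ) (Q : Pl L) : XU L w n →+ ZMod n :=
  QuotientAddGroup.lift (mulSub (AU L w) n)
    { toFun := fun x => (ord Q x.val : ZMod n)
      map_zero' := by
        rw [AU.val_zero, H55R.ord_one, Int.cast_zero]
      map_add' := fun x y => by
        rw [AU.val_add, ord_mul, Int.cast_add] }
    (by
      rintro x ⟨y, hy⟩
      have h1 : x = n • y := hy.symm
      have h2 : ord Q x.val = n * ord Q y.val := by
        rw [h1, AU.val_nsmul]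
        have h3 := H55R.ord_zpow Q y.val n
        rw [zpow_natCast] at h3
        exact h3
      change (ord Q x.val : ZMod n) = 0
      rw [h2]
      push_cast
      rw [ZMod.natCast_self, zero_mul])

theorem ordX_pr (w : Pl N) (n : ℕ) (Q : Pl L) (x : AU L w) : ordX w n Q (XU.pr w n x) = (ord Q x.val : ZMod n) := rfl

end ordQ

end H13V
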