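import Mathlib
import Pool.Agent.Lib.H13V.KB8

/-! # H13V, KB10: the abstract counting argument (PROOF.md 3.6) -/

namespace H13V

/-- THE COUNT. -/
theorem kb10_abs {A T X : Type} [AddCommGroup A] [AddCommGroup T] [AddCommGroup X] [Finite T] [Finite X] {l t r q d : ℕ}
    [Fact l.Prime] (H0 : AddSubgroup (T →+ X)) (v : X →+ ZMod (l ^ t)) (C L₀ : AddSubgroup A)
    (Rl : A → (T →+ X) → Prop) (R2 : ∀ f ∈ H0, ∃ c ∈ C, Rl c f)
    (R3 : ∀ c ∈ C, ∀ c' ∈ C, ∀ f ∈ H0, ∀ f' ∈ H0, Rl c f → Rl c' f' → Rl (c - c') (f - f'))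
    (U : ∀ f ∈ H0, Rl 0 f → f = 0)
    (hidx : ∀ (i : ℕ) (K : AddSubgroup A), K ≤ C → (∀ c ∈ K, ∃ f ∈ H0, Rl c f ∧ ∀ x, l ^ i • f x = 0) →
      L₀.relIndex K ≠ 0 ∧ L₀.relIndex K ≤ q ^ (i * d))
    (hinj : ∀ c ∈ C, c ∈ L₀ → ∀ f ∈ H0, Rl c f → (∀ x, v (f x) = 0) → ∀ x, f x = 0)
    (hX : ∀ x : X, l ^ t • x = 0) (e : T ≃+ (Fin r → ZMod (l ^ t))) (hq : l ^ r = q)
    (hmm : Nat.card {f : H0 // ∀ x, l • f.1 x = 0} ≤ q ^ (d + 1) → Nat.card H0 = q ^ (t * (d + 1)))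
    (κ : T →+ ZMod (l ^ t)) : ∃ c ∈ C, c ∈ L₀ ∧ ∃ f ∈ H0, Rl c f ∧ ∀ x, v (f x) = κ x := by
  have hlp : l.Prime := Fact.out
  have hne : NeZero (l ^ t) := ⟨pow_ne_zero _ hlp.ne_zero⟩
  have hq0 : 0 < q := by rw [← hq]; exact pow_pos hlp.pos _
  have hfin : Finite (T →+ X) := Finite.of_injective (fun f => (f : T → X)) DFunLike.coe_injective
  obtain ⟨hfin2, hhom, htors⟩ := kb8_hom (n := l ^ t) e
  -- uniqueness
  have hun : ∀ c ∈ C, ∀ f ∈ H0, ∀ f' ∈ H0, Rl c f → Rl c f' → f = f' := by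
    intro c hc f hf f' hf' h h'
    have h1 := R3 c hc c hc f hf f' hf' h h'
    rw [sub_self] at h1
    exact sub_eq_zero.1 (U _ (H0.sub_mem hf hf') h1)
  let KK : AddSubgroup A := AddSubgroup.ofSub {c | c ∈ C ∧ ∃ f ∈ H0, Rl c f} (by
      obtain ⟨c, hc, h⟩ := R2 0 H0.zero_mem
      exact ⟨c, hc, 0, H0.zero_mem, h⟩) (by
      rintro c ⟨hc, f, hf, h⟩ c' ⟨hc', f', hf', h'⟩
      refine ⟨C.add_mem hc (C.neg_mem hc'), f - f', H0.sub_mem hf hf', ?_⟩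
      rw [← sub_eq_add_neg]
      exact R3 c hc c' hc' f hf f' hf' h h')
  have hKK : ∀ c, c ∈ KK ↔ c ∈ C ∧ ∃ f ∈ H0, Rl c f := fun c => Iff.rfl
  have hex : ∀ c : KK, ∃ f : T →+ X, f ∈ H0 ∧ Rl c f := fun c => c.2.2
  choose g hg1 hg2 using hex
  let ψ : KK →+ (T →+ X) := AddMonoidHom.ofMapSub g (fun c c' => by
    refine hun (c - c' : KK) (C.sub_mem c.2.1 c'.2.1) _ (hg1 _) _ (H0.sub_mem (hg1 c) (hg1 c')) (hg2 _) ?_
    exact R3 _ c.2.1 _ c'.2.1 _ (hg1 c) _ (hg1 c') (hg2 c) (hg2 c'))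
  have hψ : ∀ c : KK, ψ c = g c := fun c => rfl
  have hψu : ∀ c : KK, ∀ f ∈ H0, Rl c f → ψ c = f := fun c f hf h => hun c c.2.1 _ (hg1 c) _ hf (hg2 c) h
  let vv : (T →+ X) →+ (T →+ ZMod (l ^ t)) := AddMonoidHom.compHom v
  have hvv : ∀ (f : T →+ X) (x : T), vv f x = v (f x) := fun f x => rfl
  have hinj' : ∀ c : KK, c ∈ L₀.addSubgroupOf KK → vv (ψ c) = 0 → ψ c = 0 := by
    intro c hc h
    ext x
    exact hinj c c.2.1 hc _ (hg1 c) (hg2 c) (fun x => by rw [← hψ, ← hvv, h]; rfl) x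
  have hix : ∀ (i : ℕ) (K : AddSubgroup KK), (∀ c ∈ K, ∀ x, l ^ i • ψ c x = 0) →
      (L₀.addSubgroupOf KK).relIndex K ≠ 0 ∧ (L₀.addSubgroupOf KK).relIndex K ≤ q ^ (i * d) := by
    intro i K hK
    have h1 : (L₀.addSubgroupOf KK).relIndex K = L₀.relIndex (K.map KK.subtype) := AddSubgroup.relIndex_comap _ _ _
    rw [h1]
    refine hidx i (K.map KK.subtype) ?_ ?_
    · rintro _ ⟨c, hc, rfl⟩
      exact c.2.1
    · rintro _ ⟨c, hc, rfl⟩
      exact ⟨g c, hg1 c, hg2 c, fun x => hK c hc x⟩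
  -- the first count
  let K1 : AddSubgroup KK :=
    { carrier := {c | ∀ x, l • ψ c x = 0}
      zero_mem' := fun x => by rw [map_zero, AddMonoidHom.zero_apply, smul_zero]
      add_mem' := fun {a b} ha hb x => by
        have ha' : l • ψ a x = 0 := ha x
        have hb' : l • ψ b x = 0 := hb x
        rw [map_add, AddMonoidHom.add_apply, smul_add, ha', hb', add_zero]
      neg_mem' := fun {a} ha x => by
        have ha' : l • ψ a x = 0 := ha x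
        rw [map_neg, AddMonoidHom.neg_apply, smul_neg, ha', neg_zero] }
  have hK1 : ∀ c, c ∈ K1 ↔ ∀ x, l • ψ c x = 0 := fun c => Iff.rfl
  have hc1 : Nat.card {f : H0 // ∀ x, l • f.1 x = 0} ≤ q ^ (d + 1) := by
    obtain ⟨i1, i2⟩ := hix 1 K1 (fun c hc x => by rw [pow_one]; exact hc x)
    have h1 := kb8_bound ψ vv K1 (L₀.addSubgroupOf KK) (fun c _ hc h => hinj' c hc h) i1 i2
    have h2 : Nat.card {f : H0 // ∀ x, l • f.1 x = 0} ≤ Nat.card (K1.map ψ) := by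
      let J : {f : H0 // ∀ x, l • f.1 x = 0} → K1.map ψ := fun f => ⟨f.1.1, by
        obtain ⟨c, hc, h⟩ := R2 f.1.1 f.1.2
        have h3 : ψ ⟨c, hc, f.1.1, f.1.2, h⟩ = f.1.1 := hψu _ _ f.1.2 h
        exact ⟨⟨c, hc, f.1.1, f.1.2, h⟩, (hK1 _).2 fun x => by rw [h3]; exact f.2 x, h3⟩⟩
      refine Nat.card_le_card_of_injective J fun a b hab => ?_
      have h3 : (J a).1 = (J b).1 := congrArg Subtype.val hab
      exact Subtype.ext (Subtype.ext h3)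
    have h3 : Nat.card ((K1 ⊓ L₀.addSubgroupOf KK).map (vv.comp ψ)) ≤ q := by
      let J : (K1 ⊓ L₀.addSubgroupOf KK).map (vv.comp ψ) → {κ : T →+ ZMod (l ^ t) // ∀ x, l • κ x = 0} := fun κ => ⟨κ.1, by
        obtain ⟨c, hc, h⟩ := κ.2
        intro x
        rw [← h, AddMonoidHom.comp_apply, hvv, ← map_nsmul, (hK1 c).1 hc.1 x, map_zero]⟩
      have h4 := Nat.card_le_card_of_injective J fun a b hab => by
        have h5 : (J a).1 = (J b).1 := congrArg Subtype.val hab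
        exact Subtype.ext h5
      refine h4.trans ((htors l).trans ?_)
      rw [← hq]
      exact Nat.pow_le_pow_left kb8_tors _
    refine h2.trans (h1.trans ?_)
    rw [pow_succ, one_mul]
    exact Nat.mul_le_mul le_rfl h3
  have hcard := hmm hc1
  -- the second count
  obtain ⟨i1, i2⟩ := hix t ⊤ (fun c _ x => hX _)
  have h1 := kb8_bound ψ vv ⊤ (L₀.addSubgroupOf KK) (fun c _ hc h => hinj' c hc h) i1 i2
  have h2 : Nat.card H0 ≤ Nat.card ((⊤ : AddSubgroup KK).map ψ) := by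
    let J : H0 → (⊤ : AddSubgroup KK).map ψ := fun f => ⟨f.1, by
      obtain ⟨c, hc, h⟩ := R2 f.1 f.2
      have h3 : ψ ⟨c, hc, f.1, f.2, h⟩ = f.1 := hψu _ _ f.2 h
      exact ⟨⟨c, hc, f.1, f.2, h⟩, AddSubgroup.mem_top _, h3⟩⟩
    refine Nat.card_le_card_of_injective J fun a b hab => ?_
    have h3 : (J a).1 = (J b).1 := congrArg Subtype.val hab
    exact Subtype.ext h3
  have h3 := h2.trans h1
  rw [hcard, mul_add, mul_one, pow_add] at h3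
  have h4 := Nat.le_of_mul_le_mul_left h3 (pow_pos hq0 _)
  have h5 : Nat.card (T →+ ZMod (l ^ t)) ≤ q ^ t := by
    refine hhom.trans (le_of_eq ?_)
    rw [← hq, ← pow_mul, ← pow_mul, mul_comm]
  have h6 : ((⊤ ⊓ L₀.addSubgroupOf KK).map (vv.comp ψ)) = ⊤ := AddSubgroup.eq_top_of_le_card _ (h5.trans h4)
  have h7 : κ ∈ (⊤ ⊓ L₀.addSubgroupOf KK).map (vv.comp ψ) := by
    rw [h6]
    exact AddSubgroup.mem_top _
  obtain ⟨c, hc, h⟩ := h7
  refine ⟨c, c.2.1, hc.2, g c, hg1 c, hg2 c, fun x => ?_⟩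
  rw [← h]
  rfl

end H13V
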