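import Mathlib
import Pool.Agent.Lib.H13T.TA
import Pool.Agent.Lib.H13X.XS
import Pool.Agent.Lib.H13X.XR1

/-! # H13V, KB6: the points killed by π^t: freeness over Z/l^t, the character; splitting of an abelian group -/

open NumberField IsDedekindDomain WeierstrassCurve

namespace H13V

open H55P (IQ embF eF LF Per IsHecke Pt ac Inert Dec Nm Coc)
open H35P (WAB Ker tt)
open H55K (Tor ak xc yc CMA Dta GV GMod cj cj_cj mul_cj cj_prime cj_dvd cj_nat Nm_cj Nm_mul Nm_nat)
open H55K.S
open H55R (Pl)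
open H13S (Abv)
open H13X

section grp

/-- Splitting of a finite commutative group with a surjection onto a group of order prime to p with kernel a p-group. -/
theorem kb6_split {Γ K : Type} [Group Γ] [Finite Γ] [Group K] [Finite K] (hcomm : ∀ a b : Γ, a * b = b * a) (p : ℕ) [Fact p.Prime]
    (f : Γ →* K) (hf : Function.Surjective f) (hker : IsPGroup p f.ker) (hK : ¬ p ∣ Nat.card K) :
    ∃ D P : Subgroup Γ, Nat.card D * Nat.card P = Nat.card Γ ∧ IsPGroup p P ∧ Function.Bijective (f.comp D.subtype) := by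
  have hp : p.Prime := Fact.out
  have hcard : Nat.card Γ = Nat.card K * Nat.card f.ker := by
    rw [← Nat.card_congr (QuotientGroup.quotientKerEquivOfSurjective f hf).toEquiv]
    exact Subgroup.card_eq_card_quotient_mul_card_subgroup f.ker
  obtain ⟨n, hn⟩ := IsPGroup.iff_card.1 hker
  let D : Subgroup Γ :=
    { carrier := {g | g ^ Nat.card K = 1}
      one_mem' := one_pow _
      mul_mem' := fun {a b} ha hb => by
        change (a * b) ^ Nat.card K = 1
        have h1 : Commute a b := hcomm a b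
        rw [h1.mul_pow]
        change a ^ Nat.card K = 1 at ha
        change b ^ Nat.card K = 1 at hb
        rw [ha, hb, one_mul]
      inv_mem' := fun {a} ha => by
        change (a⁻¹) ^ Nat.card K = 1
        change a ^ Nat.card K = 1 at ha
        rw [inv_pow, ha, inv_one] }
  have hD : ∀ g, g ∈ D ↔ g ^ Nat.card K = 1 := fun _ => Iff.rfl
  have hbij : Function.Bijective (f.comp D.subtype) := by
    constructor
    · rw [injective_iff_map_eq_one]
      rintro ⟨g, hg⟩ h1
      have h2 : g ∈ f.ker := h1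
      obtain ⟨k, hk⟩ := hker ⟨g, h2⟩
      have hk' : g ^ p ^ k = 1 := congrArg Subtype.val hk
      have h3 : orderOf g ∣ Nat.card K := orderOf_dvd_of_pow_eq_one hg
      have h4 : orderOf g ∣ p ^ k := orderOf_dvd_of_pow_eq_one hk'
      have h5 : Nat.Coprime (Nat.card K) (p ^ k) := Nat.Coprime.pow_right k (Nat.coprime_comm.1 ((Nat.Prime.coprime_iff_not_dvd hp).2 hK))
      have h6 : orderOf g = 1 := Nat.eq_one_of_dvd_coprimes h5 h3 h4
      exact Subtype.ext (orderOf_eq_one_iff.1 h6)
    · intro u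
      obtain ⟨g, rfl⟩ := hf u
      have hcop : Nat.Coprime (p ^ n) (Nat.card K) := Nat.Coprime.pow_left n ((Nat.Prime.coprime_iff_not_dvd hp).2 hK)
      obtain ⟨M, hM1, hM2⟩ := Nat.chineseRemainder hcop 0 1
      refine ⟨⟨g ^ M, ?_⟩, ?_⟩
      · rw [hD, ← pow_mul]
        have h1 : p ^ n ∣ M := (Nat.modEq_zero_iff_dvd).1 hM1
        have h2 : Nat.card Γ ∣ M * Nat.card K := by
          rw [hcard, hn, mul_comm]
          exact Nat.mul_dvd_mul h1 dvd_rfl
        obtain ⟨m, hm⟩ := h2
        rw [hm, pow_mul, pow_card_eq_one', one_pow]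
      · change f (g ^ M) = f g
        rw [map_pow]
        have h1 : f g ^ M = f g ^ 1 := by
          rw [pow_eq_pow_iff_modEq]
          exact hM2.of_dvd (orderOf_dvd_natCard (f g))
        rw [h1, pow_one]
  refine ⟨D, f.ker, ?_, hker, hbij⟩
  rw [Nat.card_eq_of_bijective _ hbij, hcard]

end grp

section tor

variable {F : Type} [Field F] [NumberField F] [IQ F] {A B : F} {Om : ℂ} {Ω : Type} [Field Ω] [DecidableEq Ω]
  [Algebra F Ω] {j : Ω →+* ℂ} {act : 𝓞 F →+* AddMonoid.End (Pt (WAB A B) Ω)} {mo : Ideal (𝓞 F)}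
  {ψ : Ideal (𝓞 F) →*₀ 𝓞 F} {π : 𝓞 F} {l t : ℕ}

/-- The number of points killed by a power of π. -/
theorem kb6_card (hA : CMA F A B Om j act) (hπ : Prime π) (t : ℕ) : Nat.card (Tor act (π ^ t)) = Nm π ^ t := by
  rw [H55K.tor_card hA (pow_ne_zero t hπ.ne_zero)]
  induction t with
  | zero => simp [Nm]
  | succ t ih => rw [pow_succ, Nm_mul, ih, pow_succ]

theorem kb6_fin (hA : CMA F A B Om j act) (hπ : Prime π) (t : ℕ) : Finite (Tor act (π ^ t)) := by
  apply Nat.finite_of_card_ne_zero
  rw [kb6_card hA hπ]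
  exact pow_ne_zero _ fun h => hπ.ne_zero (H55P.Nm_eq_zero.1 h)

/-- A point killed by π^t and by l is killed by π. -/
theorem kb6_l (D : Dat A B Om j act mo ψ π l) {T : Pt (WAB A B) Ω} (hT : T ∈ Tor act (π ^ t)) :
    l • T = 0 ↔ T ∈ Tor act π := by
  have hlT : act (l : 𝓞 F) T = l • T := act_nat (act := act) l T
  rw [← hlT]
  constructor
  · intro h
    rcases dichotomy D.hl D.dta.unr D.pr D.dvd with ⟨-, -, h3⟩ | ⟨hnd, -, -, hll⟩
    · rw [← tor_assoc h3]
      exact h
    · have hcop : IsCoprime (π ^ t) (cj π) := IsCoprime.pow_left ((D.pr.irreducible.coprime_iff_not_dvd).2 hnd)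
      obtain ⟨u, v, huv⟩ := hcop
      rw [mem_Tor]
      have h1 : act π T = act (u * π) (act (π ^ t) T) + act v (act (l : 𝓞 F) T) := by
        rw [← act_mul, ← act_mul, ← act_add, ← hll]
        congr 1
        have h2 : u * π * π ^ t + v * (π * cj π) = (u * π ^ t + v * cj π) * π := by ring
        rw [h2, huv, one_mul]
      rw [h1, mem_Tor.1 hT, h, map_zero, map_zero, add_zero]
  · intro h
    obtain ⟨c, hc⟩ := D.dvd
    rw [hc, mul_comm, act_mul, mem_Tor.1 h, map_zero]

/-- Tor act (π^t) is free over Z/l^t. -/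
theorem kb6_e (D : Dat A B Om j act mo ψ π l) (t : ℕ) (ht : 1 ≤ t) : ∃ r : ℕ, Nonempty (Tor act (π ^ t) ≃+ (Fin r → ZMod (l ^ t))) := by
  classical
  have hl : Fact l.Prime := ⟨D.hl⟩
  have hA := D.cma
  have hfin := kb6_fin (act := act) hA D.pr t
  have hk : ∀ T : Tor act (π ^ t), l ^ t • T = 0 := by
    intro T
    apply Subtype.ext
    change (l ^ t) • (T : Pt (WAB A B) Ω) = 0
    rw [← act_nat (act := act), Nat.cast_pow]
    obtain ⟨u, hu⟩ := pow_dvd_pow_of_dvd D.dvd t
    rw [hu, mul_comm, act_mul, mem_Tor.1 T.2, map_zero]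
  obtain ⟨d, hd⟩ : ∃ d, Nm π = l ^ d := by
    rcases dichotomy D.hl D.dta.unr D.pr D.dvd with ⟨-, h, -⟩ | ⟨-, -, h, -⟩
    · exact ⟨2, h⟩
    · exact ⟨1, by rw [pow_one]; exact h⟩
  let iG : DistribMulAction (Multiplicative (Fin 1)) (Tor act (π ^ t)) :=
    { smul := fun _ x => x
      one_smul := fun _ => rfl
      mul_smul := fun _ _ _ => rfl
      smul_zero := fun _ => rfl
      smul_add := fun _ _ _ => rfl }
  have hG : IsPGroup l (Multiplicative (Fin 1)) := fun g => ⟨0, Subsingleton.elim _ _⟩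
  have hGc : Nat.card (Multiplicative (Fin 1)) = 1 := Nat.card_unique
  obtain ⟨f, -, hf⟩ := H13T.ta_cofree (G := Multiplicative (Fin 1)) l hG t d hk (by
      rw [hGc, mul_one, kb6_card hA D.pr, hd, ← pow_mul, mul_comm]) (by
      have h1 : Nat.card (Tor act π) = l ^ d := by
        rw [H55K.tor_card hA D.pr.ne_zero, hd]
      rw [← h1]
      have hfin1 : Finite (Tor act π) := Nat.finite_of_card_ne_zero (by rw [h1]; exact pow_ne_zero _ D.hl.ne_zero)
      let J : {b : Tor act (π ^ t) // l • b = 0 ∧ ∀ g : Multiplicative (Fin 1), g • b = b} → Tor act π := fun b =>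
        ⟨b.1.1, (kb6_l D b.1.2).1 (congrArg Subtype.val b.2.1)⟩
      refine Nat.card_le_card_of_injective J fun a b hab => ?_
      apply Subtype.ext
      apply Subtype.ext
      have h3 : ((J a : Tor act π) : Pt (WAB A B) Ω) = (J b : Tor act π) := congrArg Subtype.val hab
      exact h3)
  let E : Tor act (π ^ t) → (Fin d → ZMod (l ^ t)) := fun x i => f i x
  have hE : Function.Bijective E := by
    constructor
    · intro a b hab
      have h1 := @hf.1 ⟨a, fun _ => rfl⟩ ⟨b, fun _ => rfl⟩ hab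
      exact congrArg Subtype.val h1
    · intro x
      obtain ⟨b, hb⟩ := hf.2 x
      exact ⟨b.1, hb⟩
  exact ⟨d, ⟨{ Equiv.ofBijective E hE with map_add' := fun a b => funext fun i => map_add (f i) a b }⟩⟩

end tor

end H13V
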