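import Mathlib
import Pool.Agent.Lib.H13V.KB6
import Pool.Agent.Lib.H13V.KB4
import Pool.Agent.Lib.H13X.XN4
import Pool.Agent.Lib.H13X.XN1

/-! # H13V, KB7: the order of the group of equivariant homomorphisms from Tor (π^t) to the w-units modulo l^t -/

open NumberField IsDedekindDomain WeierstrassCurve

namespace H13V

open H55P (IQ embF eF LF Per IsHecke Pt ac Inert Dec Nm Coc)
open H35P (WAB Ker tt)
open H55K (Tor ak xc yc CMA Dta GV GMod cj cj_cj mul_cj cj_prime cj_dvd cj_nat Nm_cj Nm_mul Nm_nat)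
open H55K (Fxd Lft TFld exists_lft lft_fxd exists_abw Abw)
open H55K.S
open H55R (Pl ord es fs smulP under_smulP under_exists ord_map)
open H13S (Abv)
open H13X

section alg

variable {F : Type} [Field F] [NumberField F] [IQ F] {A B : F} {Om : ℂ} {Ω : Type} [Field Ω] [DecidableEq Ω]
  [Algebra F Ω] {j : Ω →+* ℂ} {act : 𝓞 F →+* AddMonoid.End (Pt (WAB A B) Ω)} {mo : Ideal (𝓞 F)}
  {ψ : Ideal (𝓞 F) →*₀ 𝓞 F} {π : 𝓞 F} {l t : ℕ}

/-- The characters of a group acting on Tor (π^t). -/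
theorem kb7_alg (D : Dat A B Om j act mo ψ π l) (ht : 1 ≤ t) {k : Type} [Field k] [Finite k]
    (q : 𝓞 F →+* k) (hq : Function.Surjective q) (hk : ∀ x, q x = 0 ↔ π ∣ x)
    {Γ : Type} [Group Γ] [Finite Γ] [DistribMulAction Γ (Tor act (π ^ t))]
    (hlin : ∀ (g : Γ) (x y : Tor act (π ^ t)) (a : 𝓞 F), (y : Pt (WAB A B) Ω) = act a x →
      ((g • y : Tor act (π ^ t)) : Pt (WAB A B) Ω) = act a ((g • x : Tor act (π ^ t)) : Pt (WAB A B) Ω))
    (hfaith : ∀ g : Γ, (∀ x : Tor act (π ^ t), g • x = x) → g = 1)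
    (hsurj : ∀ a : 𝓞 F, ¬ π ∣ a → ∃ g : Γ, ∀ x : Tor act (π ^ t), (x : Pt (WAB A B) Ω) ∈ Tor act π →
      ((g • x : Tor act (π ^ t)) : Pt (WAB A B) Ω) = act a x) :
    (∀ g h : Γ, g * h = h * g) ∧ ∃ (Δ P : Subgroup Γ) (χ : Δ →* kˣ) (θ : Tor act (π ^ t) →+ k),
      Nat.card Δ * Nat.card P = Nat.card Γ ∧ IsPGroup l P ∧ Function.Bijective χ ∧ Function.Surjective θ ∧
      ∀ (g : Δ) x, θ (g • x) = (χ g : k) * θ x := by
  classical
  have hl : Fact l.Prime := ⟨D.hl⟩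
  have hA := D.cma
  have hπ0 : π ≠ 0 := D.pr.ne_zero
  obtain ⟨T₀, hT₀, hgen, hann, -⟩ := hA.gen (π ^ t) (pow_ne_zero t hπ0)
  let x₀ : Tor act (π ^ t) := ⟨T₀, hT₀⟩
  have hcT : ∀ c : 𝓞 F, act c T₀ ∈ Tor act (π ^ t) := fun c => act_tor hT₀
  have heq : ∀ c c' : 𝓞 F, act c T₀ = act c' T₀ → π ^ t ∣ c - c' := by
    intro c c' h
    rw [← hann]
    have h1 : act (c - c') T₀ = act c T₀ - act c' T₀ := H55K.k2a_sub _ _ _
    rw [h1, h, sub_self]
  have heqq : ∀ c c' : 𝓞 F, act c T₀ = act c' T₀ → q c = q c' := by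
    intro c c' h
    rw [← sub_eq_zero, ← map_sub, hk]
    exact (dvd_pow_self π (by omega)).trans (heq c c' h)
  -- the multiplier
  have hex : ∀ g : Γ, ∃ c : 𝓞 F, ((g • x₀ : Tor act (π ^ t)) : Pt (WAB A B) Ω) = act c T₀ := fun g => hgen _ (g • x₀).2
  choose m hm using hex
  have hmx : ∀ (g : Γ) (x : Tor act (π ^ t)), ((g • x : Tor act (π ^ t)) : Pt (WAB A B) Ω) = act (m g) x := by
    intro g x
    obtain ⟨a, ha⟩ := hgen _ x.2
    rw [hlin g x₀ x a ha, hm, ha, ← act_mul, ← act_mul, mul_comm]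
  have hcomm : ∀ g h : Γ, g * h = h * g := by
    intro g h
    have h1 : (g * h)⁻¹ * (h * g) = 1 := by
      apply hfaith
      intro x
      rw [mul_smul, inv_smul_eq_iff]
      apply Subtype.ext
      rw [mul_smul, mul_smul, hmx, hmx, hmx, hmx, ← act_mul, ← act_mul, mul_comm]
    rw [inv_mul_eq_one] at h1
    exact h1
  have hm1 : q (m 1) = 1 := by
    rw [← map_one q]
    apply heqq
    rw [← hm, one_smul, H55K.S.act_one]
  have hmm : ∀ g h : Γ, q (m (g * h)) = q (m g) * q (m h) := by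
    intro g h
    rw [← map_mul]
    apply heqq
    rw [← hm, mul_smul, hmx, hm, ← act_mul]
  let χ₀ : Γ →* k := { toFun := fun g => q (m g), map_one' := hm1, map_mul' := hmm }
  let χ₁ : Γ →* kˣ := MonoidHom.toHomUnits χ₀
  have hχ₁ : ∀ g, ((χ₁ g : kˣ) : k) = q (m g) := fun g => rfl
  have hsur : Function.Surjective χ₁ := by
    intro u
    obtain ⟨a, ha⟩ := hq (u : k)
    have hna : ¬ π ∣ a := by
      rw [← hk, ha]
      exact u.ne_zero
    obtain ⟨g, hg⟩ := hsurj a hna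
    refine ⟨g, Units.ext ?_⟩
    rw [hχ₁, ← ha, ← sub_eq_zero, ← map_sub, hk]
    -- test at π^(t-1) T₀
    have hπt : π ^ (t - 1) * π = π ^ t := by
      rw [← pow_succ, Nat.sub_add_cancel ht]
    have h1 : act (π ^ (t - 1)) T₀ ∈ Tor act π := by
      rw [mem_Tor, ← act_mul, mul_comm, hπt]
      exact hT₀
    have h2 := hg ⟨act (π ^ (t - 1)) T₀, hcT _⟩ h1
    rw [hmx] at h2
    change act (m g) (act (π ^ (t - 1)) T₀) = act a (act (π ^ (t - 1)) T₀) at h2
    rw [← act_mul, ← act_mul] at h2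
    have h3 := heq _ _ h2
    rw [← sub_mul, ← hπt, mul_comm (m g - a)] at h3
    exact (mul_dvd_mul_iff_left (pow_ne_zero _ hπ0)).1 h3
  have hker : IsPGroup l χ₁.ker := by
    rintro ⟨g, hg⟩
    have h1 : q (m g) = 1 := by
      rw [← hχ₁]
      exact congrArg Units.val hg
    have h2 : π ∣ m g - 1 := by
      rw [← hk, map_sub, h1, map_one, sub_self]
    -- (m g)^(l^n) = 1 modulo π^(n+1)
    have h3 : ∀ n : ℕ, π ^ (n + 1) ∣ (m g) ^ (l ^ n) - 1 := by
      intro n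
      induction n with
      | zero => simpa using h2
      | succ n ih =>
        obtain ⟨d, hd⟩ := ih
        have h4 : (m g) ^ (l ^ n) = 1 + π ^ (n + 1) * d := by rw [← hd]; ring
        have h8 : (m g) ^ (l ^ (n + 1)) = ((m g) ^ (l ^ n)) ^ l := by rw [pow_succ, pow_mul]
        rw [h8, h4]
        obtain ⟨c, hc⟩ := LQ1_pow (π ^ (n + 1) * d) l
        rw [hc]
        obtain ⟨e, he⟩ := D.dvd
        have h5 : (1 : 𝓞 F) + (l : 𝓞 F) * (π ^ (n + 1) * d) + (π ^ (n + 1) * d) ^ 2 * c - 1 =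
            π ^ (n + 1 + 1) * (e * d + π ^ n * d ^ 2 * c) := by
          rw [he]
          ring
        rw [h5]
        exact dvd_mul_right _ _
    have hpow : ∀ (n : ℕ) (x : Tor act (π ^ t)), ((g ^ n • x : Tor act (π ^ t)) : Pt (WAB A B) Ω) = act ((m g) ^ n) x := by
      intro n
      induction n with
      | zero =>
        intro x
        rw [pow_zero, pow_zero, one_smul, H55K.S.act_one]
      | succ n ih =>
        intro x
        rw [pow_succ', mul_smul, hmx, ih, ← act_mul, ← pow_succ']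
    refine ⟨t, Subtype.ext ?_⟩
    change g ^ l ^ t = 1
    apply hfaith
    intro x
    apply Subtype.ext
    rw [hpow]
    obtain ⟨d, hd⟩ := h3 t
    have h6 : (m g) ^ (l ^ t) = 1 + π ^ (t + 1) * d := by rw [← hd]; ring
    have h7 : π ^ (t + 1) * d = (π * d) * π ^ t := by ring
    rw [h6, h7, act_add, H55K.S.act_one, act_mul, mem_Tor.1 x.2, map_zero, add_zero]
  have hkcard : ¬ l ∣ Nat.card kˣ := by
    have h1 : Nat.card k = Nm π := H55K.k10_card q hq hk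
    rw [Nat.card_units, h1]
    have h2 : l ∣ Nm π := CO2_Nm D.hl D.pr D.dvd
    have h3 : Nm π ≠ 0 := fun h => hπ0 (H55P.Nm_eq_zero.1 h)
    intro h4
    have h5 : l ∣ Nm π - (Nm π - 1) := Nat.dvd_sub h2 h4
    have h6 : Nm π - (Nm π - 1) = 1 := by omega
    rw [h6] at h5
    exact D.hl.one_lt.ne' (Nat.dvd_one.1 h5)
  obtain ⟨Δ, P, hcard, hP, hbij⟩ := kb6_split hcomm l χ₁ hsur hker hkcard
  -- the functional
  have hex : ∀ x : Tor act (π ^ t), ∃ a : 𝓞 F, (x : Pt (WAB A B) Ω) = act a T₀ := fun x => hgen _ x.2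
  choose r hr using hex
  have hrq : ∀ (x : Tor act (π ^ t)) (a : 𝓞 F), (x : Pt (WAB A B) Ω) = act a T₀ → q (r x) = q a := fun x a ha =>
    heqq _ _ ((hr x).symm.trans ha)
  let θ : Tor act (π ^ t) →+ k := AddMonoidHom.mk' (fun x => q (r x)) (fun x y => by
    rw [← map_add]
    apply hrq
    rw [AddSubgroup.coe_add, act_add, ← hr, ← hr])
  refine ⟨hcomm, Δ, P, χ₁.comp Δ.subtype, θ, hcard, hP, hbij, fun a => ?_, fun g x => ?_⟩
  · obtain ⟨c, rfl⟩ := hq a
    exact ⟨⟨act c T₀, hcT c⟩, hrq _ c rfl⟩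
  · change q (r ((g : Γ) • x)) = q (m (g : Γ)) * q (r x)
    rw [← map_mul]
    apply hrq
    rw [hmx, act_mul, ← hr]

end alg

section main

variable {F : Type} [Field F] [NumberField F] [IQ F] {A B : F} {Om : ℂ} {Ω : Type} [Field Ω] [DecidableEq Ω]
  [Algebra F Ω] [IsAlgClosure F Ω] {j : Ω →+* ℂ} {act : 𝓞 F →+* AddMonoid.End (Pt (WAB A B) Ω)} {mo : Ideal (𝓞 F)}
  {ψ : Ideal (𝓞 F) →*₀ 𝓞 F} {π : 𝓞 F} {l t : ℕ}

/-- Inertia above π acts on Tor π through all of (𝓞 F/π)^*. -/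
theorem kb7_inert (D : Dat A B Om j act mo ψ π l) {N : IntermediateField F Ω} (hN : Nb l N) {a : 𝓞 F} (ha : ¬ π ∣ a) :
    ∃ s ∈ N.fixingSubgroup, ∀ T ∈ Tor act π, ac (WAB A B) s T = act a T := by
  have hβ := D.pr
  have hp : (Ideal.span {π}).IsPrime := (Ideal.span_singleton_prime hβ.ne_zero).2 hβ
  let v : Pl F := ⟨Ideal.span {π}, hp, by rw [Ne, Ideal.span_singleton_eq_bot]; exact hβ.ne_zero⟩
  obtain ⟨V, hV⟩ := exists_abw Ω v
  have hVβ : vo V π < 1 := (hV.lt (π : F)).2 ((v.valuation_lt_one_iff_mem π).2 (Ideal.mem_span_singleton_self π))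
  have hVl : V.valuation (l : Ω) < 1 := H55K.S.val_l D.dvd (fun V x => vo_le V x) V hVβ
  obtain ⟨T₀, hT₀, hT₀0⟩ := H55K.exists_tor D.cma D.pr
  have hl5 := D.five
  have R : ∃ e0, RB A B Om j act mo ψ π l V (tt T₀) e0 := by
    rcases dichotomy D.hl D.dta.unr D.pr D.dvd with ⟨-, hq, -⟩ | ⟨-, -, hq, -⟩
    · exact ⟨l + 1, ⟨D, hVβ, ⟨T₀, hT₀, hT₀0, rfl⟩, by
        rw [hq]
        obtain ⟨k, rfl⟩ : ∃ k, l = k + 1 := ⟨l - 1, by omega⟩
        rw [Nat.add_sub_cancel]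
        have : (k + 1) ^ 2 = (k + 1 + 1) * k + 1 := by ring
        omega⟩⟩
    · exact ⟨1, ⟨D, hVβ, ⟨T₀, hT₀, hT₀0, rfl⟩, by rw [hq, one_mul]⟩⟩
  obtain ⟨e0, R⟩ := R
  obtain ⟨s, hs, hsa⟩ := R.exists_inert ha
  exact ⟨s, hN.inert V hVl s hs, hsa⟩

/-- THE ORDER. -/
theorem mm_card (D : Dat A B Om j act mo ψ π l) (ht : 1 ≤ t) {N L : IntermediateField F Ω} [NumberField N] [NumberField L]
    (hN : Nb l N) (hL : IsTB act (π ^ t) N L) {w : HeightOneSpectrum (𝓞 N)}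
    (hfx : ∀ V : ValuationSubring Ω, Abv N V w → ∀ s, DecN N V s → ∀ T ∈ Tor act (π ^ t), ac (WAB A B) s T = T) :
    letI := algNL hL.le
    ∀ (_ : DistribMulAction Gal(L/N) (Tor act (π ^ t))),
    (∀ (g : Gal(L/N)) (s : Ω ≃ₐ[F] Ω), (∀ x : L, s (x : Ω) = ((g x : L) : Ω)) → ∀ T : Tor act (π ^ t),
      ((g • T : Tor act (π ^ t)) : Pt (WAB A B) Ω) = ac (WAB A B) s T) →
    Nat.card {c : HG Gal(L/N) (Tor act (π ^ t)) (XU L w (l ^ t)) // ∀ x, l • c.1 x = 0} ≤ Nm π ^ (Module.finrank F N + 1) →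
    Nat.card (HG Gal(L/N) (Tor act (π ^ t)) (XU L w (l ^ t))) = Nm π ^ (t * (Module.finrank F N + 1)) := by
  letI := algNL hL.le
  intro iT hact hm
  have hT : IsScalarTower F N L := IsScalarTower.of_algebraMap_eq fun x => Subtype.ext rfl
  have hT' : IsScalarTower N L Ω := IsScalarTower.of_algebraMap_eq fun x => rfl
  have hA := D.cma
  have hlF : Fact l.Prime := ⟨D.hl⟩
  have hTF := tfld_of_tb hA hL
  have hgal : IsGalois N L := hTF.gal
  have hst := stab_N hL hfx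
  obtain ⟨hc, hcard⟩ := places_card (F := F) N
  obtain ⟨Q, hQ⟩ := under_exists (L := L) w
  -- the residue field
  have hmax : (Ideal.span {π}).IsMaximal := xu_max D.pr
  have hb : Ideal.span {π} ≠ ⊥ := by
    rw [Ne, Ideal.span_singleton_eq_bot]
    exact D.pr.ne_zero
  let k := 𝓞 F ⧸ Ideal.span {π}
  letI ik : Field k := Ideal.Quotient.field (Ideal.span {π})
  have hfin : Finite k := Ideal.finiteQuotientOfFreeOfNeBot _ hb
  letI : Fintype k := Fintype.ofFinite k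
  let q : 𝓞 F →+* k := Ideal.Quotient.mk (Ideal.span {π})
  have hq : Function.Surjective q := Ideal.Quotient.mk_surjective
  have hk : ∀ x, q x = 0 ↔ π ∣ x := fun x => by
    rw [Ideal.Quotient.eq_zero_iff_mem, Ideal.mem_span_singleton]
  have hchar : CharP k l := by
    have h1 : ((l : ℕ) : k) = 0 := by
      have h2 := (hk (l : 𝓞 F)).2 D.dvd
      rw [map_natCast] at h2
      exact h2
    obtain ⟨p, hp⟩ := CharP.exists k
    have h2 : p ∣ l := (CharP.cast_eq_zero_iff k p l).1 h1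
    rcases (Nat.dvd_prime D.hl).1 h2 with h3 | h3
    · exfalso
      subst h3
      have h4 : ((1 : ℕ) : k) = 0 := (CharP.cast_eq_zero_iff k 1 1).2 (dvd_refl 1)
      rw [Nat.cast_one] at h4
      exact one_ne_zero h4
    · rw [← h3]
      exact hp
  have hkc : Nat.card k = Nm π := H55K.k10_card q hq hk
  have hk2 : 2 < Nat.card k := by
    rw [hkc]
    have := (xp_nm D).1
    omega
  have hfinT := kb6_fin (act := act) hA D.pr t
  obtain ⟨r, ⟨e⟩⟩ := kb6_e D t ht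
  obtain ⟨hcomm, Δ, P, χ, θ, h1, h2, h3, h4, h5⟩ := kb7_alg D ht q hq hk (Γ := Gal(L/N)) (fun g x y a hy => by
      obtain ⟨s, hs⟩ := exists_lft (F := F) (Ω := Ω) g
      have hs' : ∀ x : L, s (x : Ω) = ((g x : L) : Ω) := fun x => hs x
      rw [hact g s hs', hact g s hs', hy, ac_act hA]) (fun g hg => by
      obtain ⟨s, hs⟩ := exists_lft (F := F) (Ω := Ω) g
      have hs' : ∀ x : L, s (x : Ω) = ((g x : L) : Ω) := fun x => hs x
      have hfd : Fxd N s := hs.fxd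
      have hsL : s ∈ L.fixingSubgroup := (hL.fix s).2 ⟨by
        rw [IntermediateField.mem_fixingSubgroup_iff]
        exact fun y hy => hfd ⟨y, hy⟩, fun T hTm => by
        have h6 := hact g s hs' ⟨T, hTm⟩
        rw [hg] at h6
        exact h6.symm⟩
      ext x
      rw [← hs' x, (IntermediateField.mem_fixingSubgroup_iff L s).1 hsL x x.2]
      rfl) (fun a ha => by
      obtain ⟨s, hs, hsa⟩ := kb7_inert D hN ha
      obtain ⟨g, hg⟩ := exists_restr hA hL s hs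
      exact ⟨g, fun x hx => by rw [hact g s hg, hsa _ hx]⟩)
  have h6 := (kb4_card hcomm hc w Q hQ (hst Q hQ) Δ P χ h3 hk2 h1 h2 e θ h4 h5 (by
    rw [hkc, hcard]
    exact hm)).1
  rw [h6, hkc, hcard]

end main

end H13V
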