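import Mathlib
import Pool.Agent.Lib.H13V.KD
import Pool.Agent.Lib.H13V.KA4
import Pool.Agent.Lib.H13X.XLZ

/-! # H13V, module KUM, chunk KA10: local triviality outside l at level t -/

open NumberField IsDedekindDomain WeierstrassCurve

namespace H13V

open H55P (IQ embF eF LF Per IsHecke Pt ac Inert Dec Nm Coc PExt UnrP Ram RamF SelZero)
open H35P (WAB Ker tt)
open H55K (Tor ak xc yc CMA Dta GV GMod cj cj_cj mul_cj cj_prime cj_dvd cj_nat Nm_cj Nm_mul Nm_nat tor_gen Lft TFld exists_lft)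
open H55K.S
open H55R (Pl ord smulP)
open H13S (Abv)
open H13X
open H13Y (guN SU)
open H19B (DN mem_DN CS mem_CS)

variable {F : Type} [Field F] [NumberField F] [IQ F] {A B : F} {Om : ℂ} {Ω : Type} [Field Ω] [DecidableEq Ω]
  [Algebra F Ω] [IsAlgClosure F Ω] {j : Ω →+* ℂ} {act : 𝓞 F →+* AddMonoid.End (Pt (WAB A B) Ω)} {mo : Ideal (𝓞 F)}
  {ψ : Ideal (𝓞 F) →*₀ 𝓞 F} {π : 𝓞 F} {l t : ℕ} {e : Pt (WAB A B) Ω → Pt (WAB A B) Ω → Ω} {N L N' : IntermediateField F Ω}
  {c : (Ω ≃ₐ[F] Ω) → Pt (WAB A B) Ω} {V : ValuationSubring Ω}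

/-- Chunk KA10a (S). Surjectivity of φ - 1 on the points killed by powers of β. PROOF: induction on r with H13X.phi_surj for r = 1: β ^ r kills R (r + 1): act (β ^ r) R = φ P₁ - P₁, P₁ = act (β ^ r) P₂ (CMA.surj), P₂ killed by a power of β, R - (φ P₂ - P₂) is killed by β ^ r. -/
theorem phi_surj_t (hA : CMA F A B Om j act) {β : 𝓞 F} (hβ : Prime β) {φ : Ω ≃ₐ[F] Ω}
    (h : ∃ n : ℕ, ∃ T ∈ Tor act (β ^ n), ac (WAB A B) φ T ≠ T) (r : ℕ) {R : Pt (WAB A B) Ω} (hR : R ∈ Tor act (β ^ r)) :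
    ∃ n : ℕ, ∃ P ∈ Tor act (β ^ n), ac (WAB A B) φ P - P = R := by
  induction r generalizing R with
  | zero =>
    refine ⟨0, 0, zero_mem _, ?_⟩
    rw [pow_zero, mem_Tor, act_one] at hR
    rw [hR, map_zero, sub_zero]
  | succ r ih =>
    have h1 : act (β ^ r) R ∈ Tor act β := by
      rw [mem_Tor, ← act_mul, ← pow_succ']
      exact hR
    obtain ⟨n, P₁, hP₁, h2⟩ := phi_surj hA hβ h h1
    obtain ⟨P₂, rfl⟩ := hA.surj (β ^ r) (pow_ne_zero _ hβ.ne_zero) P₁
    have h3 : R - (ac (WAB A B) φ P₂ - P₂) ∈ Tor act (β ^ r) := by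
      rw [mem_Tor, map_sub, map_sub, ← h2, ac_act hA, sub_self]
    obtain ⟨m, P₃, hP₃, h4⟩ := ih h3
    refine ⟨n + r + m, P₂ + P₃, add_mem ?_ ?_, ?_⟩
    · rw [mem_Tor, pow_add, mul_comm, act_mul, pow_add, act_mul, mem_Tor.1 hP₁, map_zero]
    · rw [mem_Tor, pow_add, act_mul, mem_Tor.1 hP₃, map_zero]
    · rw [map_add, add_sub_add_comm, h4]
      abel

/-- Chunk KA10b (M). A Frobenius element moves a point killed by a power of β. PROOF: this is hmove in the proof of H13X.loc_zero (Lib/H13X/XLZ.lean), case V l = 1 (fin_move, D.dta.gmod); extract it, for β = cj π. -/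
theorem frob_move (D : Dat A B Om j act mo ψ π l) (hl : V.valuation (l : Ω) = 1) {φ : Ω ≃ₐ[F] Ω} {Q : ℕ} (hQ : 2 ≤ Q)
    (hφ : ∀ x ∈ V, V.valuation (φ x - x ^ Q) < 1) : ∃ n : ℕ, ∃ T ∈ Tor act (cj π ^ n), ac (WAB A B) φ T ≠ T := by
  have hA := D.cma
  have hπ' : Prime (cj π) := cj_prime D.pr
  have hln : ∀ (n : ℕ), ∀ P ∈ Tor act (cj π ^ n), (l ^ n) • P = 0 := by
    intro n P hP
    rw [← act_nat (act := act), Nat.cast_pow]
    obtain ⟨u, hu⟩ := pow_dvd_pow_of_dvd D.conj.dvd n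
    rw [hu, mul_comm, act_mul, mem_Tor.1 hP, map_zero]
  obtain ⟨Kg, u, hG⟩ := D.dta.gmod V
  have hnk : ∀ n : ℕ, ∀ P ∈ Tor act (cj π ^ n), P ≠ 0 → P ∉ Kg := fun n P hP h0 hK =>
    h0 (hG.tors (l ^ n) (by rw [Nat.cast_pow, map_pow, hl, one_pow]) P hK (hln n P hP))
  refine fin_move hA hπ' hQ hφ (r := V.valuation u ^ 2)
    (pow_ne_zero 2 ((map_ne_zero _).2 hG.une)) fun n P hP P' hP' h0 h0' h2 h3 => ?_
  exact hG.diff P P' (hnk n P hP h0) (hnk n P' hP' h0')
    (hnk n _ (sub_mem hP hP') (sub_ne_zero.2 h2))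
    (hnk n _ (add_mem hP hP') (fun h4 => h3 (eq_neg_of_add_eq_zero_left h4)))

/-- Chunk KA10c (M). THE LOCAL LEMMA at level t, V l = 1. PROOF (model H13X.loc_zero). CASE A: some σ in N.fixingSubgroup ∩ inertia moves a point killed by cj π. sah_t for the group D = N.fixingSubgroup ∩ inertia group of V (a subgroup: lcb_mul, lcb_inv, lcb_one), δ = σ: commutators of elements of D are in Ht (ht_comm) and inertial, so c is 0 there: c s = s X - X on D.
c' = c - (s X - X) is 0 on D; for g in N.fixingSubgroup with Dec V g and s = σ: σ g = g (g⁻¹ σ g), c' (σ g) = σ c' g, c' (g (g⁻¹ σ g)) = c' g: σ fixes c' g, so c' g = 0: with scal_t act d (c' g) - c' g = 0 and act u of it is c' g. P = X.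
CASE B: inertia over N fixes the points killed by cj π; then it fixes all points killed by powers of cj π (hfix in the proof of loc_zero, H55K.inert_fix), c is additive on D. For s in D: s ^ (Nm π - 1) fixes the points killed by π (Lagrange: s acts on the cyclic module Tor act π as a scalar a prime to π, a ^ (Nm π - 1) = 1 modulo π; H13X.lu_frob: π ∣ a ^ Nm π - a),
so all points killed by π ^ t (inert_fix for π), so all points killed by l ^ t (they are sums of a point killed by π ^ t and one killed by cj π ^ t in the split case; in the inert case nothing is to be done), hence (Nm π - 1) • c s = c (s ^ (Nm π - 1)) = 0 by h, and l ^ t • c s = 0 with l prime to Nm π - 1: c s = 0. So c = 0 on D. φ = a Frobenius element over N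
(H13X.exists_frobK), frob_move, phi_surj_t: P killed by a power of cj π with φ P - P = c φ. H13X.dec_gen for d s = c s - (s P - P) (0 on D because D fixes P, continuous): c s = s P - P for all s in N.fixingSubgroup with Dec V s. -/
theorem loc_zero_t (D : Dat A B Om j act mo ψ π l) [NumberField N] (hc : c ∈ CS N.fixingSubgroup act (cj π ^ t)) {v : Pl N} (hv : Abv N V v)
    (hl : V.valuation (l : Ω) = 1) (h : ∀ s ∈ Ht A B l t N, Inert V s → c s = 0) :
    ∃ P : Pt (WAB A B) Ω, ∀ s ∈ N.fixingSubgroup, Dec V s → c s = ac (WAB A B) s P - P := by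
  have hA := D.cma
  have hl0 : l ≠ 0 := D.hl.ne_zero
  have hπ' : Prime (cj π) := cj_prime D.pr
  have hd' : cj π ∣ (l : 𝓞 F) := D.conj.dvd
  have hm : ∀ s ∈ N.fixingSubgroup, ∀ s' ∈ N.fixingSubgroup, c (s * s') = c s + ac (WAB A B) s (c s') :=
    fun s hs s' hs' => hc.mul s hs s' hs'
  have ht : ∀ s ∈ N.fixingSubgroup, c s ∈ Tor act (cj π ^ t) := fun s hs => mem_Tor.2 (hc.tor s hs)
  by_cases hmv : ∃ σ ∈ N.fixingSubgroup, Inert V σ ∧ ∃ T ∈ Tor act (cj π), ac (WAB A B) σ T ≠ T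
  · obtain ⟨σ, hσ, hσI, hσT⟩ := hmv
    let DI : Subgroup (Ω ≃ₐ[F] Ω) :=
      { carrier := {s | s ∈ N.fixingSubgroup ∧ Inert V s}
        mul_mem' := fun h1 h2 => ⟨mul_mem h1.1 h2.1, H13X.lcb_mul h1.2 h2.2⟩
        one_mem' := ⟨one_mem _, H13X.lcb_one⟩
        inv_mem' := fun h1 => ⟨inv_mem h1.1, H13X.lcb_inv h1.2⟩ }
    have hDI : ∀ s, s ∈ DI ↔ s ∈ N.fixingSubgroup ∧ Inert V s := fun s => Iff.rfl
    obtain ⟨X, hX, hX2⟩ := sah_t hA hπ' (c := c) (t := t) (D := DI) (fun s hs s' hs' => hm s hs.1 s' hs'.1) (fun s hs => ht s hs.1)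
      (δ := σ) ⟨hσ, hσI⟩ hσT (fun s hs => by
        have h1 : σ * s * σ⁻¹ * s⁻¹ ∈ DI :=
          mul_mem (mul_mem (mul_mem ((hDI σ).2 ⟨hσ, hσI⟩) hs) (inv_mem ((hDI σ).2 ⟨hσ, hσI⟩))) (inv_mem hs)
        exact h _ (ht_comm hA hl0 hσ hs.1) h1.2)
    obtain ⟨d, u, hd1, -, hd3⟩ := scal_t hA hπ' t hσT
    refine ⟨X, fun g hg hgD => ?_⟩
    have h1 : Inert V (g⁻¹ * σ * g) := H13X.Inert.conj hσI hgD
    have h2 : g⁻¹ * σ * g ∈ N.fixingSubgroup := mul_mem (mul_mem (inv_mem hg) hσ) hg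
    have e1 : σ * g = g * (g⁻¹ * σ * g) := by group
    have e2 : c σ + ac (WAB A B) σ (c g) = c g + ac (WAB A B) g (c (g⁻¹ * σ * g)) := by
      rw [← hm σ hσ g hg, ← hm g hg _ h2, e1]
    have e3 : ac (WAB A B) σ (ac (WAB A B) g X) = ac (WAB A B) g (ac (WAB A B) (g⁻¹ * σ * g) X) := by
      rw [← ac_mul, ← ac_mul, e1]
    rw [hX2 σ ⟨hσ, hσI⟩, hX2 _ ⟨h2, h1⟩] at e2
    have e4 : ac (WAB A B) σ (c g - (ac (WAB A B) g X - X)) = c g - (ac (WAB A B) g X - X) := by
      rw [map_sub, map_sub, e3]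
      rw [map_sub] at e2
      have e5 : ac (WAB A B) σ (c g) = c g + (ac (WAB A B) g (ac (WAB A B) (g⁻¹ * σ * g) X) - ac (WAB A B) g X) -
          (ac (WAB A B) σ X - X) := by
        rw [← e2]
        abel
      rw [e5]
      abel
    have h3 : c g - (ac (WAB A B) g X - X) ∈ Tor act (cj π ^ t) := sub_mem (ht g hg) (sub_mem (ac_mem hA g hX) hX)
    have h4 := hd3 _ h3
    rw [← hd1 _ h3, e4, sub_self, map_zero] at h4
    exact sub_eq_zero.1 h4.symm
  · push Not at hmv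
    obtain ⟨Kg, u, hG⟩ := D.dta.gmod V
    have hln : ∀ (n : ℕ), ∀ P ∈ Tor act (cj π ^ n), (l ^ n) • P = 0 := by
      intro n P hP
      rw [← act_nat (act := act), Nat.cast_pow]
      obtain ⟨u, hu⟩ := pow_dvd_pow_of_dvd hd' n
      rw [hu, mul_comm, act_mul, mem_Tor.1 hP, map_zero]
    -- inertia over N fixes the points killed by the powers of l
    have hfix : ∀ s ∈ N.fixingSubgroup, Inert V s → ∀ (n : ℕ) (P : Pt (WAB A B) Ω), l ^ n • P = 0 → ac (WAB A B) s P = P := by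
      intro s hs hi n P hP
      refine H55K.inert_fix hA D.hl D.five hπ' hd' hG hl s hi (fun T hT => hmv s hs hi T hT) (l ^ n) ?_ P ?_
      · rw [Nat.cast_pow, map_pow, hl, one_pow]
      · rw [smul_sub, hP, sub_zero]
        have h2 : (l ^ n) • ac (WAB A B) s P = ac (WAB A B) s ((l ^ n) • P) := (map_nsmul _ _ _).symm
        rw [h2, hP, map_zero]
    have hc0 : ∀ s ∈ N.fixingSubgroup, Inert V s → c s = 0 := fun s hs hi =>
      h s ⟨hs, fun T hT => hfix s hs hi t T hT⟩ hi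
    obtain ⟨φ, hφK, hφD, hφF⟩ := exists_frobK N hv
    have hQ : 2 ≤ Ideal.absNorm v.asIdeal := by
      have h1 : Ideal.absNorm v.asIdeal ≠ 0 := by
        rw [Ne, Ideal.absNorm_eq_zero_iff]
        exact v.ne_bot
      have h2 : Ideal.absNorm v.asIdeal ≠ 1 := by
        rw [Ne, Ideal.absNorm_eq_one_iff]
        exact v.isPrime.ne_top
      omega
    obtain ⟨n, P, hP, hPR⟩ := phi_surj_t hA hπ' (frob_move D hl hQ hφF) t (ht φ hφK)
    refine ⟨P, fun s hs hsD => ?_⟩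
    have h0 : c s - (ac (WAB A B) s P - P) = 0 := by
      refine dec_gen (d := fun s => c s - (ac (WAB A B) s P - P)) hv (fun s hs _ s' hs' _ => ?_) ?_ (fun s hs hi => ?_)
        hφK hφD hφF ?_ hs hsD
      · show c (s * s') - (ac (WAB A B) (s * s') P - P) = _
        rw [hm s hs s' hs', ac_mul, map_sub, map_sub]
        abel
      · obtain ⟨M, hM, hM0⟩ := hc.cont
        have hf2 := lp_fin P
        refine ⟨M ⊔ IntermediateField.adjoin F {xc P, yc P}, inferInstance, fun s hs hsN _ => ?_⟩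
        rw [IntermediateField.fixingSubgroup_sup, Subgroup.mem_inf] at hsN
        show c s - (ac (WAB A B) s P - P) = 0
        rw [hM0 s hs hsN.1, lp_adj s P hsN.2, sub_self, sub_self]
      · show c s - (ac (WAB A B) s P - P) = 0
        rw [hc0 s hs hi, hfix s hs hi n P (hln n P hP), sub_self, sub_self]
      · show c φ - (ac (WAB A B) φ P - P) = 0
        rw [hPR, sub_self]
    exact sub_eq_zero.1 h0

end H13V
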