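import Mathlib
import Pool.Agent.Lib.H13V.KD
import Pool.Agent.Lib.H55K.SPA1

/-! # H13V, module KUM, chunk KA1: the determinant of the action on the points killed by π^t -/

open NumberField IsDedekindDomain WeierstrassCurve

namespace H13V

open H55P (IQ embF eF LF Per IsHecke Pt ac Inert Dec Nm Coc PExt UnrP Ram RamF SelZero)
open H35P (WAB Ker tt)
open H55K (Tor ak xc yc CMA Dta GV GMod cj cj_cj mul_cj cj_prime cj_dvd cj_nat Nm_cj Nm_mul Nm_nat tor_gen Lft TFld exists_lft)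
open H55K.S
open H55R (Pl ord smulP)
open H13S (Abv)
open H13X
open H13Y (guN SU)
open H19B (DN mem_DN CS mem_CS)

variable {F : Type} [Field F] [NumberField F] [IQ F] {A B : F} {Om : ℂ} {Ω : Type} [Field Ω] [DecidableEq Ω]
  [Algebra F Ω] [IsAlgClosure F Ω] {j : Ω →+* ℂ} {act : 𝓞 F →+* AddMonoid.End (Pt (WAB A B) Ω)} {mo : Ideal (𝓞 F)}
  {ψ : Ideal (𝓞 F) →*₀ 𝓞 F} {π : 𝓞 F} {l t : ℕ} {e : Pt (WAB A B) Ω → Pt (WAB A B) Ω → Ω} {N L N' : IntermediateField F Ω}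
  {c : (Ω ≃ₐ[F] Ω) → Pt (WAB A B) Ω} {V : ValuationSubring Ω}

omit [NumberField F] [IQ F] [DecidableEq Ω] [IsAlgClosure F Ω] [Algebra F Ω] [Field F] in
theorem ka1_root {n : ℕ} {ξ : Ω} (h1 : ξ ^ n = 1) (hn : V.valuation (n : Ω) = 1) (h : V.valuation (ξ - 1) < 1) : ξ = 1 := by
  by_contra hne
  have h2 : (∑ i ∈ Finset.range n, ξ ^ i) * (ξ - 1) = 0 := by
    rw [geom_sum_mul, h1, sub_self]
  have h3 : ∑ i ∈ Finset.range n, ξ ^ i = 0 := (mul_eq_zero.1 h2).resolve_right (sub_ne_zero.2 hne)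
  have hξ : V.valuation ξ = 1 := by
    have h4 : V.valuation ((ξ - 1) + 1) = V.valuation (1 : Ω) :=
      V.valuation.map_add_eq_of_lt_right (x := ξ - 1) (y := 1) (by rw [V.valuation.map_one]; exact h)
    rw [sub_add_cancel, map_one] at h4
    exact h4
  have h5 : ∀ i : ℕ, V.valuation (ξ ^ i - 1) < 1 := by
    intro i
    induction i with
    | zero =>
      rw [pow_zero, sub_self, map_zero]
      exact zero_lt_one
    | succ i ih =>
      have h6 : ξ ^ (i + 1) - 1 = ξ ^ i * (ξ - 1) + (ξ ^ i - 1) := by ring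
      rw [h6]
      refine lt_of_le_of_lt (Valuation.map_add _ _ _) (max_lt ?_ ih)
      rw [map_mul, map_pow, hξ, one_pow, one_mul]
      exact h
  have h6 : V.valuation (∑ i ∈ Finset.range n, (ξ ^ i - 1)) < 1 :=
    Valuation.map_sum_lt _ one_ne_zero fun i _ => h5 i
  rw [Finset.sum_sub_distrib, h3, zero_sub, Valuation.map_neg, Finset.sum_const, Finset.card_range, nsmul_eq_mul, mul_one, hn] at h6
  exact lt_irrefl _ h6

omit [NumberField F] [IQ F] [DecidableEq Ω] [IsAlgClosure F Ω] in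
/-- Roots of unity at a Frobenius element. -/
theorem ka1_zeta (n : ℕ) (hn : n ≠ 0) (ζ : Ω) (hζ : IsPrimitiveRoot ζ n) (V : ValuationSubring Ω)
    (hV : V.valuation (n : Ω) = 1) (q : ℕ) (s : Ω ≃ₐ[F] Ω)
    (hs : ∀ x ∈ V, V.valuation (s x - x ^ q) < 1) : s ζ = ζ ^ q := by
  have hz1 : V.valuation ζ = 1 := by
    have h1 : V.valuation ζ ^ n = 1 := by rw [← map_pow, hζ.pow_eq_one, map_one]
    exact (pow_eq_one_iff_of_nonneg zero_le hn).1 h1
  have hzV : ζ ∈ V := (V.valuation_le_one_iff ζ).1 hz1.le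
  have hz0 : ζ ^ q ≠ 0 := pow_ne_zero _ (hζ.ne_zero hn)
  have hξl : (s ζ / ζ ^ q) ^ n = 1 := by
    rw [div_pow, ← map_pow, hζ.pow_eq_one, map_one, ← pow_mul, mul_comm, pow_mul, hζ.pow_eq_one,
      one_pow, div_one]
  have hξv : V.valuation (s ζ / ζ ^ q - 1) < 1 := by
    have h1 : s ζ / ζ ^ q - 1 = (s ζ - ζ ^ q) / ζ ^ q := by
      field_simp
    rw [h1, map_div₀, map_pow, hz1, one_pow, div_one]
    exact hs ζ hzV
  exact (div_eq_one_iff_eq hz0).1 (ka1_root hξl hV hξv)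

/-- Chunk KA1 (M). PROOF: port of H55K.S.char_id (file Lib/H55K/SPA1.lean; copy it) from level 1 to level t: π, cj π, l are replaced by π ^ t, cj π ^ t, l ^ t. The places where primality was used are
PA1_gen (now the hypotheses hg, hz, hg', hz'), PA1_zeta (the argument works for a primitive n-th root of unity for every n with V n = 1: state and prove this form first: ξ ≠ 1, ξ ^ n = 1, the value of ξ - 1 is less than 1, geom_sum_mul; or take the prime-free version of the proof word for word with n for l), hd (π ^ t divides (l : 𝓞 F) ^ t: pow_dvd_pow_of_dvd),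
and dta.frob with n = l ^ t (V (l ^ t) = 1 since V l = 1). cj (π ^ t) = cj π ^ t is map_pow. mul_cj: cj γ * γ = Nm γ. The exceptional set of primes is the same. -/
theorem char_t (dta : Dta A B Om j act mo ψ l) (hπ : Prime π) (hd : π ∣ (l : 𝓞 F)) (t : ℕ)
    (ζ : Ω) (hζ : IsPrimitiveRoot ζ (l ^ t)) (s : Ω ≃ₐ[F] Ω) (a b : 𝓞 F) (c : ℕ) (T₀ T₀' : Pt (WAB A B) Ω)
    (hT : T₀ ∈ Tor act (π ^ t)) (hg : ∀ T ∈ Tor act (π ^ t), ∃ x : 𝓞 F, T = act x T₀) (hz : ∀ x : 𝓞 F, act x T₀ = 0 ↔ π ^ t ∣ x)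
    (hT' : T₀' ∈ Tor act (cj π ^ t)) (hg' : ∀ T ∈ Tor act (cj π ^ t), ∃ x : 𝓞 F, T = act x T₀')
    (hz' : ∀ x : 𝓞 F, act x T₀' = 0 ↔ cj π ^ t ∣ x)
    (ha : ac (WAB A B) s T₀ = act a T₀) (hb : ac (WAB A B) s T₀' = act b T₀') (hc : s ζ = ζ ^ c) :
    π ^ t ∣ cj b * a - (c : 𝓞 F) := by
  classical
  have hA := dta.cma
  have hl := dta.prime
  have hn0 : l ^ t ≠ 0 := pow_ne_zero _ hl.ne_zero
  have hl0 : NeZero (l ^ t) := ⟨hn0⟩
  have hac : IsAlgClosed Ω := IsAlgClosure.isAlgClosed F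
  have halg : Algebra.IsAlgebraic F Ω := IsAlgClosure.isAlgebraic
  have hπ' : Prime (cj π) := cj_prime hπ
  have hd' : cj π ∣ (l : 𝓞 F) := by
    rw [cj_dvd, cj_nat]
    exact hd
  have hdt : π ^ t ∣ (l : 𝓞 F) ^ t := pow_dvd_pow_of_dvd hd t
  have hdt' : cj π ^ t ∣ (l : 𝓞 F) ^ t := pow_dvd_pow_of_dvd hd' t
  rcases Nat.eq_zero_or_pos t with ht0 | ht0
  · rw [ht0, pow_zero]
    exact one_dvd _
  have hT0 : T₀ ≠ 0 := by
    intro h
    have h1 : act 1 T₀ = 0 := by rw [h, map_zero]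
    exact hπ.not_isUnit (isUnit_of_dvd_one ((dvd_pow_self π ht0.ne').trans ((hz 1).1 h1)))
  have hT0' : T₀' ≠ 0 := by
    intro h
    have h1 : act 1 T₀' = 0 := by rw [h, map_zero]
    exact hπ'.not_isUnit (isUnit_of_dvd_one ((dvd_pow_self (cj π) ht0.ne').trans ((hz' 1).1 h1)))
  have hex : ∀ τ : Ω ≃ₐ[F] Ω, ∃ p : 𝓞 F × 𝓞 F × ℕ, ac (WAB A B) τ T₀ = act p.1 T₀ ∧
      ac (WAB A B) τ T₀' = act p.2.1 T₀' ∧ τ ζ = ζ ^ p.2.2 := by
    intro τ
    obtain ⟨x, hx⟩ := hg _ (ac_mem hA τ hT)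
    obtain ⟨y, hy⟩ := hg' _ (ac_mem hA τ hT')
    have h1 : (τ ζ) ^ l ^ t = 1 := by rw [← map_pow, hζ.pow_eq_one, map_one]
    obtain ⟨i, _, hi⟩ := hζ.eq_pow_of_pow_eq_one h1
    exact ⟨⟨x, y, i⟩, hx, hy, hi.symm⟩
  choose p hp using hex
  let mk : 𝓞 F →+* 𝓞 F ⧸ Ideal.span {π ^ t} := Ideal.Quotient.mk (Ideal.span {π ^ t})
  have hmk : ∀ x y : 𝓞 F, mk x = mk y ↔ π ^ t ∣ x - y := by
    intro x y
    rw [← Ideal.mem_span_singleton]
    exact Ideal.Quotient.mk_eq_mk_iff_sub_mem _ _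
  have uniq1 : ∀ (τ : Ω ≃ₐ[F] Ω) (x y : 𝓞 F), ac (WAB A B) τ T₀ = act x T₀ → ac (WAB A B) τ T₀' = act y T₀' →
      mk (cj y * x) = mk (cj (p τ).2.1 * (p τ).1) := by
    intro τ x y hx hy
    have h1 : π ^ t ∣ x - (p τ).1 := by
      rw [← hz, act_sub, ← hx, ← (hp τ).1, sub_self]
    have h2 : π ^ t ∣ cj y - cj (p τ).2.1 := by
      have h3 : cj π ^ t ∣ y - (p τ).2.1 := by
        rw [← hz', act_sub, ← hy, ← (hp τ).2.1, sub_self]
      rw [← map_sub, ← cj_dvd, map_pow]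
      exact h3
    rw [map_mul mk, map_mul mk, (hmk _ _).2 h1, (hmk _ _).2 h2]
  have uniq2 : ∀ (τ : Ω ≃ₐ[F] Ω) (n : ℕ), τ ζ = ζ ^ n → mk (n : 𝓞 F) = mk ((p τ).2.2 : 𝓞 F) := by
    intro τ n hn
    have h1 : ζ ^ n = ζ ^ (p τ).2.2 := by rw [← hn, (hp τ).2.2]
    have h2 : n ≡ (p τ).2.2 [MOD l ^ t] := by
      rw [← pow_mod_orderOf, ← pow_mod_orderOf ζ (p τ).2.2, ← hζ.eq_orderOf] at h1
      exact hζ.pow_inj (Nat.mod_lt _ (Nat.pos_of_ne_zero hn0)) (Nat.mod_lt _ (Nat.pos_of_ne_zero hn0)) h1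
    rw [hmk]
    have h4 : ((l ^ t : ℕ) : ℤ) ∣ ((n : ℤ) - ((p τ).2.2 : ℤ)) := (Nat.modEq_iff_dvd.1 h2.symm)
    obtain ⟨m, hm⟩ := h4
    have h6 : (n : 𝓞 F) - ((p τ).2.2 : 𝓞 F) = (l : 𝓞 F) ^ t * (m : 𝓞 F) := by
      exact_mod_cast congrArg (fun z : ℤ => (z : 𝓞 F)) hm
    rw [h6]
    exact dvd_mul_of_dvd_left hdt _
  let D : (Ω ≃ₐ[F] Ω) →* (𝓞 F ⧸ Ideal.span {π ^ t}) :=
    { toFun := fun τ => mk (cj (p τ).2.1 * (p τ).1)
      map_one' := by
        rw [← uniq1 1 1 1 (by rw [ac_one, act_one]) (by rw [ac_one, act_one])]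
        simp
      map_mul' := fun τ u => by
        rw [← uniq1 (τ * u) ((p u).1 * (p τ).1) ((p u).2.1 * (p τ).2.1)
          (by rw [ac_mul, (hp u).1, ac_act hA, (hp τ).1, ← act_mul])
          (by rw [ac_mul, (hp u).2.1, ac_act hA, (hp τ).2.1, ← act_mul]), ← map_mul, map_mul cj]
        congr 1
        ring }
  let C : (Ω ≃ₐ[F] Ω) →* (𝓞 F ⧸ Ideal.span {π ^ t}) :=
    { toFun := fun τ => mk ((p τ).2.2 : 𝓞 F)
      map_one' := by
        rw [← uniq2 1 1 (by rw [pow_one]; rfl)]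
        simp
      map_mul' := fun τ u => by
        rw [← uniq2 (τ * u) ((p τ).2.2 * (p u).2.2) (by
          rw [AlgEquiv.mul_apply, (hp u).2.2, map_pow, (hp τ).2.2, pow_mul]), ← map_mul]
        congr 1
        push_cast
        rfl }
  have hH : ∀ (τ : Ω ≃ₐ[F] Ω) (x y : 𝓞 F) (n : ℕ), ac (WAB A B) τ T₀ = act x T₀ → ac (WAB A B) τ T₀' = act y T₀' →
      τ ζ = ζ ^ n → (τ ∈ MonoidHom.eqLocus D C ↔ π ^ t ∣ cj y * x - (n : 𝓞 F)) := by
    intro τ x y n hx hy hn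
    rw [← hmk, uniq1 τ x y hx hy, uniq2 τ n hn]
    exact Iff.rfl
  have key : MonoidHom.eqLocus D C = ⊤ := by
    have hint : ∀ x : Ω, IsIntegral F x := fun x => (Algebra.IsAlgebraic.isAlgebraic x).isIntegral
    let A₁ : Set Ω := {xc T₀, yc T₀, xc T₀', yc T₀', ζ}
    have hAf : A₁.Finite := Set.toFinite A₁
    have hAf' : Finite A₁ := hAf
    have hLf : FiniteDimensional F (IntermediateField.adjoin F A₁) :=
      IntermediateField.finiteDimensional_adjoin fun x _ => hint x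
    obtain ⟨S₀, hS₀, hfr⟩ := dta.frob
    refine H13S.PA1_top (F₀ := F) (MonoidHom.eqLocus D C) ?_ (IntermediateField.adjoin F A₁) ?_
      (S₀ ∪ {v | (l : 𝓞 F) ∈ v.asIdeal} ∪ {v | mo ≤ v.asIdeal}) ?_ ?_
    · constructor
      intro τ ht g
      show D (g * τ * g⁻¹) = C (g * τ * g⁻¹)
      have h1 : D τ = C τ := ht
      rw [map_mul, map_mul, map_mul, map_mul, mul_right_comm, mul_right_comm (C g), h1, ← map_mul,
        ← map_mul, mul_inv_cancel, map_one, map_one]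
    · intro τ ht
      have hfix : ∀ x ∈ A₁, τ x = x := fun x hx =>
        ht ⟨x, IntermediateField.subset_adjoin F A₁ hx⟩
      have hacne : ∀ P : Pt (WAB A B) Ω, P ≠ 0 → ac (WAB A B) τ P ≠ 0 := fun P hP => ac_ne τ hP
      have e1 : ac (WAB A B) τ T₀ = act 1 T₀ := by
        rw [act_one]
        refine pt_ext (hacne _ hT0) hT0 ?_ ?_
        · rw [xc_ac]
          exact hfix _ (by simp [A₁])
        · rw [yc_ac]
          exact hfix _ (by simp [A₁])
      have e2 : ac (WAB A B) τ T₀' = act 1 T₀' := by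
        rw [act_one]
        refine pt_ext (hacne _ hT0') hT0' ?_ ?_
        · rw [xc_ac]
          exact hfix _ (by simp [A₁])
        · rw [yc_ac]
          exact hfix _ (by simp [A₁])
      rw [hH τ 1 1 1 e1 e2 (by rw [pow_one]; exact hfix _ (by simp [A₁]))]
      simp
    · have hf : ∀ n : ℕ, n ≠ 0 → {v : HeightOneSpectrum (𝓞 F) | (n : 𝓞 F) ∈ v.asIdeal}.Finite := by
        intro n hn
        have h1 : Ideal.span {(n : 𝓞 F)} ≠ 0 := by
          rw [Ideal.zero_eq_bot, Ne, Ideal.span_singleton_eq_bot]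
          exact Nat.cast_ne_zero.2 hn
        refine (Ideal.finite_factors h1).subset ?_
        intro v hv
        exact Ideal.dvd_span_singleton.2 hv
      have hm : {v : HeightOneSpectrum (𝓞 F) | mo ≤ v.asIdeal}.Finite := by
        refine (Ideal.finite_factors dta.hecke.ne).subset ?_
        intro v hv
        exact Ideal.dvd_iff_le.2 hv
      exact (hS₀.union (hf l hl.ne_zero)).union hm
    · intro v hv hq V hV τ ht
      rw [Set.mem_union, Set.mem_union, not_or, not_or] at hv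
      obtain ⟨⟨hvS, hvl⟩, hvm⟩ := hv
      change (l : 𝓞 F) ∉ v.asIdeal at hvl
      change ¬ mo ≤ v.asIdeal at hvm
      have hcop : IsCoprime v.asIdeal mo := by
        rw [Ideal.isCoprime_iff_sup_eq]
        exact v.isMaximal.1.2 _ (left_lt_sup.2 hvm)
      have hspan := dta.hecke.gen v.asIdeal hcop
      have hNm : Nm (ψ v.asIdeal) = Ideal.absNorm v.asIdeal := by
        unfold Nm
        rw [hspan]
      have hVl : ¬ V.valuation (l : Ω) < 1 := by
        intro hlt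
        have h1 : Ideal.span {(l : 𝓞 F)} ⊔ v.asIdeal = ⊤ := by
          rw [sup_comm]
          refine v.isMaximal.1.2 _ (left_lt_sup.2 fun h => hvl (h (Ideal.mem_span_singleton_self _)))
        have h2 : (1 : 𝓞 F) ∈ Ideal.span {(l : 𝓞 F)} ⊔ v.asIdeal := by
          rw [h1]
          exact Submodule.mem_top
        obtain ⟨x, hx, y, hy, hxy⟩ := Submodule.mem_sup.1 h2
        obtain ⟨z, rfl⟩ := Ideal.mem_span_singleton.1 hx
        have h3 : vo V ((l : 𝓞 F) * z) < 1 := by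
          rw [vo_mul, vo_nat]
          exact lt_of_le_of_lt (mul_le_of_le_one_right' (vo_le V z)) hlt
        have h4 := vo_add V h3 (hV y hy)
        rw [hxy, vo_one] at h4
        exact lt_irrefl _ h4
      have hV1 : V.valuation (l : Ω) = 1 := by
        refine le_antisymm ?_ (not_lt.1 hVl)
        rw [← vo_nat (F := F)]
        exact vo_le V _
      have hVt : V.valuation ((l ^ t : ℕ) : Ω) = 1 := by
        rw [Nat.cast_pow, map_pow, hV1, one_pow]
      have hk : ∀ T : Pt (WAB A B) Ω, ∀ b : 𝓞 F, b ∣ (l : 𝓞 F) ^ t → T ∈ Tor act b → l ^ t • T = 0 := by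
        rintro T b ⟨x, hx⟩ hT
        rw [← act_nat (act := act), Nat.cast_pow, hx, mul_comm, act_mul, mem_Tor.1 hT, map_zero]
      have f1 := hfr v hvS hq V hV τ ht (l ^ t) hVt T₀ (hk T₀ _ hdt hT)
      have f2 := hfr v hvS hq V hV τ ht (l ^ t) hVt T₀' (hk T₀' _ hdt' hT')
      have f3 := ka1_zeta (l ^ t) hn0 ζ hζ V hVt _ τ ht
      rw [hH τ _ _ _ f1 f2 f3, mul_comm, mul_cj, hNm, sub_self]
      exact dvd_zero _
  have h1 : s ∈ MonoidHom.eqLocus D C := by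
    rw [key]
    exact Subgroup.mem_top s
  exact (hH s a b c ha hb hc).1 h1

end H13V
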