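import Mathlib
import Pool.Agent.Lib.H13V.KA1
import Pool.Agent.Lib.H55K.SPA2
import Pool.Agent.Lib.SSN.A0
import Pool.Agent.Lib.H13T.TA

/-! # H13V, module KUM, chunk KA2: the pairing of level t -/

open NumberField IsDedekindDomain WeierstrassCurve

namespace H13V

open H55P (IQ embF eF LF Per IsHecke Pt ac Inert Dec Nm Coc PExt UnrP Ram RamF SelZero)
open H35P (WAB Ker tt)
open H55K (Tor ak xc yc CMA Dta GV GMod cj cj_cj mul_cj cj_prime cj_dvd cj_nat Nm_cj Nm_mul Nm_nat tor_gen Lft TFld exists_lft)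
open H55K.S
open H55R (Pl ord smulP)
open H13S (Abv)
open H13X
open H13Y (guN SU)
open H19B (DN mem_DN CS mem_CS)

variable {F : Type} [Field F] [NumberField F] [IQ F] {A B : F} {Om : ℂ} {Ω : Type} [Field Ω] [DecidableEq Ω]
  [Algebra F Ω] [IsAlgClosure F Ω] {j : Ω →+* ℂ} {act : 𝓞 F →+* AddMonoid.End (Pt (WAB A B) Ω)} {mo : Ideal (𝓞 F)}
  {ψ : Ideal (𝓞 F) →*₀ 𝓞 F} {π : 𝓞 F} {l t : ℕ} {e : Pt (WAB A B) Ω → Pt (WAB A B) Ω → Ω} {N L N' : IntermediateField F Ω}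
  {c : (Ω ≃ₐ[F] Ω) → Pt (WAB A B) Ω} {V : ValuationSubring Ω}

theorem ka2_lift {l : ℕ} (hl : l.Prime) (t : ℕ) : ∃ f : ZMod l →+ ZMod (l ^ (t + 1)), Function.Injective f := by
  have : NeZero l := ⟨hl.ne_zero⟩
  let f : ZMod l →+ ZMod (l ^ (t + 1)) := ZMod.lift l ⟨zmultiplesHom _ ((l ^ t : ℕ) : ZMod (l ^ (t + 1))), by
    rw [zmultiplesHom_apply, natCast_zsmul, nsmul_eq_mul, ← Nat.cast_mul, ← pow_succ', ZMod.natCast_self]⟩
  have hf : ∀ n : ℕ, f (n : ZMod l) = ((n * l ^ t : ℕ) : ZMod (l ^ (t + 1))) := fun n => by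
    have h := ZMod.lift_coe l (⟨zmultiplesHom _ ((l ^ t : ℕ) : ZMod (l ^ (t + 1))), by
      rw [zmultiplesHom_apply, natCast_zsmul, nsmul_eq_mul, ← Nat.cast_mul, ← pow_succ', ZMod.natCast_self]⟩ :
      {f : ℤ →+ ZMod (l ^ (t + 1)) // f l = 0}) (n : ℤ)
    rw [Int.cast_natCast] at h
    refine h.trans ?_
    rw [zmultiplesHom_apply, natCast_zsmul, nsmul_eq_mul, Nat.cast_mul]
  refine ⟨f, (injective_iff_map_eq_zero f).2 fun x hx => ?_⟩
  rw [← ZMod.natCast_zmod_val x, hf, ZMod.natCast_eq_zero_iff, pow_succ'] at hx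
  have h1 := Nat.dvd_of_mul_dvd_mul_right (pow_pos hl.pos t) hx
  rw [← ZMod.natCast_zmod_val x]
  exact (ZMod.natCast_eq_zero_iff _ _).2 h1

/-- Chunk KA2a (S/M). An additive form on 𝓞 F modulo π^t which is nondegenerate. PROOF. H13X.dichotomy: either π is associated to cj π and to l (inert case), or π * cj π = l, Nm π = l, π and cj π coprime (split case). 𝓞 F has a ℤ-basis 1, ω (IQ F: see H55P or H55K for the basis; or RingOfIntegers.basis with
finrank ℤ = 2 and a primitive element). SPLIT: 𝓞 F ⧸ (π^t) has Nm (π^t) = l^t elements and characteristic l^t (an integer n is divisible by π^t iff l^t divides n: cj π^t divides n as well and the two are coprime), so ZMod (l^t) → 𝓞 F ⧸ (π^t) is bijective; ρ = its inverse composed with the projection.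
INERT: ρ (x + y ω) = y modulo l^t; if ρ (a b) = 0 for all b (b = 1, ω) with a = x + y ω then y = 0 and x = 0 modulo l^t, so l^t divides a, and π^t divides a. -/
theorem form_t (hl : l.Prime) (unr : ∀ v : HeightOneSpectrum (𝓞 F), (l : 𝓞 F) ∉ v.asIdeal ^ 2) (hπ : Prime π) (hd : π ∣ (l : 𝓞 F)) (t : ℕ) :
    ∃ ρ : 𝓞 F →+ ZMod (l ^ t), (∀ x, π ^ t ∣ x → ρ x = 0) ∧ ∀ a : 𝓞 F, (∀ b : 𝓞 F, ρ (a * b) = 0) → π ^ t ∣ a := by
  classical
  rcases Nat.eq_zero_or_pos t with rfl | ht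
  · exact ⟨0, fun _ _ => rfl, fun a _ => by rw [pow_zero]; exact one_dvd a⟩
  obtain ⟨t, rfl⟩ := Nat.exists_eq_succ_of_ne_zero ht.ne'
  have hπ0 := hπ.ne_zero
  let M := 𝓞 F ⧸ Ideal.span {π ^ (t + 1)}
  have hMf : Finite M := by
    refine Ideal.finiteQuotientOfFreeOfNeBot _ ?_
    rw [Ne, Ideal.span_singleton_eq_bot]
    exact pow_ne_zero _ hπ0
  have : NeZero (l ^ (t + 1)) := ⟨pow_ne_zero _ hl.ne_zero⟩
  have hM : ∀ b : M, (l ^ (t + 1)) • b = 0 := by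
    intro b
    rw [nsmul_eq_mul]
    have h1 : ((l ^ (t + 1) : ℕ) : M) = Ideal.Quotient.mk (Ideal.span {π ^ (t + 1)}) ((l : 𝓞 F) ^ (t + 1)) := by
      rw [map_pow, map_natCast, Nat.cast_pow]
    rw [h1, Ideal.Quotient.eq_zero_iff_mem.2 (Ideal.mem_span_singleton.2 (pow_dvd_pow_of_dvd hd _)), zero_mul]
  have hq : Ideal.span {π} ≤ Submodule.comap (LinearMap.mulLeft (𝓞 F) (π ^ t)) (Ideal.span {π ^ (t + 1)}) := by
    intro x hx
    rw [Ideal.mem_span_singleton] at hx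
    rw [Submodule.mem_comap, LinearMap.mulLeft_apply]
    refine Ideal.mem_span_singleton.2 ?_
    rw [pow_succ]
    exact mul_dvd_mul_left _ hx
  let i : (𝓞 F ⧸ Ideal.span {π}) →+ M := (Submodule.mapQ (Ideal.span {π}) (Ideal.span {π ^ (t + 1)}) (LinearMap.mulLeft (𝓞 F) (π ^ t)) hq).toAddMonoidHom
  have hi : ∀ x : 𝓞 F, i (Ideal.Quotient.mk _ x) = Ideal.Quotient.mk _ (π ^ t * x) := fun x => rfl
  have hinj : Function.Injective i := by
    refine (injective_iff_map_eq_zero i).2 fun y hy => ?_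
    obtain ⟨x, rfl⟩ := Ideal.Quotient.mk_surjective y
    rw [hi, Ideal.Quotient.eq_zero_iff_mem, Ideal.mem_span_singleton, pow_succ] at hy
    exact Ideal.Quotient.eq_zero_iff_mem.2 (Ideal.mem_span_singleton.2 ((mul_dvd_mul_iff_left (pow_ne_zero _ hπ0)).1 hy))
  obtain ⟨ρ₀, hρ₀⟩ := PA2_rho π l hl hπ hd
  obtain ⟨f, hf⟩ := ka2_lift hl t
  let E := AddMonoidHom.ofInjective hinj
  obtain ⟨g, hg⟩ := H13T.ta_ext (l ^ (t + 1)) hM i.range ((f.comp ρ₀).comp E.symm.toAddMonoidHom)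
  have hg1 : g (Ideal.Quotient.mk _ (π ^ t)) ≠ 0 := by
    have h1 := hg (E 1)
    have h2 : ((E 1 : i.range) : M) = Ideal.Quotient.mk _ (π ^ t) := by
      have h3 := hi 1
      rw [map_one, mul_one] at h3
      exact h3
    rw [h2] at h1
    rw [h1]
    show f (ρ₀ (E.symm (E 1))) ≠ 0
    rw [AddEquiv.symm_apply_apply]
    exact fun h => hρ₀ ((injective_iff_map_eq_zero f).1 hf _ h)
  refine ⟨g.comp (Ideal.Quotient.mk (Ideal.span {π ^ (t + 1)})).toAddMonoidHom, fun x hx => ?_, fun a ha => ?_⟩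
  · show g (Ideal.Quotient.mk _ x) = 0
    rw [Ideal.Quotient.eq_zero_iff_mem.2 (Ideal.mem_span_singleton.2 hx), map_zero]
  · by_contra hcon
    have ha0 : a ≠ 0 := fun h => hcon (h ▸ dvd_zero _)
    obtain ⟨k, u, hu, hau⟩ := WfDvdMonoid.max_power_factor ha0 hπ.irreducible
    have hk : k ≤ t := by
      by_contra hkt
      exact hcon (hau ▸ dvd_mul_of_dvd_left (pow_dvd_pow _ (by omega)) _)
    obtain ⟨x, y, hxy⟩ : IsCoprime π u := (hπ.irreducible.coprime_iff_not_dvd).2 hu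
    have h1 := ha (π ^ (t - k) * y)
    have h2 : a * (π ^ (t - k) * y) = π ^ t - π ^ (t + 1) * x := by
      have h3 : π ^ t = π ^ k * π ^ (t - k) := by rw [← pow_add]; congr 1; omega
      rw [hau, pow_succ, h3]
      linear_combination (π ^ k * π ^ (t - k)) * hxy
    rw [h2] at h1
    change g (Ideal.Quotient.mk _ (π ^ t - π ^ (t + 1) * x)) = 0 at h1
    rw [map_sub, Ideal.Quotient.eq_zero_iff_mem.2 (Ideal.mem_span_singleton.2 (Dvd.intro _ rfl : π ^ (t + 1) ∣ π ^ (t + 1) * x)), sub_zero] at h1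
    exact hg1 h1

/-- Chunk KA2b (M). PROOF: port of SSN.exists_pairing2 (file Lib/SSN/A0.lean; copy it; the clause adj is there) to level t, with form_t in the place of PA2_rho, char_t in the place of char_id, generators T₀, T₀' of Tor act (π ^ t), Tor act (cj π ^ t) from hA.gen (CMA.gen, for π ^ t and cj π ^ t, both not 0), ζ a primitive root of unity of order l ^ t,
e (act a T₀') (act b T₀) = ζ ^ (ρ (cj a * b)).val. Well defined: a modulo cj π ^ t, b modulo π ^ t. nondeg: if ρ (cj a * b) = 0 for all b then π ^ t ∣ cj a (form_t), so cj π ^ t ∣ a. -/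
theorem exists_pt (dta : Dta A B Om j act mo ψ l) (hπ : Prime π) (hd : π ∣ (l : 𝓞 F)) (t : ℕ) :
    ∃ e : Pt (WAB A B) Ω → Pt (WAB A B) Ω → Ω, PT A B act π l t e := by
  classical
  have hA := dta.cma
  have hl := dta.prime
  have : NeZero l := ⟨hl.ne_zero⟩
  have : NeZero (l ^ t) := ⟨pow_ne_zero _ hl.ne_zero⟩
  have hΩ : IsAlgClosed Ω := IsAlgClosure.isAlgClosed F
  have hc0 : CharZero Ω := charZero_of_injective_algebraMap (algebraMap F Ω).injective
  obtain ⟨ζ, hζ⟩ := HasEnoughRootsOfUnity.exists_primitiveRoot Ω (l ^ t)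
  obtain ⟨T₀, hT₀, hgen, hz, -⟩ := hA.gen (π ^ t) (pow_ne_zero _ hπ.ne_zero)
  obtain ⟨T₀', hT₀', hgen', hz', -⟩ := hA.gen (cj π ^ t) (pow_ne_zero _ (cj_prime hπ).ne_zero)
  obtain ⟨ρ, hρ0, hρ⟩ := form_t hl dta.unr hπ hd t
  have hcd : ∀ x : 𝓞 F, cj π ^ t ∣ x ↔ π ^ t ∣ cj x := fun x => by
    rw [← map_pow, cj_dvd]
  -- the character
  set Z : ZMod (l ^ t) → Ω := fun z => ζ ^ z.val with hZ
  have Z_nat : ∀ n : ℕ, Z (n : ZMod (l ^ t)) = ζ ^ n := by
    intro n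
    show ζ ^ (n : ZMod (l ^ t)).val = ζ ^ n
    rw [ZMod.val_natCast]
    conv_rhs => rw [← Nat.mod_add_div n (l ^ t), pow_add, pow_mul, hζ.pow_eq_one, one_pow, mul_one]
  have Z_add : ∀ x y : ZMod (l ^ t), Z (x + y) = Z x * Z y := by
    intro x y
    have h1 : x + y = ((x.val + y.val : ℕ) : ZMod (l ^ t)) := by
      rw [Nat.cast_add, ZMod.natCast_zmod_val, ZMod.natCast_zmod_val]
    rw [h1, Z_nat, pow_add]
  have Z_root : ∀ x : ZMod (l ^ t), Z x ^ l ^ t = 1 := by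
    intro x
    show (ζ ^ x.val) ^ l ^ t = 1
    rw [← pow_mul, mul_comm, pow_mul, hζ.pow_eq_one, one_pow]
  have Z_one : ∀ x : ZMod (l ^ t), Z x = 1 → x = 0 := by
    intro x hx
    have h1 : l ^ t ∣ x.val := (hζ.pow_eq_one_iff_dvd _).1 hx
    have h2 : x.val < l ^ t := ZMod.val_lt x
    have h4 : x.val = 0 := Nat.eq_zero_of_dvd_of_lt h1 h2
    exact (ZMod.val_eq_zero x).1 h4
  have Z_cmul : ∀ (c : ℕ) (x : ZMod (l ^ t)), Z ((c : ZMod (l ^ t)) * x) = Z x ^ c := by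
    intro c x
    have h1 : (c : ZMod (l ^ t)) * x = ((c * x.val : ℕ) : ZMod (l ^ t)) := by
      rw [Nat.cast_mul, ZMod.natCast_zmod_val]
    rw [h1, Z_nat]
    show _ = (ζ ^ x.val) ^ c
    rw [← pow_mul, mul_comm]
  have hmk : ∀ x y : 𝓞 F, π ^ t ∣ x - y → ρ x = ρ y := by
    intro x y h
    rw [← sub_eq_zero, ← map_sub]
    exact hρ0 _ h
  have hact : ∀ a b : 𝓞 F, act a T₀ = act b T₀ → π ^ t ∣ a - b := by
    intro a b h
    rw [← hz, act_sub, h, sub_self]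
  have hact' : ∀ a b : 𝓞 F, act a T₀' = act b T₀' → π ^ t ∣ cj a - cj b := by
    intro a b h
    rw [← map_sub, ← hcd, ← hz', act_sub, h, sub_self]
  let e : Pt (WAB A B) Ω → Pt (WAB A B) Ω → Ω := fun X T =>
    if h : ∃ a b : 𝓞 F, X = act a T₀' ∧ T = act b T₀ then
      Z (ρ (cj h.choose * h.choose_spec.choose)) else 1
  have he : ∀ a b : 𝓞 F, e (act a T₀') (act b T₀) = Z (ρ (cj a * b)) := by
    intro a b
    have h : ∃ a₁ b₁ : 𝓞 F, act a T₀' = act a₁ T₀' ∧ act b T₀ = act b₁ T₀ := ⟨a, b, rfl, rfl⟩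
    show (if h : ∃ a₁ b₁ : 𝓞 F, act a T₀' = act a₁ T₀' ∧ act b T₀ = act b₁ T₀ then
      Z (ρ (cj h.choose * h.choose_spec.choose)) else 1) = _
    rw [dif_pos h]
    obtain ⟨h1, h2⟩ := h.choose_spec.choose_spec
    have h4 := hact' _ _ h1
    have h6 := hact _ _ h2
    congr 1
    refine (hmk _ _ ?_).symm
    have h7 : cj a * b - cj h.choose * h.choose_spec.choose =
        (cj a - cj h.choose) * b + cj h.choose * (b - h.choose_spec.choose) := by ring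
    rw [h7]
    exact dvd_add (dvd_mul_of_dvd_left h4 _) (dvd_mul_of_dvd_right h6 _)
  refine ⟨e, ⟨?_, ?_, ?_, ?_, ?_, ?_⟩⟩
  · intro X hX X' hX' T hT
    obtain ⟨a, rfl⟩ := hgen' X hX
    obtain ⟨a', rfl⟩ := hgen' X' hX'
    obtain ⟨b, rfl⟩ := hgen T hT
    rw [← act_add, he, he, he, ← Z_add, ← map_add, map_add cj, add_mul]
  · intro X hX T hT T' hT'
    obtain ⟨a, rfl⟩ := hgen' X hX
    obtain ⟨b, rfl⟩ := hgen T hT
    obtain ⟨b', rfl⟩ := hgen T' hT'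
    rw [← act_add, he, he, he, ← Z_add, ← map_add, mul_add]
  · intro X hX T hT
    obtain ⟨a, rfl⟩ := hgen' X hX
    obtain ⟨b, rfl⟩ := hgen T hT
    rw [he]
    exact Z_root _
  · intro s X hX T hT
    obtain ⟨a', rfl⟩ := hgen' X hX
    obtain ⟨b, rfl⟩ := hgen T hT
    obtain ⟨a, ha⟩ := hgen _ (ac_mem hA s hT₀)
    obtain ⟨b₁, hb₁⟩ := hgen' _ (ac_mem hA s hT₀')
    have hs : (s ζ) ^ l ^ t = 1 := by rw [← map_pow, hζ.pow_eq_one, map_one]
    obtain ⟨c, _, hc⟩ := hζ.eq_pow_of_pow_eq_one hs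
    have h1 := char_t dta hπ hd t ζ hζ s a b₁ c T₀ T₀' hT₀ hgen hz hT₀' hgen' hz' ha hb₁ hc.symm
    rw [ac_act hA, ac_act hA, ha, hb₁, ← act_mul, ← act_mul, he, he]
    have h2 : ρ (cj (a' * b₁) * (b * a)) = (c : ZMod (l ^ t)) * ρ (cj a' * b) := by
      have h4 : ρ (cj (a' * b₁) * (b * a)) = ρ ((c : 𝓞 F) * (cj a' * b)) := by
        refine hmk _ _ ?_
        have h5 : cj (a' * b₁) * (b * a) - (c : 𝓞 F) * (cj a' * b) = (cj b₁ * a - (c : 𝓞 F)) * (cj a' * b) := by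
          rw [map_mul]
          ring
        rw [h5]
        exact dvd_mul_of_dvd_left h1 _
      rw [h4, ← nsmul_eq_mul, map_nsmul, nsmul_eq_mul]
    rw [h2, Z_cmul]
    show s (ζ ^ _) = _
    rw [map_pow, ← hc, ← pow_mul, mul_comm, pow_mul]
  · intro X hX h
    obtain ⟨a', rfl⟩ := hgen' X hX
    rw [hz', hcd]
    refine hρ _ fun b => ?_
    have h2 := h (act b T₀) (by
      rw [mem_Tor, ← act_mul, mul_comm, act_mul, mem_Tor.1 hT₀, map_zero])
    rw [he] at h2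
    exact Z_one _ h2
  · intro a X hX T hT
    obtain ⟨a', rfl⟩ := hgen' X hX
    obtain ⟨b, rfl⟩ := hgen T hT
    rw [← act_mul, ← act_mul, he, he, map_mul cj]
    congr 2
    ring

end H13V
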