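import Mathlib
import Pool.Agent.Lib.H13X.XLZ
import Pool.Agent.Lib.H13X.XK
import Pool.Agent.Lib.H13X.XR

/-! # H13V, KB5: local cocycles: Hilbert 90 over the henselization, the local lemma -/

open NumberField IsDedekindDomain WeierstrassCurve

namespace H13V

open H55P (IQ embF eF LF Per IsHecke Pt ac Inert Dec Nm Coc)
open H35P (WAB Ker tt)
open H55K (Tor ak xc yc CMA Dta GV GMod cj cj_cj mul_cj cj_prime cj_dvd cj_nat Nm_cj Nm_mul Nm_nat)
open H55K.S
open H13S (Abv)
open H13X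

section h90

/-- Hilbert 90 for a group of automorphisms and a cocycle which is trivial on the automorphisms fixing a finite set. -/
theorem kb5_h90 {k Ω : Type} [Field k] [Field Ω] [Algebra k Ω] [Normal k Ω] (G : Subgroup (Ω ≃ₐ[k] Ω))
    (u : (Ω ≃ₐ[k] Ω) → Ω) (hu0 : ∀ s ∈ G, u s ≠ 0) (hcoc : ∀ s ∈ G, ∀ t ∈ G, u (s * t) = u s * s (u t))
    (S : Set Ω) [Finite S] (hS1 : ∀ s ∈ G, u s ∈ S)
    (hS2 : ∀ n ∈ G, (∀ x ∈ S, n x = x) → u n = 1) :
    ∃ y : Ω, y ≠ 0 ∧ ∀ s ∈ G, s y = u s * y := by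
  classical
  have hfin : FiniteDimensional k (IntermediateField.adjoin k S) :=
    IntermediateField.finiteDimensional_adjoin fun x _ => Normal.isIntegral inferInstance x
  let N : IntermediateField k Ω :=
    IntermediateField.normalClosure k (IntermediateField.adjoin k S) Ω
  have hNn : Normal k N := normalClosure.normal k (IntermediateField.adjoin k S) Ω
  have hNf : FiniteDimensional k N := normalClosure.is_finiteDimensional k (IntermediateField.adjoin k S) Ω
  have hSN : ∀ x ∈ S, x ∈ N := fun x hx =>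
    (IntermediateField.le_normalClosure (IntermediateField.adjoin k S))
      (IntermediateField.subset_adjoin k S hx)
  have hres : ∀ (s : Ω ≃ₐ[k] Ω) (x : N), ((AlgEquiv.restrictNormalHom N s x : N) : Ω) = s x :=
    fun s x => s.restrictNormal_commutes N x
  let Gb : Subgroup (N ≃ₐ[k] N) := G.map (AlgEquiv.restrictNormalHom N)
  have hfinG : Finite (N ≃ₐ[k] N) := inferInstance
  let _ : Fintype Gb := Fintype.ofFinite Gb
  have hlift : ∀ σ : Gb, ∃ s ∈ G, AlgEquiv.restrictNormalHom N s = σ := fun σ => σ.2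
  choose g hgG hg using hlift
  -- u depends only on the restriction
  have hdep : ∀ s ∈ G, ∀ t ∈ G, AlgEquiv.restrictNormalHom N s = AlgEquiv.restrictNormalHom N t →
      u s = u t := by
    intro s hs t ht hst
    have h1 : u (t⁻¹ * s) = 1 := by
      apply hS2 _ (G.mul_mem (G.inv_mem ht) hs)
      intro x hx
      have h2 : AlgEquiv.restrictNormalHom N (t⁻¹ * s) = 1 := by
        rw [map_mul, map_inv, hst, inv_mul_cancel]
      have h3 := hres (t⁻¹ * s) ⟨x, hSN x hx⟩
      rw [h2] at h3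
      exact h3.symm
    have h2 := hcoc t ht (t⁻¹ * s) (G.mul_mem (G.inv_mem ht) hs)
    rw [h1, map_one, mul_one, mul_inv_cancel_left] at h2
    exact h2
  let f : Gb → (N →* Ω) := fun σ => (algebraMap N Ω : N →* Ω).comp ((σ : N ≃ₐ[k] N) : N →* N)
  have hfi : Function.Injective f := by
    intro σ τ h
    apply Subtype.ext
    ext x
    have h1 := DFunLike.congr_fun h x
    exact h1
  have hli := (linearIndependent_monoidHom N Ω).comp f hfi
  have hex : ∃ z : N, ∑ σ : Gb, u (g σ) * ((((σ : N ≃ₐ[k] N) z : N)) : Ω) ≠ 0 := by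
    by_contra hcon
    push Not at hcon
    have h1 := Fintype.linearIndependent_iff.1 hli (fun σ => u (g σ)) (by
      funext z
      rw [Finset.sum_apply]
      exact hcon z) 1
    exact hu0 _ (hgG 1) h1
  obtain ⟨z, hz⟩ := hex
  refine ⟨(∑ σ : Gb, u (g σ) * ((((σ : N ≃ₐ[k] N) z : N)) : Ω))⁻¹, inv_ne_zero hz, fun s hs => ?_⟩
  have h2 : u s * s (∑ σ : Gb, u (g σ) * ((((σ : N ≃ₐ[k] N) z : N)) : Ω)) = ∑ σ : Gb, u (g σ) * ((((σ : N ≃ₐ[k] N) z : N)) : Ω) := by
    rw [map_sum, Finset.mul_sum]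
    let sb : Gb := ⟨AlgEquiv.restrictNormalHom N s, s, hs, rfl⟩
    refine Fintype.sum_equiv (Equiv.mulLeft sb) _ _ fun σ => ?_
    rw [Equiv.coe_mulLeft, map_mul, ← mul_assoc, ← hcoc s hs _ (hgG σ)]
    congr 1
    · refine hdep _ (G.mul_mem hs (hgG σ)) _ (hgG _) ?_
      rw [map_mul, hg, hg]
      rfl
    · have h3 : ((sb * σ : Gb) : N ≃ₐ[k] N) z = AlgEquiv.restrictNormalHom N s ((σ : N ≃ₐ[k] N) z) := rfl
      rw [h3, hres]
  generalize (∑ σ : Gb, u (g σ) * ((((σ : N ≃ₐ[k] N) z : N)) : Ω)) = Y at hz h2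
  have hsY : s Y ≠ 0 := (map_ne_zero s).2 hz
  rw [map_inv₀, ← h2, mul_inv, ← mul_assoc, mul_inv_cancel₀ (hu0 s hs), one_mul, h2]

end h90

variable {F : Type} [Field F] [NumberField F] [IQ F] {A B : F} {Om : ℂ} {Ω : Type} [Field Ω] [DecidableEq Ω]
  [Algebra F Ω] [IsAlgClosure F Ω] {j : Ω →+* ℂ} {act : 𝓞 F →+* AddMonoid.End (Pt (WAB A B) Ω)} {mo : Ideal (𝓞 F)}
  {ψ : Ideal (𝓞 F) →*₀ 𝓞 F} {π : 𝓞 F} {l : ℕ} {N : IntermediateField F Ω} {V : ValuationSubring Ω}
  {e : Pt (WAB A B) Ω → Pt (WAB A B) Ω → Ω} {c : (Ω ≃ₐ[F] Ω) → Pt (WAB A B) Ω}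

/-- c is continuous on the decomposition group. -/
def DCt (N : IntermediateField F Ω) (V : ValuationSubring Ω) (c : (Ω ≃ₐ[F] Ω) → Pt (WAB A B) Ω) : Prop :=
  ∃ M : IntermediateField F Ω, FiniteDimensional F M ∧ ∀ s, DecN N V s → s ∈ M.fixingSubgroup → c s = 0

/-- The group of the s with DT. -/
def DTG (act : 𝓞 F →+* AddMonoid.End (Pt (WAB A B) Ω)) (π : 𝓞 F) (N : IntermediateField F Ω) (V : ValuationSubring Ω) :
    Subgroup (Ω ≃ₐ[F] Ω) where
  carrier := {s | DT act π N V s}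
  mul_mem' := fun {a b} ha hb => ⟨ha.1.mul hb.1, fun T hT => by rw [ac_mul, hb.2 T hT, ha.2 T hT]⟩
  one_mem' := ⟨⟨Subgroup.one_mem _, fun x => Iff.rfl⟩, fun T _ => ac_one T⟩
  inv_mem' := fun {a} ha => ⟨ha.1.inv, fun T hT => by
    have h1 := ha.2 T hT
    have h2 : ac (WAB A B) a⁻¹ (ac (WAB A B) a T) = T := by rw [← ac_mul, inv_mul_cancel, ac_one]
    rw [h1] at h2
    exact h2⟩

/-- Kummer generators over the henselization. -/
theorem exists_ksD (D : Dat A B Om j act mo ψ π l) (he : Pairing A B act π l e) (hc : Dc act π N V c) (hcc : DCt N V c) :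
    ∃ y : Pt (WAB A B) Ω → Ω, KS act π N V e c y := by
  classical
  have hNF : Normal F Ω := IsAlgClosure.normal F Ω
  have hl0 : 0 < l := D.hl.pos
  have key : ∀ T : Pt (WAB A B) Ω, ∃ y : Ω, T ∈ Tor act π → y ≠ 0 ∧ ∀ s, DT act π N V s → s y = e (c s) T * y := by
    intro T
    by_cases hT : T ∈ Tor act π
    · obtain ⟨E₁, hE₁, hc₁⟩ := hcc
      let b := Module.finBasis F E₁
      let S : Set Ω := Set.range (fun i => ((b i : E₁) : Ω)) ∪ {x : Ω | x ^ l = 1}
      have hfr : {x : Ω | x ^ l = 1}.Finite := by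
        have h1 := (Polynomial.nthRoots l (1 : Ω)).toFinset.finite_toSet
        refine h1.subset fun x hx => ?_
        rw [Finset.mem_coe, Multiset.mem_toFinset, Polynomial.mem_nthRoots hl0]
        exact hx
      have hSf : Finite S := ((Set.finite_range _).union hfr).to_subtype
      obtain ⟨y, hy0, hy⟩ := kb5_h90 (DTG act π N V) (fun s => e (c s) T)
        (fun s hs => lk_ne D he (hc.val s hs.1) hT)
        (fun s hs t ht => by
          have h2 := he.gal s _ (hc.val t ht.1) T hT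
          rw [hs.2 T hT] at h2
          rw [hc.mul _ hs.1 _ ht.1, he.add_left _ (hc.val _ hs.1) _ (ac_mem D.cma _ (hc.val _ ht.1)) T hT, ← h2]) S
        (fun s hs => Or.inr (he.root _ (hc.val _ hs.1) T hT))
        (fun n hn hx => by
          have h1 : n ∈ E₁.fixingSubgroup := by
            rw [IntermediateField.mem_fixingSubgroup_iff]
            intro x hxE
            have h3 : x = ∑ i, (b.repr ⟨x, hxE⟩ i) • ((b i : E₁) : Ω) := by
              have h4 := congrArg (fun z : E₁ => (z : Ω)) (b.sum_repr ⟨x, hxE⟩)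
              refine h4.symm.trans ?_
              push_cast
              rfl
            rw [h3, map_sum]
            refine Finset.sum_congr rfl fun i _ => ?_
            rw [map_smul]
            congr 1
            exact hx _ (Or.inl ⟨i, rfl⟩)
          rw [hc₁ n hn.1 h1]
          have h3 := he.add_left 0 (zero_mem _) 0 (zero_mem _) T hT
          rw [add_zero] at h3
          exact (mul_eq_left₀ (lk_ne D he (zero_mem _) hT)).1 h3.symm)
      exact ⟨y, fun _ => ⟨hy0, fun s hs => hy s hs⟩⟩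
    · exact ⟨1, fun h => absurd h hT⟩
  choose y hy using key
  exact ⟨y, fun T hT => (hy T hT).1, fun T hT s hs => (hy T hT).2 s hs⟩

/-- THE LOCAL LEMMA for local cocycles. -/
theorem loc_zeroD (D : Dat A B Om j act mo ψ π l) [NumberField N]
    (hDc : Dc act π N V c) (hcont : DCt N V c) {w : HeightOneSpectrum (𝓞 N)} (hw : Abv N V w)
    (hI : V.valuation (l : Ω) < 1 → ∀ s, Inert V s → s ∈ N.fixingSubgroup)
    (h : ∀ s ∈ N.fixingSubgroup, JV act π V s → c s = 0) :
    ∃ P : Pt (WAB A B) Ω, ∀ s, DecN N V s → c s = ac (WAB A B) s P - P := by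
  have hA := D.cma
  have hπ' : Prime (cj π) := cj_prime D.pr
  have hd' : cj π ∣ (l : 𝓞 F) := D.conj.dvd
  obtain ⟨X, hX, hX2⟩ := cob_inert D hDc h
  by_cases hmv : ∃ σ ∈ N.fixingSubgroup, Inert V σ ∧ ∃ T ∈ Tor act (cj π), ac (WAB A B) σ T ≠ T
  · obtain ⟨σ, hσ, hσI, hσT⟩ := hmv
    have h1 := cob_dec_ram (hDc.sub_cob hA hX) (fun s hs hi => by
      show c s - (ac (WAB A B) s X - X) = 0
      rw [hX2 s hs hi, sub_self]) ⟨σ, hσ, hσI, fun T hT hs => no_fix hA hπ' hσT hT hs⟩
    exact ⟨X, fun s hs => sub_eq_zero.1 (h1 s hs)⟩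
  · push Not at hmv
    have hcj1 : vo V (cj π) = 1 := by
      by_contra hne
      have hlt : vo V (cj π) < 1 := lt_of_le_of_ne (vo_le V _) hne
      have hVl := H55K.S.val_l hd' (fun V x => vo_le V x) V hlt
      obtain ⟨σ, h1, h2⟩ := moved_ram hA (D.dta.good V hVl) hπ' (xp_nm D).2 hlt
      obtain ⟨T, hT, hT0⟩ := H55K.exists_tor hA hπ'
      exact hT0 (h2 T hT (hmv σ (hI hVl σ h1) h1 T hT))
    obtain ⟨φ, hφK, hφD, hφF⟩ := exists_frobK N hw
    have hQ : 2 ≤ Ideal.absNorm w.asIdeal := by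
      have h1 : Ideal.absNorm w.asIdeal ≠ 0 := by
        rw [Ne, Ideal.absNorm_eq_zero_iff]
        exact w.ne_bot
      have h2 : Ideal.absNorm w.asIdeal ≠ 1 := by
        rw [Ne, Ideal.absNorm_eq_one_iff]
        exact w.isPrime.ne_top
      omega
    have hpow1 : ∀ n, vo V (cj π ^ n) = 1 := fun n => by rw [vo_pow, hcj1, one_pow]
    have hln : ∀ (n : ℕ), ∀ P ∈ Tor act (cj π ^ n), (l ^ n) • P = 0 := by
      intro n P hP
      rw [← act_nat (act := act), Nat.cast_pow]
      obtain ⟨u, hu⟩ := pow_dvd_pow_of_dvd hd' n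
      rw [hu, mul_comm, act_mul, mem_Tor.1 hP, map_zero]
    have hle : V.valuation (l : Ω) ≤ 1 := by
      rw [← vo_nat (F := F)]
      exact vo_le V _
    -- inertia over N fixes the points killed by the powers of the conjugate of π
    have hfix : ∀ s ∈ N.fixingSubgroup, Inert V s → ∀ (n : ℕ), ∀ P ∈ Tor act (cj π ^ n), ac (WAB A B) s P = P := by
      intro s hs hi n P hP
      rcases lt_or_eq_of_le hle with h1 | h1
      · exact inert_tors hA (D.dta.good V h1) (hpow1 n) hi hP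
      · obtain ⟨Kg, u, hG⟩ := D.dta.gmod V
        refine H55K.inert_fix hA D.hl D.five hπ' hd' hG h1 s hi (fun T hT => hmv s hs hi T hT) (l ^ n) ?_ P ?_
        · rw [Nat.cast_pow, map_pow, h1, one_pow]
        · rw [smul_sub, hln n P hP, sub_zero]
          have h2 : (l ^ n) • ac (WAB A B) s P = ac (WAB A B) s ((l ^ n) • P) := (map_nsmul _ _ _).symm
          rw [h2, hln n P hP, map_zero]
    have hmove : ∃ n : ℕ, ∃ T ∈ Tor act (cj π ^ n), ac (WAB A B) φ T ≠ T := by
      rcases lt_or_eq_of_le hle with h1 | h1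
      · have hG := D.dta.good V h1
        have hnk : ∀ n : ℕ, ∀ P ∈ Tor act (cj π ^ n), P ≠ 0 → ¬ Ker V P := fun n P hP h0 hK =>
          h0 (kr_tor hA hG _ (hpow1 n) hP hK)
        refine fin_move hA hπ' hQ hφF (r := 1) one_ne_zero fun n P hP P' hP' h0 h0' h2 h3 => ?_
        exact H55K.cls_diff hG (hnk n P hP h0) (hnk n P' hP' h0')
          (hnk n _ (sub_mem hP hP') (sub_ne_zero.2 h2))
          (hnk n _ (add_mem hP hP') (fun h4 => h3 (eq_neg_of_add_eq_zero_left h4)))
      · obtain ⟨Kg, u, hG⟩ := D.dta.gmod V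
        have hnk : ∀ n : ℕ, ∀ P ∈ Tor act (cj π ^ n), P ≠ 0 → P ∉ Kg := fun n P hP h0 hK =>
          h0 (hG.tors (l ^ n) (by rw [Nat.cast_pow, map_pow, h1, one_pow]) P hK (hln n P hP))
        refine fin_move hA hπ' hQ hφF (r := V.valuation u ^ 2)
          (pow_ne_zero 2 ((map_ne_zero _).2 hG.une)) fun n P hP P' hP' h0 h0' h2 h3 => ?_
        exact hG.diff P P' (hnk n P hP h0) (hnk n P' hP' h0')
          (hnk n _ (sub_mem hP hP') (sub_ne_zero.2 h2))
          (hnk n _ (add_mem hP hP') (fun h4 => h3 (eq_neg_of_add_eq_zero_left h4)))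
    have hcφ : c φ - (ac (WAB A B) φ X - X) ∈ Tor act (cj π) :=
      sub_mem (hDc.val φ ⟨hφK, hφD⟩) (sub_mem (ac_mem hA φ hX) hX)
    obtain ⟨n, P, hP, hPR⟩ := phi_surj hA hπ' hmove hcφ
    refine ⟨X + P, fun s hs => ?_⟩
    have h0 : c s - (ac (WAB A B) s X - X) - (ac (WAB A B) s P - P) = 0 := by
      refine dec_gen (d := fun s => c s - (ac (WAB A B) s X - X) - (ac (WAB A B) s P - P)) hw (fun s hs hsd t ht htd => ?_) ?_ (fun s hs hi => ?_) hφK hφD hφF ?_ hs.1 hs.2
      · show c (s * t) - (ac (WAB A B) (s * t) X - X) - (ac (WAB A B) (s * t) P - P) = _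
        rw [hDc.mul s ⟨hs, hsd⟩ t ⟨ht, htd⟩, ac_mul, ac_mul, map_sub, map_sub, map_sub, map_sub]
        abel
      · obtain ⟨M, hM, hM0⟩ := hcont
        have hf1 := lp_fin X
        have hf2 := lp_fin P
        refine ⟨M ⊔ IntermediateField.adjoin F {xc X, yc X} ⊔ IntermediateField.adjoin F {xc P, yc P},
          inferInstance, fun s hs hsN hsd => ?_⟩
        rw [IntermediateField.fixingSubgroup_sup, IntermediateField.fixingSubgroup_sup, Subgroup.mem_inf,
          Subgroup.mem_inf] at hsN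
        show c s - (ac (WAB A B) s X - X) - (ac (WAB A B) s P - P) = 0
        rw [hM0 s ⟨hs, hsd⟩ hsN.1.1, lp_adj s X hsN.1.2, lp_adj s P hsN.2, sub_self, sub_self, sub_self, sub_zero]
      · show c s - (ac (WAB A B) s X - X) - (ac (WAB A B) s P - P) = 0
        rw [hX2 s hs hi, hfix s hs hi n P hP]
        abel
      · show c φ - (ac (WAB A B) φ X - X) - (ac (WAB A B) φ P - P) = 0
        rw [hPR, sub_self]
    have h1 : c s - (ac (WAB A B) s X - X) = ac (WAB A B) s P - P := sub_eq_zero.1 h0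
    rw [sub_eq_iff_eq_add.1 h1, map_add]
    abel

end H13V
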