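import Mathlib
import Pool.Agent.Lib.H13V.KA2
import Pool.Agent.Lib.H13V.KA3
import Pool.Agent.Lib.H13V.KA10
import Pool.Agent.Lib.H13V.KB5
import Pool.Agent.Lib.H13X.XQ1

/-! # H13V, module KUM, chunk KA11: point classes above cj π have unit Kummer generators (split case) -/

open NumberField IsDedekindDomain WeierstrassCurve

namespace H13V

open H55P (IQ embF eF LF Per IsHecke Pt ac Inert Dec Nm Coc PExt UnrP Ram RamF SelZero)
open H35P (WAB Ker tt)
open H55K (Tor ak xc yc CMA Dta GV GMod cj cj_cj mul_cj cj_prime cj_dvd cj_nat Nm_cj Nm_mul Nm_nat tor_gen Lft TFld exists_lft)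
open H55K.S
open H55R (Pl ord smulP)
open H13S (Abv)
open H13X
open H13Y (guN SU)
open H19B (DN mem_DN CS mem_CS)

variable {F : Type} [Field F] [NumberField F] [IQ F] {A B : F} {Om : ℂ} {Ω : Type} [Field Ω] [DecidableEq Ω]
  [Algebra F Ω] [IsAlgClosure F Ω] {j : Ω →+* ℂ} {act : 𝓞 F →+* AddMonoid.End (Pt (WAB A B) Ω)} {mo : Ideal (𝓞 F)}
  {ψ : Ideal (𝓞 F) →*₀ 𝓞 F} {π : 𝓞 F} {l t : ℕ} {e : Pt (WAB A B) Ω → Pt (WAB A B) Ω → Ω} {N L N' : IntermediateField F Ω}
  {c : (Ω ≃ₐ[F] Ω) → Pt (WAB A B) Ω} {V : ValuationSubring Ω}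

theorem ka11_mono {β : 𝓞 F} {k n : ℕ} (h : k ≤ n) {X : Pt (WAB A B) Ω} (hX : X ∈ Tor act (β ^ k)) : X ∈ Tor act (β ^ n) := by
  obtain ⟨d, rfl⟩ := Nat.exists_eq_add_of_le h
  rw [mem_Tor, pow_add, mul_comm, act_mul, mem_Tor.1 hX, map_zero]

theorem ka11_zero {n : ℕ} {e' : Pt (WAB A B) Ω → Pt (WAB A B) Ω → Ω} (he' : PT A B act π l n e') (hl : l ≠ 0) {X : Pt (WAB A B) Ω}
    (hX : X ∈ Tor act (cj π ^ n)) : e' X 0 = 1 := by
  have h := he'.add_right X hX 0 (zero_mem _) 0 (zero_mem _)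
  rw [add_zero] at h
  exact (left_eq_mul₀ (he'.ne hl hX (zero_mem _))).1 h

theorem ka11_nsmul {n : ℕ} {e' : Pt (WAB A B) Ω → Pt (WAB A B) Ω → Ω} (he' : PT A B act π l n e') (hl : l ≠ 0) {X T : Pt (WAB A B) Ω}
    (hX : X ∈ Tor act (cj π ^ n)) (hT : T ∈ Tor act (π ^ n)) (k : ℕ) : e' X (k • T) = e' X T ^ k := by
  induction k with
  | zero => rw [zero_smul, ka11_zero he' hl hX, pow_zero]
  | succ k ih =>
    rw [succ_nsmul, he'.add_right X hX (k • T) (AddSubgroup.nsmul_mem _ hT k) T hT, ih, pow_succ]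

/-- The inertia group. -/
def ka11_I (V : ValuationSubring Ω) : Subgroup (Ω ≃ₐ[F] Ω) where
  carrier := {s | Inert V s}
  mul_mem' := fun ha hb => lcb_mul ha hb
  one_mem' := lcb_one
  inv_mem' := fun ha => lcb_inv ha

theorem ka11_root {x : Ω} {k : ℕ} (hk : k ≠ 0) (h : x ^ k = 1) : V.valuation x = 1 := by
  have h1 : V.valuation x ^ k = 1 := by
    rw [← map_pow, h, map_one]
  exact (pow_eq_one_iff_of_nonneg zero_le hk).1 h1

theorem ka11_alg {a b c d κ y w : Ω} (hb : b ≠ 0) (hc : c ≠ 0) (hd : d ≠ 0) (hy : y ≠ 0) (ha : a = κ * d) :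
    a * (b / c) * w / (b * (d * y)) = κ * (w / (c * y)) := by
  subst ha
  field_simp

/-- Chunk KA11 (M/L). PROOF. (1) β = cj π. V l < 1, good reduction, vo V π = 1 (π, β coprime), inertia elements at V are in N.fixingSubgroup (Nb.inert) and fix all points killed by powers of π (H13X.inert_tors, vo V (π ^ n) = 1). (2) φ = a Frobenius element over N (H13X.exists_frobK, DecN N V φ) moves a point killed by a power of π: see hmove in the proof of
H13X.loc_zero, case V l < 1 (fin_move with r = 1, H55K.cls_diff), for π in the place of cj π (or apply it to D.conj). phi_surj_t for every point of the finite set Tor act (π ^ t): there is n ≥ t such that every R in Tor act (π ^ t) is φ R' - R' with R' in Tor act (π ^ n) (take the maximum; Tor act (π ^ k) ≤ Tor act (π ^ n) for k ≤ n).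
(3) e' = a pairing of level n (exists_pt). P' with act (β ^ (n - t)) P' = P (CMA.surj). κ X' = e (act (β ^ (n - t)) X') T for X' in Tor act (β ^ n) is additive, killed by l ^ t: pt_surj' for e': T̂ in Tor act (π ^ n) with e' X' T̂ = κ X' for all X'. l ^ t • T̂ = 0 by pt_nd (e' X' (l ^ t • T̂) = κ X' ^ l ^ t = 1), so T̂ in Tor act (π ^ t) (tor_lr for D.conj).
T' in Tor act (π ^ n) with φ T' - T' = T̂. (4) For s with DecN N V s: R_s = s P' - P' is in Tor act (β ^ n) (act (β ^ (n - t)) R_s = s P - P in Tor act (β ^ t), hypothesis hP). On the group I of the inertia elements at V: u s = e' (R_s) T' is a cocycle with values in the roots of unity of order l ^ n (s T' = T'; he'.gal), continuous: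
kb5_h90 (file KB5, with G = the inertia subgroup, S = the finite set of the roots of unity of order dividing l ^ n together with the coordinates of P' and T'... the elements of G fixing S give u = 1; take S = roots of unity ∪ {xc P', yc P'}; hS1: u s in S): y' ≠ 0 with s y' = u s y' on I. (5) R = φ P' - P' in Tor act (β ^ n). y'' = φ y' / (e' R (φ T') y').
For s in I, s₁ = φ⁻¹ s φ in I (Inert.conj, φ in Dec): s (φ y') = φ (s₁ y') = φ (e' (s₁ P' - P') T') φ y' = e' (s φ P' - φ P') (φ T') φ y', and s φ P' - φ P' = (s P' - P') + (s R - R). So s y'' / y'' = e' (s P' - P') (φ T') e' (s R - R) (φ T') / (e' (s P' - P') T' * (e' (s R) (φ T') / e' R (φ T'))) = e' (s P' - P') (φ T' - T') = e' (R_s) T̂ = e (act (β ^ (n - t)) R_s) T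
= e (s P - P) T (s fixes φ T', which is killed by π ^ n). (6) V y'' = 1: V (φ y') = V y' (Dec.val), V (root of unity) = 1. So k = 0: in the statement take z = y'' with V z = 1. -/
theorem nv_t (D : Dat A B Om j act mo ψ π l) (hs : ¬ π ∣ cj π) [NumberField N] (hN : Nb l N) (he : PT A B act π l t e) (hV : vo V (cj π) < 1)
    {P : Pt (WAB A B) Ω} (hP : ∀ s, DecN N V s → ac (WAB A B) s P - P ∈ Tor act (cj π ^ t)) {T : Pt (WAB A B) Ω} (hT : T ∈ Tor act (π ^ t)) :
    ∃ z : Ω, V.valuation z = 1 ∧ ∀ s, Inert V s → s z = e (ac (WAB A B) s P - P) T * z := by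
  classical
  have hA := D.cma
  have hl0 : l ≠ 0 := D.hl.ne_zero
  have hcop : IsCoprime π (cj π) := (D.pr.irreducible.coprime_iff_not_dvd).2 hs
  have hβ : Prime (cj π) := cj_prime D.pr
  have hd' : cj π ∣ (l : 𝓞 F) := D.conj.dvd
  have hVl : V.valuation (l : Ω) < 1 := H55K.S.val_l hd' (fun V x => vo_le V x) V hV
  have hπ1 : vo V π = 1 := vo_unit hcop.symm hV
  have hpow1 : ∀ n, vo V (π ^ n) = 1 := fun n => by rw [vo_pow, hπ1, one_pow]
  have hG := D.dta.good V hVl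
  have hDN : ∀ s, Inert V s → DecN N V s := fun s hs => ⟨hN.inert V hVl s hs, Inert.dec hs⟩
  have hfix : ∀ s, Inert V s → ∀ n : ℕ, ∀ X ∈ Tor act (π ^ n), ac (WAB A B) s X = X :=
    fun s hs n X hX => inert_tors hA hG (hpow1 n) hs hX
  obtain ⟨q, f, hf, hq, -, ⟨φ, hφN, hφD, hφF⟩, -⟩ := hN.res V (cj π) hβ hV hVl
  have hQ : 2 ≤ q := by
    have h1 := (xp_nm D).2
    rw [hq]
    calc 2 ≤ Nm (cj π) ^ 1 := by
          rw [pow_one]
          omega
      _ ≤ Nm (cj π) ^ f := Nat.pow_le_pow_right (by omega) hf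
  have hmove : ∃ n : ℕ, ∃ T ∈ Tor act (π ^ n), ac (WAB A B) φ T ≠ T := by
    have hnk : ∀ n : ℕ, ∀ P ∈ Tor act (π ^ n), P ≠ 0 → ¬ Ker V P := fun n P hP h0 hK =>
      h0 (kr_tor hA hG _ (hpow1 n) hP hK)
    refine fin_move hA D.pr hQ hφF (r := 1) one_ne_zero fun n P hP P' hP' h0 h0' h2 h3 => ?_
    exact H55K.cls_diff hG (hnk n P hP h0) (hnk n P' hP' h0')
      (hnk n _ (sub_mem hP hP') (sub_ne_zero.2 h2))
      (hnk n _ (add_mem hP hP') (fun h4 => h3 (eq_neg_of_add_eq_zero_left h4)))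
  have hfinT : Finite (Tor act (π ^ t)) := Nat.finite_of_card_ne_zero (by
    rw [H55K.tor_card hA (pow_ne_zero t D.pr.ne_zero)]
    exact H55K.S.Nm_ne_zero' (pow_ne_zero t D.pr.ne_zero))
  obtain ⟨n, hnt, hn⟩ : ∃ n, t ≤ n ∧ ∀ R ∈ Tor act (π ^ t), ∃ R' ∈ Tor act (π ^ n), ac (WAB A B) φ R' - R' = R := by
    have h1 : ∀ R : Tor act (π ^ t), ∃ n, ∃ P ∈ Tor act (π ^ n), ac (WAB A B) φ P - P = (R : Pt (WAB A B) Ω) :=
      fun R => phi_surj_t hA D.pr hmove t R.2
    choose g hg using h1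
    obtain ⟨M, hM⟩ := (Set.finite_range g).bddAbove
    refine ⟨max M t, le_max_right _ _, fun R hR => ?_⟩
    obtain ⟨P₁, hP₁, hPR⟩ := hg ⟨R, hR⟩
    exact ⟨P₁, ka11_mono ((hM ⟨_, rfl⟩).trans (le_max_left _ _)) hP₁, hPR⟩
  obtain ⟨e', he'⟩ := exists_pt D.dta D.pr D.dvd n
  obtain ⟨m, hm⟩ := Nat.exists_eq_add_of_le hnt
  obtain ⟨P', hP'⟩ := hA.surj (cj π ^ m) (pow_ne_zero _ hβ.ne_zero) P
  have hiff : ∀ X' : Pt (WAB A B) Ω, act (cj π ^ m) X' ∈ Tor act (cj π ^ t) ↔ X' ∈ Tor act (cj π ^ n) := by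
    intro X'
    rw [mem_Tor, mem_Tor, ← act_mul, ← pow_add, ← hm]
  obtain ⟨T₁, hT₁, hT₁e⟩ := pt_surj' D he' (fun X' => e (act (cj π ^ m) X') T)
    (fun X' hX' => by
      show e (act (cj π ^ m) X') T ^ l ^ n = 1
      rw [hm, pow_add, pow_mul, he.root _ ((hiff X').2 hX') T hT, one_pow])
    (fun X hX X' hX' => by
      show e (act (cj π ^ m) (X + X')) T = _
      rw [map_add]
      exact he.add_left _ ((hiff X).2 hX) _ ((hiff X').2 hX') T hT)
  have hT₁t : T₁ ∈ Tor act (π ^ t) := by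
    have h1 : l ^ t • T₁ = 0 := by
      refine pt_nd D he' (AddSubgroup.nsmul_mem _ hT₁ _) fun X hX => ?_
      rw [ka11_nsmul he' hl0 hX hT₁, hT₁e X hX]
      exact he.root _ ((hiff X).2 hX) T hT
    have h2 := tor_lr D.conj (t := n) (r := t) (X := T₁) (by
      rw [cj_cj]
      exact hT₁) h1
    rwa [cj_cj] at h2
  obtain ⟨T', hT', hT'φ⟩ := hn T₁ hT₁t
  have hR : ∀ s, DecN N V s → ac (WAB A B) s P' - P' ∈ Tor act (cj π ^ n) := by
    intro s hs
    rw [← hiff, map_sub, ← ac_act hA, hP']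
    exact hP s hs
  have hNF : Normal F Ω := IsAlgClosure.normal F Ω
  have hln : 0 < l ^ n := pow_pos D.hl.pos n
  have hfr : ({x : Ω | x ^ l ^ n = 1} : Set Ω).Finite := by
    have h1 := (Polynomial.nthRoots (l ^ n) (1 : Ω)).toFinset.finite_toSet
    refine h1.subset fun x hx => ?_
    rw [Finset.mem_coe, Multiset.mem_toFinset, Polynomial.mem_nthRoots hln]
    exact hx
  have hSf : Finite ({x : Ω | x ^ l ^ n = 1} ∪ {xc P', yc P'} : Set Ω) := (hfr.union (Set.toFinite _)).to_subtype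
  obtain ⟨y, hy0, hy⟩ := kb5_h90 (ka11_I V) (fun s => e' (ac (WAB A B) s P' - P') T')
    (fun s hs => he'.ne hl0 (hR s (hDN s hs)) hT')
    (fun s hs s' hs' => by
      show e' (ac (WAB A B) (s * s') P' - P') T' = e' (ac (WAB A B) s P' - P') T' * s (e' (ac (WAB A B) s' P' - P') T')
      rw [he'.gal s _ (hR s' (hDN s' hs')) T' hT', hfix s hs n T' hT',
        ← he'.add_left _ (hR s (hDN s hs)) _ (ac_mem hA s (hR s' (hDN s' hs'))) T' hT', ac_mul, map_sub]
      congr 1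
      abel)
    ({x : Ω | x ^ l ^ n = 1} ∪ {xc P', yc P'})
    (fun s hs => Or.inl (he'.root _ (hR s (hDN s hs)) T' hT'))
    (fun s hs hx => by
      show e' (ac (WAB A B) s P' - P') T' = 1
      rw [lp_fix s (hx _ (Or.inr (by simp))) (hx _ (Or.inr (by simp))), sub_self]
      exact he'.zero_left hl0 hT')
  have hφDN : DecN N V φ := ⟨hφN, hφD⟩
  have hRφ := hR φ hφDN
  have hφT : ac (WAB A B) φ T' ∈ Tor act (π ^ n) := ac_mem hA φ hT'
  have halg : Algebra.IsAlgebraic F Ω := IsAlgClosure.isAlgebraic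
  refine ⟨φ y / (e' (ac (WAB A B) φ P' - P') (ac (WAB A B) φ T') * y), ?_, fun s hs => ?_⟩
  · rw [map_div₀, map_mul, Dec.val hφD, ka11_root hln.ne' (he'.root _ hRφ _ hφT), one_mul]
    exact div_self ((map_ne_zero _).2 hy0)
  · have hs₁ : Inert V (φ⁻¹ * s * φ) := Inert.conj hs hφD
    have hsDN := hDN s hs
    have e1 : s (φ y) = φ ((φ⁻¹ * s * φ) y) := by
      show s (φ y) = φ (φ⁻¹ (s (φ y)))
      exact (φ.apply_symm_apply _).symm
    have e2 := hy _ hs₁
    have e3 : φ (e' (ac (WAB A B) (φ⁻¹ * s * φ) P' - P') T') =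
        e' (ac (WAB A B) s P' - P') (ac (WAB A B) φ T') *
          (e' (ac (WAB A B) s (ac (WAB A B) φ P' - P')) (ac (WAB A B) φ T') / e' (ac (WAB A B) φ P' - P') (ac (WAB A B) φ T')) := by
      rw [he'.gal φ _ (hR _ (hDN _ hs₁)) T' hT', ← he'.sub_left hl0 (ac_mem hA s hRφ) hRφ hφT,
        ← he'.add_left _ (hR s hsDN) _ (sub_mem (ac_mem hA s hRφ) hRφ) _ hφT]
      congr 1
      have e4 : ac (WAB A B) φ (ac (WAB A B) (φ⁻¹ * s * φ) P') = ac (WAB A B) s (ac (WAB A B) φ P') := by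
        rw [← ac_mul, ← ac_mul]
        congr 1
        group
      rw [map_sub, e4, map_sub]
      abel
    have e5 : s (e' (ac (WAB A B) φ P' - P') (ac (WAB A B) φ T')) =
        e' (ac (WAB A B) s (ac (WAB A B) φ P' - P')) (ac (WAB A B) φ T') := by
      rw [he'.gal s _ hRφ _ hφT, hfix s hs n _ hφT]
    have e6 : s y = e' (ac (WAB A B) s P' - P') T' * y := hy s hs
    have e7 : e' (ac (WAB A B) s P' - P') (ac (WAB A B) φ T') = e (ac (WAB A B) s P - P) T * e' (ac (WAB A B) s P' - P') T' := by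
      have h1 : ac (WAB A B) φ T' = T₁ + T' := by
        rw [← hT'φ]
        abel
      rw [h1, he'.add_right _ (hR s hsDN) T₁ hT₁ T' hT', hT₁e _ (hR s hsDN)]
      show e (act (cj π ^ m) (ac (WAB A B) s P' - P')) T * _ = _
      rw [map_sub, ← ac_act hA, hP']
    rw [map_div₀, map_mul, e1, e2, map_mul, e3, e5, e6]
    exact ka11_alg (he'.ne hl0 (ac_mem hA s hRφ) hφT) (he'.ne hl0 hRφ hφT) (he'.ne hl0 (hR s hsDN) hT') hy0 e7

end H13V
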