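import Mathlib
import Pool.Agent.Lib.H13V.KA11
import Pool.Agent.Lib.H13V.KB5
import Pool.Agent.Lib.H13X.XQ2

/-! # H13V, module KUM, chunk KA12: local triviality above cj π (split case) at level t -/

open NumberField IsDedekindDomain WeierstrassCurve

namespace H13V

open H55P (IQ embF eF LF Per IsHecke Pt ac Inert Dec Nm Coc PExt UnrP Ram RamF SelZero)
open H35P (WAB Ker tt)
open H55K (Tor ak xc yc CMA Dta GV GMod cj cj_cj mul_cj cj_prime cj_dvd cj_nat Nm_cj Nm_mul Nm_nat tor_gen Lft TFld exists_lft)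
open H55K.S
open H55R (Pl ord smulP)
open H13S (Abv)
open H13X
open H13Y (guN SU)
open H19B (DN mem_DN CS mem_CS)

variable {F : Type} [Field F] [NumberField F] [IQ F] {A B : F} {Om : ℂ} {Ω : Type} [Field Ω] [DecidableEq Ω]
  [Algebra F Ω] [IsAlgClosure F Ω] {j : Ω →+* ℂ} {act : 𝓞 F →+* AddMonoid.End (Pt (WAB A B) Ω)} {mo : Ideal (𝓞 F)}
  {ψ : Ideal (𝓞 F) →*₀ 𝓞 F} {π : 𝓞 F} {l t : ℕ} {e : Pt (WAB A B) Ω → Pt (WAB A B) Ω → Ω} {N L N' : IntermediateField F Ω}
  {c : (Ω ≃ₐ[F] Ω) → Pt (WAB A B) Ω} {V : ValuationSubring Ω}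

/-- Chunk KA12a (M). LEVEL ONE with values in the points killed by cj π, the Kummer generators being given on inertia only. PROOF: exists_UV D hN hs hV: φ, q, n, U; a pairing e₁ of level one (exists_pairing π l D.dta D.pr D.dvd); exists_ksD (file KB5): y₁ with KS act π N V e₁ c y₁. H13X.loc_conj U he₁ hDc hKS needs: the value of y₁ T is an integral power of V l, for T in
Tor act π. For this T take z from h (for the character X ↦ e₁ X T of Tor act (cj π)): y₁ T / z is fixed by the inertia elements s at V (s is in DT act π N V: Nb.dec and inert_tors), so its value is a power of V l: as in UV.values (Lib/H13X/XQ1.lean line 153; it only uses that x is fixed by inertia). -/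
theorem lc_one (D : Dat A B Om j act mo ψ π l) (hs : ¬ π ∣ cj π) [NumberField N] (hN : Nb l N) (hV : vo V (cj π) < 1)
    (hc : Dc act π N V c) (hcc : DCt N V c)
    (h : ∀ κ : Pt (WAB A B) Ω → Ω, (∀ X ∈ Tor act (cj π), κ X ^ l = 1) → (∀ X ∈ Tor act (cj π), ∀ X' ∈ Tor act (cj π), κ (X + X') = κ X * κ X') →
      ∃ z : Ω, z ≠ 0 ∧ (∀ s, Inert V s → s z = κ (c s) * z) ∧ ∃ k : ℤ, V.valuation z = V.valuation (l : Ω) ^ k) :
    ∃ P : Pt (WAB A B) Ω, ∀ s, DecN N V s → c s = ac (WAB A B) s P - P := by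
  obtain ⟨φ, q, n, U⟩ := exists_UV D hN hs hV
  obtain ⟨e₁, he₁⟩ := exists_pairing π l D.dta D.pr D.dvd
  obtain ⟨y₁, hy₁⟩ := exists_ksD D he₁ hc hcc
  obtain ⟨h1, hp1, hG, h4, h5⟩ := U.val_l
  have hA := D.cma
  have hDT : ∀ s, Inert V s → DT act π N V s := fun s hs => ⟨U.nb.dec h5 hs, fun T hT => inert_tors hA hG hp1 hs hT⟩
  refine loc_conj U he₁ hc hy₁ fun T hT => ?_
  obtain ⟨z, hz0, hz1, k, hk⟩ := h (fun X => e₁ X T) (fun X hX => he₁.root X hX T hT)
    (fun X hX X' hX' => he₁.add_left X hX X' hX' T hT)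
  have hy0 := hy₁.ne T hT
  have h0 : y₁ T / z ≠ 0 := div_ne_zero hy0 hz0
  have hNF : NumberField (⊥ : IntermediateField F Ω) := NumberField.of_module_finite F _
  have hfix : ∀ s ∈ (⊥ : IntermediateField F Ω).fixingSubgroup, Inert V s → s (y₁ T / z) = y₁ T / z := by
    intro s _ hs
    have h6 : e₁ (c s) T ≠ 0 := lk_ne D he₁ (hc.val s (hDT s hs).1) hT
    rw [map_div₀, hy₁.gal T hT s (hDT s hs), hz1 s hs, mul_div_mul_left _ _ h6]
  obtain ⟨a, ha, hva⟩ := H13S.value_fixed (⊥ : IntermediateField F Ω) V _ h0 hfix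
  obtain ⟨a', ha'⟩ := IntermediateField.mem_bot.1 a.2
  have ha'0 : a' ≠ 0 := by
    rintro rfl
    rw [map_zero] at ha'
    exact ha (Subtype.ext ha'.symm)
  obtain ⟨k', hk'⟩ := qv_intpow V (cj_prime D.pr) hV a' ha'0
  rw [ha', ← hva, ← h1, map_div₀, div_eq_iff ((Valuation.ne_zero_iff _).2 hz0), hk] at hk'
  exact ⟨k' + k, by rw [hk', zpow_add₀ h4]⟩

/-- A character of the points killed by cj π, composed with the multiplication, is a value of the pairing. -/
theorem ka12_char (D : Dat A B Om j act mo ψ π l) (he : PT A B act π l t e) {r : ℕ} (hr : r < t) (κ : Pt (WAB A B) Ω → Ω)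
    (hκ : ∀ X ∈ Tor act (cj π), κ X ^ l = 1) (hadd : ∀ X ∈ Tor act (cj π), ∀ X' ∈ Tor act (cj π), κ (X + X') = κ X * κ X') :
    ∃ T ∈ Tor act (π ^ t), ∀ X ∈ Tor act (cj π ^ (r + 1)), e X T = κ (act (cj π ^ r) X) := by
  have hA := D.cma
  have hcj0 : cj π ≠ 0 := (cj_prime D.pr).ne_zero
  have hm : ∀ X ∈ Tor act (cj π ^ t), act (cj π ^ (t - 1)) X ∈ Tor act (cj π) := fun X hX => by
    rw [mem_Tor, ← act_mul, ← pow_succ', Nat.sub_add_cancel (by omega)]
    exact hX
  have hκ0 : κ 0 = 1 := by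
    have h1 := hadd 0 (zero_mem _) 0 (zero_mem _)
    rw [add_zero] at h1
    have h2 : κ 0 ≠ 0 := fun h => by
      have h3 := hκ 0 (zero_mem _)
      rw [h, zero_pow D.hl.ne_zero] at h3
      exact zero_ne_one h3
    exact (left_eq_mul₀ h2).1 h1
  obtain ⟨T'', hT'', h2⟩ := pt_surj' D he (fun X => κ (act (cj π ^ (t - 1)) X)) (fun X hX => by
    show κ (act (cj π ^ (t - 1)) X) ^ l ^ t = 1
    have h3 : l ^ t = l * l ^ (t - 1) := by rw [← pow_succ', Nat.sub_add_cancel (by omega)]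
    rw [h3, pow_mul, hκ _ (hm X hX), one_pow]) (fun X hX X' hX' => by
    show κ (act (cj π ^ (t - 1)) (X + X')) = κ (act (cj π ^ (t - 1)) X) * κ (act (cj π ^ (t - 1)) X')
    rw [map_add, hadd _ (hm X hX) _ (hm X' hX')])
  have h3 : act π T'' = 0 := by
    have h4 : act π T'' ∈ Tor act (π ^ t) := by
      rw [mem_Tor, ← act_mul, mul_comm, act_mul, mem_Tor.1 hT'', map_zero]
    refine pt_nd D he h4 fun X hX => ?_
    have h5 := he.adj (cj π) X hX T'' hT''
    rw [cj_cj] at h5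
    have h6 : act (cj π) X ∈ Tor act (cj π ^ t) := by
      rw [mem_Tor, ← act_mul, mul_comm, act_mul, mem_Tor.1 hX, map_zero]
    rw [← h5, h2 _ h6]
    show κ (act (cj π ^ (t - 1)) (act (cj π) X)) = 1
    rw [← act_mul, ← pow_succ, Nat.sub_add_cancel (by omega), mem_Tor.1 hX, hκ0]
  obtain ⟨T', hT'⟩ := hA.surj (π ^ (t - 1 - r)) (pow_ne_zero _ D.pr.ne_zero) T''
  have hT'm : T' ∈ Tor act (π ^ t) := by
    have h4 : π ^ t = π ^ r * (π * π ^ (t - 1 - r)) := by
      rw [← pow_succ', ← pow_add]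
      congr 1
      omega
    rw [mem_Tor, h4, act_mul, act_mul, hT', h3, map_zero]
  refine ⟨T', hT'm, fun X hX => ?_⟩
  obtain ⟨X', hX'⟩ := hA.surj (cj π ^ (t - 1 - r)) (pow_ne_zero _ hcj0) X
  have hX'm : X' ∈ Tor act (cj π ^ t) := by
    have h4 : cj π ^ t = cj π ^ (r + 1) * cj π ^ (t - 1 - r) := by
      rw [← pow_add]
      congr 1
      omega
    rw [mem_Tor, h4, act_mul, hX', mem_Tor.1 hX]
  have h5 := he.adj (cj π ^ (t - 1 - r)) X' hX'm T' hT'm
  have h6 : cj (cj π ^ (t - 1 - r)) = π ^ (t - 1 - r) := by rw [map_pow, cj_cj]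
  rw [hX', h6, hT', h2 X' hX'm] at h5
  rw [h5]
  show κ (act (cj π ^ (t - 1)) X') = κ (act (cj π ^ r) X)
  have h7 : cj π ^ (t - 1) = cj π ^ (r + (t - 1 - r)) := by
    congr 1
    omega
  rw [← hX', ← act_mul, ← pow_add, h7]

theorem ka12_mono {β : 𝓞 F} {r t : ℕ} (h : r ≤ t) {X : Pt (WAB A B) Ω} (hX : X ∈ Tor act (β ^ r)) : X ∈ Tor act (β ^ t) := by
  obtain ⟨u, rfl⟩ := Nat.exists_eq_add_of_le h
  rw [mem_Tor, pow_add, mul_comm, act_mul, mem_Tor.1 hX, map_zero]

/-- Chunk KA12b (M). LEVEL t. PROOF by induction on r ≤ t for cocycles c on the decomposition group with values in Tor act (cj π ^ r). r = 0: c = 0. r + 1: c₁ = act (cj π ^ r) ∘ c has values in Tor act (cj π); lc_one for c₁: for κ : Tor act (cj π) → roots of unity, the function X ↦ κ (act (cj π ^ r) X) on Tor act (cj π ^ (r + 1)) is additive and killed by l; it extends to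
a character of Tor act (cj π ^ t) (finite group killed by l ^ t; H13T.ta_ext or MonoidHom.domRestrict_surjective), which is X ↦ e X T' for some T' in Tor act (π ^ t) (pt_surj'); h for T' gives z. So c₁ s = s P₁ - P₁, P₁ = act (cj π ^ r) P₂ (CMA.surj); c₂ s = c s - (s P₂ - P₂) is a cocycle with values in Tor act (cj π ^ r), continuous (P₂ has coordinates in a finite
extension: lp_fin, lp_adj), s P₂ - P₂ = c s - c₂ s is in Tor act (cj π ^ t), so nv_t applies to P₂: the condition h holds for c₂ with z / z₂ (sub_left; the inertia elements are in the decomposition group over N: Nb.dec). Induction: c₂ s = s P₃ - P₃, P = P₂ + P₃. -/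
theorem lc_all (D : Dat A B Om j act mo ψ π l) (hs : ¬ π ∣ cj π) [NumberField N] (hN : Nb l N) (he : PT A B act π l t e) (hV : vo V (cj π) < 1)
    (r : ℕ) (hrt : r ≤ t) (c : (Ω ≃ₐ[F] Ω) → Pt (WAB A B) Ω) (hm : ∀ s, DecN N V s → ∀ s', DecN N V s' → c (s * s') = c s + ac (WAB A B) s (c s'))
    (hv : ∀ s, DecN N V s → c s ∈ Tor act (cj π ^ r)) (hcc : DCt N V c)
    (h : ∀ T ∈ Tor act (π ^ t), ∃ z : Ω, z ≠ 0 ∧ (∀ s, Inert V s → s z = e (c s) T * z) ∧ ∃ k : ℤ, V.valuation z = V.valuation (l : Ω) ^ k) :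
    ∃ P : Pt (WAB A B) Ω, ∀ s, DecN N V s → c s = ac (WAB A B) s P - P := by
  have hA := D.cma
  have hcj0 : cj π ≠ 0 := (cj_prime D.pr).ne_zero
  have hl0 : l ≠ 0 := D.hl.ne_zero
  have hVl : V.valuation (l : Ω) < 1 := H55K.S.val_l D.conj.dvd (fun V x => vo_le V x) V hV
  have hID : ∀ s : Ω ≃ₐ[F] Ω, Inert V s → DecN N V s := fun s hs => hN.dec hVl hs
  induction r generalizing c with
  | zero =>
    refine ⟨0, fun s hs => ?_⟩
    have h1 := mem_Tor.1 (hv s hs)
    rw [pow_zero, act_one] at h1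
    rw [h1, map_zero, sub_zero]
  | succ r ih =>
    have hDc : Dc act π N V (fun s => act (cj π ^ r) (c s)) := ⟨fun s hs s' hs' => by
      show act (cj π ^ r) (c (s * s')) = act (cj π ^ r) (c s) + ac (WAB A B) s (act (cj π ^ r) (c s'))
      rw [hm s hs s' hs', map_add, ac_act hA], fun s hs => by
      show act (cj π) (act (cj π ^ r) (c s)) = 0
      rw [← act_mul, ← pow_succ']
      exact hv s hs⟩
    obtain ⟨M, hM, hM0⟩ := hcc
    obtain ⟨P₁, hP₁⟩ := lc_one D hs hN hV hDc ⟨M, hM, fun s hs hsM => by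
        show act (cj π ^ r) (c s) = 0
        rw [hM0 s hs hsM, map_zero]⟩ (fun κ hκ hadd => by
      obtain ⟨T, hT, hTκ⟩ := ka12_char D he (Nat.lt_of_succ_le hrt) κ hκ hadd
      obtain ⟨z, hz0, hz1, hk⟩ := h T hT
      refine ⟨z, hz0, fun s hs => ?_, hk⟩
      rw [hz1 s hs, hTκ _ (hv s (hID s hs))])
    obtain ⟨P₂, hP₂⟩ := hA.surj (cj π ^ r) (pow_ne_zero _ hcj0) P₁
    have hv2 : ∀ s, DecN N V s → c s - (ac (WAB A B) s P₂ - P₂) ∈ Tor act (cj π ^ r) := fun s hs => by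
      rw [mem_Tor, map_sub, map_sub, ← ac_act hA, hP₂, ← hP₁ s hs]
      exact sub_self _
    have hP2 : ∀ s, DecN N V s → ac (WAB A B) s P₂ - P₂ ∈ Tor act (cj π ^ t) := fun s hs => by
      have h1 : ac (WAB A B) s P₂ - P₂ = c s - (c s - (ac (WAB A B) s P₂ - P₂)) := by abel
      rw [h1]
      exact sub_mem (ka12_mono hrt (hv s hs)) (ka12_mono (by omega) (hv2 s hs))
    obtain ⟨P₃, hP₃⟩ := ih (by omega) (fun s => c s - (ac (WAB A B) s P₂ - P₂)) (fun s hs s' hs' => by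
        show c (s * s') - (ac (WAB A B) (s * s') P₂ - P₂) = _
        rw [hm s hs s' hs', ac_mul, map_sub, map_sub]
        abel) hv2 (by
        have hf := lp_fin P₂
        refine ⟨M ⊔ IntermediateField.adjoin F {xc P₂, yc P₂}, inferInstance, fun s hs hsM => ?_⟩
        rw [IntermediateField.fixingSubgroup_sup, Subgroup.mem_inf] at hsM
        show c s - (ac (WAB A B) s P₂ - P₂) = 0
        rw [hM0 s hs hsM.1, lp_adj s P₂ hsM.2, sub_self, sub_zero]) (fun T hT => by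
        obtain ⟨z, hz0, hz1, k, hk⟩ := h T hT
        obtain ⟨z₂, hz₂, hz₂1⟩ := nv_t D hs hN he hV hP2 hT
        have hz₂0 : z₂ ≠ 0 := by
          rintro rfl
          rw [map_zero] at hz₂
          exact zero_ne_one hz₂
        refine ⟨z / z₂, div_ne_zero hz0 hz₂0, fun s hs => ?_, k, ?_⟩
        · show s (z / z₂) = e (c s - (ac (WAB A B) s P₂ - P₂)) T * (z / z₂)
          rw [map_div₀, hz1 s hs, hz₂1 s hs, he.sub_left hl0 (ka12_mono hrt (hv s (hID s hs))) (hP2 s (hID s hs)) hT]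
          exact mul_div_mul_comm _ _ _ _
        · rw [map_div₀, hz₂, div_one, hk])
    refine ⟨P₂ + P₃, fun s hs => ?_⟩
    have h1 : c s - (ac (WAB A B) s P₂ - P₂) = ac (WAB A B) s P₃ - P₃ := hP₃ s hs
    rw [map_add, sub_eq_iff_eq_add.1 h1]
    abel

end H13V
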