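import Mathlib
import Pool.Agent.Lib.H13V.KD
import Pool.Agent.Lib.H13X.XG2
import Pool.Agent.Lib.H13S.IN4

/-! # H13V, module KUM, chunk KA9: zero on inertia outside l and w; above w over the extension -/

open NumberField IsDedekindDomain WeierstrassCurve

namespace H13V

open H55P (IQ embF eF LF Per IsHecke Pt ac Inert Dec Nm Coc PExt UnrP Ram RamF SelZero)
open H35P (WAB Ker tt)
open H55K (Tor ak xc yc CMA Dta GV GMod cj cj_cj mul_cj cj_prime cj_dvd cj_nat Nm_cj Nm_mul Nm_nat tor_gen Lft TFld exists_lft)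
open H55K.S
open H55R (Pl ord smulP)
open H13S (Abv)
open H13X
open H13Y (guN SU)
open H19B (DN mem_DN CS mem_CS)

variable {F : Type} [Field F] [NumberField F] [IQ F] {A B : F} {Om : ℂ} {Ω : Type} [Field Ω] [DecidableEq Ω]
  [Algebra F Ω] [IsAlgClosure F Ω] {j : Ω →+* ℂ} {act : 𝓞 F →+* AddMonoid.End (Pt (WAB A B) Ω)} {mo : Ideal (𝓞 F)}
  {ψ : Ideal (𝓞 F) →*₀ 𝓞 F} {π : 𝓞 F} {l t : ℕ} {e : Pt (WAB A B) Ω → Pt (WAB A B) Ω → Ω} {N L N' : IntermediateField F Ω}
  {c : (Ω ≃ₐ[F] Ω) → Pt (WAB A B) Ω} {V : ValuationSubring Ω}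

omit [NumberField F] [IQ F] [DecidableEq Ω] [IsAlgClosure F Ω] in
theorem ka9_unr [CharZero Ω] (V : ValuationSubring Ω) (hl : l.Prime) (hV : V.valuation (l : Ω) = 1) {x y : Ω} (hy : y ≠ 0)
    (hxy : V.valuation y = V.valuation x) {s : Ω ≃ₐ[F] Ω} (hs : Inert V s) (h1 : s x = x) :
    ∀ r : ℕ, s (y ^ l ^ r) = y ^ l ^ r → s y = y := by
  intro r
  induction r with
  | zero => intro h; rwa [pow_zero, pow_one] at h
  | succ r ih =>
    intro h
    rw [pow_succ, pow_mul] at h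
    refine ih (H13Z.unr_val V hl hV (pow_ne_zero _ hy) (x := x ^ l ^ r) ?_ hs ?_ h)
    · rw [map_pow, map_pow, hxy]
    · rw [map_pow, h1]

/-- Chunk KA9 (M, two theorems). PROOF of ut_out (model: H19C.kr_inert, Lib/H19C/GK.lean, or H13X.Gl.inert): for T take y of UT: s y = ξ y with ξ = e (c s) T, ξ ^ l ^ t = 1, V y = 1 and the value of s y - y is < 1 (Inert), so V (ξ - 1) < 1; V (l ^ t) = 1, so ξ = 1 (geometric sum; H13S / H55K have the lemma for l-th roots of unity: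
if ξ ≠ 1 take the power ξ' = ξ ^ l ^ i which is a primitive l-th root of unity; V (ξ' - 1) < 1 as well). nondeg: c s = 0. -/
theorem ut_out (D : Dat A B Om j act mo ψ π l) (he : PT A B act π l t e) [NumberField N] (w : Pl N) (hu : UT act π t L w e c) (hl : V.valuation (l : Ω) = 1)
    (hw : ¬ Abv N V w) {s : Ω ≃ₐ[F] Ω} (hi : Inert V s) (hs : s ∈ L.fixingSubgroup) (hc : c s ∈ Tor act (cj π ^ t)) : c s = 0 := by
  have hchar : CharZero Ω := charZero_of_injective_algebraMap (algebraMap F Ω).injective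
  refine he.nondeg (c s) hc fun T hT => ?_
  obtain ⟨y, hy0, hy, hyV⟩ := hu T hT
  have hv : V.valuation y = V.valuation (1 : Ω) := by rw [hyV V hw, map_one]
  have hpow : s (y ^ l ^ t) = y ^ l ^ t := by
    rw [map_pow, hy s hs, mul_pow, he.root _ hc T hT, one_mul]
  have hsy := ka9_unr V D.hl hl hy0 hv hi (map_one s) t hpow
  have h3 := hy s hs
  rw [hsy] at h3
  exact mul_right_cancel₀ hy0 (by rw [one_mul]; exact h3.symm)

/-- PROOF of ut_kill (model: H19C.kill_w, Lib/H19C/GK.lean line 152). s fixes the points killed by l ^ t (hfx; Inert.dec), so s is in L.fixingSubgroup, as all inertia elements of N.fixingSubgroup at V. u = y ^ l ^ t is fixed by L.fixingSubgroup, so V u = V a with a in N, a ≠ 0 (H13S.value_fixed). x in N' with V x ^ l ^ t = V a (hx), z = y / x,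
V z = 1; z ^ l ^ t = u / x ^ l ^ t; s fixes x (N') and s z = ξ z with ξ = e (c s) T; V (s z - z) < 1 (Inert), so V (ξ - 1) < 1 and ξ = 1 as before. -/
theorem ut_kill (D : Dat A B Om j act mo ψ π l) (he : PT A B act π l t e) [NumberField N] (hL : IsTB act (π ^ t) N L) (w : Pl N) (hu : UT act π t L w e c)
    (hc : c ∈ CS N.fixingSubgroup act (cj π ^ t)) (hl : V.valuation (l : Ω) = 1)
    (hfx : ∀ s, DecN N V s → ∀ T : Pt (WAB A B) Ω, l ^ t • T = 0 → ac (WAB A B) s T = T) (hNN : N ≤ N')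
    (hx : ∀ a ∈ N, a ≠ 0 → ∃ x ∈ N', V.valuation x ^ l ^ t = V.valuation a) {s : Ω ≃ₐ[F] Ω} (hs : s ∈ N'.fixingSubgroup) (hi : Inert V s) :
    c s = 0 := by
  have hchar : CharZero Ω := charZero_of_injective_algebraMap (algebraMap F Ω).injective
  have htor : ∀ T ∈ Tor act (π ^ t), l ^ t • T = 0 := by
    intro T hT
    have h1 : T ∈ Tor act (((l ^ t : ℕ) : 𝓞 F)) :=
      H55K.tor_dvd (by rw [Nat.cast_pow]; exact pow_dvd_pow_of_dvd D.dvd t) hT
    have h2 : act (((l ^ t : ℕ) : 𝓞 F)) T = 0 := h1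
    rwa [H55K.S.act_nat] at h2
  have hfix : ∀ s : Ω ≃ₐ[F] Ω, s ∈ N.fixingSubgroup → Inert V s → s ∈ L.fixingSubgroup :=
    fun s hs hi => (hL.fix s).2 ⟨hs, fun T hT => hfx s ⟨hs, H55P.inert_dec V s hi⟩ T (htor T hT)⟩
  have hsN : s ∈ N.fixingSubgroup := IntermediateField.fixingSubgroup_antitone hNN hs
  have hsL := hfix s hsN hi
  have hval : ∀ s ∈ N.fixingSubgroup, c s ∈ Tor act (cj π ^ t) := fun s hs => ((mem_CS _ _ c).1 hc).tor s hs
  refine he.nondeg (c s) (hval s hsN) fun T hT => ?_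
  obtain ⟨y, hy0, hy, -⟩ := hu T hT
  have hpow : ∀ s ∈ L.fixingSubgroup, s (y ^ l ^ t) = y ^ l ^ t := fun s hs => by
    rw [map_pow, hy s hs, mul_pow, he.root _ (hval s (hL.mono hs)) T hT, one_mul]
  obtain ⟨a, ha0, ha⟩ := H13S.value_fixed N V (y ^ l ^ t) (pow_ne_zero _ hy0)
    (fun s hs hi => hpow s (hfix s hs hi))
  obtain ⟨x, hxN, hxa⟩ := hx (a : Ω) a.2 (fun h => ha0 (Subtype.ext h))
  rw [← hxa, map_pow] at ha
  have hxy : V.valuation y = V.valuation x :=
    (pow_left_inj₀ zero_le zero_le (pow_ne_zero _ D.hl.ne_zero)).1 ha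
  have hsy : s y = y := ka9_unr V D.hl hl hy0 hxy hi
    ((IntermediateField.mem_fixingSubgroup_iff N' s).1 hs x hxN) t (hpow s hsL)
  have h3 := hy s hsL
  rw [hsy] at h3
  exact mul_right_cancel₀ hy0 (by rw [one_mul]; exact h3.symm)

end H13V
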