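import Mathlib
import Pool.Agent.Lib.H13V.KA9
import Pool.Agent.Lib.H13V.KA10
import Pool.Agent.Lib.H13V.KA12
import Pool.Agent.Lib.H13V.KA5
import Pool.Agent.Lib.H13T.U2

/-! # H13V, module KUM, chunk KA13: all local conditions outside w and π; the classes which vanish at τ -/

open NumberField IsDedekindDomain WeierstrassCurve

namespace H13V

open H55P (IQ embF eF LF Per IsHecke Pt ac Inert Dec Nm Coc PExt UnrP Ram RamF SelZero)
open H35P (WAB Ker tt)
open H55K (Tor ak xc yc CMA Dta GV GMod cj cj_cj mul_cj cj_prime cj_dvd cj_nat Nm_cj Nm_mul Nm_nat tor_gen Lft TFld exists_lft)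
open H55K.S
open H55R (Pl ord smulP)
open H13S (Abv)
open H13X
open H13Y (guN SU)
open H19B (DN mem_DN CS mem_CS)

variable {F : Type} [Field F] [NumberField F] [IQ F] {A B : F} {Om : ℂ} {Ω : Type} [Field Ω] [DecidableEq Ω]
  [Algebra F Ω] [IsAlgClosure F Ω] {j : Ω →+* ℂ} {act : 𝓞 F →+* AddMonoid.End (Pt (WAB A B) Ω)} {mo : Ideal (𝓞 F)}
  {ψ : Ideal (𝓞 F) →*₀ 𝓞 F} {π : 𝓞 F} {l t : ℕ} {e : Pt (WAB A B) Ω → Pt (WAB A B) Ω → Ω} {N L N' : IntermediateField F Ω}
  {c : (Ω ≃ₐ[F] Ω) → Pt (WAB A B) Ω} {V : ValuationSubring Ω}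

/-- SelZero at level l ^ k. -/
theorem ka13_sel (hA : CMA F A B Om j act) (hl : l ≠ 0) (hS : SelZero (WAB A B) l N) (k : ℕ) :
    ∀ c : (Ω ≃ₐ[F] Ω) → Pt (WAB A B) Ω, Coc (WAB A B) N c → (∀ s ∈ N.fixingSubgroup, l ^ k • c s = 0) →
    (∀ V : ValuationSubring Ω, ∃ P : Pt (WAB A B) Ω, ∀ s ∈ N.fixingSubgroup, Inert V s → c s = ac (WAB A B) s P - P) →
    ∃ T : Pt (WAB A B) Ω, l ^ k • T = 0 ∧ ∀ s ∈ N.fixingSubgroup, c s = ac (WAB A B) s T - T := by
  induction k with
  | zero =>
    intro c _ hk _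
    refine ⟨0, smul_zero _, fun s hs => ?_⟩
    have h1 := hk s hs
    rw [pow_zero, one_smul] at h1
    rw [h1, map_zero, sub_zero]
  | succ k ih =>
    intro c hc hk hloc
    obtain ⟨M, hM, hMc⟩ := hc.cont
    obtain ⟨T, hT, h1⟩ := hS (fun s => l ^ k • c s)
      ⟨fun s hs t ht => by
        show l ^ k • c (s * t) = l ^ k • c s + ac (WAB A B) s (l ^ k • c t)
        rw [hc.mul s hs t ht, smul_add, map_nsmul],
       M, hM, fun s hs hsM => by
        show l ^ k • c s = 0
        rw [hMc s hs hsM, smul_zero]⟩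
      (fun s hs => by
        show l • l ^ k • c s = 0
        rw [← mul_smul, ← pow_succ']
        exact hk s hs)
      (fun V => by
        obtain ⟨P, hP⟩ := hloc V
        exact ⟨l ^ k • P, fun s hs hsv => by
          show l ^ k • c s = _
          rw [hP s hs hsv, smul_sub, map_nsmul]⟩)
    obtain ⟨T', hT'⟩ := hA.surj ((l : 𝓞 F) ^ k) (pow_ne_zero _ (Nat.cast_ne_zero.2 hl)) T
    rw [← Nat.cast_pow, act_nat (act := act)] at hT'
    obtain ⟨T'', hT'', h3⟩ := ih (fun s => c s - (ac (WAB A B) s T' - T'))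
      ⟨fun s hs t ht => by
        show c (s * t) - (ac (WAB A B) (s * t) T' - T') =
          c s - (ac (WAB A B) s T' - T') + ac (WAB A B) s (c t - (ac (WAB A B) t T' - T'))
        rw [hc.mul s hs t ht, ac_mul, map_sub, map_sub]
        abel,
       M ⊔ IntermediateField.adjoin F {xc T', yc T'}, by
        have := lp_fin T'
        exact IntermediateField.finiteDimensional_sup _ _, fun s hs hsM => by
        rw [IntermediateField.fixingSubgroup_sup] at hsM
        show c s - (ac (WAB A B) s T' - T') = 0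
        rw [hMc s hs hsM.1, lp_adj s T' hsM.2, sub_self, sub_zero]⟩
      (fun s hs => by
        show l ^ k • (c s - (ac (WAB A B) s T' - T')) = 0
        have h2 : l ^ k • c s = ac (WAB A B) s T - T := h1 s hs
        rw [smul_sub, smul_sub, ← map_nsmul, hT', h2, sub_self])
      (fun V => by
        obtain ⟨P, hP⟩ := hloc V
        exact ⟨P - T', fun s hs hsv => by
          show c s - (ac (WAB A B) s T' - T') = _
          rw [hP s hs hsv, map_sub]
          abel⟩)
    refine ⟨T' + T'', ?_, fun s hs => ?_⟩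
    · rw [pow_succ', mul_smul, smul_add, hT', hT'', add_zero, hT]
    · have h4 : c s - (ac (WAB A B) s T' - T') = ac (WAB A B) s T'' - T'' := h3 s hs
      rw [sub_eq_iff_eq_add] at h4
      rw [h4, map_add]
      abel

/-- Chunk KA13a (S/M). PROOF. V ≠ ⊤, v below V (xg3_below). If V l = 1: loc_zero_t, ut_out (s in Ht is in L.fixingSubgroup: IsTB.fix, tor_lt). If V l < 1 and vo V π = 1: then the case is split (in the inert case π is associated to l) and vo V (cj π) < 1: lc_all with r = t; the condition h: y of UT has V y = 1 = V l ^ 0 (V is not above w: V l < 1 and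
l is not in w: H13X.yg2_unit), inertia elements at V are in L.fixingSubgroup (Nb.inert, inert_tors for π ^ t). -/
theorem ut_loc (D : Dat A B Om j act mo ψ π l) (he : PT A B act π l t e) [NumberField N] (hN : Nb l N) (hL : IsTB act (π ^ t) N L) {w : Pl N}
    (hlw : (l : 𝓞 N) ∉ w.asIdeal) (hc : c ∈ CS N.fixingSubgroup act (cj π ^ t)) (hu : UT act π t L w e c) (hVt : V ≠ ⊤)
    (hw : ¬ Abv N V w) (hV : vo V π = 1) : ∃ P : Pt (WAB A B) Ω, ∀ s ∈ N.fixingSubgroup, Dec V s → c s = ac (WAB A B) s P - P := by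
  have C : H19B.Cc N.fixingSubgroup act (cj π ^ t) c := hc
  by_cases hlV : V.valuation (l : Ω) < 1
  · rcases dichotomy D.hl D.dta.unr D.pr D.dvd with ⟨-, -, h3⟩ | ⟨hs, -, -, hll⟩
    · exfalso
      obtain ⟨u, hu'⟩ := h3
      have h1 : vo V π = vo V (l : 𝓞 F) * vo V (u : 𝓞 F) := by rw [← hu', vo_mul]
      rw [hV, vo_nat] at h1
      have h2 : V.valuation (l : Ω) * vo V (u : 𝓞 F) < 1 := lt_of_le_of_lt (mul_le_of_le_one_right' (vo_le V _)) hlV
      exact absurd h1 (ne_of_gt h2)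
    · have hVc : vo V (cj π) < 1 := by
        have h1 : vo V π * vo V (cj π) = V.valuation (l : Ω) := by rw [← vo_mul, hll, vo_nat]
        rw [hV, one_mul] at h1
        rw [h1]
        exact hlV
      obtain ⟨M, hM, hMc⟩ := C.cont
      have hVt' : vo V (π ^ t) = 1 := by rw [vo_pow, hV, one_pow]
      obtain ⟨P, hP⟩ := lc_all D hs hN he hVc t le_rfl c
        (fun s hs s' hs' => C.mul s hs.1 s' hs'.1) (fun s hs => mem_Tor.2 (C.tor s hs.1))
        ⟨M, hM, fun s hs hsM => hMc s hs.1 hsM⟩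
        (fun T hT => by
          obtain ⟨y, hy0, hy, hyV⟩ := hu T hT
          refine ⟨y, hy0, fun s hsi => hy s ((hL.fix s).2 ⟨hN.inert V hlV s hsi, fun T' hT' => ?_⟩), 0, ?_⟩
          · exact inert_tors D.cma (D.dta.good V hlV) hVt' hsi hT'
          · rw [hyV V hw, zpow_zero])
      exact ⟨P, fun s hs hsD => hP s ⟨hs, hsD⟩⟩
  · have hlV1 : V.valuation (l : Ω) = 1 := by
      apply le_antisymm _ (not_lt.1 hlV)
      have h1 := vo_le V (l : 𝓞 F)
      rwa [vo_nat] at h1
    obtain ⟨v, hv⟩ := xg3_below (F := F) N hVt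
    exact loc_zero_t D hc hv hlV1 fun s hs hj =>
      ut_out D he w hu hlV1 hw hj ((hL.fix s).2 ⟨hs.1, fun T hT => hs.2 T (tor_lt D (Or.inl hT))⟩)
        (mem_Tor.2 (C.tor s hs.1))

/-- Chunk KA13b (M). PROOF (model: the end of H13T.e_one, Lib/H13T/E1.lean). First c = 0 on the inertia elements of N.fixingSubgroup at V₀: s = τ ^ k u with u in N'.fixingSubgroup inertial (hgen), c (τ ^ k) = 0 (H13T.coc_pow), ut_kill. By conjugation (trans_V, H13T.coc_conj) c is a coboundary on inertia at every V above w. At V not above w and not above π: ut_loc;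
V above π: hπ (only for V ≠ ⊤; for V = ⊤ inertia is trivial, see e_one). So c, killed by l ^ t (tor_lt), is locally a coboundary on all inertia groups; SelZero at level l ^ t: H13T.pow_sel (Lib/H13T/U2.lean; see Lib/H13T or Lib/H13V/U*.lean for the translation of SelZero into SelA) or directly by induction on t: l ^ (t - 1) c is killed by l and locally trivial, so
l ^ (t - 1) c s = s T - T with l T = 0, T = l ^ (t - 1) T', c - (s T' - T') is killed by l ^ (t - 1) and locally trivial. Result: c s = s T - T with l ^ t T = 0. T may be replaced by its component in Tor act (cj π ^ t): in the split case 1 = x π ^ t + y cj π ^ t, act (x π ^ t) (c s) = c s for c s in Tor act (cj π ^ t), so c s = s T₁ - T₁ with T₁ = act (x π ^ t) T, killed by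
cj π ^ t; inert case: nothing to do. -/
theorem ut_sel (D : Dat A B Om j act mo ψ π l) (he : PT A B act π l t e) [NumberField N] (hN : Nb l N) (hL : IsTB act (π ^ t) N L) {w : Pl N}
    (hlw : (l : 𝓞 N) ∉ w.asIdeal) (hc : c ∈ CS N.fixingSubgroup act (cj π ^ t)) (hu : UT act π t L w e c) (hS : SelZero (WAB A B) l N)
    (hfx : ∀ V : ValuationSubring Ω, Abv N V w → ∀ s, DecN N V s → ∀ T : Pt (WAB A B) Ω, l ^ t • T = 0 → ac (WAB A B) s T = T)
    {V₀ : ValuationSubring Ω} (hV₀ : Abv N V₀ w) {τ : Ω ≃ₐ[F] Ω} (hτ : τ ∈ N.fixingSubgroup)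
    (hi : Inert V₀ τ) (hNN : N ≤ N') (hgen : ∀ s ∈ N.fixingSubgroup, Inert V₀ s → ∃ k : ℕ, (τ ^ k)⁻¹ * s ∈ N'.fixingSubgroup)
    (hram : ∀ a ∈ N, a ≠ 0 → ∃ x ∈ N', V₀.valuation x ^ l ^ t = V₀.valuation a)
    (hπ : ∀ V : ValuationSubring Ω, V ≠ ⊤ → vo V π < 1 → ∃ P : Pt (WAB A B) Ω, ∀ s ∈ N.fixingSubgroup, Dec V s → c s = ac (WAB A B) s P - P)
    (h0 : c τ = 0) : ∃ X ∈ Tor act (cj π ^ t), ∀ s ∈ N.fixingSubgroup, c s = ac (WAB A B) s X - X := by
  have C : H19B.Cc N.fixingSubgroup act (cj π ^ t) c := hc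
  have hlV₀ : V₀.valuation (l : Ω) = 1 := by
    have h1 := yg2_unit hV₀ (l : 𝓞 N) hlw
    simpa using h1
  have hkill : ∀ s ∈ N'.fixingSubgroup, Inert V₀ s → c s = 0 := fun s hs hsi =>
    ut_kill D he hL w hu hc hlV₀ (hfx V₀ hV₀) hNN hram hs hsi
  have h00 : ∀ s ∈ N.fixingSubgroup, Inert V₀ s → c s = 0 := by
    intro s hs hsi
    obtain ⟨k, hk⟩ := hgen s hs hsi
    have hki : Inert V₀ (τ ^ k) := by
      clear hk
      induction k with
      | zero =>
        intro x hx
        rw [pow_zero, AlgEquiv.one_apply, sub_self, map_zero]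
        exact zero_lt_one
      | succ k ih =>
        rw [pow_succ]
        exact lcb_mul ih hi
    have hu' : Inert V₀ ((τ ^ k)⁻¹ * s) := lcb_mul (lcb_inv hki) hsi
    have h1 := C.mul (τ ^ k) (Subgroup.pow_mem _ hτ k) ((τ ^ k)⁻¹ * s)
      (mul_mem (inv_mem (Subgroup.pow_mem _ hτ k)) hs)
    rw [mul_inv_cancel_left, H13T.coc_pow C.mul hτ h0 k, hkill _ hk hu', map_zero, add_zero] at h1
    exact h1
  have hall : ∀ V : ValuationSubring Ω, ∃ P : Pt (WAB A B) Ω, ∀ s ∈ N.fixingSubgroup, Inert V s → c s = ac (WAB A B) s P - P := by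
    intro V
    by_cases hVw : Abv N V w
    · obtain ⟨σ, hσN, hσ⟩ := trans_V N hV₀ hVw
      exact ⟨- c σ, fun s hs hsi => H13T.coc_conj C.mul hσN hs (h00 _ (mul_mem (mul_mem (inv_mem hσN) hs) hσN)
        (H13T.inert_conj hσ hsi))⟩
    · by_cases hVt : V = ⊤
      · subst hVt
        refine ⟨0, fun s hs hsi => ?_⟩
        have h1 : s = 1 := by
          ext x
          by_contra hx
          have h2 := hsi x (ValuationSubring.mem_top x)
          have h3 : s x - x ≠ 0 := sub_ne_zero.2 hx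
          have h4 : (⊤ : ValuationSubring Ω).valuation (s x - x)⁻¹ ≤ 1 :=
            ((⊤ : ValuationSubring Ω).valuation_le_one_iff _).2 (ValuationSubring.mem_top _)
          rw [map_inv₀, inv_le_one₀ (zero_lt_iff.2 ((map_ne_zero _).2 h3))] at h4
          exact absurd h2 (not_lt.2 h4)
        have h5 : c 1 = 0 := by
          have h6 := C.mul 1 (Subgroup.one_mem _) 1 (Subgroup.one_mem _)
          rw [mul_one, H55K.S.ac_one] at h6
          exact left_eq_add.mp h6
        rw [h1, map_zero, sub_zero]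
        exact h5
      · by_cases hVp : vo V π < 1
        · obtain ⟨P, hP⟩ := hπ V hVt hVp
          exact ⟨P, fun s hs hsi => hP s hs (Inert.dec hsi)⟩
        · obtain ⟨P, hP⟩ := ut_loc D he hN hL hlw hc hu hVt hVw (le_antisymm (vo_le V π) (not_lt.1 hVp))
          exact ⟨P, fun s hs hsi => hP s hs (Inert.dec hsi)⟩
  obtain ⟨T, hT, hcT⟩ := ka13_sel D.cma D.hl.ne_zero hS t c ⟨C.mul, C.cont⟩
    (fun s hs => tor_lt D (Or.inr (mem_Tor.2 (C.tor s hs)))) hall
  have hlT : act ((l : 𝓞 F) ^ t) T = 0 := by rw [← Nat.cast_pow, act_nat (act := act), hT]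
  rcases dichotomy D.hl D.dta.unr D.pr D.dvd with ⟨h1, -, h3⟩ | ⟨h1, -, -, hll⟩
  · refine ⟨T, ?_, hcT⟩
    rw [tor_assoc (h1.pow_pow (n := t)), ← tor_assoc (h3.pow_pow (n := t)), mem_Tor]
    exact hlT
  · have hcop : IsCoprime (π ^ t) (cj π ^ t) := ((D.pr.irreducible.coprime_iff_not_dvd).2 h1).pow
    obtain ⟨u, v, huv⟩ := hcop
    have hX : act (u * π ^ t) T ∈ Tor act (cj π ^ t) := by
      rw [mem_Tor, ← act_mul]
      have h6 : cj π ^ t * (u * π ^ t) = u * (l : 𝓞 F) ^ t := by rw [← hll, mul_pow]; ring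
      rw [h6, act_mul, hlT, map_zero]
    refine ⟨act (u * π ^ t) T, hX, fun s hs => ?_⟩
    have h3 : act (u * π ^ t) (c s) = c s := by
      have h4 : act (v * cj π ^ t) (c s) = 0 := by
        rw [act_mul, C.tor s hs, map_zero]
      have h5 : act (u * π ^ t + v * cj π ^ t) (c s) = c s := by rw [huv, act_one]
      rw [act_add, h4, add_zero] at h5
      exact h5
    rw [ac_act D.cma, ← map_sub, ← hcT s hs, h3]

end H13V
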