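import Mathlib
import Pool.Agent.Lib.H19T.DV
import Pool.Agent.Lib.H19C.GI
import Pool.Agent.Lib.SSN.LI
import Pool.Agent.Lib.H13X.XN1

/-! # H13V, KL1: the local index at level t above π (PROOF.md 3.5(c)); the global index is in KL2 -/

open NumberField IsDedekindDomain WeierstrassCurve

namespace H13V

open H55P (IQ embF eF LF Per IsHecke Pt ac acR Inert Dec Nm Coc PExt UnrP Ram RamF SelZero)
open H35P (WAB Ker tt)
open H55K (Tor ak xc yc CMA Dta GV GMod cj cj_cj mul_cj cj_prime cj_dvd cj_nat Nm_cj Nm_mul Nm_nat tor_gen)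
open H55K.S
open H13S (Abv)
open H13X
open H19B (DN mem_DN CS mem_CS)
open H19C (CL mem_CL)

variable {F : Type} [Field F] [NumberField F] [IQ F] {A B : F} {Om : ℂ} {Ω : Type} [Field Ω] [DecidableEq Ω]
  [Algebra F Ω] [IsAlgClosure F Ω] {j : Ω →+* ℂ} {act : 𝓞 F →+* AddMonoid.End (Pt (WAB A B) Ω)} {mo : Ideal (𝓞 F)}
  {ψ : Ideal (𝓞 F) →*₀ 𝓞 F} {π : 𝓞 F} {l : ℕ}

/-- c is on the decomposition group of V over N the coboundary of a point. -/
def LT (N : IntermediateField F Ω) (V : ValuationSubring Ω) (c : (Ω ≃ₐ[F] Ω) → Pt (WAB A B) Ω) : Prop :=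
  ∃ P : Pt (WAB A B) Ω, ∀ s, DecN N V s → c s = ac (WAB A B) s P - P

/-- The functions which are coboundaries of points at all V above π. -/
def LTp (A B : F) (π : 𝓞 F) (N : IntermediateField F Ω) : AddSubgroup ((Ω ≃ₐ[F] Ω) → Pt (WAB A B) Ω) where
  carrier := {c | ∀ V : ValuationSubring Ω, vo V π < 1 → LT N V c}
  zero_mem' := fun V _ => ⟨0, fun s _ => by rw [Pi.zero_apply, map_zero, sub_zero]⟩
  add_mem' := by
    rintro a b ha hb V hV
    obtain ⟨P, hP⟩ := ha V hV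
    obtain ⟨P', hP'⟩ := hb V hV
    refine ⟨P + P', fun s hs => ?_⟩
    rw [Pi.add_apply, hP s hs, hP' s hs, map_add]
    abel
  neg_mem' := by
    rintro a ha V hV
    obtain ⟨P, hP⟩ := ha V hV
    refine ⟨-P, fun s hs => ?_⟩
    rw [Pi.neg_apply, hP s hs, map_neg]
    abel

/-- The torsion condition depends only on the ideal. -/
theorem kl1_ass (D : Subgroup (Ω ≃ₐ[F] Ω)) {a b : 𝓞 F} (h : Associated a b) (act : 𝓞 F →+* AddMonoid.End (Pt (WAB A B) Ω)) :
    CS D act a = CS D act b ∧ CL D D act a = CL D D act b := by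
  have key : ∀ {a b : 𝓞 F}, Associated a b → ∀ c, H19B.Cc D act a c → H19B.Cc D act b c := by
    rintro a b ⟨u, hu⟩ c hc
    refine ⟨hc.mul, fun s hs => ?_, hc.cont⟩
    rw [← hu, mul_comm, H55K.S.act_mul, hc.tor s hs, map_zero]
  constructor
  · ext c
    exact ⟨key h c, key h.symm c⟩
  · ext c
    exact ⟨fun hc => ⟨key h c hc.1, hc.2⟩, fun hc => ⟨key h.symm c hc.1, hc.2⟩⟩

/-- Inertia above π moves the points killed by π. -/
theorem kl1_dl (D : Dat A B Om j act mo ψ π l) {N : IntermediateField F Ω} (hN : Nb l N) {V : ValuationSubring Ω} (hV : vo V π < 1) :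
    H19C.dl l (DN N V) act π = 1 := by
  have hVl : V.valuation (l : Ω) < 1 := H55K.S.val_l D.dvd (fun V x => vo_le V x) V hV
  obtain ⟨s, hs, h⟩ := moved_ram D.cma (D.dta.good V hVl) D.pr (xp_nm D).1 hV
  obtain ⟨T, hT, hT0⟩ := H55K.exists_tor D.cma D.pr
  unfold H19C.dl
  rw [if_neg]
  intro hcon
  exact hT0 (h T hT (hcon s ⟨hN.inert V hVl s hs, H55P.inert_dec V s hs⟩ T hT))

/-- THE LOCAL INDEX AT LEVEL t: H19C.loc_all (split) and SSN.loc_in (inert) with N' = N, b = 1 (H13X.unr_val), dl = 1 (inertia above π moves Tor π: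
H13X.moved_ram / kb7_inert), then H19T.dev_index. -/
theorem loc_lev (D : Dat A B Om j act mo ψ π l) {N : IntermediateField F Ω} [NumberField N] (hN : Nb l N) (hUN : UnrP l N)
    {v : HeightOneSpectrum (𝓞 N)} (hπ : algebraMap (𝓞 F) (𝓞 N) π ∈ v.asIdeal) {V : ValuationSubring Ω} (hv : Abv N V v) (t : ℕ) :
    (CL (DN N V) (DN N V) act (cj π ^ t)).relIndex (CS (DN N V) act (cj π ^ t)) ≠ 0 ∧
      (CL (DN N V) (DN N V) act (cj π ^ t)).relIndex (CS (DN N V) act (cj π ^ t)) ≤ Ideal.absNorm v.asIdeal ^ t := by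
  have hV : vo V π < 1 := (H19C.abv_mem hv π).2 hπ
  have hlv : (l : 𝓞 N) ∈ v.asIdeal := by
    obtain ⟨u, hu⟩ := D.dvd
    have h1 := congrArg (algebraMap (𝓞 F) (𝓞 N)) hu
    rw [map_natCast, map_mul] at h1
    rw [h1]
    exact Ideal.mul_mem_right _ _ hπ
  have key : (CL (DN N V) (DN N V) act (cj π)).relIndex (CS (DN N V) act (cj π)) ≠ 0 ∧
      (CL (DN N V) (DN N V) act (cj π)).relIndex (CS (DN N V) act (cj π)) ≤ Ideal.absNorm v.asIdeal := by
    rcases dichotomy D.hl D.dta.unr D.pr D.dvd with ⟨ha, hq, hl⟩ | ⟨hs, -, -, -⟩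
    · have hcl : Associated (l : 𝓞 F) (cj π) := hl.trans ha.symm
      have hD : Dat A B Om j act mo ψ (l : 𝓞 F) l := ⟨D.dta, hl.symm.prime D.pr, dvd_refl _⟩
      have hlV : vo V (l : 𝓞 F) < 1 := by
        obtain ⟨u, hu⟩ := D.dvd
        rw [hu, vo_mul]
        exact lt_of_le_of_lt (mul_le_of_le_one_right' (vo_le V u)) hV
      have hmem : algebraMap (𝓞 F) (𝓞 N) (l : 𝓞 F) ∈ v.asIdeal := by
        rw [map_natCast]
        exact hlv
      have h1 := SSN.loc_in hD (le_refl N) hlv hv Nat.one_pos (unr_val D.hl.ne_zero (dvd_refl _) hUN v hmem)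
      rw [kl1_dl hD hN hlV, one_pow, mul_one, pow_one, (kl1_ass (DN N V) hcl act).1, (kl1_ass (DN N V) hcl act).2] at h1
      exact h1
    · have h1 := H19C.loc_all D hs (le_refl N) hlv hv (b := 1)
        (Or.inl ⟨hπ, Nat.one_pos, unr_val D.hl.ne_zero D.dvd hUN v hπ⟩)
      rw [kl1_dl D hN hV, mul_one, pow_one] at h1
      exact h1
  obtain ⟨h1, h2⟩ := H19T.dev_index D.cma D.conj.pr.ne_zero (DN N V) key.1 t
  exact ⟨h1, h2.trans (Nat.pow_le_pow_left key.2 t)⟩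

end H13V
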