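import Mathlib
import Pool.Agent.Lib.H13V.KA13
import Pool.Agent.Lib.H13V.KB8
import Pool.Agent.Lib.H13V.KL1

/-! # H13V, KB9: classes which vanish on inertia above w (PROOF.md 3.6, first part) -/

open NumberField IsDedekindDomain WeierstrassCurve

namespace H13V

open H55P (IQ embF eF LF Per IsHecke Pt ac Inert Dec Nm Coc PExt UnrP Ram RamF SelZero)
open H35P (WAB Ker tt)
open H55K (Tor ak xc yc CMA Dta GV GMod cj cj_cj mul_cj cj_prime cj_dvd cj_nat Nm_cj Nm_mul Nm_nat tor_gen Abw)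
open H55K.S
open H55R (Pl ord smulP)
open H13S (Abv)
open H13X
open H13Y (guN SU)
open H19B (DN mem_DN CS mem_CS)

variable {F : Type} [Field F] [NumberField F] [IQ F] {A B : F} {Om : ℂ} {Ω : Type} [Field Ω] [DecidableEq Ω]
  [Algebra F Ω] [IsAlgClosure F Ω] {j : Ω →+* ℂ} {act : 𝓞 F →+* AddMonoid.End (Pt (WAB A B) Ω)} {mo : Ideal (𝓞 F)}
  {ψ : Ideal (𝓞 F) →*₀ 𝓞 F} {π : 𝓞 F} {l t : ℕ} {e : Pt (WAB A B) Ω → Pt (WAB A B) Ω → Ω} {N L N' : IntermediateField F Ω}
  {c : (Ω ≃ₐ[F] Ω) → Pt (WAB A B) Ω} {V : ValuationSubring Ω}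

/-- A class killed by l^k which is locally a coboundary on all inertia groups is a coboundary. -/
theorem kb9_sel (hA : CMA F A B Om j act) (hl0 : l ≠ 0) (hS : SelZero (WAB A B) l N) (k : ℕ) :
    ∀ c : (Ω ≃ₐ[F] Ω) → Pt (WAB A B) Ω, Coc (WAB A B) N c → (∀ s ∈ N.fixingSubgroup, l ^ k • c s = 0) →
      (∀ V : ValuationSubring Ω, ∃ P : Pt (WAB A B) Ω, ∀ s ∈ N.fixingSubgroup, Inert V s → c s = ac (WAB A B) s P - P) →
      ∃ T : Pt (WAB A B) Ω, l ^ k • T = 0 ∧ ∀ s ∈ N.fixingSubgroup, c s = ac (WAB A B) s T - T := by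
  induction k with
  | zero =>
    intro c _ hk _
    refine ⟨0, smul_zero _, fun s hs => ?_⟩
    have h1 := hk s hs
    rw [pow_zero, one_smul] at h1
    rw [h1, map_zero, sub_zero]
  | succ k ih =>
    intro c hc hk hloc
    have hlk : (((l ^ k : ℕ) : 𝓞 F)) ≠ 0 := Nat.cast_ne_zero.2 (pow_ne_zero _ hl0)
    obtain ⟨T, hT, h1⟩ := hS (fun s => l ^ k • c s) ⟨fun s hs s' hs' => by
        show l ^ k • c (s * s') = l ^ k • c s + ac (WAB A B) s (l ^ k • c s')
        rw [hc.mul s hs s' hs', smul_add, map_nsmul], by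
        obtain ⟨M, hM, h2⟩ := hc.cont
        exact ⟨M, hM, fun s hs hsM => by
          show l ^ k • c s = 0
          rw [h2 s hs hsM, smul_zero]⟩⟩ (fun s hs => by
        show l • l ^ k • c s = 0
        rw [← mul_smul, ← pow_succ']
        exact hk s hs) (fun V => by
        obtain ⟨P, hP⟩ := hloc V
        exact ⟨l ^ k • P, fun s hs hsv => by
          show l ^ k • c s = _
          rw [hP s hs hsv, smul_sub, map_nsmul]⟩)
    obtain ⟨T', hT'⟩ := hA.surj _ hlk T
    rw [act_nat (act := act)] at hT'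
    have hf := lp_fin (A := A) (B := B) T'
    obtain ⟨T'', hT'', h3⟩ := ih (fun s => c s - (ac (WAB A B) s T' - T')) ⟨fun s hs s' hs' => by
        show c (s * s') - (ac (WAB A B) (s * s') T' - T') = c s - (ac (WAB A B) s T' - T') + ac (WAB A B) s (c s' - (ac (WAB A B) s' T' - T'))
        rw [hc.mul s hs s' hs', ac_mul, map_sub, map_sub]
        abel, by
        obtain ⟨M, hM, h2⟩ := hc.cont
        refine ⟨M ⊔ IntermediateField.adjoin F {xc T', yc T'}, IntermediateField.finiteDimensional_sup _ _, fun s hs hsM => ?_⟩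
        rw [IntermediateField.fixingSubgroup_sup, Subgroup.mem_inf] at hsM
        show c s - (ac (WAB A B) s T' - T') = 0
        rw [h2 s hs hsM.1, lp_adj s T' hsM.2, sub_self, sub_zero]⟩ (fun s hs => by
        have h4 : l ^ k • c s = ac (WAB A B) s T - T := h1 s hs
        show l ^ k • (c s - (ac (WAB A B) s T' - T')) = 0
        rw [smul_sub, smul_sub, ← map_nsmul, hT', h4, sub_self]) (fun V => by
        obtain ⟨P, hP⟩ := hloc V
        exact ⟨P - T', fun s hs hsv => by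
          show c s - (ac (WAB A B) s T' - T') = _
          rw [hP s hs hsv, map_sub]
          abel⟩)
    refine ⟨T' + T'', ?_, fun s hs => ?_⟩
    · rw [smul_add, pow_succ', mul_smul, hT', hT, mul_smul, hT'', smul_zero, add_zero]
    · have h4 : c s - (ac (WAB A B) s T' - T') = ac (WAB A B) s T'' - T'' := h3 s hs
      rw [sub_eq_iff_eq_add] at h4
      rw [h4, map_add]
      abel

/-- The component in the points killed by (cj π)^t. -/
theorem kb9_comp (D : Dat A B Om j act mo ψ π l) (t : ℕ) : ∃ a : 𝓞 F, (∀ X ∈ Tor act (cj π ^ t), act a X = X) ∧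
    ∀ T : Pt (WAB A B) Ω, l ^ t • T = 0 → act a T ∈ Tor act (cj π ^ t) := by
  rcases dichotomy D.hl D.dta.unr D.pr D.dvd with ⟨h2, -, h3⟩ | ⟨h2, -, -, h3⟩
  · refine ⟨1, fun X _ => act_one X, fun T hT => ?_⟩
    rw [act_one]
    exact ka4_dvd (pow_dvd_pow_of_dvd (h3.trans h2.symm).dvd t) ((ka4_tor l t).2 hT)
  · have h4 : IsCoprime (π ^ t) (cj π ^ t) := (ka4_cop D.pr h2).pow
    obtain ⟨x, y, hxy⟩ := h4
    refine ⟨x * π ^ t, fun X hX => ?_, fun T hT => ?_⟩
    · have h5 : x * π ^ t = 1 - y * cj π ^ t := by linear_combination hxy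
      rw [h5, act_sub, act_one, act_mul, mem_Tor.1 hX, map_zero, sub_zero]
    · have h5 : cj π ^ t * (x * π ^ t) = x * (l : 𝓞 F) ^ t := by
        rw [← h3, mul_pow]
        ring
      have h6 : act ((l : 𝓞 F) ^ t) T = 0 := (ka4_tor l t).2 hT
      rw [mem_Tor, ← act_mul, h5, act_mul, h6, map_zero]

/-- A locally trivial class with values in the points killed by (cj π)^t is the coboundary of such a point. -/
theorem kb9_cob (D : Dat A B Om j act mo ψ π l) (hc : c ∈ CS N.fixingSubgroup act (cj π ^ t)) (hS : SelZero (WAB A B) l N)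
    (hloc : ∀ V : ValuationSubring Ω, ∃ P : Pt (WAB A B) Ω, ∀ s ∈ N.fixingSubgroup, Inert V s → c s = ac (WAB A B) s P - P) :
    ∃ X ∈ Tor act (cj π ^ t), ∀ s ∈ N.fixingSubgroup, c s = ac (WAB A B) s X - X := by
  have hA := D.cma
  obtain ⟨T, hT, h1⟩ := kb9_sel hA D.hl.ne_zero hS t c ⟨hc.mul, hc.cont⟩ (fun s hs => tor_lt D (Or.inr (mem_Tor.2 (hc.tor s hs)))) hloc
  obtain ⟨a, ha1, ha2⟩ := kb9_comp D t
  refine ⟨act a T, ha2 T hT, fun s hs => ?_⟩
  rw [ac_act hA, ← map_sub, ← h1 s hs, ha1 _ (mem_Tor.2 (hc.tor s hs))]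

/-- The end: c is zero on inertia above w. -/
theorem kb9_end (D : Dat A B Om j act mo ψ π l) (he : PT A B act π l t e) [NumberField N] (hN : Nb l N) (hL : IsTB act (π ^ t) N L) {w : Pl N}
    (hlw : (l : 𝓞 N) ∉ w.asIdeal) (hc : c ∈ CS N.fixingSubgroup act (cj π ^ t)) (hu : UT act π t L w e c) (hS : SelZero (WAB A B) l N)
    {V₀ : ValuationSubring Ω} (hV₀ : Abv N V₀ w) (hπ : c ∈ LTp A B π N) (h0 : ∀ s ∈ N.fixingSubgroup, Inert V₀ s → c s = 0) :
    ∃ X ∈ Tor act (cj π ^ t), ∀ s ∈ N.fixingSubgroup, c s = ac (WAB A B) s X - X := by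
  refine kb9_cob D hc hS fun V => ?_
  by_cases hVw : Abv N V w
  · obtain ⟨σ, hσN, hσ⟩ := trans_V N hV₀ hVw
    exact ⟨- c σ, fun s hs hsi => H13T.coc_conj hc.mul hσN hs (h0 _ (mul_mem (mul_mem (inv_mem hσN) hs) hσN)
      (H13T.inert_conj hσ hsi))⟩
  · by_cases hVt : V = ⊤
    · subst hVt
      refine ⟨0, fun s hs hsi => ?_⟩
      have h1 : s = 1 := by
        ext x
        by_contra hx
        have h2 := hsi x (ValuationSubring.mem_top x)
        have h3 : s x - x ≠ 0 := sub_ne_zero.2 hx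
        have h4 : (⊤ : ValuationSubring Ω).valuation (s x - x)⁻¹ ≤ 1 :=
          ((⊤ : ValuationSubring Ω).valuation_le_one_iff _).2 (ValuationSubring.mem_top _)
        rw [map_inv₀, inv_le_one₀ (zero_lt_iff.2 ((map_ne_zero _).2 h3))] at h4
        exact absurd h2 (not_lt.2 h4)
      have h2 := hc.mul 1 (Subgroup.one_mem _) 1 (Subgroup.one_mem _)
      rw [mul_one, ac_one] at h2
      rw [h1, map_zero, sub_zero]
      exact left_eq_add.mp h2
    · by_cases hVπ : vo V π < 1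
      · obtain ⟨P, hP⟩ := hπ V hVπ
        exact ⟨P, fun s hs hsi => hP s ⟨hs, Inert.dec hsi⟩⟩
      · have hVπ1 : vo V π = 1 := le_antisymm (vo_le V π) (not_lt.1 hVπ)
        obtain ⟨P, hP⟩ := ut_loc D he hN hL hlw hc hu hVt hVw hVπ1
        exact ⟨P, fun s hs hsi => hP s hs (Inert.dec hsi)⟩

omit [NumberField F] [IQ F] [DecidableEq Ω] [IsAlgClosure F Ω] in
/-- Roots of unity near 1. -/
theorem kb9_root {n : ℕ} {ξ : Ω} (h1 : ξ ^ n = 1) (hn : V.valuation (n : Ω) = 1) (h : V.valuation (ξ - 1) < 1) : ξ = 1 := by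
  by_contra hne
  have h2 : (∑ i ∈ Finset.range n, ξ ^ i) * (ξ - 1) = 0 := by
    rw [geom_sum_mul, h1, sub_self]
  have h3 : ∑ i ∈ Finset.range n, ξ ^ i = 0 := (mul_eq_zero.1 h2).resolve_right (sub_ne_zero.2 hne)
  have hξ : V.valuation ξ = 1 := by
    have h4 : V.valuation ((ξ - 1) + 1) = V.valuation (1 : Ω) :=
      V.valuation.map_add_eq_of_lt_right (x := ξ - 1) (y := 1) (by rw [V.valuation.map_one]; exact h)
    rw [sub_add_cancel, map_one] at h4
    exact h4
  have h5 : ∀ i : ℕ, V.valuation (ξ ^ i - 1) < 1 := by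
    intro i
    induction i with
    | zero =>
      rw [pow_zero, sub_self, map_zero]
      exact zero_lt_one
    | succ i ih =>
      have h6 : ξ ^ (i + 1) - 1 = ξ ^ i * (ξ - 1) + (ξ ^ i - 1) := by ring
      rw [h6]
      refine lt_of_le_of_lt (Valuation.map_add _ _ _) (max_lt ?_ ih)
      rw [map_mul, map_pow, hξ, one_pow, one_mul]
      exact h
  have h6 : V.valuation (∑ i ∈ Finset.range n, (ξ ^ i - 1)) < 1 :=
    Valuation.map_sum_lt _ one_ne_zero fun i _ => h5 i
  rw [Finset.sum_sub_distrib, h3, zero_sub, Valuation.map_neg, Finset.sum_const, Finset.card_range, nsmul_eq_mul, mul_one, hn] at h6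
  exact lt_irrefl _ h6

omit [NumberField F] [IQ F] [DecidableEq Ω] [IsAlgClosure F Ω] in
/-- Inertia elements: the Kummer generator has the value of an element which is fixed. -/
theorem kb9_inert {n : ℕ} {ξ y z : Ω} {s : Ω ≃ₐ[F] Ω} (hs : Inert V s) (hn : V.valuation (n : Ω) = 1) (h1 : ξ ^ n = 1)
    (hy : s y = ξ * y) (hz : s z = z) (hz0 : z ≠ 0) (hv : V.valuation y = V.valuation z) : ξ = 1 := by
  apply kb9_root h1 hn
  have h2 : V.valuation (y / z) = 1 := by
    rw [map_div₀, hv, div_self ((map_ne_zero _).2 hz0)]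
  have h3 : s (y / z) = ξ * (y / z) := by
    rw [map_div₀, hy, hz, mul_div_assoc]
  have h4 := hs (y / z) ((V.valuation_le_one_iff _).1 h2.le)
  have h5 : s (y / z) - y / z = (ξ - 1) * (y / z) := by
    rw [h3]
    ring
  rw [h5, map_mul, h2, mul_one] at h4
  exact h4

end H13V
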