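import Mathlib
import Pool.Agent.Lib.H13V.KL1
import Pool.Agent.Lib.H19C.GT3

/-! # H13V, KL2: the global index (PROOF.md 3.5(c)) -/

open NumberField IsDedekindDomain WeierstrassCurve

namespace H13V

open H55P (IQ embF eF LF Per IsHecke Pt ac acR Inert Dec Nm Coc PExt UnrP Ram RamF SelZero)
open H35P (WAB Ker tt)
open H55K (Tor ak xc yc CMA Dta GV GMod cj cj_cj mul_cj cj_prime cj_dvd cj_nat Nm_cj Nm_mul Nm_nat tor_gen exists_abw)
open H55K.S
open H55R (Pl)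
open H13S (Abv)
open H13X
open H19B (DN mem_DN CS mem_CS)
open H19C (CL mem_CL)

variable {F : Type} [Field F] [NumberField F] [IQ F] {A B : F} {Om : ℂ} {Ω : Type} [Field Ω] [DecidableEq Ω]
  [Algebra F Ω] [IsAlgClosure F Ω] {j : Ω →+* ℂ} {act : 𝓞 F →+* AddMonoid.End (Pt (WAB A B) Ω)} {mo : Ideal (𝓞 F)}
  {ψ : Ideal (𝓞 F) →*₀ 𝓞 F} {π : 𝓞 F} {l : ℕ}

/-- THE GLOBAL INDEX. K₀ a group of cocycles over N with values in Tor (cj π ^ t); at the V above π the multiples by cj π ^ i of the elements of K₀ are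
coboundaries of points. -/
theorem glob_index (D : Dat A B Om j act mo ψ π l) {N : IntermediateField F Ω} [NumberField N] (hN : Nb l N) (hUN : UnrP l N) {i t : ℕ}
    (K₀ : AddSubgroup ((Ω ≃ₐ[F] Ω) → Pt (WAB A B) Ω)) (hK : K₀ ≤ CS N.fixingSubgroup act (cj π ^ t))
    (hs : ∀ c ∈ K₀, ∀ V : ValuationSubring Ω, vo V π < 1 → LT N V (fun s => act (cj π ^ i) (c s))) :
    (LTp A B π N).relIndex K₀ ≠ 0 ∧ (LTp A B π N).relIndex K₀ ≤ Nm π ^ (i * Module.finrank F N) := by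
  classical
  have hA := D.cma
  have hβ0 : cj π ^ i ≠ 0 := pow_ne_zero _ (cj_prime D.pr).ne_zero
  -- the primes above π
  let T : Finset (Pl N) := (H19C.fin_above N D.hl.ne_zero).toFinset.filter (fun v => algebraMap (𝓞 F) (𝓞 N) π ∈ v.asIdeal)
  have hTm : ∀ v : Pl N, v ∈ T ↔ algebraMap (𝓞 F) (𝓞 N) π ∈ v.asIdeal := fun v => by
    rw [Finset.mem_filter, Set.Finite.mem_toFinset]
    refine ⟨fun h => h.2, fun h => ⟨?_, h⟩⟩
    obtain ⟨u, hu⟩ := D.dvd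
    have h1 := congrArg (algebraMap (𝓞 F) (𝓞 N)) hu
    rw [map_mul, map_natCast] at h1
    show (l : 𝓞 N) ∈ v.asIdeal
    rw [h1]
    exact v.asIdeal.mul_mem_right _ h
  have hexV : ∀ v : Pl N, ∃ V : ValuationSubring Ω, Abv N V v := fun v => by
    obtain ⟨V, hV⟩ := exists_abw Ω v
    exact ⟨V, hV⟩
  choose Vv hVv using hexV
  have hVπ : ∀ v ∈ T, vo (Vv v) π < 1 := fun v hv => (H19C.abv_mem (hVv v) π).2 ((hTm v).1 hv)
  let Q : Pl N → Type := fun v => CS (DN N (Vv v)) act (cj π ^ i) ⧸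
    (CL (DN N (Vv v)) (DN N (Vv v)) act (cj π ^ i)).addSubgroupOf (CS (DN N (Vv v)) act (cj π ^ i))
  have hQ : ∀ v ∈ T, Nat.card (Q v) ≠ 0 ∧ Nat.card (Q v) ≤ Ideal.absNorm v.asIdeal ^ i := fun v hv =>
    loc_lev D hN hUN ((hTm v).1 hv) (hVv v) i
  have hQf : ∀ v : {v // v ∈ T}, Finite (Q v.1) := fun v => Nat.finite_of_card_ne_zero (hQ v.1 v.2).1
  -- the local classes
  have hex : ∀ (c : K₀) (v : {v // v ∈ T}), ∃ P : Pt (WAB A B) Ω,
      ∀ s ∈ DN N (Vv v.1), act (cj π ^ i) (c.1 s - (ac (WAB A B) s P - P)) = 0 := by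
    intro c v
    obtain ⟨P, hP⟩ := hs c.1 c.2 (Vv v.1) (hVπ v.1 v.2)
    obtain ⟨P', hP'⟩ := hA.surj (cj π ^ i) hβ0 P
    refine ⟨P', fun s hs => ?_⟩
    have h1 : act (cj π ^ i) (c.1 s) = ac (WAB A B) s P - P := hP s hs
    rw [map_sub, h1, map_sub, ← ac_act hA, hP', sub_self]
  choose P hP using hex
  have hcc : ∀ (c : K₀) (v : {v // v ∈ T}), H19B.Cc (DN N (Vv v.1)) act (cj π ^ t) c.1 := by
    intro c v
    have h1 : H19B.Cc N.fixingSubgroup act (cj π ^ t) c.1 := hK c.2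
    refine ⟨fun s hs s' hs' => h1.mul s hs.1 s' hs'.1, fun s hs => h1.tor s hs.1, ?_⟩
    obtain ⟨M, hM, h⟩ := h1.cont
    exact ⟨M, hM, fun s hs hsM => h s hs.1 hsM⟩
  let f : K₀ → (∀ v : {v // v ∈ T}, Q v.1) := fun c v =>
    QuotientAddGroup.mk (⟨fun s => c.1 s - (ac (WAB A B) s (P c v) - P c v), H19T.dv_sub (hcc c v) (P c v) (hP c v)⟩ :
      CS (DN N (Vv v.1)) act (cj π ^ i))
  obtain ⟨h1, h2⟩ := H19T.idx_le (H := LTp A B π N) f (fun a b hab => by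
    intro V hV
    have hVt : V ≠ ⊤ := by
      rintro rfl
      have h0 : ak Ω π ≠ 0 := by
        intro h
        have h3 : (ak Ω π : Ω) = algebraMap F Ω (π : F) := rfl
        rw [h3, map_eq_zero, RingOfIntegers.coe_eq_zero_iff] at h
        exact D.pr.ne_zero h
      have h4 : (⊤ : ValuationSubring Ω).valuation (ak Ω π)⁻¹ ≤ 1 :=
        ((⊤ : ValuationSubring Ω).valuation_le_one_iff _).2 (ValuationSubring.mem_top _)
      rw [map_inv₀, inv_le_one₀ (zero_lt_iff.2 ((map_ne_zero _).2 h0))] at h4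
      exact absurd hV (not_lt.2 h4)
    obtain ⟨v, hv⟩ := xg3_below (F := F) N hVt
    have hvT : v ∈ T := (hTm v).2 ((H19C.abv_mem hv π).1 hV)
    have h3 := congrFun hab ⟨v, hvT⟩
    rw [QuotientAddGroup.eq_iff_sub_mem, AddSubgroup.mem_addSubgroupOf] at h3
    obtain ⟨-, R, hR⟩ := h3
    have hab' : (a.1 - b.1) ∈ CS N.fixingSubgroup act (cj π ^ t) := AddSubgroup.sub_mem _ (hK a.2) (hK b.2)
    have hC : H13X.Cc act (π ^ t) N (a.1 - b.1) := by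
      have h4 : H19B.Cc N.fixingSubgroup act (cj π ^ t) (a.1 - b.1) := hab'
      obtain ⟨M, hM, h⟩ := h4.cont
      exact ⟨h4.mul, ⟨M, hM, fun s hs hsM => h s hs hsM⟩, fun s hs => by
        rw [map_pow]
        exact mem_Tor.2 (h4.tor s hs)⟩
    obtain ⟨P', hP'⟩ := H19C.loc_conj (N' := N) hC le_rfl (fun s hs x hx => by
      rw [(IntermediateField.mem_fixingSubgroup_iff N s).1 hs x hx]
      exact hx) (hVv v) hv ⟨R + (P a ⟨v, hvT⟩ - P b ⟨v, hvT⟩), fun s hs => by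
        have h5 : (a.1 s - (ac (WAB A B) s (P a ⟨v, hvT⟩) - P a ⟨v, hvT⟩)) - (b.1 s - (ac (WAB A B) s (P b ⟨v, hvT⟩) - P b ⟨v, hvT⟩)) =
          ac (WAB A B) s R - R := hR s hs
        have h6 : a.1 s - b.1 s = ac (WAB A B) s R - R + ((ac (WAB A B) s (P a ⟨v, hvT⟩) - P a ⟨v, hvT⟩) -
            (ac (WAB A B) s (P b ⟨v, hvT⟩) - P b ⟨v, hvT⟩)) := by
          rw [← h5]
          abel
        rw [Pi.sub_apply, h6, map_add, map_sub]
        abel⟩
    exact ⟨P', fun s hs => hP' s hs.1 hs.2⟩)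
  refine ⟨h1, h2.trans ?_⟩
  rw [Nat.card_pi]
  have h3 : ∏ v : {v // v ∈ T}, Nat.card (Q v.1) ≤ ∏ v : {v // v ∈ T}, Ideal.absNorm v.1.asIdeal ^ i :=
    Finset.prod_le_prod (fun _ _ => Nat.zero_le _) fun v _ => (hQ v.1 v.2).2
  refine h3.trans ?_
  have h4 : ∏ v : {v // v ∈ T}, Ideal.absNorm v.1.asIdeal ^ i = (∏ v ∈ T, Ideal.absNorm v.asIdeal) ^ i := by
    rw [← Finset.prod_pow]
    exact Finset.prod_coe_sort T (fun v => Ideal.absNorm v.asIdeal ^ i)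
  rw [h4, mul_comm, pow_mul]
  exact Nat.pow_le_pow_left (prod_norm_le (F := F) (N := N) D.pr.ne_zero T fun v hv => (hTm v).1 hv) _

end H13V
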