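import Mathlib
import Pool.Agent.Lib.H13V.KB7
import Pool.Agent.Lib.H13V.KB9
import Pool.Agent.Lib.H13V.KB10
import Pool.Agent.Lib.H13V.KA7
import Pool.Agent.Lib.H13V.KA8
import Pool.Agent.Lib.H13V.KL2

/-! # H13V, KB11: every homomorphism to Z/l^t is realized by a class (PROOF.md 3.6) -/

open NumberField IsDedekindDomain WeierstrassCurve

namespace H13V

open H55P (IQ embF eF LF Per IsHecke Pt ac Inert Dec Nm Coc PExt UnrP Ram RamF SelZero)
open H35P (WAB Ker tt)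
open H55K (Tor ak xc yc CMA Dta GV GMod cj cj_cj mul_cj cj_prime cj_dvd cj_nat Nm_cj Nm_mul Nm_nat tor_gen Abw)
open H55K.S
open H55R (Pl ord smulP ord_mul ord_inv ord_zpow ord_one)
open H13S (Abv)
open H13X
open H13Y (guN SU mem_SU)
open H19B (DN mem_DN CS mem_CS)
open scoped Classical

variable {F : Type} [Field F] [NumberField F] [IQ F] {A B : F} {Om : ℂ} {Ω : Type} [Field Ω] [DecidableEq Ω]
  [Algebra F Ω] [IsAlgClosure F Ω] {j : Ω →+* ℂ} {act : 𝓞 F →+* AddMonoid.End (Pt (WAB A B) Ω)} {mo : Ideal (𝓞 F)}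
  {ψ : Ideal (𝓞 F) →*₀ 𝓞 F} {π : 𝓞 F} {l t : ℕ} {e : Pt (WAB A B) Ω → Pt (WAB A B) Ω → Ω} {N L N' : IntermediateField F Ω}
  {c : (Ω ≃ₐ[F] Ω) → Pt (WAB A B) Ω} {V : ValuationSubring Ω}

/-- Multiplication by (cj π)^i on the points killed by (cj π)^t. -/
theorem kb11_mul (D : Dat A B Om j act mo ψ π l) (i t : ℕ) : ∃ a : 𝓞 F, ∀ X ∈ Tor act (cj π ^ t), act (cj π ^ i) X = act a (l ^ i • X) := by
  rcases dichotomy D.hl D.dta.unr D.pr D.dvd with ⟨h2, -, h3⟩ | ⟨h2, -, -, h3⟩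
  · obtain ⟨u, hu⟩ := pow_dvd_pow_of_dvd (h3.trans h2.symm).dvd i
    refine ⟨u, fun X _ => ?_⟩
    have h4 : act ((l : 𝓞 F) ^ i) X = l ^ i • X := by rw [← Nat.cast_pow, act_nat]
    rw [← h4, ← act_mul, mul_comm, ← hu]
  · have h4 : IsCoprime (π ^ i) (cj π ^ t) := (ka4_cop D.pr h2).pow
    obtain ⟨x, y, hxy⟩ := h4
    refine ⟨x, fun X hX => ?_⟩
    have h4 : act ((l : 𝓞 F) ^ i) X = l ^ i • X := by rw [← Nat.cast_pow, act_nat]
    have h5 : cj π ^ i = x * (l : 𝓞 F) ^ i + y * cj π ^ i * cj π ^ t := by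
      rw [← h3, mul_pow]
      linear_combination (-(cj π ^ i)) * hxy
    rw [h5, act_add, act_mul, act_mul (y * cj π ^ i), mem_Tor.1 hX, map_zero, add_zero, h4]

omit [IQ F] [DecidableEq Ω] in
theorem kb11_mem (L : IntermediateField F Ω) {x : Ω} (h : ∀ s ∈ L.fixingSubgroup, s x = x) : x ∈ L := by
  have hac : IsAlgClosed Ω := IsAlgClosure.isAlgClosed F
  have halg : Algebra.IsAlgebraic F Ω := IsAlgClosure.isAlgebraic
  have hnorm : Normal F Ω := IsAlgClosure.normal F Ω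
  have hgal : IsGalois F Ω := { }
  rw [← InfiniteGalois.fixedField_fixingSubgroup L]
  intro s
  exact h s.1 s.2

/-- A class which corresponds to f and is zero: f = 0. -/
theorem kb11_zero (D : Dat A B Om j act mo ψ π l) (he : PT A B act π l t e) [NumberField N] [NumberField L] (hL : IsTB act (π ^ t) N L) (w : Pl N)
    {f : letI := algNL hL.le; letI := tact D.cma hL; HG Gal(L/N) (Tor act (π ^ t)) (XU L w (l ^ t))}
    (h : Rel D.cma hL w e l 0 f) : ∀ x, f.1 x = 0 := by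
  letI := algNL hL.le
  letI := tact D.cma hL
  intro T
  obtain ⟨y, x, hy0, hy, hx, hf⟩ := h T
  have hl0 : l ^ t ≠ 0 := pow_ne_zero _ D.hl.ne_zero
  have h1 : ∀ s ∈ L.fixingSubgroup, s y = y := by
    intro s hs
    rw [hy s hs, Pi.zero_apply, he.zero_left D.hl.ne_zero T.2, one_mul]
  have h2 : y ∈ L := kb11_mem L h1
  have h3 : (⟨y, h2⟩ : L) ≠ 0 := fun h => hy0 (congrArg Subtype.val h)
  let y' : (L)ˣ := Units.mk0 ⟨y, h2⟩ h3
  have h4 : x.val = y' ^ l ^ t := by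
    apply Units.ext
    apply Subtype.ext
    exact hx
  have h5 : y' ∈ SU L w := by
    intro v hv
    have h6 := x.mem v hv
    have h7 := ord_zpow v y' ((l ^ t : ℕ) : ℤ)
    rw [zpow_natCast, ← h4, h6] at h7
    exact (mul_eq_zero.1 h7.symm).resolve_left (Nat.cast_ne_zero.2 hl0)
  rw [← hf, XU.pr_zero]
  exact ⟨AU.mk y' h5, AU.ext h4⟩

/-- Every homomorphism to Z/l^t is realized by a class. -/
theorem kb11_main (D : Dat A B Om j act mo ψ π l) (he : PT A B act π l t e) (ht : 1 ≤ t) [NumberField N] [NumberField L] (hN : Nb l N)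
    (hUN : UnrP l N) (hL : IsTB act (π ^ t) N L) {w : Pl N} (hlw : (l : 𝓞 N) ∉ w.asIdeal)
    (hfx : ∀ V : ValuationSubring Ω, Abv N V w → ∀ s, DecN N V s → ∀ T : Pt (WAB A B) Ω, l ^ t • T = 0 → ac (WAB A B) s T = T)
    (hS : SelZero (WAB A B) l N) {V₀ : ValuationSubring Ω} (hV₀ : Abv N V₀ w) {Q : Pl L} (hQ : Abv L V₀ Q)
    (κ : Tor act (π ^ t) →+ ZMod (l ^ t)) :
    ∃ c ∈ CS N.fixingSubgroup act (cj π ^ t), UT act π t L w e c ∧ c ∈ LTp A B π N ∧
      ∀ T : Tor act (π ^ t), ∃ (y : Ω) (x : (L)ˣ), y ≠ 0 ∧ (∀ s ∈ L.fixingSubgroup, s y = e (c s) (T : Pt (WAB A B) Ω) * y) ∧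
        ((x : L) : Ω) = y ^ l ^ t ∧ (ord Q x : ZMod (l ^ t)) = κ T := by
  letI := algNL hL.le
  letI := tact D.cma hL
  have hlF : Fact l.Prime := ⟨D.hl⟩
  have hA := D.cma
  have hl0 : l ^ t ≠ 0 := pow_ne_zero _ D.hl.ne_zero
  have hfinT := kb6_fin (act := act) hA D.pr t
  have hfinX : Finite (XU L w (l ^ t)) := AU_finite w hl0
  obtain ⟨r, ⟨eT⟩⟩ := kb6_e D t ht
  have hq : l ^ r = Nm π := by
    have h1 := kb6_card (act := act) hA D.pr t
    rw [Nat.card_congr eT.toEquiv, Nat.card_fun, Nat.card_zmod, Nat.card_fin, ← pow_mul, mul_comm, pow_mul] at h1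
    exact Nat.pow_left_injective (by omega) h1
  have hVl : V₀.valuation (l : Ω) = 1 := by
    have h1 := yg2_unit hV₀ (l : 𝓞 N) hlw
    simpa using h1
  have hfx' : ∀ V : ValuationSubring Ω, Abv N V w → ∀ s, DecN N V s → ∀ T ∈ Tor act (π ^ t), ac (WAB A B) s T = T :=
    fun V hV s hs T hT => hfx V hV s hs T (tor_lt D (Or.inl hT))
  have hLs : ∀ s ∈ N.fixingSubgroup, Inert V₀ s → s ∈ L.fixingSubgroup := fun s hs hsi =>
    (hL.fix s).2 ⟨hs, fun T hT => hfx' V₀ hV₀ s ⟨hs, Inert.dec hsi⟩ T hT⟩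
  have hLN : ∀ s ∈ L.fixingSubgroup, s ∈ N.fixingSubgroup := fun s hs => ((hL.fix s).1 hs).1
  let H0 : AddSubgroup (Tor act (π ^ t) →+ XU L w (l ^ t)) :=
    { carrier := {f | ∀ (g : Gal(L/N)) (x : Tor act (π ^ t)), f (g • x) = g • f x}
      zero_mem' := fun g x => by rw [AddMonoidHom.zero_apply, AddMonoidHom.zero_apply, smul_zero]
      add_mem' := fun {a b} ha hb g x => by
        rw [AddMonoidHom.add_apply, AddMonoidHom.add_apply, ha g x, hb g x, smul_add]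
      neg_mem' := fun {a} ha g x => by
        rw [AddMonoidHom.neg_apply, AddMonoidHom.neg_apply, ha g x, smul_neg] }
  let EH : H0 ≃ HG Gal(L/N) (Tor act (π ^ t)) (XU L w (l ^ t)) :=
    ⟨fun f => ⟨f.1, f.2⟩, fun f => ⟨f.1, f.2⟩, fun _ => rfl, fun _ => rfl⟩
  let Rl : ((Ω ≃ₐ[F] Ω) → Pt (WAB A B) Ω) → (Tor act (π ^ t) →+ XU L w (l ^ t)) → Prop := fun c f =>
    ∃ hf : (∀ (g : Gal(L/N)) (x : Tor act (π ^ t)), f (g • x) = g • f x),
      Rel D.cma hL w e l c (⟨f, hf⟩ : HG Gal(L/N) (Tor act (π ^ t)) (XU L w (l ^ t)))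
  have hCt : ∀ c ∈ CS N.fixingSubgroup act (cj π ^ t), ∀ s ∈ L.fixingSubgroup, c s ∈ Tor act (cj π ^ t) := fun c hc s hs =>
    mem_Tor.2 (hc.tor s (hLN s hs))
  have R3 : ∀ c ∈ CS N.fixingSubgroup act (cj π ^ t), ∀ c' ∈ CS N.fixingSubgroup act (cj π ^ t), ∀ f ∈ H0, ∀ f' ∈ H0,
      Rl c f → Rl c' f' → Rl (c - c') (f - f') := by
    rintro c hc c' hc' f hf f' hf' ⟨_, h⟩ ⟨_, h'⟩
    exact ⟨H0.sub_mem hf hf', kum_R3 D he hL w (hCt c hc) (hCt c' hc') (fun x => rfl) h h'⟩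
  have hU : ∀ f ∈ H0, Rl 0 f → f = 0 := by
    rintro f hf ⟨_, h⟩
    ext x
    exact kb11_zero D he hL w h x
  have hun : ∀ c ∈ CS N.fixingSubgroup act (cj π ^ t), ∀ f ∈ H0, ∀ f' ∈ H0, Rl c f → Rl c f' → f = f' := by
    intro c hc f hf f' hf' h h'
    have h1 := R3 c hc c hc f hf f' hf' h h'
    rw [sub_self] at h1
    exact sub_eq_zero.1 (hU _ (H0.sub_mem hf hf') h1)
  have R0 : Rl 0 0 := by
    refine ⟨H0.zero_mem, kum_R5 D he hL w (zero_mem _) (fun s _ => ?_) fun x => rfl⟩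
    rw [Pi.zero_apply, map_zero, sub_zero]
  have Rn : ∀ (n : ℕ), ∀ c ∈ CS N.fixingSubgroup act (cj π ^ t), ∀ f ∈ H0, Rl c f → Rl (n • c) (n • f) := by
    intro n c hc f hf h
    induction n with
    | zero =>
      rw [zero_smul, zero_smul]
      exact R0
    | succ n ih =>
      have h1 := R3 0 (AddSubgroup.zero_mem _) c hc 0 H0.zero_mem f hf R0 h
      have h2 := R3 (n • c) (AddSubgroup.nsmul_mem _ hc n) (0 - c) (AddSubgroup.sub_mem _ (AddSubgroup.zero_mem _) hc)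
        (n • f) (H0.nsmul_mem hf n) (0 - f) (H0.sub_mem H0.zero_mem hf) ih h1
      rw [zero_sub, sub_neg_eq_add, zero_sub, sub_neg_eq_add] at h2
      rw [succ_nsmul, succ_nsmul]
      exact h2
  obtain ⟨c, hc, hcL, f, hf, hR, hκ⟩ := kb10_abs (q := Nm π) (d := Module.finrank F N) H0 (ordX w (l ^ t) Q)
    (CS N.fixingSubgroup act (cj π ^ t)) (LTp A B π N) Rl (fun f hf => by
      obtain ⟨c, hc, h⟩ := kum_R2 D he hN hL w (⟨f, hf⟩ : HG Gal(L/N) (Tor act (π ^ t)) (XU L w (l ^ t)))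
      exact ⟨c, hc, hf, h⟩) R3 hU (fun i K hK hKf => by
      obtain ⟨a, ha⟩ := kb11_mul D i t
      refine glob_index D hN hUN (i := i) K hK fun c hc V _ => ?_
      obtain ⟨f, hf, h, hif⟩ := hKf c hc
      obtain ⟨hf', h1⟩ := Rn (l ^ i) c (hK hc) f hf h
      obtain ⟨X, hX, h2⟩ := kum_R4 D he hN hL w (AddSubgroup.nsmul_mem _ (hK hc) _) (fun x => hif x) h1
      refine ⟨act a X, fun s hs => ?_⟩
      show act (cj π ^ i) (c s) = _
      have h3 : l ^ i • c s = ac (WAB A B) s X - X := h2 s hs.1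
      rw [ha _ (mem_Tor.2 ((hK hc).tor s hs.1)), h3, map_sub, ac_act hA]) (fun c hc hcL f hf h hv => by
      obtain ⟨hf', hR⟩ := h
      have h0 : ∀ s ∈ N.fixingSubgroup, Inert V₀ s → c s = 0 := by
        intro s hs hsi
        have hsL := hLs s hs hsi
        refine he.nondeg _ (hCt c hc s hsL) fun T hT => ?_
        obtain ⟨y, x, hy0, hy, hx, hfx⟩ := hR ⟨T, hT⟩
        have h1 : (ord Q x.val : ZMod (l ^ t)) = 0 := by
          rw [← ordX_pr, hfx]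
          exact hv _
        rw [ZMod.intCast_zmod_eq_zero_iff_dvd] at h1
        obtain ⟨n, hn⟩ := h1
        obtain ⟨ϖ, hϖ⟩ := H55R.HB1_pi Q
        have h2 : ord Q (x.val * ((ϖ ^ n) ^ l ^ t)⁻¹) = 0 := by
          have h3 := ord_zpow Q (ϖ ^ n) ((l ^ t : ℕ) : ℤ)
          rw [zpow_natCast] at h3
          rw [ord_mul, ord_inv, h3, ord_zpow, hϖ, hn]
          push_cast
          ring
        have h3 := H19C.ord_val (Ω := Ω) (V := V₀) (W := Q) hQ h2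
        let z : Ω := (((ϖ ^ n : (L)ˣ) : L) : Ω)
        have hz0 : z ≠ 0 := fun h => (ϖ ^ n).ne_zero (Subtype.ext h)
        have h4 : V₀.valuation (y ^ l ^ t) = V₀.valuation (z ^ l ^ t) := by
          have h5 : algebraMap L Ω ((x.val * ((ϖ ^ n) ^ l ^ t)⁻¹ : (L)ˣ) : L) = y ^ l ^ t * (z ^ l ^ t)⁻¹ := by
            rw [Units.val_mul, map_mul, Units.val_inv_eq_inv_val, map_inv₀, Units.val_pow_eq_pow_val, map_pow]
            congr 1
          rw [h5, map_mul, map_inv₀] at h3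
          have h6 : V₀.valuation (z ^ l ^ t) ≠ 0 := (map_ne_zero _).2 (pow_ne_zero _ hz0)
          exact (mul_inv_eq_one₀ h6).1 h3
        have h5 : V₀.valuation y = V₀.valuation z := by
          rw [map_pow, map_pow] at h4
          exact (pow_left_inj₀ zero_le zero_le hl0).1 h4
        refine kb9_inert hsi (n := l ^ t) ?_ (he.root _ (hCt c hc s hsL) T hT) (hy s hsL) ?_ hz0 h5
        · rw [Nat.cast_pow, map_pow, hVl, one_pow]
        · exact (IntermediateField.mem_fixingSubgroup_iff L s).1 hsL _ (SetLike.coe_mem _)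
      obtain ⟨X, hX, h1⟩ := kb9_end D he hN hL hlw hc (rel_ut D hL w hR) hS hV₀ hcL h0
      have h2 : Rl c 0 := ⟨H0.zero_mem, kum_R5 D he hL w hX (fun s hs => h1 s (hLN s hs)) fun x => rfl⟩
      have h3 := hun c hc f hf 0 H0.zero_mem ⟨hf', hR⟩ h2
      intro x
      rw [h3, AddMonoidHom.zero_apply]) (fun x => XU.nsmul w _ x) eT hq (fun hm => by
      rw [Nat.card_congr EH]
      refine mm_card D ht hN hL hfx' (tact D.cma hL) (tact_eq D.cma hL) (le_trans (le_of_eq ?_) hm)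
      exact Nat.card_congr ⟨fun f => ⟨⟨f.1.1, f.1.2⟩, f.2⟩, fun f => ⟨⟨f.1.1, f.1.2⟩, f.2⟩, fun _ => rfl, fun _ => rfl⟩) κ
  obtain ⟨hf', hR⟩ := hR
  refine ⟨c, hc, rel_ut D hL w hR, hcL, fun T => ?_⟩
  obtain ⟨y, x, hy0, hy, hx, hfx⟩ := hR T
  refine ⟨y, x.val, hy0, hy, hx, ?_⟩
  rw [← hκ, ← ordX_pr, hfx]

end H13V
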