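import Mathlib
import Pool.Agent.Lib.H13T.E2

/-! # H13V: theorem (T), the classes of module KUM: classes with values killed by l^t (see PROOF.md, section 3) -/

open NumberField IsDedekindDomain WeierstrassCurve

namespace H13V

open H55P (IQ embF eF LF Per IsHecke Pt ac acR Inert Dec Nm Coc PExt UnrP Ram RamF SelZero)
open H35P (WAB Ker tt)
open H55K (Tor ak xc yc CMA Dta GV GMod cj cj_cj mul_cj cj_prime cj_dvd cj_nat Nm_cj Nm_mul Nm_nat tor_gen)
open H55K.S
open H13S (Abv)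
open H13X

variable {F : Type} [Field F] [NumberField F] [IQ F] {A B : F} {Om : ℂ} {Ω : Type} [Field Ω] [DecidableEq Ω]
  [Algebra F Ω] [IsAlgClosure F Ω] {j : Ω →+* ℂ} {act : 𝓞 F →+* AddMonoid.End (Pt (WAB A B) Ω)} {mo : Ideal (𝓞 F)}
  {ψ : Ideal (𝓞 F) →*₀ 𝓞 F} {π : 𝓞 F} {l t : ℕ}

/-- c is a class on N with values killed by l^t: classically locally trivial over N' everywhere, over N outside the set R of primes, and zero
on the inertia groups outside l and R which fix the points killed by l^t. -/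
structure ECl (A B : F) (l t : ℕ) (N N' : IntermediateField F Ω) [NumberField N] (R : Set (HeightOneSpectrum (𝓞 N)))
    (c : (Ω ≃ₐ[F] Ω) → Pt (WAB A B) Ω) : Prop where
  coc : Coc (WAB A B) N c
  tor : ∀ s ∈ N.fixingSubgroup, l ^ t • c s = 0
  loc' : ∀ V : ValuationSubring Ω, V ≠ ⊤ → ∃ P : Pt (WAB A B) Ω, ∀ s ∈ N'.fixingSubgroup, Dec V s →
    c s = ac (WAB A B) s P - P
  loc : ∀ V : ValuationSubring Ω, V ≠ ⊤ → (∀ w ∈ R, ¬ Abv N V w) → ∃ P : Pt (WAB A B) Ω, ∀ s ∈ N.fixingSubgroup, Dec V s →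
    c s = ac (WAB A B) s P - P
  out : ∀ V : ValuationSubring Ω, (∀ w ∈ R, ¬ Abv N V w) → V.valuation (l : Ω) = 1 → ∀ s ∈ N.fixingSubgroup, Inert V s →
    (∀ T : Pt (WAB A B) Ω, l ^ t • T = 0 → ac (WAB A B) s T = T) → c s = 0

end H13V
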