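import Mathlib
import Pool.Agent.Lib.H13V.KB11
import Pool.Agent.Lib.H13V.KE

/-! # H13V, KB12: the classes (PROOF.md 3.7) -/

open NumberField IsDedekindDomain WeierstrassCurve

namespace H13V

open H55P (IQ embF eF LF Per IsHecke Pt ac Inert Dec Nm Coc PExt UnrP Ram RamF SelZero)
open H35P (WAB Ker tt)
open H55K (Tor ak xc yc CMA Dta GV GMod cj cj_cj mul_cj cj_prime cj_dvd cj_nat Nm_cj Nm_mul Nm_nat tor_gen Abw)
open H55K.S
open H55R (Pl ord smulP ord_mul ord_inv ord_zpow ord_one)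
open H13S (Abv)
open H13X
open H13Y (guN SU mem_SU)
open H19B (DN mem_DN CS mem_CS)

variable {F : Type} [Field F] [NumberField F] [IQ F] {A B : F} {Om : ℂ} {Ω : Type} [Field Ω] [DecidableEq Ω]
  [Algebra F Ω] [IsAlgClosure F Ω] {j : Ω →+* ℂ} {act : 𝓞 F →+* AddMonoid.End (Pt (WAB A B) Ω)} {mo : Ideal (𝓞 F)}
  {ψ : Ideal (𝓞 F) →*₀ 𝓞 F} {π : 𝓞 F} {l t : ℕ} {e : Pt (WAB A B) Ω → Pt (WAB A B) Ω → Ω} {N L N' : IntermediateField F Ω}
  {c : (Ω ≃ₐ[F] Ω) → Pt (WAB A B) Ω} {V : ValuationSubring Ω}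

omit [IQ F] [DecidableEq Ω] [IsAlgClosure F Ω] in
theorem kb12_top [NumberField N] {w : Pl N} (h : Abv N V w) : V ≠ ⊤ := by
  rintro rfl
  obtain ⟨p, hp⟩ := HeightOneSpectrum.valuation_exists_uniformizer N w
  have hp1 : w.valuation N p < 1 := by
    rw [hp, ← WithZero.exp_zero]
    exact WithZero.exp_lt_exp.2 (by norm_num)
  have hp0 : p ≠ 0 := by
    rintro rfl
    rw [map_zero] at hp
    exact WithZero.zero_ne_coe hp
  have h1 := (h p⁻¹).1 (ValuationSubring.mem_top _)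
  rw [map_inv₀, inv_le_one₀ (zero_lt_iff.2 ((map_ne_zero _).2 hp0))] at h1
  exact absurd hp1 (not_lt.2 h1)

omit [DecidableEq Ω] [IsAlgClosure F Ω] in
theorem kb12_vl [NumberField N] {w : Pl N} (hlw : (l : 𝓞 N) ∉ w.asIdeal) (h : Abv N V w) : V.valuation (l : Ω) = 1 := by
  have h1 := yg2_unit h (l : 𝓞 N) hlw
  have h2 : (((l : 𝓞 N) : N) : Ω) = l := by
    have e1 : ((l : 𝓞 N) : N) = l := map_natCast (algebraMap (𝓞 N) N) l
    rw [e1]
    exact map_natCast (algebraMap N Ω) l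
  rwa [h2] at h1

/-- Multiples of a class. -/
theorem kb12_mul (hA : CMA F A B Om j act) {β : 𝓞 F} (hc : c ∈ CS N.fixingSubgroup act β) (a : 𝓞 F) :
    (fun s => act a (c s)) ∈ CS N.fixingSubgroup act β := by
  refine ⟨fun s hs s' hs' => ?_, fun s hs => ?_, ?_⟩
  · show act a (c (s * s')) = act a (c s) + ac (WAB A B) s (act a (c s'))
    rw [hc.mul s hs s' hs', map_add, ac_act hA]
  · show act β (act a (c s)) = 0
    rw [← act_mul, mul_comm, act_mul, hc.tor s hs, map_zero]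
  · obtain ⟨M, hM, h⟩ := hc.cont
    refine ⟨M, hM, fun s hs hsM => ?_⟩
    show act a (c s) = 0
    rw [h s hs hsM, map_zero]

/-- Multiples and UT. -/
theorem kb12_ut (he : PT A B act π l t e) (hv : ∀ s ∈ L.fixingSubgroup, c s ∈ Tor act (cj π ^ t)) [NumberField N] {w : Pl N}
    (hu : UT act π t L w e c) (a : 𝓞 F) : UT act π t L w e (fun s => act a (c s)) := by
  intro T hT
  have hT' : act (cj a) T ∈ Tor act (π ^ t) := act_tor hT
  obtain ⟨y, hy0, hy, hyv⟩ := hu _ hT'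
  refine ⟨y, hy0, fun s hs => ?_, hyv⟩
  show s y = e (act a (c s)) T * y
  rw [he.adj a _ (hv s hs) T hT, hy s hs]

/-- The class of level i. -/
theorem kb12_lev (D : Dat A B Om j act mo ψ π l) {i : ℕ} (hi1 : 1 ≤ i) {N N' : IntermediateField F Ω} [NumberField N]
    (hN : Nb l N) (hUN : UnrP l N) (hNN : N ≤ N') {w : HeightOneSpectrum (𝓞 N)} (hlw : (l : 𝓞 N) ∉ w.asIdeal)
    (hfx : ∀ V : ValuationSubring Ω, Abv N V w → ∀ s, DecN N V s → ∀ T : Pt (WAB A B) Ω, l ^ i • T = 0 → ac (WAB A B) s T = T)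
    (hS : SelZero (WAB A B) l N) {V₀ : ValuationSubring Ω} (hV₀ : Abv N V₀ w) {τ : Ω ≃ₐ[F] Ω} (hτ : τ ∈ N.fixingSubgroup)
    (hi : Inert V₀ τ) (hgen : ∀ s ∈ N.fixingSubgroup, Inert V₀ s → ∃ k : ℕ, (τ ^ k)⁻¹ * s ∈ N'.fixingSubgroup)
    (hram : ∀ a ∈ N, a ≠ 0 → ∃ x ∈ N', V₀.valuation x ^ l ^ i = V₀.valuation a) :
    ∃ c ∈ CS N.fixingSubgroup act (cj π ^ i),
      (∀ s ∈ N'.fixingSubgroup, Inert V₀ s → c s = 0) ∧
      (∀ V : ValuationSubring Ω, V ≠ ⊤ → ¬ Abv N V w → ∃ P : Pt (WAB A B) Ω, ∀ s ∈ N.fixingSubgroup, Dec V s → c s = ac (WAB A B) s P - P) ∧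
      (∀ V : ValuationSubring Ω, ¬ Abv N V w → V.valuation (l : Ω) = 1 → ∀ s ∈ N.fixingSubgroup, Inert V s →
        (∀ T : Pt (WAB A B) Ω, l ^ i • T = 0 → ac (WAB A B) s T = T) → c s = 0) ∧
      act (cj π ^ (i - 1)) (c τ) ≠ 0 := by
  have hA := D.cma
  have hNf : FiniteDimensional F N := hN.fin
  have hl0 := D.hl.ne_zero
  obtain ⟨L, hL⟩ := exists_TBt D.cma (pow_ne_zero i D.pr.ne_zero) N
  have hLf : FiniteDimensional F L := hL.fin
  have hLn : NumberField L := NumberField.of_module_finite F L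
  obtain ⟨e, he⟩ := exists_pt D.dta D.pr D.dvd i
  obtain ⟨Q, hQ⟩ := xg3_below (F := F) L (kb12_top hV₀)
  obtain ⟨r, ⟨eT⟩⟩ := kb6_e D i hi1
  -- a point killed by π
  obtain ⟨T₁, hT₁, hT₁0⟩ := H55K.exists_tor D.cma D.pr
  obtain ⟨T₂, hT₂⟩ := hA.surj (π ^ (i - 1)) (pow_ne_zero _ D.pr.ne_zero) T₁
  have hpi : π ^ i = π * π ^ (i - 1) := by rw [← pow_succ', Nat.sub_add_cancel hi1]
  have hT₂t : T₂ ∈ Tor act (π ^ i) := by
    rw [mem_Tor, hpi, act_mul, hT₂]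
    exact hT₁
  have hT₁t : T₁ ∈ Tor act (π ^ i) := by
    rw [← hT₂]
    exact act_tor hT₂t
  obtain ⟨m, hm⟩ : ∃ m, eT ⟨T₁, hT₁t⟩ m ≠ 0 := by
    by_contra hcon
    push Not at hcon
    have h1 : eT ⟨T₁, hT₁t⟩ = 0 := funext hcon
    rw [map_eq_zero_iff eT eT.injective] at h1
    exact hT₁0 (congrArg Subtype.val h1)
  obtain ⟨c, hc, hu, hcL, hκ⟩ := kb11_main D he hi1 hN hUN hL hlw hfx hS hV₀ hQ
    ((Pi.evalAddMonoidHom (fun _ : Fin r => ZMod (l ^ i)) m).comp eT.toAddMonoidHom)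
  have hVl := kb12_vl (l := l) hlw hV₀
  have hLN : ∀ s ∈ L.fixingSubgroup, s ∈ N.fixingSubgroup := fun s hs => ((hL.fix s).1 hs).1
  have hcv : ∀ s ∈ L.fixingSubgroup, c s ∈ Tor act (cj π ^ i) := fun s hs => mem_Tor.2 (hc.tor s (hLN s hs))
  have hkill : ∀ s ∈ N'.fixingSubgroup, Inert V₀ s → c s = 0 := fun s hs hsi =>
    ut_kill D he hL w hu hc hVl (fun s hs => hfx V₀ hV₀ s hs) hNN hram hs hsi
  refine ⟨c, hc, hkill, fun V hVt hw => ?_, fun V hw hlV s hs hsi hT => ?_, fun h0 => ?_⟩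
  · by_cases hVπ : vo V π < 1
    · obtain ⟨P, hP⟩ := hcL V hVπ
      exact ⟨P, fun s hs hsD => hP s ⟨hs, hsD⟩⟩
    · exact ut_loc D he hN hL hlw hc hu hVt hw (le_antisymm (vo_le V π) (not_lt.1 hVπ))
  · have hsL : s ∈ L.fixingSubgroup := (hL.fix s).2 ⟨hs, fun T hT' => hT T (tor_lt D (Or.inl hT'))⟩
    exact ut_out D he w hu hlV hw hsi hsL (hcv s hsL)
  · -- the multiple vanishes on inertia
    have hc' := kb12_mul hA hc (cj π ^ (i - 1))
    have hu' := kb12_ut he hcv hu (cj π ^ (i - 1))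
    have hL' : (fun s => act (cj π ^ (i - 1)) (c s)) ∈ LTp A B π N := by
      intro V hV
      obtain ⟨P, hP⟩ := hcL V hV
      refine ⟨act (cj π ^ (i - 1)) P, fun s hs => ?_⟩
      show act (cj π ^ (i - 1)) (c s) = _
      rw [hP s hs, map_sub, ac_act hA]
    have h00 : ∀ s ∈ N.fixingSubgroup, Inert V₀ s → act (cj π ^ (i - 1)) (c s) = 0 := by
      intro s hs hsi
      obtain ⟨k, hk⟩ := hgen s hs hsi
      have hki : Inert V₀ (τ ^ k) := by
        clear hk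
        induction k with
        | zero =>
          intro x hx
          rw [pow_zero, AlgEquiv.one_apply, sub_self, map_zero]
          exact zero_lt_one
        | succ k ih =>
          rw [pow_succ]
          exact lcb_mul ih hi
      have hu1 : Inert V₀ ((τ ^ k)⁻¹ * s) := lcb_mul (lcb_inv hki) hsi
      have h1 := hc'.mul (τ ^ k) (Subgroup.pow_mem _ hτ k) ((τ ^ k)⁻¹ * s)
        (mul_mem (inv_mem (Subgroup.pow_mem _ hτ k)) hs)
      rw [mul_inv_cancel_left] at h1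
      have h2 : act (cj π ^ (i - 1)) (c (τ ^ k)) = 0 := H13T.coc_pow (c := fun s => act (cj π ^ (i - 1)) (c s)) hc'.mul hτ h0 k
      have h3 : act (cj π ^ (i - 1)) (c ((τ ^ k)⁻¹ * s)) = 0 := by rw [hkill _ hk hu1, map_zero]
      have h4 : act (cj π ^ (i - 1)) (c s) = act (cj π ^ (i - 1)) (c (τ ^ k)) +
        ac (WAB A B) (τ ^ k) (act (cj π ^ (i - 1)) (c ((τ ^ k)⁻¹ * s))) := h1
      rw [h4, h2, h3, map_zero, add_zero]
    obtain ⟨X, hX, hX2⟩ := kb9_end D he hN hL hlw hc' hu' hS hV₀ hL' h00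
    obtain ⟨y, x, hy0, hy, hx, hfx1⟩ := hκ ⟨T₁, hT₁t⟩
    have hE0 : e X T₂ ≠ 0 := he.ne hl0 hX hT₂t
    have h1 : ∀ s ∈ L.fixingSubgroup, s (y / e X T₂) = y / e X T₂ := by
      intro s hs
      have h2 : e (c s) T₁ = e (ac (WAB A B) s X) T₂ / e X T₂ := by
        have h3 : act (cj π ^ (i - 1)) (c s) = ac (WAB A B) s X - X := hX2 s (hLN s hs)
        rw [← he.sub_left hl0 (ac_mem hA s hX) hX hT₂t, ← h3, he.adj _ _ (hcv s hs) _ hT₂t, map_pow, cj_cj, hT₂]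
      have h3 : s (e X T₂) = e (ac (WAB A B) s X) T₂ := by
        rw [he.gal s X hX T₂ hT₂t, ((hL.fix s).1 hs).2 T₂ hT₂t]
      have hE1 : e (ac (WAB A B) s X) T₂ ≠ 0 := he.ne hl0 (ac_mem hA s hX) hT₂t
      rw [map_div₀, hy s hs, h3]
      show e (c s) T₁ * y / _ = _
      rw [h2]
      field_simp
    have h2 : y / e X T₂ ∈ L := kb11_mem L h1
    have h3 : (⟨y / e X T₂, h2⟩ : L) ≠ 0 := fun h => (div_ne_zero hy0 hE0) (congrArg Subtype.val h)
    have h4 : x = (Units.mk0 ⟨y / e X T₂, h2⟩ h3 : (L)ˣ) ^ l ^ i := by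
      apply Units.ext
      apply Subtype.ext
      rw [Units.val_pow_eq_pow_val, Units.val_mk0]
      show ((x : L) : Ω) = (y / e X T₂) ^ l ^ i
      rw [hx, div_pow, he.root X hX T₂ hT₂t, div_one]
    apply hm
    have h5 := ord_zpow Q (Units.mk0 ⟨y / e X T₂, h2⟩ h3 : (L)ˣ) ((l ^ i : ℕ) : ℤ)
    rw [zpow_natCast, ← h4] at h5
    rw [h5] at hfx1
    push_cast at hfx1
    have h6 : ((l : ZMod (l ^ i)) ^ i) = 0 := by
      have h7 := ZMod.natCast_self (l ^ i)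
      rwa [Nat.cast_pow] at h7
    rw [h6, zero_mul] at hfx1
    exact hfx1.symm

/-- OUTPUT OF MODULE KUM for one prime element. -/
theorem kb12_one (D : Dat A B Om j act mo ψ π l) {i : ℕ} (hi1 : 1 ≤ i) (hit : i ≤ t) {N N' : IntermediateField F Ω} [NumberField N]
    [NumberField N'] (hN : Nb l N) (hN'f : FiniteDimensional F N') (hUN : UnrP l N) (hNN : N ≤ N')
    (hn : ∀ s ∈ N.fixingSubgroup, ∀ x ∈ N', s x ∈ N') {w : HeightOneSpectrum (𝓞 N)} (hlw : (l : 𝓞 N) ∉ w.asIdeal)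
    (hfx : ∀ V : ValuationSubring Ω, Abv N V w → ∀ s, DecN N V s → ∀ T : Pt (WAB A B) Ω, l ^ t • T = 0 → ac (WAB A B) s T = T)
    (hS : SelZero (WAB A B) l N) {V₀ : ValuationSubring Ω} (hV₀ : Abv N V₀ w) {τ : Ω ≃ₐ[F] Ω} (hτ : τ ∈ N.fixingSubgroup)
    (hi : Inert V₀ τ) (hgen : ∀ s ∈ N.fixingSubgroup, Inert V₀ s → ∃ k : ℕ, (τ ^ k)⁻¹ * s ∈ N'.fixingSubgroup)
    (hram : ∀ a ∈ N, a ≠ 0 → ∃ x ∈ N', V₀.valuation x ^ l ^ i = V₀.valuation a) :
    ∃ c : (Ω ≃ₐ[F] Ω) → Pt (WAB A B) Ω, ECl A B l t N N' {w} c ∧ (∀ s ∈ N.fixingSubgroup, c s ∈ Tor act (cj π ^ t)) ∧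
      c τ ∈ Tor act (cj π ^ i) ∧ act (cj π ^ (i - 1)) (c τ) ≠ 0 := by
  have hlt : ∀ T : Pt (WAB A B) Ω, l ^ i • T = 0 → l ^ t • T = 0 := by
    intro T hT
    obtain ⟨u, hu⟩ := pow_dvd_pow l hit
    rw [hu, mul_comm, mul_smul, hT, smul_zero]
  have hfx' : ∀ V : ValuationSubring Ω, Abv N V w → ∀ s, DecN N V s → ∀ T : Pt (WAB A B) Ω, l ^ i • T = 0 → ac (WAB A B) s T = T :=
    fun V hV s hs T hT => hfx V hV s hs T (hlt T hT)
  obtain ⟨c, hc, hkill, hloc, hout, h0⟩ := kb12_lev D hi1 hN hUN hNN hlw hfx' hS hV₀ hτ hi hgen hram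
  have hctor : ∀ s ∈ N.fixingSubgroup, c s ∈ Tor act (cj π ^ i) := fun s hs => mem_Tor.2 (hc.tor s hs)
  have hN'N : ∀ s ∈ N'.fixingSubgroup, s ∈ N.fixingSubgroup := fun s hs => IntermediateField.fixingSubgroup_antitone hNN hs
  have hc' : c ∈ CS N'.fixingSubgroup act (cj π ^ i) := by
    refine ⟨fun s hs s' hs' => hc.mul s (hN'N s hs) s' (hN'N s' hs'), fun s hs => hc.tor s (hN'N s hs), ?_⟩
    obtain ⟨M, hM, h⟩ := hc.cont
    exact ⟨M, hM, fun s hs hsM => h s (hN'N s hs) hsM⟩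
  refine ⟨c, ⟨⟨hc.mul, hc.cont⟩, fun s hs => hlt _ (tor_lt D (Or.inr (hctor s hs))), fun V hVt => ?_, fun V hVt hw => hloc V hVt (hw w rfl),
    fun V hw hlV s hs hsi hT => hout V (hw w rfl) hlV s hs hsi fun T hT' => hT T (hlt T hT')⟩,
    fun s hs => ka4_dvd (pow_dvd_pow _ hit) (hctor s hs), hctor τ hτ, h0⟩
  by_cases hVw : Abv N V w
  · obtain ⟨v', hv'⟩ := xg3_below (F := F) N' hVt
    refine loc_zero_t D hc' hv' (kb12_vl hlw hVw) fun s hs hsi => ?_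
    obtain ⟨σ, hσN, hσ⟩ := trans_V N hV₀ hVw
    have hsN' : s ∈ N'.fixingSubgroup := hs.1
    have hcon : σ⁻¹ * s * σ ∈ N'.fixingSubgroup := by
      rw [IntermediateField.mem_fixingSubgroup_iff]
      intro x hx
      show σ⁻¹ (s (σ x)) = x
      rw [(IntermediateField.mem_fixingSubgroup_iff N' s).1 hsN' _ (hn σ hσN x hx)]
      exact σ.symm_apply_apply x
    have h1 := H13T.coc_conj hc.mul hσN (hN'N s hsN') (hkill _ hcon (H13T.inert_conj hσ hsi))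
    have h2 : l ^ i • c σ = 0 := tor_lt D (Or.inr (hctor σ hσN))
    rw [h1, map_neg, hs.2 _ h2, sub_self]
  · obtain ⟨P, hP⟩ := hloc V hVt hVw
    exact ⟨P, fun s hs hsD => hP s (hN'N s hs) hsD⟩

section cls

variable {R R' : Set (HeightOneSpectrum (𝓞 N))} {d : (Ω ≃ₐ[F] Ω) → Pt (WAB A B) Ω}

/-- Sums. -/
theorem ECl.add [NumberField N] (h : ECl A B l t N N' R c) (h' : ECl A B l t N N' R' d) : ECl A B l t N N' (R ∪ R') (fun s => c s + d s) where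
  coc := by
    refine ⟨fun s hs t ht => ?_, ?_⟩
    · show c (s * t) + d (s * t) = _
      rw [h.coc.mul s hs t ht, h'.coc.mul s hs t ht, map_add]
      abel
    · obtain ⟨M, hM, h1⟩ := h.coc.cont
      obtain ⟨M', hM', h1'⟩ := h'.coc.cont
      refine ⟨M ⊔ M', inferInstance, fun s hs hsM => ?_⟩
      show c s + d s = 0
      rw [h1 s hs (IntermediateField.fixingSubgroup_antitone le_sup_left hsM),
        h1' s hs (IntermediateField.fixingSubgroup_antitone le_sup_right hsM), add_zero]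
  tor := fun s hs => by
    show l ^ t • (c s + d s) = 0
    rw [smul_add, h.tor s hs, h'.tor s hs, add_zero]
  loc' := fun V hV => by
    obtain ⟨P, hP⟩ := h.loc' V hV
    obtain ⟨P', hP'⟩ := h'.loc' V hV
    refine ⟨P + P', fun s hs hsD => ?_⟩
    show c s + d s = _
    rw [hP s hs hsD, hP' s hs hsD, map_add]
    abel
  loc := fun V hV hR => by
    obtain ⟨P, hP⟩ := h.loc V hV fun w hw => hR w (Or.inl hw)
    obtain ⟨P', hP'⟩ := h'.loc V hV fun w hw => hR w (Or.inr hw)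
    refine ⟨P + P', fun s hs hsD => ?_⟩
    show c s + d s = _
    rw [hP s hs hsD, hP' s hs hsD, map_add]
    abel
  out := fun V hR hl s hs hsi hT => by
    show c s + d s = 0
    rw [h.out V (fun w hw => hR w (Or.inl hw)) hl s hs hsi hT, h'.out V (fun w hw => hR w (Or.inr hw)) hl s hs hsi hT, add_zero]

/-- More primes. -/
theorem ECl.mono [NumberField N] (h : ECl A B l t N N' R c) (hR : R ⊆ R') : ECl A B l t N N' R' c where
  coc := h.coc
  tor := h.tor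
  loc' := h.loc'
  loc := fun V hV hw => h.loc V hV fun w hwR => hw w (hR hwR)
  out := fun V hw => h.out V fun w hwR => hw w (hR hwR)

/-- Multiples. -/
theorem ECl.mulc [NumberField N] (hA : CMA F A B Om j act) (h : ECl A B l t N N' R c) (a : 𝓞 F) : ECl A B l t N N' R (fun s => act a (c s)) where
  coc := by
    refine ⟨fun s hs t ht => ?_, ?_⟩
    · show act a (c (s * t)) = _
      rw [h.coc.mul s hs t ht, map_add, ac_act hA]
    · obtain ⟨M, hM, h1⟩ := h.coc.cont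
      refine ⟨M, hM, fun s hs hsM => ?_⟩
      show act a (c s) = 0
      rw [h1 s hs hsM, map_zero]
  tor := fun s hs => by
    show l ^ t • act a (c s) = 0
    rw [← map_nsmul, h.tor s hs, map_zero]
  loc' := fun V hV => by
    obtain ⟨P, hP⟩ := h.loc' V hV
    refine ⟨act a P, fun s hs hsD => ?_⟩
    show act a (c s) = _
    rw [hP s hs hsD, map_sub, ac_act hA]
  loc := fun V hV hR => by
    obtain ⟨P, hP⟩ := h.loc V hV hR
    refine ⟨act a P, fun s hs hsD => ?_⟩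
    show act a (c s) = _
    rw [hP s hs hsD, map_sub, ac_act hA]
  out := fun V hR hl s hs hsi hT => by
    show act a (c s) = 0
    rw [h.out V hR hl s hs hsi hT, map_zero]

end cls

/-- A point killed by β^i which is not killed by β^(i-1) generates the points killed by β^i. -/
theorem kb12_gen (hA : CMA F A B Om j act) {β : 𝓞 F} (hβ : Prime β) {i : ℕ} (hi1 : 1 ≤ i) {X₀ : Pt (WAB A B) Ω}
    (hX₀ : X₀ ∈ Tor act (β ^ i)) (h0 : act (β ^ (i - 1)) X₀ ≠ 0) {X : Pt (WAB A B) Ω} (hX : X ∈ Tor act (β ^ i)) :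
    ∃ a : 𝓞 F, act a X₀ = X := by
  obtain ⟨T₀, hT₀, hgen, -, -⟩ := hA.gen (β ^ i) (pow_ne_zero _ hβ.ne_zero)
  obtain ⟨b, hb⟩ := hgen X₀ hX₀
  obtain ⟨a, ha⟩ := hgen X hX
  have hnd : ¬ β ∣ b := by
    rintro ⟨u, hu⟩
    apply h0
    have h1 : β ^ (i - 1) * b = u * β ^ i := by
      obtain ⟨k, rfl⟩ : ∃ k, i = k + 1 := ⟨i - 1, by omega⟩
      rw [hu, Nat.add_sub_cancel]
      ring
    rw [hb, ← act_mul, h1, act_mul, mem_Tor.1 hT₀, map_zero]
  have hco : IsCoprime b (β ^ i) := ((ka4_cop hβ hnd).symm).pow_right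
  obtain ⟨u, v, huv⟩ := hco
  refine ⟨a * u, ?_⟩
  have h1 : a * u * b = a - a * v * β ^ i := by linear_combination a * huv
  rw [hb, ← act_mul, h1, act_sub, act_mul, mem_Tor.1 hT₀, map_zero, sub_zero, ha]

/-- OUTPUT OF MODULE KUM: every point killed by l^i is the value at τ of a class. -/
theorem kb12_two (D : Dat A B Om j act mo ψ π l) {i : ℕ} (hi1 : 1 ≤ i) (hit : i ≤ t) {N N' : IntermediateField F Ω} [NumberField N]
    [NumberField N'] (hN : Nb l N) (hN'f : FiniteDimensional F N') (hUN : UnrP l N) (hNN : N ≤ N')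
    (hn : ∀ s ∈ N.fixingSubgroup, ∀ x ∈ N', s x ∈ N') {w : HeightOneSpectrum (𝓞 N)} (hlw : (l : 𝓞 N) ∉ w.asIdeal)
    (hfx : ∀ V : ValuationSubring Ω, Abv N V w → ∀ s, DecN N V s → ∀ T : Pt (WAB A B) Ω, l ^ t • T = 0 → ac (WAB A B) s T = T)
    (hS : SelZero (WAB A B) l N) {V₀ : ValuationSubring Ω} (hV₀ : Abv N V₀ w) {τ : Ω ≃ₐ[F] Ω} (hτ : τ ∈ N.fixingSubgroup)
    (hi : Inert V₀ τ) (hgen : ∀ s ∈ N.fixingSubgroup, Inert V₀ s → ∃ k : ℕ, (τ ^ k)⁻¹ * s ∈ N'.fixingSubgroup)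
    (hram : ∀ a ∈ N, a ≠ 0 → ∃ x ∈ N', V₀.valuation x ^ l ^ i = V₀.valuation a) {T : Pt (WAB A B) Ω} (hT : l ^ i • T = 0) :
    ∃ c : (Ω ≃ₐ[F] Ω) → Pt (WAB A B) Ω, ECl A B l t N N' {w} c ∧ c τ = T := by
  obtain ⟨c, hc, -, hcv, hc0⟩ := kb12_one (t := t) D hi1 hit hN hN'f hUN hNN hn hlw hfx hS hV₀ hτ hi hgen hram
  have hlT : act ((l : 𝓞 F) ^ i) T = 0 := (ka4_tor l i).2 hT
  rcases dichotomy D.hl D.dta.unr D.pr D.dvd with ⟨h2, -, h3⟩ | ⟨h2, -, -, h3⟩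
  · have hTm : T ∈ Tor act (cj π ^ i) := ka4_dvd (pow_dvd_pow_of_dvd (h3.trans h2.symm).dvd i) hlT
    obtain ⟨a, ha⟩ := kb12_gen D.cma (cj_prime D.pr) hi1 hcv hc0 hTm
    exact ⟨fun s => act a (c s), hc.mulc D.cma a, ha⟩
  · obtain ⟨c', hc', -, hcv', hc0'⟩ := kb12_one (t := t) D.conj hi1 hit hN hN'f hUN hNN hn hlw hfx hS hV₀ hτ hi hgen hram
    rw [cj_cj] at hcv' hc0'
    have h4 : IsCoprime (π ^ i) (cj π ^ i) := (ka4_cop D.pr h2).pow
    obtain ⟨u, v, huv⟩ := h4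
    have hX : act (u * π ^ i) T ∈ Tor act (cj π ^ i) := by
      rw [mem_Tor, ← act_mul]
      have h6 : cj π ^ i * (u * π ^ i) = u * (l : 𝓞 F) ^ i := by rw [← h3, mul_pow]; ring
      rw [h6, act_mul, hlT, map_zero]
    have hY : act (v * cj π ^ i) T ∈ Tor act (π ^ i) := by
      rw [mem_Tor, ← act_mul]
      have h6 : π ^ i * (v * cj π ^ i) = v * (l : 𝓞 F) ^ i := by rw [← h3, mul_pow]; ring
      rw [h6, act_mul, hlT, map_zero]
    obtain ⟨a, ha⟩ := kb12_gen D.cma (cj_prime D.pr) hi1 hcv hc0 hX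
    obtain ⟨b, hb⟩ := kb12_gen D.cma D.pr hi1 hcv' hc0' hY
    refine ⟨fun s => act a (c s) + act b (c' s), ((hc.mulc D.cma a).add (hc'.mulc D.cma b)).mono (by simp), ?_⟩
    show act a (c τ) + act b (c' τ) = T
    rw [ha, hb, ← act_add, huv, act_one]

end H13V
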