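import Mathlib
import Pool.Agent.Lib.H13V.KB12

/-! # H13V: theorem (T), interface of module KUM: classes with values killed by l^t (see PROOF.md, section 3) -/

open NumberField IsDedekindDomain WeierstrassCurve

namespace H13V

open H55P (IQ embF eF LF Per IsHecke Pt ac acR Inert Dec Nm Coc PExt UnrP Ram RamF SelZero)
open H35P (WAB Ker tt)
open H55K (Tor ak xc yc CMA Dta GV GMod cj cj_cj mul_cj cj_prime cj_dvd cj_nat Nm_cj Nm_mul Nm_nat tor_gen)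
open H55K.S
open H13S (Abv)
open H13X

variable {F : Type} [Field F] [NumberField F] [IQ F] {A B : F} {Om : ℂ} {Ω : Type} [Field Ω] [DecidableEq Ω]
  [Algebra F Ω] [IsAlgClosure F Ω] {j : Ω →+* ℂ} {act : 𝓞 F →+* AddMonoid.End (Pt (WAB A B) Ω)} {mo : Ideal (𝓞 F)}
  {ψ : Ideal (𝓞 F) →*₀ 𝓞 F} {π : 𝓞 F} {l t : ℕ}

/-- OUTPUT OF MODULE KUM for one prime element: a class with values in Tor (cj π ^ i) at τ generating it (PROOF.md 3.7). -/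
theorem kum_one (D : Dat A B Om j act mo ψ π l) {i : ℕ} (hi1 : 1 ≤ i) (hit : i ≤ t) {N N' : IntermediateField F Ω} [NumberField N]
    [NumberField N'] (hN : Nb l N) (hN'f : FiniteDimensional F N') (hUN : UnrP l N) (hNN : N ≤ N')
    (hn : ∀ s ∈ N.fixingSubgroup, ∀ x ∈ N', s x ∈ N') {w : HeightOneSpectrum (𝓞 N)} (hlw : (l : 𝓞 N) ∉ w.asIdeal)
    (hfx : ∀ V : ValuationSubring Ω, Abv N V w → ∀ s, DecN N V s → ∀ T : Pt (WAB A B) Ω, l ^ t • T = 0 → ac (WAB A B) s T = T)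
    (hS : SelZero (WAB A B) l N) {V₀ : ValuationSubring Ω} (hV₀ : Abv N V₀ w) {τ : Ω ≃ₐ[F] Ω} (hτ : τ ∈ N.fixingSubgroup)
    (hi : Inert V₀ τ) (hgen : ∀ s ∈ N.fixingSubgroup, Inert V₀ s → ∃ k : ℕ, (τ ^ k)⁻¹ * s ∈ N'.fixingSubgroup)
    (hord : τ ^ l ^ i ∈ N'.fixingSubgroup)
    (hram : ∀ a ∈ N, a ≠ 0 → ∃ x ∈ N', V₀.valuation x ^ l ^ i = V₀.valuation a) :
    ∃ c : (Ω ≃ₐ[F] Ω) → Pt (WAB A B) Ω, ECl A B l t N N' {w} c ∧ (∀ s ∈ N.fixingSubgroup, c s ∈ Tor act (cj π ^ t)) ∧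
      c τ ∈ Tor act (cj π ^ i) ∧ act (cj π ^ (i - 1)) (c τ) ≠ 0 := by
  exact kb12_one D hi1 hit hN hN'f hUN hNN hn hlw hfx hS hV₀ hτ hi hgen hram

/-- OUTPUT OF MODULE KUM: every point killed by l^i is the value at τ of a class. -/
theorem kum_two (D : Dat A B Om j act mo ψ π l) {i : ℕ} (hi1 : 1 ≤ i) (hit : i ≤ t) {N N' : IntermediateField F Ω} [NumberField N]
    [NumberField N'] (hN : Nb l N) (hN'f : FiniteDimensional F N') (hUN : UnrP l N) (hNN : N ≤ N')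
    (hn : ∀ s ∈ N.fixingSubgroup, ∀ x ∈ N', s x ∈ N') {w : HeightOneSpectrum (𝓞 N)} (hlw : (l : 𝓞 N) ∉ w.asIdeal)
    (hfx : ∀ V : ValuationSubring Ω, Abv N V w → ∀ s, DecN N V s → ∀ T : Pt (WAB A B) Ω, l ^ t • T = 0 → ac (WAB A B) s T = T)
    (hS : SelZero (WAB A B) l N) {V₀ : ValuationSubring Ω} (hV₀ : Abv N V₀ w) {τ : Ω ≃ₐ[F] Ω} (hτ : τ ∈ N.fixingSubgroup)
    (hi : Inert V₀ τ) (hgen : ∀ s ∈ N.fixingSubgroup, Inert V₀ s → ∃ k : ℕ, (τ ^ k)⁻¹ * s ∈ N'.fixingSubgroup)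
    (hord : τ ^ l ^ i ∈ N'.fixingSubgroup)
    (hram : ∀ a ∈ N, a ≠ 0 → ∃ x ∈ N', V₀.valuation x ^ l ^ i = V₀.valuation a) {T : Pt (WAB A B) Ω} (hT : l ^ i • T = 0) :
    ∃ c : (Ω ≃ₐ[F] Ω) → Pt (WAB A B) Ω, ECl A B l t N N' {w} c ∧ c τ = T := by
  exact kb12_two D hi1 hit hN hN'f hUN hNN hn hlw hfx hS hV₀ hτ hi hgen hram hT

end H13V
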