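import Mathlib
import Pool.Agent.Lib.H55P.SA1

/-! # H13V, U1: the kernel of η^p - 1 is the kernel of η - 1, hence η = 1 (nilpotent operators) -/

namespace H13V

theorem v1_ring {A : Type} [CommRing A] (p : ℕ) (hp : p.Prime) (k m : ℕ) (J : Ideal A) (x : A) (hk : (p : A) ^ k ∈ J)
    (hx : x ^ (p ^ m) - 1 ∈ J) (h0 : ∀ g, (x ^ p - 1) * g ∈ J → (x - 1) * g ∈ J) : x - 1 ∈ J := by
  have hp2 := hp.two_le
  obtain ⟨y, hy⟩ : ∃ y, y = x - 1 := ⟨_, rfl⟩
  have hxy : x = y + 1 := by rw [hy, sub_add_cancel]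
  rw [← hy]
  have hnil : ∃ n, y ^ n ∈ J := by
    obtain ⟨r, hr⟩ := Commute.exists_add_pow_prime_pow_eq hp (Commute.all y (1 : A)) m
    refine ⟨p ^ m * k, ?_⟩
    have h1 : y ^ p ^ m = (x ^ p ^ m - 1) - (p : A) * (y * r) := by
      rw [hxy, hr, one_pow]
      ring
    rw [pow_mul, h1]
    obtain ⟨q, hq⟩ := sub_dvd_pow_sub_pow ((x ^ p ^ m - 1) - (p : A) * (y * r)) (-((p : A) * (y * r))) k
    have h3 : ((x ^ p ^ m - 1) - (p : A) * (y * r)) ^ k = (x ^ p ^ m - 1) * q + (p : A) ^ k * (-(y * r)) ^ k := by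
      have h2 : ((x ^ p ^ m - 1) - (p : A) * (y * r)) - (-((p : A) * (y * r))) = x ^ p ^ m - 1 := by ring
      rw [h2] at hq
      rw [← hq, ← mul_pow]
      ring
    rw [h3]
    exact J.add_mem (J.mul_mem_right _ hx) (J.mul_mem_right _ hk)
  obtain ⟨g, hg⟩ : ∃ g : A, x ^ p - 1 = y ^ p + (p : A) * y * g := by
    obtain ⟨r, hr⟩ := Commute.exists_add_pow_prime_eq hp (Commute.all y (1 : A))
    refine ⟨r, ?_⟩
    rw [one_pow, mul_one, ← hxy] at hr
    rw [hr]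
    ring
  by_contra hyJ
  classical
  have hfn := Nat.find_spec hnil
  obtain ⟨n₀, hn₀⟩ : ∃ n₀, n₀ = Nat.find hnil := ⟨_, rfl⟩
  have hmin : ∀ n, n < n₀ → y ^ n ∉ J := fun n hn => Nat.find_min hnil (by rw [← hn₀]; exact hn)
  rw [← hn₀] at hfn
  have h2 : 2 ≤ n₀ := by
    rcases Nat.lt_or_ge n₀ 2 with h | h
    · exfalso
      interval_cases n₀
      · rw [pow_zero] at hfn
        exact hyJ (by rw [← mul_one y]; exact J.mul_mem_left _ hfn)
      · rw [pow_one] at hfn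
        exact hyJ hfn
    · exact h
  obtain ⟨m', rfl⟩ : ∃ m', n₀ = m' + 2 := ⟨n₀ - 2, by omega⟩
  have hex : ∃ a, (p : A) ^ a * y ^ (m' + 1) ∈ J := ⟨k, J.mul_mem_right _ hk⟩
  have ha := Nat.find_spec hex
  obtain ⟨a₀, ha₀⟩ : ∃ a₀, a₀ = Nat.find hex := ⟨_, rfl⟩
  have hamin : ∀ a, a < a₀ → (p : A) ^ a * y ^ (m' + 1) ∉ J := fun a h => Nat.find_min hex (by rw [← ha₀]; exact h)
  rw [← ha₀] at ha
  have ha0 : a₀ ≠ 0 := by
    rintro h
    rw [h, pow_zero, one_mul] at ha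
    exact hmin (m' + 1) (by omega) ha
  obtain ⟨a, rfl⟩ : ∃ a, a₀ = a + 1 := ⟨a₀ - 1, by omega⟩
  apply hamin a (by omega)
  have h3 : (x ^ p - 1) * ((p : A) ^ a * y ^ m') ∈ J := by
    have e1 : (x ^ p - 1) * ((p : A) ^ a * y ^ m') =
        (p : A) ^ a * y ^ (p - 2) * y ^ (m' + 2) + g * ((p : A) ^ (a + 1) * y ^ (m' + 1)) := by
      have e2 : y ^ p = y ^ (p - 2) * y ^ 2 := by
        rw [← pow_add]
        congr 1
        omega
      rw [hg, e2]
      ring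
    rw [e1]
    exact J.add_mem (J.mul_mem_left _ hfn) (J.mul_mem_left _ ha)
  have h4 := h0 _ h3
  rw [← hy] at h4
  have e3 : y * ((p : A) ^ a * y ^ m') = (p : A) ^ a * y ^ (m' + 1) := by ring
  rwa [e3] at h4

theorem ps_fix {X : Type} [AddCommGroup X] (p : ℕ) (hp : p.Prime) (k m : ℕ) (Z B : AddSubgroup X) (η : X →+ X)
    (hηZ : ∀ z ∈ Z, η z ∈ Z) (hηB : ∀ b ∈ B, η b ∈ B) (hk : ∀ z ∈ Z, p ^ k • z ∈ B) (hη : ∀ z ∈ Z, η^[p ^ m] z - z ∈ B)
    (h0 : ∀ z ∈ Z, η^[p] z - z ∈ B → η z - z ∈ B) : ∀ z ∈ Z, η^[p] z - z ∈ B := by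
  classical
  let S : Subring (AddMonoid.End X) :=
    { carrier := {f | (∀ z ∈ Z, f z ∈ Z) ∧ ∀ z ∈ B, f z ∈ B}
      mul_mem' := fun {f g} hf hg => ⟨fun z hz => hf.1 _ (hg.1 z hz), fun z hz => hf.2 _ (hg.2 z hz)⟩
      one_mem' := ⟨fun z hz => hz, fun z hz => hz⟩
      add_mem' := fun {f g} hf hg => ⟨fun z hz => Z.add_mem (hf.1 z hz) (hg.1 z hz),
        fun z hz => B.add_mem (hf.2 z hz) (hg.2 z hz)⟩
      zero_mem' := ⟨fun z _ => Z.zero_mem, fun z _ => B.zero_mem⟩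
      neg_mem' := fun {f} hf => ⟨fun z hz => Z.neg_mem (hf.1 z hz), fun z hz => B.neg_mem (hf.2 z hz)⟩ }
  let e : AddMonoid.End X := η
  have heS : e ∈ S := ⟨hηZ, hηB⟩
  let x : S := ⟨e, heS⟩
  obtain ⟨F, hF⟩ : ∃ F : Polynomial ℤ →ₐ[ℤ] S, F = Polynomial.aeval x := ⟨_, rfl⟩
  have hFX : F Polynomial.X = x := by
    rw [hF]
    exact Polynomial.aeval_X x
  intro z hz
  let J : Ideal (Polynomial ℤ) :=
    { carrier := {f | (F f : AddMonoid.End X) z ∈ B}
      add_mem' := fun {f g} hf hg => by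
        show (F (f + g) : AddMonoid.End X) z ∈ B
        rw [map_add]
        exact B.add_mem hf hg
      zero_mem' := by
        show (F 0 : AddMonoid.End X) z ∈ B
        rw [map_zero]
        exact B.zero_mem
      smul_mem' := fun c f hf => by
        show (F (c * f) : AddMonoid.End X) z ∈ B
        rw [map_mul]
        exact (F c).2.2 _ hf }
  have hJ : ∀ f, f ∈ J ↔ (F f : AddMonoid.End X) z ∈ B := fun f => Iff.rfl
  have hpow : ∀ (m : ℕ) (w : X), (((x ^ m : S) : AddMonoid.End X)) w = η^[m] w := by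
    intro m w
    have h1 : ((x ^ m : S) : AddMonoid.End X) = e ^ m := map_pow S.subtype x m
    rw [h1, AddMonoid.End.coe_pow]
    rfl
  have hnat : ∀ (m : ℕ) (w : X), (((m : S) : AddMonoid.End X)) w = m • w := by
    intro m w
    have h1 : (((m : ℕ) : S) : AddMonoid.End X) = (m : AddMonoid.End X) := rfl
    rw [h1, AddMonoid.End.natCast_apply]
  have h1 : (Polynomial.X - 1 : Polynomial ℤ) ∈ J := by
    refine v1_ring p hp k m J Polynomial.X ?_ ?_ ?_
    · rw [hJ, ← Nat.cast_pow, map_natCast, hnat]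
      exact hk z hz
    · rw [hJ, map_sub, map_pow, map_one, hFX]
      show ((x ^ (p ^ m) : S) : AddMonoid.End X) z - z ∈ B
      rw [hpow]
      exact hη z hz
    · intro g hg
      rw [hJ, map_mul, map_sub, map_pow, map_one, hFX] at hg
      obtain ⟨w, hw⟩ : ∃ w, w = (F g : AddMonoid.End X) z := ⟨_, rfl⟩
      have hwZ : w ∈ Z := by
        rw [hw]
        exact (F g).2.1 z hz
      have hg' : ((x ^ p : S) : AddMonoid.End X) w - w ∈ B := by
        rw [hw]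
        exact hg
      rw [hpow] at hg'
      have a2 := h0 w hwZ hg'
      rw [hJ, map_mul, map_sub, map_one, hFX]
      show η ((F g : AddMonoid.End X) z) - (F g : AddMonoid.End X) z ∈ B
      rw [← hw]
      exact a2
  have h2 : (Polynomial.X ^ p - 1 : Polynomial ℤ) ∈ J := by
    have e1 : (Polynomial.X ^ p - 1 : Polynomial ℤ) = (∑ i ∈ Finset.range p, Polynomial.X ^ i) * (Polynomial.X - 1) :=
      (geom_sum_mul _ _).symm
    rw [e1]
    exact J.mul_mem_left _ h1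
  rw [hJ, map_sub, map_pow, map_one, hFX] at h2
  have h3 : ((x ^ p : S) : AddMonoid.End X) z - z ∈ B := h2
  rwa [hpow] at h3

end H13V
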