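import Mathlib
import Pool.Agent.Lib.H13V.U1
import Pool.Agent.Lib.H13V.U4

/-! # H13V, U6: every class over N comes from a relaxed class over H; the points fixed by N are p-divisible -/

namespace H13V

open H55P H13T

variable {G M Vs : Type} [Group G] [AddCommGroup M] {ρ : G →* AddMonoid.End M} {p t : ℕ} {U : Set (Subgroup G)} {I D : Vs → Subgroup G}
  {N H H₀ : Subgroup G} {η : G} {R : Vs → Prop}

theorem ts_up (S : TS ρ p t U I D N H H₀ η R) (k : ℕ) (c : G → M) (hc : IsC ρ N c) (hk : ∀ s ∈ N, p ^ k • c s = 0)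
    (hco : Cont U N c) (hl : ∀ v, Tr ρ N (I v) c) :
    ∃ (e : G → M) (T' : M), RC ρ p t U I N H R e ∧ p ^ (k + t) • T' = 0 ∧ ∀ s ∈ N, c s = e s + (ρ s T' - T') := by
  have hNH₀ : N ≤ H₀ := le_trans S.hNH S.hHH
  have hn' := sa3_norm' hNH₀ S.hcomm
  have key : (sa3_F ρ η)^[p] c - c ∈ sa3_B ρ (p ^ k) N := by
    refine ps_fix p S.hp k (t + 1) (sa3_Z ρ (p ^ k) U I N S.hN S.hUi) (sa3_B ρ (p ^ k) N) (sa3_F ρ η) ?_ ?_ ?_ ?_ ?_ c ⟨hc, hco, hk, hl⟩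
    · intro z hz
      exact sa3_FZ (p ^ k) U I N H₀ S.hUc hNH₀ S.hcomm η S.hη (fun g hg v => by
        obtain ⟨v', h1, -⟩ := S.hconj g hg v
        exact ⟨v', h1⟩) z hz
    · rintro b ⟨T, hT, hb⟩
      refine ⟨ρ η T, sa3_nsmul ρ (p ^ k) η T hT, fun s hs => ?_⟩
      rw [sa3_F_apply, hb _ (hn' η S.hη s hs), sa3_bd]
    · rintro z ⟨-, -, hz, -⟩
      exact ⟨0, smul_zero _, fun s hs => by rw [Pi.smul_apply, hz s hs, map_zero, sub_zero]⟩
    · rintro z ⟨z1, -, z3, -⟩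
      refine ⟨z (η ^ (p ^ (t + 1))), z3 _ S.hηpp, fun s hs => ?_⟩
      rw [Pi.sub_apply, sa3_iter]
      exact sa3_self z1 _ S.hηpp s hs
    · rintro z ⟨z1, z2, z3, z4⟩ ⟨T, hT, hb⟩
      obtain ⟨e, T', he, hT', hz⟩ := ts_rel S k z z1 z3 z2 z4 ⟨T, hT, fun s hs => by
        have h1 := hb s hs
        rwa [Pi.sub_apply, sa3_iter] at h1⟩
      obtain ⟨T₂, hT₂, h2⟩ := ts_eta S e he
      have hY : ∀ s ∈ N, (sa3_F ρ η z - z) s = ρ s (T₂ + ρ η T' - T') - (T₂ + ρ η T' - T') := by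
        intro s hs
        have h3 := h2 s (S.hNH hs)
        have h4 : ρ η (e (η⁻¹ * s * η)) = e s + (ρ s T₂ - T₂) := by
          rw [← h3]
          abel
        rw [Pi.sub_apply, sa3_F_apply, hz _ (hn' η S.hη s hs), hz s hs, map_add, sa3_bd, h4, map_sub, map_add]
        abel
      refine ⟨T₂ + ρ η T' - T', ?_, hY⟩
      refine fix_pow S t _ ?_ ?_
      · have h5 : p ^ t • (p ^ k • (T₂ + ρ η T' - T')) = p ^ k • (p ^ t • T₂) + (ρ η (p ^ (k + t) • T') - p ^ (k + t) • T') := by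
          rw [← mul_smul, ← pow_add, add_comm t k, smul_sub, smul_add, map_nsmul]
          have h6 : p ^ (k + t) • T₂ = p ^ k • (p ^ t • T₂) := by rw [← mul_smul, ← pow_add]
          rw [h6]
          abel
        rw [h5, hT₂, hT', smul_zero, map_zero, sub_zero, add_zero]
      · intro s hs
        have h7 := hY s hs
        have h8 : p ^ k • (sa3_F ρ η z - z) s = 0 := by
          rw [Pi.sub_apply, smul_sub, z3 s hs, sa3_F_apply, sa3_nsmul ρ (p ^ k) η _ (z3 _ (hn' η S.hη s hs)), sub_zero]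
        rw [h7, smul_sub, ← map_nsmul, sub_eq_zero] at h8
        exact h8
  obtain ⟨T, hT, hb⟩ := key
  exact ts_rel S k c hc hk hco hl ⟨T, hT, fun s hs => by
    have h1 := hb s hs
    rwa [Pi.sub_apply, sa3_iter] at h1⟩

theorem pts_div (S : TS ρ p t U I D N H H₀ η R) (P : M) (hP : ∀ s ∈ N, ρ s P = P) : ∃ Q : M, (∀ s ∈ N, ρ s Q = Q) ∧ p • Q = P := by
  obtain ⟨Q₀, hQ₀⟩ := div_pow S.hdiv (t + 1) P
  obtain ⟨e, T', hRC, hT', hc⟩ := ts_up S (t + 1) (fun s => ρ s Q₀ - Q₀)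
    (by
      intro s hs t ht
      show ρ (s * t) Q₀ - Q₀ = (ρ s Q₀ - Q₀) + ρ s (ρ t Q₀ - Q₀)
      have h1 : ρ (s * t) Q₀ = ρ s (ρ t Q₀) := by
        rw [map_mul]
        rfl
      rw [h1, map_sub]
      abel)
    (by
      intro s hs
      show p ^ (t + 1) • (ρ s Q₀ - Q₀) = 0
      rw [smul_sub, ← map_nsmul, hQ₀, hP s hs, sub_self])
    (by
      obtain ⟨O, hO, h1⟩ := S.hfix Q₀
      exact ⟨O, hO, fun s _ hsO => by
        show ρ s Q₀ - Q₀ = 0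
        rw [h1 s hsO, sub_self]⟩)
    (fun v => ⟨Q₀, fun s _ _ => rfl⟩)
  have hQ : ∀ s ∈ N, ρ s (p ^ t • Q₀ - p ^ t • T') = p ^ t • Q₀ - p ^ t • T' := by
    intro s hs
    have h1 : p ^ t • e s = 0 := hRC.kil s (S.hNH hs)
    have h2 : ρ s Q₀ - Q₀ = e s + (ρ s T' - T') := hc s hs
    have h3 : ρ s (p ^ t • Q₀ - p ^ t • T') - (p ^ t • Q₀ - p ^ t • T') = p ^ t • (ρ s Q₀ - Q₀) - p ^ t • (ρ s T' - T') := by
      rw [map_sub, map_nsmul, map_nsmul, smul_sub, smul_sub]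
      abel
    rw [h2, smul_add, h1, zero_add, sub_self] at h3
    exact sub_eq_zero.1 h3
  refine ⟨p ^ t • Q₀ - p ^ t • T', hQ, ?_⟩
  have h4 : p • (p ^ t • Q₀ - p ^ t • T') = P - p ^ (t + 1) • T' := by
    rw [smul_sub, ← mul_smul, ← mul_smul, ← pow_succ', hQ₀]
  have h5 : p ^ (t + 1) • T' = 0 := by
    apply fix_pow S t
    · rw [← mul_smul, ← pow_add, add_comm t (t + 1)]
      exact hT'
    · intro s hs
      have h6 : p ^ (t + 1) • T' = P - p • (p ^ t • Q₀ - p ^ t • T') := by rw [h4]; abel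
      rw [h6, map_sub, hP s hs, map_nsmul, hQ s hs]
  rw [h4, h5, sub_zero]

/-- Division by p^k. -/
theorem pts_divk (S : TS ρ p t U I D N H H₀ η R) (k : ℕ) (P : M) (hP : ∀ s ∈ N, ρ s P = P) :
    ∃ Q : M, (∀ s ∈ N, ρ s Q = Q) ∧ p ^ k • Q = P := by
  induction k with
  | zero => exact ⟨P, hP, by rw [pow_zero, one_smul]⟩
  | succ k ih =>
    obtain ⟨Q, hQ, hQP⟩ := ih
    obtain ⟨Q', hQ', hQQ⟩ := pts_div S Q hQ
    exact ⟨Q', hQ', by rw [pow_succ, mul_smul, hQQ, hQP]⟩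

end H13V
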