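import Mathlib
import Pool.Agent.Lib.H13V.U6

/-! # H13V, U8: relaxed classes are determined by their values at the τ w; sums -/

namespace H13V

open H55P H13T

variable {G M Vs : Type} [Group G] [AddCommGroup M] {ρ : G →* AddMonoid.End M} {p t : ℕ} {U : Set (Subgroup G)} {I D : Vs → Subgroup G}
  {N H H₀ : Subgroup G} {η : G} {R : Vs → Prop} {ι : Type} {v : ι → Vs} {τ : ι → G} {ex : ι → ℕ}

theorem u8_one {c : G → M} (hc : IsC ρ H c) : c 1 = 0 := by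
  have h := hc 1 H.one_mem 1 H.one_mem
  rw [mul_one, sa3_one] at h
  exact left_eq_add.1 h

theorem u8_fix (S : TS ρ p t U I D N H H₀ η R) {u : Vs} (hu : R u) {s : G} (hs : s ∈ H) (hsI : s ∈ I u) {k : ℕ} {P : M}
    (hP : p ^ k • P = 0) : ρ s P = P := by
  refine (S.hR u hu).1 s hs hsI k P ?_
  rw [smul_sub, hP, sa3_nsmul ρ (p ^ k) s P hP, sub_zero]

/-- The values at the powers of τ w. -/
theorem u8_pow (S : TS ρ p t U I D N H H₀ η R) (T : TI p t I N H R ι v τ ex) {d : G → M} (hd : RC ρ p t U I N H R d) (w : ι) (i : ℕ) :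
    d (τ w ^ i) = i • d (τ w) := by
  induction i with
  | zero => rw [pow_zero, u8_one hd.coc, zero_smul]
  | succ i ih =>
    rw [pow_succ, hd.coc _ (H.pow_mem (T.mem w) i) _ (T.mem w), ih,
      u8_fix S (T.rel w) (H.pow_mem (T.mem w) i) ((I (v w)).pow_mem (T.ine w) i) (hd.kil _ (T.mem w)), succ_nsmul]

/-- The value at τ w is killed by p^(ex w). -/
theorem rc_ex (S : TS ρ p t U I D N H H₀ η R) (T : TI p t I N H R ι v τ ex) {d : G → M} (hd : RC ρ p t U I N H R d) (w : ι) :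
    p ^ ex w • d (τ w) = 0 := by
  rw [← u8_pow S T hd]
  exact hd.rel (v w) (T.rel w) _ (T.ord w) ((I (v w)).pow_mem (T.ine w) _)

theorem rc_zero (S : TS ρ p t U I D N H H₀ η R) (T : TI p t I N H R ι v τ ex) (d : G → M) (hd : RC ρ p t U I N H R d)
    (h : ∀ w, d (τ w) = 0) : ∃ T₀ : M, p ^ t • T₀ = 0 ∧ ∀ s ∈ H, d s = ρ s T₀ - T₀ := by
  refine pow_sel ρ S.hUi S.hdiv S.hfix S.sel t d hd.coc hd.cont hd.kil fun u => ?_
  by_cases hu : R u
  · refine ⟨0, fun s hs hsI => ?_⟩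
    rw [map_zero, sub_zero]
    obtain ⟨w, g, hg, hcov⟩ := T.cov u hu
    have h1 : g * s * g⁻¹ ∈ H := H.mul_mem (H.mul_mem hg hs) (H.inv_mem hg)
    obtain ⟨i, n, hn, hnI, hi⟩ := T.gen w (g * s * g⁻¹) h1 ((hcov s).1 hsI)
    have h2 : d (g * s * g⁻¹) = 0 := by
      rw [hi, hd.coc _ (H.pow_mem (T.mem w) i) _ (S.hNH hn), u8_pow S T hd, h w, smul_zero, hd.rel (v w) (T.rel w) n hn hnI,
        map_zero, add_zero]
    have h3 := sa3_self hd.coc g⁻¹ (H.inv_mem hg) s hs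
    rw [inv_inv, h2, map_zero, u8_fix S hu hs hsI (hd.kil _ (H.inv_mem hg)), sub_self, zero_sub,
      neg_eq_zero] at h3
    exact h3
  · exact hd.loc u hu

theorem rc_inj (S : TS ρ p t U I D N H H₀ η R) (T : TI p t I N H R ι v τ ex) (d : G → M) (hd : RC ρ p t U I N H R d)
    (P : M) (hP : ∀ s ∈ N, d s = ρ s P - P) (w : ι) : d (τ w) = 0 := by
  have hpP : ∀ s ∈ N, ρ s (p ^ t • P) = p ^ t • P := by
    intro s hs
    have h1 := hd.kil s (S.hNH hs)
    rw [hP s hs, smul_sub, ← map_nsmul] at h1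
    exact sub_eq_zero.1 h1
  obtain ⟨Q, hQ, hQP⟩ := pts_divk S t (p ^ t • P) hpP
  have hT : p ^ t • (P - Q) = 0 := by rw [smul_sub, hQP, sub_self]
  obtain ⟨f, hf⟩ : ∃ f : G → M, ∀ s, f s = d s - (ρ s (P - Q) - (P - Q)) := ⟨_, fun _ => rfl⟩
  have hfc : IsC ρ H f := by
    intro s hs t ht
    rw [hf, hf, hf, hd.coc s hs t ht, sa3_mul]
    simp only [map_sub]
    abel
  have hfN : ∀ s ∈ N, f s = 0 := by
    intro s hs
    rw [hf, hP s hs, map_sub, hQ s hs]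
    abel
  have hfp : ∀ s ∈ H, p ^ t • f s = 0 := by
    intro s hs
    rw [hf, smul_sub, hd.kil s hs, smul_sub, hT, sa3_nsmul ρ (p ^ t) s _ hT]
    simp
  have hf0 : ∀ g ∈ H, f g = 0 := by
    intro g hg
    refine fix_pow S t _ (hfp g hg) fun n hn => ?_
    have h1 : g⁻¹ * n * g ∈ N :=
      sa3_norm' S.hNH (fun a ha b hb => S.hcomm a (S.hHH ha) b (S.hHH hb)) g hg n hn
    have h2 := hfc n (S.hNH hn) g hg
    have h3 := hfc g hg _ (S.hNH h1)
    rw [hfN n hn, zero_add] at h2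
    rw [hfN _ h1, map_zero, add_zero] at h3
    have h4 : g * (g⁻¹ * n * g) = n * g := by group
    rw [h4] at h3
    rw [← h2, h3]
  have h5 := hf0 (τ w) (T.mem w)
  rw [hf, u8_fix S (T.rel w) (T.mem w) (T.ine w) hT, sub_self, sub_zero] at h5
  exact h5

theorem rc_add (S : TS ρ p t U I D N H H₀ η R) {d d' : G → M} (hd : RC ρ p t U I N H R d) (hd' : RC ρ p t U I N H R d') :
    RC ρ p t U I N H R (d + d') := by
  refine ⟨fun s hs t ht => ?_, ?_, fun s hs => ?_, fun u hu => ?_, fun u hu s hs hsI => ?_⟩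
  · rw [Pi.add_apply, Pi.add_apply, Pi.add_apply, hd.coc s hs t ht, hd'.coc s hs t ht, map_add]
    abel
  · obtain ⟨O, hO, h1⟩ := hd.cont
    obtain ⟨O', hO', h2⟩ := hd'.cont
    refine ⟨O ⊓ O', S.hUi O hO O' hO', fun s hs h => ?_⟩
    rw [Pi.add_apply, h1 s hs h.1, h2 s hs h.2, add_zero]
  · rw [Pi.add_apply, smul_add, hd.kil s hs, hd'.kil s hs, add_zero]
  · obtain ⟨P, hP⟩ := hd.loc u hu
    obtain ⟨Q, hQ⟩ := hd'.loc u hu
    refine ⟨P + Q, fun s hs h => ?_⟩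
    rw [Pi.add_apply, hP s hs h, hQ s hs h, map_add]
    abel
  · rw [Pi.add_apply, hd.rel u hu s hs hsI, hd'.rel u hu s hs hsI, add_zero]

theorem u9_neg {d : G → M} (hd : RC ρ p t U I N H R d) : RC ρ p t U I N H R (-d) := by
  refine ⟨fun s hs t ht => ?_, ?_, fun s hs => ?_, fun u hu => ?_, fun u hu s hs hsI => ?_⟩
  · rw [Pi.neg_apply, Pi.neg_apply, Pi.neg_apply, hd.coc s hs t ht, map_neg]
    abel
  · obtain ⟨O, hO, h1⟩ := hd.cont
    exact ⟨O, hO, fun s hs h => by rw [Pi.neg_apply, h1 s hs h, neg_zero]⟩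
  · rw [Pi.neg_apply, smul_neg, hd.kil s hs, neg_zero]
  · obtain ⟨P, hP⟩ := hd.loc u hu
    refine ⟨-P, fun s hs h => ?_⟩
    rw [Pi.neg_apply, hP s hs h, map_neg]
    abel
  · rw [Pi.neg_apply, hd.rel u hu s hs hsI, neg_zero]

theorem u9_zero (S : TS ρ p t U I D N H H₀ η R) : RC ρ p t U I N H R (0 : G → M) := by
  refine ⟨fun s _ t _ => ?_, ⟨N, S.hN, fun s _ _ => rfl⟩, fun s _ => ?_, fun u _ => ⟨0, fun s _ _ => ?_⟩, fun u _ s _ _ => rfl⟩
  · rw [Pi.zero_apply, Pi.zero_apply, Pi.zero_apply, map_zero, add_zero]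
  · rw [Pi.zero_apply, smul_zero]
  · rw [Pi.zero_apply, map_zero, sub_zero]

theorem rc_sub (S : TS ρ p t U I D N H H₀ η R) {d d' : G → M} (hd : RC ρ p t U I N H R d) (hd' : RC ρ p t U I N H R d') :
    RC ρ p t U I N H R (d - d') := by
  rw [sub_eq_add_neg]
  exact rc_add S hd (u9_neg hd')

theorem rc_fun (S : TS ρ p t U I D N H H₀ η R) [Finite ι] (𝒟 : Set (Subgroup G))
    (hE : ∀ (w : ι) (T : M), p ^ ex w • T = 0 → ∃ d : G → M, RC ρ p t U I N H R d ∧ (∀ J ∈ 𝒟, Tr ρ N J d) ∧ d (τ w) = T ∧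
      ∀ w', w' ≠ w → d (τ w') = 0)
    (f : ι → M) (hf : ∀ w, p ^ ex w • f w = 0) : ∃ d : G → M, RC ρ p t U I N H R d ∧ (∀ J ∈ 𝒟, Tr ρ N J d) ∧ ∀ w, d (τ w) = f w := by
  classical
  have : Fintype ι := Fintype.ofFinite ι
  have key : ∀ t' : Finset ι, ∃ d : G → M, RC ρ p t U I N H R d ∧ (∀ J ∈ 𝒟, Tr ρ N J d) ∧
      (∀ w ∈ t', d (τ w) = f w) ∧ ∀ w, w ∉ t' → d (τ w) = 0 := by
    intro t'
    induction t' using Finset.induction_on with
    | empty =>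
      refine ⟨0, u9_zero S, fun J _ => ⟨0, fun s _ _ => ?_⟩, fun w hw => absurd hw (Finset.notMem_empty w), fun w _ => rfl⟩
      rw [Pi.zero_apply, map_zero, sub_zero]
    | insert a t' ha ih =>
      obtain ⟨d, h1, h2, h3, h4⟩ := ih
      obtain ⟨e, g1, g2, g3, g4⟩ := hE a (f a) (hf a)
      refine ⟨d + e, rc_add S h1 g1, fun J hJ => ?_, fun w hw => ?_, fun w hw => ?_⟩
      · obtain ⟨P, hP⟩ := h2 J hJ
        obtain ⟨Q, hQ⟩ := g2 J hJ
        refine ⟨P + Q, fun s hs h => ?_⟩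
        rw [Pi.add_apply, hP s hs h, hQ s hs h, map_add]
        abel
      · rcases Finset.mem_insert.1 hw with rfl | hw
        · rw [Pi.add_apply, h4 w ha, g3, zero_add]
        · rw [Pi.add_apply, h3 w hw, g4 w (fun h => ha (h ▸ hw)), add_zero]
      · rw [Finset.mem_insert, not_or] at hw
        rw [Pi.add_apply, h4 w hw.2, g4 w hw.1, add_zero]
  obtain ⟨d, h1, h2, h3, -⟩ := key Finset.univ
  exact ⟨d, h1, h2, fun w => h3 w (Finset.mem_univ w)⟩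

end H13V
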