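import Mathlib
import Pool.Agent.Lib.H13V.U8
import Pool.Agent.Lib.H13T.U10

/-! # H13V, U10: THE STRUCTURE of the p-primary part of Sha over N -/

namespace H13V

open H55P SSG H13T

variable {G M Vs : Type} [Group G] [AddCommGroup M] {L : LS G M} {p t : ℕ} {I D : Vs → Subgroup G}
  {N H H₀ : Subgroup G} {η : G} {R : Vs → Prop} {ι : Type} {v : ι → Vs} {τ : ι → G} {ex : ι → ℕ}

theorem u10_isZ (S : TS L.act p t L.U I D N H H₀ η R) {d : G → M} (hd : RC L.act p t L.U I N H R d) (hJ : ∀ J ∈ L.D, Tr L.act N J d) :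
    (L.res N).IsZ (fun n : N => d n) := by
  refine ⟨fun g h => ?_, ?_, ?_⟩
  · exact hd.coc g (S.hNH g.2) h (S.hNH h.2)
  · obtain ⟨O, hO, h1⟩ := hd.cont
    exact ⟨_, ⟨O, hO, rfl⟩, fun g hg => h1 g (S.hNH g.2) (Subgroup.mem_subgroupOf.1 hg)⟩
  · rintro _ ⟨J, hJD, rfl⟩
    obtain ⟨P, hP⟩ := hJ J hJD
    exact ⟨P, fun g hg => hP g g.2 (Subgroup.mem_subgroupOf.1 hg)⟩

theorem u10_surj (S : TS L.act p t L.U I D N H H₀ η R) [Finite ι] (T : TI p t I N H R ι v τ ex) (hI : ∀ v, (∃ J ∈ L.D, I v ≤ J) ∨ I v = ⊥)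
    (hE : ∀ (w : ι) (T : M), p ^ ex w • T = 0 → ∃ d : G → M, RC L.act p t L.U I N H R d ∧ (∀ J ∈ L.D, Tr L.act N J d) ∧ d (τ w) = T ∧
      ∀ w', w' ≠ w → d (τ w') = 0) (x : (L.res N).Sha) (hx : ∃ k : ℕ, p ^ k • x = 0) :
    ∃ (d : G → M) (hd : RC L.act p t L.U I N H R d) (hJ : ∀ J ∈ L.D, Tr L.act N J d), x = (L.res N).cl ⟨fun n : N => d n, u10_isZ S hd hJ⟩ := by
  obtain ⟨k, hk⟩ := hx
  obtain ⟨c, rfl⟩ := (L.res N).cl_surj x
  rw [← map_nsmul, (L.res N).cl_zero] at hk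
  obtain ⟨P, hP⟩ := hk
  obtain ⟨P', hP'⟩ := div_pow S.hdiv k P
  have hZ : (L.res N).IsZ c.1 := c.2
  have hP2 : ∀ g : N, p ^ k • c.1 g = L.act g P - P := hP
  have hcoc : IsC L.act N (u10_c N L c.1 P') := by
    intro s hs t ht
    rw [u10_c_mem c.1 P' hs, u10_c_mem c.1 P' ht, u10_c_mem c.1 P' (N.mul_mem hs ht)]
    have h1 : c.1 ⟨s * t, N.mul_mem hs ht⟩ = c.1 ⟨s, hs⟩ + L.act s (c.1 ⟨t, ht⟩) := hZ.mul ⟨s, hs⟩ ⟨t, ht⟩
    rw [h1, sa3_mul, map_sub, map_sub]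
    abel
  have hkil : ∀ s ∈ N, p ^ k • u10_c N L c.1 P' s = 0 := by
    intro s hs
    rw [u10_c_mem c.1 P' hs, smul_sub, smul_sub, hP2 ⟨s, hs⟩, ← map_nsmul, hP']
    exact sub_self _
  have hcont : Cont L.U N (u10_c N L c.1 P') := by
    obtain ⟨_, ⟨O, hO, rfl⟩, h1⟩ := hZ.cont
    obtain ⟨O', hO', h2⟩ := S.hfix P'
    refine ⟨O ⊓ O', S.hUi O hO O' hO', fun s hs hsO => ?_⟩
    rw [u10_c_mem c.1 P' hs, h2 s hsO.2, h1 ⟨s, hs⟩ (Subgroup.mem_subgroupOf.2 hsO.1), sub_self, sub_zero]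
  have hloc : ∀ v, Tr L.act N (I v) (u10_c N L c.1 P') := by
    intro v
    rcases hI v with ⟨J, hJ, hIJ⟩ | hb
    · obtain ⟨Q, hQ⟩ := hZ.loc (J.subgroupOf N) ⟨J, hJ, rfl⟩
      refine ⟨Q - P', fun s hs hsI => ?_⟩
      have h1 : c.1 ⟨s, hs⟩ = L.act s Q - Q := hQ ⟨s, hs⟩ (Subgroup.mem_subgroupOf.2 (hIJ hsI))
      rw [u10_c_mem c.1 P' hs, h1, map_sub]
      abel
    · refine ⟨0, fun s hs hsI => ?_⟩
      rw [hb, Subgroup.mem_bot] at hsI
      have h1 := hcoc 1 N.one_mem 1 N.one_mem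
      rw [mul_one, sa3_one] at h1
      rw [hsI, map_zero, sub_zero]
      exact left_eq_add.1 h1
  obtain ⟨e, T', he, -, h1⟩ := ts_up S k (u10_c N L c.1 P') hcoc hkil hcont hloc
  obtain ⟨d, hd, hJ, h2⟩ := rc_fun S L.D hE (fun w => e (τ w)) (fun w => rc_ex S T he w)
  obtain ⟨T₀, -, h3⟩ := rc_zero S T (e - d) (rc_sub S he hd) (fun w => by rw [Pi.sub_apply, h2 w, sub_self])
  refine ⟨d, hd, hJ, ?_⟩
  rw [← sub_eq_zero, ← map_sub, (L.res N).cl_zero]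
  refine ⟨P' + T' + T₀, fun g => ?_⟩
  show c.1 g - d g = L.act g (P' + T' + T₀) - (P' + T' + T₀)
  have h4 := h1 g g.2
  have h5 := h3 g (S.hNH g.2)
  rw [u10_c_mem c.1 P' g.2] at h4
  rw [Pi.sub_apply] at h5
  have h6 : c.1 ⟨(g : G), g.2⟩ = c.1 g := rfl
  rw [h6] at h4
  have h7 : c.1 g = e g + (L.act g T' - T') + (L.act g P' - P') := sub_eq_iff_eq_add.1 h4
  have h8 : e g = (L.act g T₀ - T₀) + d g := sub_eq_iff_eq_add.1 h5
  rw [h7, h8, map_add, map_add]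
  abel

theorem u11_kil (S : TS L.act p t L.U I D N H H₀ η R) {d : G → M} (hd : RC L.act p t L.U I N H R d) (hJ : ∀ J ∈ L.D, Tr L.act N J d) :
    p ^ t • (L.res N).cl ⟨fun n : N => d n, u10_isZ S hd hJ⟩ = 0 := by
  rw [← map_nsmul]
  refine ((L.res N).cl_zero _).2 ⟨0, fun g => ?_⟩
  rw [map_zero, sub_zero]
  exact hd.kil g.1 (S.hNH g.2)

/-- THE STRUCTURE THEOREM: the p-primary part is the product of the groups of points killed by p^(ex w). -/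
theorem ts_iso (S : TS L.act p t L.U I D N H H₀ η R) [Finite ι] (T : TI p t I N H R ι v τ ex) (hI : ∀ v, (∃ J ∈ L.D, I v ≤ J) ∨ I v = ⊥)
    (hE : ∀ (w : ι) (T : M), p ^ ex w • T = 0 → ∃ d : G → M, RC L.act p t L.U I N H R d ∧ (∀ J ∈ L.D, Tr L.act N J d) ∧ d (τ w) = T ∧
      ∀ w', w' ≠ w → d (τ w') = 0) :
    Nonempty (pg (L.res N).Sha p ≃+ ((w : ι) → tk M p (ex w))) := by
  have hex : ∀ x : pg (L.res N).Sha p, ∃ (d : G → M) (hd : RC L.act p t L.U I N H R d) (hJ : ∀ J ∈ L.D, Tr L.act N J d),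
      x.1 = (L.res N).cl ⟨fun n : N => d n, u10_isZ S hd hJ⟩ := fun x => u10_surj S T hI hE x.1 x.2
  choose d hd hJ hx using hex
  -- two relaxed classes with the same class over N have the same values
  have huniq : ∀ (a b : G → M) (ha : RC L.act p t L.U I N H R a) (hb : RC L.act p t L.U I N H R b) (P : M),
      (∀ g ∈ N, a g = b g + (L.act g P - P)) → ∀ w, a (τ w) = b (τ w) := by
    intro a b ha hb P hP w
    have h2 := rc_inj S T (a - b) (rc_sub S ha hb) P (fun s hs => by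
      rw [Pi.sub_apply, hP s hs, add_sub_cancel_left]) w
    rw [Pi.sub_apply, sub_eq_zero] at h2
    exact h2
  obtain ⟨f, hf⟩ : ∃ f : pg (L.res N).Sha p → ((w : ι) → tk M p (ex w)), ∀ x w, (f x w : M) = d x (τ w) :=
    ⟨fun x w => ⟨d x (τ w), rc_ex S T (hd x) w⟩, fun x w => rfl⟩
  have hadd : ∀ x y, f (x + y) = f x + f y := by
    intro x y
    funext w
    apply Subtype.ext
    show (f (x + y) w : M) = (f x w : M) + (f y w : M)
    rw [hf, hf, hf]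
    have h1 : (L.res N).cl ⟨fun n : N => d (x + y) n, u10_isZ S (hd (x + y)) (hJ (x + y))⟩ =
        (L.res N).cl ⟨fun n : N => d x n, u10_isZ S (hd x) (hJ x)⟩ + (L.res N).cl ⟨fun n : N => d y n, u10_isZ S (hd y) (hJ y)⟩ := by
      rw [← hx, ← hx, ← hx]
      rfl
    rw [← map_add] at h1
    obtain ⟨P, hP⟩ := ((L.res N).cl_eq _ _).1 h1
    exact huniq (d (x + y)) (d x + d y) (hd _) (rc_add S (hd x) (hd y)) P (fun g hg => hP ⟨g, hg⟩) w
  have hbij : Function.Bijective f := by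
    constructor
    · intro x y hxy
      apply Subtype.ext
      rw [hx x, hx y]
      obtain ⟨T₀, -, hT₀⟩ := rc_zero S T (d x - d y) (rc_sub S (hd x) (hd y)) (fun w => by
        rw [Pi.sub_apply, ← hf, ← hf, hxy, sub_self])
      refine ((L.res N).cl_eq _ _).2 ⟨T₀, fun g => ?_⟩
      have h4 := hT₀ g.1 (S.hNH g.2)
      rw [Pi.sub_apply, sub_eq_iff_eq_add] at h4
      rw [L.res_act, add_comm]
      exact h4
    · intro g
      obtain ⟨e, he, hJe, h2⟩ := rc_fun S L.D hE (fun w => (g w : M)) (fun w => (g w).2)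
      let x : pg (L.res N).Sha p := ⟨(L.res N).cl ⟨fun n : N => e n, u10_isZ S he hJe⟩, t, u11_kil S he hJe⟩
      refine ⟨x, ?_⟩
      funext w
      apply Subtype.ext
      rw [hf, ← h2 w]
      have h3 : (L.res N).cl ⟨fun n : N => d x n, u10_isZ S (hd x) (hJ x)⟩ = (L.res N).cl ⟨fun n : N => e n, u10_isZ S he hJe⟩ :=
        (hx x).symm
      obtain ⟨P, hP⟩ := ((L.res N).cl_eq _ _).1 h3
      exact huniq (d x) e (hd x) he P (fun g hg => hP ⟨g, hg⟩) w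
  exact ⟨AddEquiv.ofBijective (AddMonoidHom.mk' f hadd) hbij⟩

end H13V
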