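import Mathlib
import Pool.Agent.Lib.H13V.C8
import Pool.Agent.Lib.H13V.U10
import Pool.Agent.Lib.H13V.KI
import Pool.Agent.Lib.H13T.C11

/-! # H13V, module CE: the index set (TI), the classes with all values, the theorem over F -/

open NumberField IsDedekindDomain WeierstrassCurve

namespace H13V

open H55P (IQ embF eF LF Per IsHecke Pt ac acR Inert Dec Nm Coc PExt UnrP Ram RamF SelZero SelG inS decS Below)
open H35P (WAB Ker tt)
open H55K H55K.TQ
open H55K.S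
open H13S (Abv)
open H13X
open H13R
open H55G (OkM LocOk)
open H13T (IsC Cont Tr RV AnW ce_p ce_val ce_bel ce_below ce_top ce_ne inert_conj abv_unique c5_red c9_hI c11_fin)

open scoped Classical

variable {F : Type} [Field F] [NumberField F] [IQ F] {W₀ : WeierstrassCurve (𝓞 F)} {Om : ℂ}
    {m : Ideal (𝓞 F)} {ψ : Ideal (𝓞 F) →*₀ 𝓞 F} {p n t : ℕ} {M N' N : IntermediateField F (AlgebraicClosure F)}
    [NumberField M] [NumberField N'] [NumberField N] {γ : AlgebraicClosure F ≃ₐ[F] AlgebraicClosure F}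

omit [IQ F] [NumberField M] in
/-- The ramification index is a power of p, at most p^t. -/
theorem eN_pow (c : CycJ p n t M N' N γ) (hp : p.Prime) (w : HeightOneSpectrum (𝓞 N')) : ∃ i ≤ t, eN c.le' w = p ^ i := by
  obtain ⟨V, hV⟩ := H13S.exists_above (Ω := AlgebraicClosure F) N' w
  obtain ⟨τ, h1, -, -, h4, -⟩ := j_ri c hp.pos hV
  obtain ⟨i, u, hu, hτ⟩ := j_gen c τ h1
  have h5 : (γ ^ (p ^ n * i))⁻¹ * τ ∈ N.fixingSubgroup := by
    rw [hτ, ← pow_mul γ, j_pow c, ← pow_mul, inv_mul_cancel_left]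
    exact hu
  have h6 : ∀ k : ℕ, (γ ^ (p ^ n * i * k))⁻¹ * τ ^ k ∈ N.fixingSubgroup := by
    intro k
    induction k with
    | zero =>
      rw [mul_zero, pow_zero, pow_zero, inv_one, one_mul]
      exact one_mem _
    | succ k ih =>
      have h7 : (γ ^ (p ^ n * i * (k + 1)))⁻¹ * τ ^ (k + 1) =
          ((γ ^ (p ^ n * i))⁻¹ * ((γ ^ (p ^ n * i * k))⁻¹ * τ ^ k) * ((γ ^ (p ^ n * i))⁻¹)⁻¹) * ((γ ^ (p ^ n * i))⁻¹ * τ) := by
        have h8 : γ ^ (p ^ n * i * (k + 1)) = γ ^ (p ^ n * i * k) * γ ^ (p ^ n * i) := by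
          rw [mul_add, mul_one, pow_add]
        rw [h8, pow_succ, mul_inv_rev]
        simp only [mul_assoc, inv_inv, mul_inv_cancel_left]
      rw [h7]
      exact mul_mem (((j_iff c _ (inv_mem (Subgroup.pow_mem _ c.gam _))).2 _).2 ih) h5
  have h7 : τ ^ p ^ t ∈ N.fixingSubgroup := by
    have h8 : γ ^ (p ^ n * i * p ^ t) ∈ N.fixingSubgroup := by
      rw [c.ord, pow_add]
      exact ⟨i, by ring⟩
    have h9 : τ ^ p ^ t = γ ^ (p ^ n * i * p ^ t) * ((γ ^ (p ^ n * i * p ^ t))⁻¹ * τ ^ p ^ t) := by group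
    rw [h9]
    exact mul_mem h8 (h6 _)
  obtain ⟨k, hk, hk'⟩ := (Nat.dvd_prime_pow hp).1 ((h4 _).1 h7)
  exact ⟨k, hk, hk'⟩

/-- The exponent of the ramification index. -/
noncomputable def exN (c : CycJ p n t M N' N γ) (w : AnW p W₀ N' N) : ℕ := (eN c.le' w.1).factorization p

omit [IQ F] [NumberField M] in
theorem exN_pow (c : CycJ p n t M N' N γ) (hp : p.Prime) (w : AnW p W₀ N' N) : eN c.le' w.1 = p ^ exN c w ∧ exN c w ≤ t := by
  obtain ⟨i, hi, h⟩ := eN_pow c hp w.1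
  have h1 : exN c w = i := by
    unfold exN
    rw [h, hp.factorization_pow]
    simp
  rw [h1]
  exact ⟨h, hi⟩

/-- p is unramified in N'. -/
theorem j_unr (hp : PrimeH F W₀ p) (c : CycJ p n t M N' N γ) (hU : UnrP p N) : UnrP p N' :=
  H13R.unr_le hp.prime c.le' hU

/-- The index set of the relaxed primes. -/
theorem j_ti (hH : BaseH F W₀ Om m ψ) (hp : PrimeH F W₀ p) (c : CycJ p n t M N' N γ) (hB : OkM p W₀ M) (hU : UnrP p N) :
    ∃ (v : AnW p W₀ N' N → ValuationSubring (AlgebraicClosure F)) (τ : AnW p W₀ N' N → AlgebraicClosure F ≃ₐ[F] AlgebraicClosure F),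
      (∀ w : AnW p W₀ N' N, Abv N' (v w) w.1) ∧
      (∀ w : AnW p W₀ N' N, ∀ a ∈ N', a ≠ 0 → ∃ x ∈ N, (v w).valuation x ^ p ^ exN c w = (v w).valuation a) ∧
      (∀ w : AnW p W₀ N' N, 1 ≤ exN c w) ∧ (∀ w, ∀ s ∈ N'.fixingSubgroup, Inert (v w) s → ∃ k : ℕ, (τ w ^ k)⁻¹ * s ∈ N.fixingSubgroup) ∧
      TI p t (inS F) N.fixingSubgroup N'.fixingSubgroup (RV (W₀⁄F) p N' N) (AnW p W₀ N' N) v τ (exN c) := by
  choose v hv using fun w : AnW p W₀ N' N => H13S.exists_above (Ω := AlgebraicClosure F) N' w.1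
  choose τ h1 h2 h3 h4 h5 using fun w : AnW p W₀ N' N => j_ri c hp.prime.pos (hv w)
  refine ⟨v, τ, hv, fun w a ha ha0 => ?_, fun w => ?_, h3, fun w => (j_rv hH hp c hB hU (hv w)).2 w.2, h1, h2, fun w s hs hi => ?_,
    fun u hu => ?_, fun w => ?_, fun w => (exN_pow c hp.prime w).2⟩
  · obtain ⟨x, hx, hxa⟩ := h5 w a ha ha0
    exact ⟨x, hx, by rw [← (exN_pow c hp.prime w).1, hxa]⟩
  · by_contra h
    have h6 : exN c w = 0 := by omega
    have h7 := (exN_pow c hp.prime w).1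
    rw [h6, pow_zero] at h7
    exact (eN_ne c hp.prime.pos w.1).1 w.2.2.1 h7
  · obtain ⟨k, hk⟩ := h3 w s hs hi
    refine ⟨k, _, hk, ?_, ?_⟩
    · exact mul_mem (inv_mem ((inS F (v w)).pow_mem (h2 w) k)) hi
    · rw [mul_inv_cancel_left]
  · obtain ⟨w, hw⟩ := ce_below (ce_ne hu) N'
    have hwA := (j_rv hH hp c hB hU hw).1 hu
    obtain ⟨h, hh, hhx⟩ := trans_V N' hw (hv ⟨w, hwA⟩)
    refine ⟨⟨w, hwA⟩, h, hh, fun s => ⟨fun hs => ?_, fun hs => ?_⟩⟩
    · have e1 : ∀ x, h⁻¹ x ∈ u ↔ x ∈ v ⟨w, hwA⟩ := fun x => by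
        rw [← hhx]
        have e2 : h (h⁻¹ x) = x := h.apply_symm_apply x
        rw [e2]
      have h4 := inert_conj e1 hs
      rwa [inv_inv] at h4
    · have h4 := inert_conj hhx hs
      have e1 : h⁻¹ * (h * s * h⁻¹) * h = s := by group
      rwa [e1] at h4
  · show τ w ^ p ^ exN c w ∈ N.fixingSubgroup
    rw [h4, (exN_pow c hp.prime w).1]

/-- The classes. -/
theorem j_cls (hH : BaseH F W₀ Om m ψ) (hp : PrimeH F W₀ p) (c : CycJ p n t M N' N γ) (hB : OkM p W₀ M) (hU : UnrP p N)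
    (hS : SelG p W₀ N') (few : (AnW p W₀ N' N).ncard < p ^ (n + 1 - t)) {v : AnW p W₀ N' N → ValuationSubring (AlgebraicClosure F)}
    {τ : AnW p W₀ N' N → AlgebraicClosure F ≃ₐ[F] AlgebraicClosure F} (hv : ∀ w : AnW p W₀ N' N, Abv N' (v w) w.1)
    (hram : ∀ w : AnW p W₀ N' N, ∀ a ∈ N', a ≠ 0 → ∃ x ∈ N, (v w).valuation x ^ p ^ exN c w = (v w).valuation a)
    (hpos : ∀ w : AnW p W₀ N' N, 1 ≤ exN c w)
    (hgen : ∀ w, ∀ s ∈ N'.fixingSubgroup, Inert (v w) s → ∃ k : ℕ, (τ w ^ k)⁻¹ * s ∈ N.fixingSubgroup)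
    (hTI : TI p t (inS F) N.fixingSubgroup N'.fixingSubgroup (RV (W₀⁄F) p N' N) (AnW p W₀ N' N) v τ (exN c)) (w : AnW p W₀ N' N)
    (T : Pt (W₀⁄F) (AlgebraicClosure F)) (hT : p ^ exN c w • T = 0) :
    ∃ d : (AlgebraicClosure F ≃ₐ[F] AlgebraicClosure F) → Pt (W₀⁄F) (AlgebraicClosure F),
      RC (SSG.galS (W₀⁄F) (AlgebraicClosure F)).act p t (SSG.galS (W₀⁄F) (AlgebraicClosure F)).U (inS F) N.fixingSubgroup
        N'.fixingSubgroup (RV (W₀⁄F) p N' N) d ∧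
      (∀ J ∈ (SSG.galS (W₀⁄F) (AlgebraicClosure F)).D, Tr (SSG.galS (W₀⁄F) (AlgebraicClosure F)).act N.fixingSubgroup J d) ∧
      d (τ w) = T ∧ ∀ w' : AnW p W₀ N' N, w' ≠ w → d (τ w') = 0 := by
  obtain ⟨hMN, -, hx⟩ := j_pext hp.prime.pos c
  have hfin : FiniteDimensional F N := c.fin
  have hfin' : FiniteDimensional F N' := H55P.finDim_of_le c.le'
  obtain ⟨A, B, j, act, hA, hB', dta⟩ := SSG.exists_dtaAB hH hp
  obtain ⟨Θ, hΘ⟩ := SSG.short_iso W₀ hA hB' hH.data.ell (Ω := AlgebraicClosure F)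
  obtain ⟨π, hπ, hπp⟩ := exists_prime_above (F := F) hp.prime
  have D : Dat A B Om j act m ψ π p := ⟨dta, hπ, hπp⟩
  have hUN' := j_unr hp c hU
  have hΘ' : ∀ (s : AlgebraicClosure F ≃ₐ[F] AlgebraicClosure F) (P : Pt (WAB A B) (AlgebraicClosure F)),
      Θ.symm (ac (WAB A B) s P) = ac (W₀⁄F) s (Θ.symm P) := fun s P => by
    apply Θ.injective
    rw [hΘ, Θ.apply_symm_apply, Θ.apply_symm_apply]
  have hS' : SelZero (WAB A B) p N' := y6_transport p N' Θ.symm hΘ' hS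
  have hfxW : ∀ V : ValuationSubring (AlgebraicClosure F), RV (W₀⁄F) p N' N V → ∀ s, DecN N' V s →
      ∀ T : Pt (WAB A B) (AlgebraicClosure F), p ^ t • T = 0 → ac (WAB A B) s T = T := by
    intro V hV s hs T hT
    apply Θ.symm.injective
    rw [hΘ']
    exact j_fix hH hp c hU hB hS (j_fin c) few hV s hs.1 hs.2 _ (by rw [← map_nsmul, hT, map_zero])
  have hRV : ∀ V : ValuationSubring (AlgebraicClosure F), Abv N' V w.1 → RV (W₀⁄F) p N' N V := fun V hV =>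
    (j_rv hH hp c hB hU hV).2 w.2
  obtain ⟨d, hd, hdτ⟩ := kum_two D (hpos w) (exN_pow c hp.prime w).2 (N := N') (N' := N) (nb_ofR hp.prime hp.unr hUN') hfin hUN' c.le'
    hx.norm (j_p hp c hU w.2) (fun V hV s hs S hS => hfxW V (hRV V hV) s hs S hS) hS' (hv w) (hTI.mem w) (hTI.ine w) (hgen w)
    (hTI.ord w) (hram w) (T := Θ T) (by rw [← map_nsmul, hT, map_zero])
  refine ⟨fun s => Θ.symm (d s), ⟨fun s hs t ht => ?_, ?_, fun s hs => ?_, fun V hV => ?_, fun V hV s hs hi => ?_⟩, fun J hJ => ?_,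
    ?_, fun w' hw' => ?_⟩
  · show Θ.symm (d (s * t)) = Θ.symm (d s) + ac (W₀⁄F) s (Θ.symm (d t))
    rw [hd.coc.mul s hs t ht, map_add, hΘ']
  · obtain ⟨L, hL, hdL⟩ := hd.coc.cont
    refine ⟨L.fixingSubgroup, ⟨L, hL, rfl⟩, fun s hs hsL => ?_⟩
    show Θ.symm (d s) = 0
    rw [hdL s hs hsL, map_zero]
  · show p ^ t • Θ.symm (d s) = 0
    rw [← map_nsmul, hd.tor s hs, map_zero]
  · by_cases hne : V = ⊤
    · refine ⟨0, fun s hs hi => ?_⟩
      have hi' : Inert V s := hi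
      rw [hne] at hi'
      rw [map_zero, sub_zero, ce_top hi']
      show Θ.symm (d 1) = 0
      obtain ⟨L, hL, hdL⟩ := hd.coc.cont
      rw [hdL 1 (one_mem _) (one_mem _), map_zero]
    · obtain ⟨P, hP⟩ := hd.loc V hne (by
        rintro w' rfl hVw
        exact hV (hRV V hVw))
      refine ⟨Θ.symm P, fun s hs hi => ?_⟩
      show Θ.symm (d s) = ac (W₀⁄F) s (Θ.symm P) - Θ.symm P
      rw [hP s hs (H55P.inert_dec V s hi), map_sub, hΘ']
  · have hs' : s ∈ N'.fixingSubgroup := IntermediateField.fixingSubgroup_antitone c.le' hs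
    have hi' : Inert V s := hi
    obtain ⟨w', hw'⟩ := ce_below (ce_ne hV) N'
    have hwA := (j_rv hH hp c hB hU hw').1 hV
    have hVp : V.valuation (p : AlgebraicClosure F) = 1 := by
      obtain ⟨⟨t, -, ht2, ht3⟩, -⟩ := hV
      exact ce_p hp hU ht2 ht3
    show Θ.symm (d s) = 0
    by_cases hww : w' = w.1
    · obtain ⟨P, hP⟩ := hd.loc' V (ce_ne hV)
      have h1 := hP s hs (H55P.inert_dec V s hi')
      have h2 : ac (W₀⁄F) s (Θ.symm P) = Θ.symm P := by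
        refine c5_red hH hp hwA.1 (j_p hp c hU hwA) (ce_bel hw') s hi' t (Θ.symm P) ?_
        rw [← hΘ', ← map_sub, ← map_nsmul, ← h1, hd.tor s hs', map_zero]
      rw [h1, map_sub, hΘ', h2, sub_self]
    · rw [hd.out V (by
        rintro v' rfl hv'
        exact hww (abv_unique hw' hv')) hVp s hs' hi' (fun S hS =>
          hfxW V hV s ⟨hs', H55P.inert_dec V s hi'⟩ S hS), map_zero]
  · obtain ⟨V, hV, rfl⟩ := hJ
    obtain ⟨P, hP⟩ := hd.loc' V hV
    refine ⟨Θ.symm P, fun s hs hi => ?_⟩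
    show Θ.symm (d s) = ac (W₀⁄F) s (Θ.symm P) - Θ.symm P
    rw [hP s hs hi, map_sub, hΘ']
  · show Θ.symm (d (τ w)) = T
    rw [hdτ, Θ.symm_apply_apply]
  · have hRw : RV (W₀⁄F) p N' N (v w') := hTI.rel w'
    have hVp : (v w').valuation (p : AlgebraicClosure F) = 1 := by
      obtain ⟨⟨t, -, ht2, ht3⟩, -⟩ := hRw
      exact ce_p hp hU ht2 ht3
    show Θ.symm (d (τ w')) = 0
    rw [hd.out (v w') (by
        rintro v' hv1 hv'
        apply hw'
        apply Subtype.ext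
        rw [abv_unique (hv w') hv']
        exact hv1) hVp (τ w') (hTI.mem w') (hTI.ine w') (fun S hS =>
          hfxW (v w') hRw (τ w') ⟨hTI.mem w', H55P.inert_dec (v w') (τ w') (hTI.ine w')⟩ S hS), map_zero]

open SSG in
/-- THE THEOREM OVER F: the structure of the p-primary part of the Tate-Shafarevich group over N, the points. -/
theorem shaT_F (hH : BaseH F W₀ Om m ψ) (hp : PrimeH F W₀ p)
    (c : CycJ p n t M N' N γ) (hU : UnrP p N) (hB : OkM p W₀ M) (hS : SelG p W₀ N') (few : (AnW p W₀ N' N).ncard < p ^ (n + 1 - t)) :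
    Nonempty (pg ((galS (W₀⁄F) (AlgebraicClosure F)).res N.fixingSubgroup).Sha p ≃+
        ((w : AnW p W₀ N' N) → tk (Pt (W₀⁄F) (AlgebraicClosure F)) p (exN c w))) ∧
      {P : Pt (W₀⁄F) (AlgebraicClosure F) | ∀ s ∈ N.fixingSubgroup, ac (W₀⁄F) s P = P}.Finite ∧
      ∀ P : Pt (W₀⁄F) (AlgebraicClosure F), (∀ s ∈ N.fixingSubgroup, ac (W₀⁄F) s P = P) → p • P = 0 → P = 0 := by
  obtain ⟨v, τ, hv, hram, hpos, hgen, hT⟩ := j_ti hH hp c hB hU
  have S := j_ts hH hp c hU hB hS few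
  have hfin : Finite (AnW p W₀ N' N) := j_fin c
  have hell : (W₀⁄F).IsElliptic := H55P.gen_ell W₀ hH.data.ell
  have hfd : FiniteDimensional F N := c.fin
  refine ⟨ts_iso S hT (c9_hI (W₀⁄F)) fun w T hT' => j_cls hH hp c hB hU hS few hv hram hpos hgen hT w T hT', ?_,
    fun P h3 h4 => S.h0 P h4 h3⟩
  refine c11_fin (W₀⁄F) p hp.prime N fun P hP => ?_
  obtain ⟨Q, hQ, hQ'⟩ := pts_div S P hP
  exact ⟨Q, hQ, hQ'⟩

end H13V
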