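import Mathlib
import Pool.Agent.Lib.H13T.Stm
import Pool.Agent.Lib.H55G.D0

/-! # H13V: statement of the theorem on the structure of Tate-Shafarevich groups in cyclic extensions (MP_f50388_nt, theorem (T)) -/

open NumberField IsDedekindDomain WeierstrassCurve

namespace H13V

open H55P (IQ)
open H55K.TQ
open H13T (AnR emb)

/-- M ⊆ K' ⊆ K, K/M is Galois with cyclic group of order p^(n+t) and K' is the subfield of degree p^n. -/
structure CycT (p n t : ℕ) (M K' K : Type) [Field M] [Field K'] [Field K] [Algebra M K'] [Algebra K' K] [Algebra M K] : Prop where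
  tow : IsScalarTower M K' K
  gal : IsGalois M K
  cyc : IsCyclic (K ≃ₐ[M] K)
  deg : Module.finrank M K = p ^ (n + t)
  sub : Module.finrank M K' = p ^ n

/-- The ramification index in the Galois extension K of K' of the prime w of K'. -/
noncomputable def eK (K : Type) [Field K] [NumberField K] {K' : Type} [Field K'] [NumberField K'] [Algebra K' K]
    (w : HeightOneSpectrum (𝓞 K')) : ℕ :=
  w.asIdeal.ramificationIdxIn (𝓞 K)

/-- The p-primary part of the Tate-Shafarevich group of W over K. -/
noncomputable def ShaG (p : ℕ) (K : Type) [Field K] [NumberField K] (W : WeierstrassCurve K) :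
    AddSubgroup (H16C.Sha W.toAffine (AlgebraicClosure K)) where
  carrier := {z | ∃ k : ℕ, (p ^ k : ℕ) • z = 0}
  zero_mem' := ⟨0, smul_zero _⟩
  add_mem' := by
    rintro a b ⟨k, hk⟩ ⟨m, hm⟩
    refine ⟨k + m, ?_⟩
    have h1 : (p ^ (k + m)) • a = 0 := by rw [pow_add, mul_comm, mul_smul, hk, smul_zero]
    have h2 : (p ^ (k + m)) • b = 0 := by rw [pow_add, mul_smul, hm, smul_zero]
    rw [smul_add, h1, h2, add_zero]
  neg_mem' := by
    rintro a ⟨k, hk⟩
    exact ⟨k, by rw [smul_neg, hk, neg_zero]⟩

/-- The hypotheses of the theorem: 1 ≤ t ≤ n; p is unramified in K; p does not divide the number of points of the reduction of the minimal model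
of W at the primes of FM which divide the discriminant of W and at which W has good reduction; over K' the p-part of the conjecture is trivial
(BSDPG: the p-Selmer group and the p-torsion of the Tate-Shafarevich group are zero, the group of points is finite of order prime to p, L(W/K', 1)
is not zero and its algebraic part is a p-adic unit); the number of the primes in AnR is less than p^(n+1-t)/2. -/
structure HypT (F : Type) [Field F] [NumberField F] [IQ F] (p n t : ℕ) (W : WeierstrassCurve ℤ) (M K' K : Type) [Field M] [NumberField M]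
    [Field K'] [NumberField K'] [Field K] [NumberField K] [Algebra M K'] [Algebra K' K] [Algebra M K] (ιK : K →ₐ[ℚ] AlgebraicClosure F) :
    Prop where
  pos : 1 ≤ t
  le : t ≤ n
  cyc : CycT p n t M K' K
  unr : H55P.UnrP p K
  ok : H55G.OkM p (W⁄(𝓞 F)) (KG F M (emb ιK : M →ₐ[ℚ] AlgebraicClosure F))
  unit : BSDPG p W K'
  few : 2 * (AnR p W K' K).ncard < p ^ (n + 1 - t)

open Classical in
/-- The conclusions over K: the group of points is finite of order prime to p; the p-primary part of the Tate-Shafarevich group is isomorphic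
to the product over the primes w in AnR of (ℤ/e)^2, e the ramification index of w; the L-series of W over K (Mathlib: WeierstrassCurve.LSeries)
converges absolutely for Re s > 3/2, continues to Re s > 1/2, does not vanish at 1, and the analytic order of the Tate-Shafarevich group has the
valuation of the order of the p-primary part of the Tate-Shafarevich group, for all valuations above p. -/
structure AtKT (p : ℕ) (W : WeierstrassCurve ℤ) (K' K : Type) [Field K'] [NumberField K'] [Field K] [NumberField K] [Algebra K' K] :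
    Prop where
  pts : Finite (W⁄K).toAffine.Point ∧ ¬ p ∣ Nat.card (W⁄K).toAffine.Point
  sha : Nonempty (ShaG p K (W⁄K) ≃+ ((w : AnR p W K' K) → ZMod (eK K w.1) × ZMod (eK K w.1)))
  per : ∃ L : PeriodPair, PerZ W L
  bsd : ∃ Λ : ℂ → ℂ, AnalyticOnNhd ℂ Λ {s | 1 / 2 < s.re} ∧
    (∀ s : ℂ, 3 / 2 < s.re →
      LSeriesSummable (fun n => (((W⁄K).LFunction n : ℤ) : ℂ)) s ∧ Λ s = (W⁄K).LSeries s) ∧
    Λ 1 ≠ 0 ∧
    ∀ L : PeriodPair, PerZ W L → ∀ V : ValuationSubring ℂ, V.valuation (p : ℂ) < 1 →
      V.valuation (shaG K W L (Λ 1)) = V.valuation ((Nat.card (ShaG p K (W⁄K)) : ℕ) : ℂ)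

/-- The theorem. -/
def ShaThmT (F : Type) [Field F] [NumberField F] [IQ F] (p : ℕ) (W : WeierstrassCurve ℤ) : Prop :=
  ∀ (M K' K : Type) [Field M] [NumberField M] [Field K'] [NumberField K'] [Field K] [NumberField K] [Algebra M K'] [Algebra K' K]
    [Algebra M K] (ιK : K →ₐ[ℚ] AlgebraicClosure F) (n t : ℕ), HypT F p n t W M K' K ιK → AtKT p W K' K

/-- For every finite p-group H, all R₀ and t ≥ 1 the theorem applies to a Galois extension K/F of p-power degree with H contained in Gal(K/F),
with at least R₀ primes in AnR, which all have ramification index p^t: the p-primary part of the Tate-Shafarevich group over K is (ℤ/p^t)^(2r),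
r ≥ R₀. -/
def ExistT (F : Type) [Field F] [NumberField F] [IQ F] (p : ℕ) (W : WeierstrassCurve ℤ) : Prop :=
  ∀ (H : Type) [Group H] [Finite H] (k : ℕ), Nat.card H = p ^ k → ∀ (R₀ t : ℕ), 1 ≤ t →
    ∃ (M K' K : Type) (_ : Field M) (_ : NumberField M) (_ : Field K') (_ : NumberField K') (_ : Field K) (_ : NumberField K)
      (_ : Algebra M K') (_ : Algebra K' K) (_ : Algebra M K) (_ : Algebra F K) (n : ℕ),
      IsGalois F K ∧ (∃ r : ℕ, Module.finrank F K = p ^ r) ∧ (∃ φ : H →* (K ≃ₐ[F] K), Function.Injective φ) ∧
      (∀ ιK : K →ₐ[ℚ] AlgebraicClosure F, HypT F p n t W M K' K ιK) ∧ R₀ ≤ (AnR p W K' K).ncard ∧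
      ∀ w ∈ AnR p W K' K, eK K w = p ^ t

/-- For every finite abelian p-group A the theorem applies to a cyclic extension K/F of p-power degree such that the product of the groups ℤ/e
over the primes in AnR is isomorphic to A: the p-primary part of the Tate-Shafarevich group over K is isomorphic to A × A. -/
def ExistA (F : Type) [Field F] [NumberField F] [IQ F] (p : ℕ) (W : WeierstrassCurve ℤ) : Prop :=
  ∀ (A : Type) [AddCommGroup A] [Finite A] (k : ℕ), Nat.card A = p ^ k →
    ∃ (K' K : Type) (_ : Field K') (_ : NumberField K') (_ : Field K) (_ : NumberField K) (_ : Algebra F K') (_ : Algebra K' K)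
      (_ : Algebra F K) (n t : ℕ),
      (∀ ιK : K →ₐ[ℚ] AlgebraicClosure F, HypT F p n t W F K' K ιK) ∧
      Nonempty (((w : AnR p W K' K) → ZMod (eK K w.1)) ≃+ A)

end H13V
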