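import Mathlib
import Pool.Agent.Lib.H13V.Stm

/-! # H13V: statement of theorem (T+) on the structure of Tate-Shafarevich groups in cyclic extensions (MP_f50388_nt) -/

open NumberField IsDedekindDomain WeierstrassCurve

namespace H13V

open H55P (IQ)
open H55K.TQ
open H13T (AnR emb)

/-- The hypotheses of the theorem: 1 ≤ n, 1 ≤ t; p is unramified in K; p does not divide the number of points of the reduction of the minimal model
of W at the primes of FM which divide the discriminant of W and at which W has good reduction; over K' the p-part of the conjecture is trivial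
(BSDPG: the p-Selmer group and the p-torsion of the Tate-Shafarevich group are zero, the group of points is finite of order prime to p, L(W/K', 1)
is not zero and its algebraic part is a p-adic unit); for the primes w in AnR (w does not divide the discriminant, is ramified in K, p divides the
number of points of W over the residue field of w): the residue field of w is larger than the residue field of M at the prime below w, and the
square of the ramification index of w divides the number of points of W over the residue field of w. -/
structure HypP (F : Type) [Field F] [NumberField F] [IQ F] (p n t : ℕ) (W : WeierstrassCurve ℤ) (M K' K : Type) [Field M] [NumberField M]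
    [Field K'] [NumberField K'] [Field K] [NumberField K] [Algebra M K'] [Algebra K' K] [Algebra M K] (ιK : K →ₐ[ℚ] AlgebraicClosure F) :
    Prop where
  posn : 1 ≤ n
  pos : 1 ≤ t
  cyc : CycT p n t M K' K
  unr : H55P.UnrP p K
  ok : H55G.OkM p (W⁄(𝓞 F)) (KG F M (emb ιK : M →ₐ[ℚ] AlgebraicClosure F))
  unit : BSDPG p W K'
  nsp : ∀ w ∈ AnR p W K' K, Ideal.absNorm (w.asIdeal.under (𝓞 M)) ≠ Ideal.absNorm w.asIdeal
  ful : ∀ w ∈ AnR p W K' K, eK K w ^ 2 ∣ Nat.card (W⁄(𝓞 K' ⧸ w.asIdeal)).toAffine.Point

/-- Theorem (T+). -/
def ShaThmP (F : Type) [Field F] [NumberField F] [IQ F] (p : ℕ) (W : WeierstrassCurve ℤ) : Prop :=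
  ∀ (M K' K : Type) [Field M] [NumberField M] [Field K'] [NumberField K'] [Field K] [NumberField K] [Algebra M K'] [Algebra K' K]
    [Algebra M K] (ιK : K →ₐ[ℚ] AlgebraicClosure F) (n t : ℕ), HypP F p n t W M K' K ιK → AtKT p W K' K

end H13V
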